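import Pool.Agent.SpC75.Zig

/-!
# SpC75/GoodB (MP_9fc547_co)

The zigzag labeling with two large labels at every root with at least three legs (at legs of even
length if possible) is good if `2 m ≤ 3 k + 5`.
-/

namespace Pool.SpC75

open Finset Pool.SpA

lemma exists_high {N : ℕ} (n : Fin N → ℕ) (S : Finset (Fin N)) :
    ∃ H, H ⊆ S ∧ H.card = min S.card 2 ∧
      ((∀ i ∈ H, n i % 2 = 0) ∨ (∀ i ∈ S, i ∉ H → n i % 2 = 1)) := by
  by_cases h : min S.card 2 ≤ (S.filter fun i => n i % 2 = 0).card
  · obtain ⟨H, hH, hc⟩ := Finset.exists_subset_card_eq h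
    exact ⟨H, hH.trans (filter_subset _ _), hc, Or.inl fun i hi => (mem_filter.1 (hH hi)).2⟩
  · push Not at h
    obtain ⟨H, h1, h2, hc⟩ := Finset.exists_subsuperset_card_eq (filter_subset _ S) h.le
      (min_le_left _ _)
    exact ⟨H, h2, hc, Or.inr fun i hi hiH => by
      by_contra hodd
      exact hiH (h1 (mem_filter.2 ⟨hi, by omega⟩))⟩

lemma rs_ge {N : ℕ} {α : Type*} [DecidableEq α] (n ord ty : Fin N → ℕ) (cen : Fin N → α)
    (k : ℤ) (hty : ∀ i, ty i ≤ 1) (hpos : ∀ i, 1 ≤ n i) (j : Fin N) :
    (dg cen j : ℤ) * (k + 1) + (bb cen ty j : ℤ) * LL n ty ≤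
      rs cen (fun i t => k + zo n ord ty i t) (cen j) := by
  have hsum : ∑ a ∈ univ.filter (fun a => cen a = cen j),
      ((k + 1) + if ty a = 0 then (LL n ty : ℤ) else 0) =
        dg cen j * (k + 1) + bb cen ty j * LL n ty := by
    rw [sum_add_distrib, sum_const, ← sum_filter, sum_const, filter_filter, nsmul_eq_mul,
      nsmul_eq_mul]
    rfl
  rw [← hsum]
  unfold rs
  apply sum_le_sum
  intro a ha
  show _ ≤ k + (zo n ord ty a 0 : ℤ)
  by_cases hta : ty a = 0
  · rw [if_pos hta]
    have k1 := zo_high (ord := ord) hty (hpos a) (by rw [hta] : (0 + ty a) % 2 = 0)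
    omega
  · rw [if_neg hta]
    have k1 := zo_pos (ord := ord) hty (hpos a)
    omega

lemma dg_three {N : ℕ} {α : Type*} [DecidableEq α] (cen : Fin N → α)
    (htwo : ∀ i j, i ≠ j → cen i = cen j → ∃ l, l ≠ i ∧ l ≠ j ∧ cen l = cen i) (j : Fin N)
    (h : ∃ j', j' ≠ j ∧ cen j' = cen j) : 3 ≤ dg cen j := by
  obtain ⟨j', hj', hc⟩ := h
  obtain ⟨l, hl1, hl2, hl3⟩ := htwo j j' hj'.symm hc.symm
  unfold dg
  have h1 : ({j, j', l} : Finset (Fin N)) ⊆ univ.filter fun a => cen a = cen j := by
    intro x hx
    simp only [mem_insert, mem_singleton] at hx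
    rw [mem_filter]
    refine ⟨mem_univ _, ?_⟩
    rcases hx with rfl | rfl | rfl
    · rfl
    · exact hc
    · exact hl3
  have h2 := card_le_card h1
  rw [card_insert_of_notMem (by
    simp only [mem_insert, mem_singleton, not_or]
    exact ⟨hj'.symm, hl1.symm⟩), card_insert_of_notMem (by
    simp only [mem_singleton]
    exact hl2.symm), card_singleton] at h2
  omega

theorem good_B {N : ℕ} {α : Type*} [DecidableEq α] (n : Fin N → ℕ) (cen : Fin N → α) (k : ℤ)
    (hpos : ∀ i, 1 ≤ n i) (hone : ∀ i, n i = 1 → ∃ j, j ≠ i ∧ cen j = cen i)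
    (htwo : ∀ i j, i ≠ j → cen i = cen j → ∃ l, l ≠ i ∧ l ≠ j ∧ cen l = cen i)
    (hk0 : 0 ≤ k) (hk : 2 * ((∑ i, n i : ℕ) : ℤ) ≤ 3 * k + 5) :
    ∃ f, Good n cen k f := by
  choose Hs hH1 hH2 hH3 using fun c : α => exists_high n (univ.filter fun i => cen i = c)
  set ty : Fin N → ℕ := fun i => if i ∈ Hs (cen i) then 0 else 1 with hty0
  have hty : ∀ i, ty i ≤ 1 := by
    intro i
    rw [hty0]
    dsimp only
    split_ifs <;> omega
  have hty1 : ∀ i, ty i = 0 ↔ i ∈ Hs (cen i) := by
    intro i
    rw [hty0]
    dsimp only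
    split_ifs with h
    · exact ⟨fun _ => h, fun _ => rfl⟩
    · exact ⟨fun h' => absurd h' (by norm_num), fun h' => absurd h' h⟩
  have hmem : ∀ c j, j ∈ Hs c → cen j = c := fun c j hj => (mem_filter.1 (hH1 c hj)).2
  have hbb : ∀ i, bb cen ty i = min (dg cen i) 2 := by
    intro i
    unfold bb dg
    rw [← hH2 (cen i)]
    congr 1
    ext j
    rw [mem_filter, hty1]
    constructor
    · rintro ⟨_, h1, h2⟩
      rwa [h1] at h2
    · intro h
      have h1 := hmem _ _ h
      exact ⟨mem_univ _, h1, by rwa [h1]⟩
  -- the number of small labels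
  have hLL : (∑ i, n i : ℕ) ≤ 3 * (LL n ty : ℤ) := by
    have hg : ∀ c ∈ (univ : Finset (Fin N)).image cen,
        (0 : ℤ) ≤ ∑ i ∈ univ.filter (fun i => cen i = c), (3 * (lc n ty i : ℤ) - n i) := by
      intro c hc
      obtain ⟨l, _, rfl⟩ := mem_image.1 hc
      have g0 : ∀ i, 2 ≤ n i → (0 : ℤ) ≤ 3 * (lc n ty i : ℤ) - n i := by
        intro i hi
        have := hty i
        unfold lc
        omega
      have g1 : ∀ i, ty i ≠ 0 → (0 : ℤ) ≤ 3 * (lc n ty i : ℤ) - n i := by
        intro i hi
        have := hty i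
        have := hpos i
        unfold lc
        omega
      have g2 : ∀ i, ty i ≠ 0 → n i % 2 = 1 → (2 : ℤ) ≤ 3 * (lc n ty i : ℤ) - n i := by
        intro i hi h2
        have := hty i
        unfold lc
        omega
      have g3 : ∀ i, (-1 : ℤ) ≤ 3 * (lc n ty i : ℤ) - n i := by
        intro i
        have := hty i
        unfold lc
        omega
      by_cases hex : ∃ j', j' ≠ l ∧ cen j' = cen l
      · have h3 := dg_three cen htwo l hex
        rcases hH3 (cen l) with h4 | h4
        · apply sum_nonneg
          intro i hi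
          have hi' : cen i = cen l := (mem_filter.1 hi).2
          by_cases h5 : ty i = 0
          · apply g0
            rw [hty1, hi'] at h5
            have := h4 i h5
            have := hpos i
            omega
          · exact g1 i h5
        · rw [← sum_sdiff (hH1 (cen l))]
          have k1 : (Hs (cen l)).card • (-1 : ℤ) ≤
              ∑ i ∈ Hs (cen l), (3 * (lc n ty i : ℤ) - n i) :=
            card_nsmul_le_sum _ _ _ fun i _ => g3 i
          have k2 : ((univ.filter fun i => cen i = cen l) \ Hs (cen l)).card • (2 : ℤ) ≤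
              ∑ i ∈ (univ.filter fun i => cen i = cen l) \ Hs (cen l),
                (3 * (lc n ty i : ℤ) - n i) := by
            apply card_nsmul_le_sum
            intro i hi
            rw [mem_sdiff] at hi
            have hi' : cen i = cen l := (mem_filter.1 hi.1).2
            refine g2 i ?_ (h4 i hi.1 hi.2)
            rw [Ne, hty1, hi']
            exact hi.2
          have k3 := card_sdiff_add_card_eq_card (hH1 (cen l))
          have k4 := hH2 (cen l)
          have k5 : (univ.filter fun i => cen i = cen l).card = dg cen l := rfl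
          rw [nsmul_eq_mul] at k1 k2
          rw [k5] at k3 k4
          rw [min_eq_right (by omega)] at k4
          have k6 : 1 ≤ ((univ.filter fun i => cen i = cen l) \ Hs (cen l)).card := by omega
          have k7 : (1 : ℤ) ≤ (((univ.filter fun i => cen i = cen l) \ Hs (cen l)).card : ℤ) := by
            exact_mod_cast k6
          rw [k4] at k1
          push_cast at k1
          linarith
      · push Not at hex
        apply sum_nonneg
        intro i hi
        have hi' : cen i = cen l := (mem_filter.1 hi).2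
        have hil : i = l := by
          by_contra hne
          exact hex i hne hi'
        subst hil
        apply g0
        have h1 := hpos i
        by_contra h2
        obtain ⟨j, hj, hj'⟩ := hone i (by omega)
        exact hex j hj hj'
    have h1 := sum_nonneg hg
    rw [sum_fiberwise_of_maps_to (fun i _ => mem_image_of_mem cen (mem_univ i)),
      sum_sub_distrib, ← mul_sum] at h1
    unfold LL
    push_cast
    linarith
  refine ⟨fun i t => k + zo n (lam cen) ty i t, good_zig n (lam cen) ty cen k
    (fun i j h => lam_inj cen h) hty hone hpos (by omega) ?_ ?_ ?_⟩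
  · intro j s hs _
    have := zo_le (ord := lam cen) hty hs
    omega
  · intro i j hc hlt
    apply root_lt n (lam cen) ty cen k hty hpos (by omega) i j
    · intro i' j' hi' hj'
      exact lam_block cen hi' hj' hc hlt
    · exact dg_le cen hc hlt
    · rw [hbb, hbb]
      have := dg_le cen hc hlt
      omega
  · intro j hex
    have h1 := rs_ge n (lam cen) ty cen k hty hpos j
    have h2 := dg_three cen htwo j hex
    rw [hbb, min_eq_right (by omega)] at h1
    have h3 : (3 : ℤ) * (k + 1) ≤ dg cen j * (k + 1) :=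
      mul_le_mul_of_nonneg_right (by exact_mod_cast h2) (by omega)
    push_cast at h1
    omega

end Pool.SpC75
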