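import Mathlib

/-!
# SpC75/GreedyOrd (MP_9fc547_co)

Greedy order of the special legs: always take the leg whose root sum would be smallest.
-/

namespace Pool.SpC75

open Finset

/-- the value of the leg `i` in the order `ρ` -/
def gval {N : ℕ} (S : Finset (Fin N)) (b : Fin N → ℤ) (H : Fin N → Prop) [DecidablePred H]
    (h l : Fin N → ℕ) (α β : ℤ) (ρ : Fin N → ℕ) (i : Fin N) : ℤ :=
  b i + if H i then α + ∑ j ∈ S.filter (fun j => ρ j < ρ i), (h j : ℤ)
    else β + ∑ j ∈ S.filter (fun j => ρ j < ρ i), (l j : ℤ)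

theorem greedy_ord {N : ℕ} (b : Fin N → ℤ) (H : Fin N → Prop) [DecidablePred H]
    (h l : Fin N → ℕ) (hl : ∀ i, 1 ≤ l i) (hh : ∀ i, H i → 1 ≤ h i) :
    ∀ (m : ℕ) (S : Finset (Fin N)) (α β low : ℤ), S.card = m →
      (∀ i ∈ S, low < b i + if H i then α else β) →
      ∃ ρ : Fin N → ℕ, (∀ i ∈ S, ∀ j ∈ S, ρ i = ρ j → i = j) ∧
        (∀ i ∈ S, low < gval S b H h l α β ρ i) ∧
        (∀ i ∈ S, ∀ j ∈ S, ρ i < ρ j → gval S b H h l α β ρ i < gval S b H h l α β ρ j) := by
  intro m
  induction m with
  | zero =>
    intro S α β low hS _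
    rw [card_eq_zero] at hS
    subst hS
    exact ⟨fun _ => 0, by simp, by simp, by simp⟩
  | succ m ih =>
    intro S α β low hS hlow
    have hne : S.Nonempty := by
      rw [← card_pos]
      omega
    -- the element with the smallest value; among equals one with `H`
    obtain ⟨i1, hi1, hmin1⟩ := exists_min_image S (fun i => b i + if H i then α else β) hne
    have hi0 : ∃ i0 ∈ S, (∀ j ∈ S, (b i0 + if H i0 then α else β) ≤ (b j + if H j then α else β)) ∧
        (¬ H i0 → ∀ j ∈ S, H j → (b i0 + if H i0 then α else β) < (b j + if H j then α else β)) := by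
      by_cases hex : ∃ j ∈ S, H j ∧ (b j + if H j then α else β) = b i1 + if H i1 then α else β
      · obtain ⟨j, hj, hHj, hjv⟩ := hex
        refine ⟨j, hj, fun x hx => ?_, fun hn => absurd hHj hn⟩
        rw [hjv]
        exact hmin1 x hx
      · push Not at hex
        refine ⟨i1, hi1, hmin1, fun _ j hj hHj => ?_⟩
        exact lt_of_le_of_ne (hmin1 j hj) (fun hh => hex j hj hHj hh.symm)
    obtain ⟨i0, hi0S, hmin, htie⟩ := hi0
    set v0 : ℤ := b i0 + if H i0 then α else β with hv0
    have hnext : ∀ j ∈ S.erase i0, v0 < b j + if H j then α + h i0 else β + l i0 := by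
      intro j hj
      have hjS := mem_of_mem_erase hj
      have h1 := hmin j hjS
      have h2 := hl i0
      by_cases hHj : H j
      · rw [if_pos hHj] at h1 ⊢
        by_cases hHi : H i0
        · have h3 := hh i0 hHi
          omega
        · have h3 := htie hHi j hjS hHj
          rw [if_pos hHj] at h3
          omega
      · rw [if_neg hHj] at h1 ⊢
        omega
    obtain ⟨ρ, hρ1, hρ2, hρ3⟩ := ih (S.erase i0) (α + h i0) (β + l i0) v0
      (by rw [card_erase_of_mem hi0S]; omega) hnext
    set ρ' : Fin N → ℕ := fun i => if i = i0 then 0 else ρ i + 1 with hρ'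
    have hρi : ρ' i0 = 0 := by
      rw [hρ']
      simp
    have hρj : ∀ j, j ≠ i0 → ρ' j = ρ j + 1 := by
      intro j hj
      rw [hρ']
      simp [hj]
    have hfilt : ∀ j ∈ S, j ≠ i0 → S.filter (fun x => ρ' x < ρ' j) =
        insert i0 ((S.erase i0).filter (fun x => ρ x < ρ j)) := by
      intro j hj hne
      ext x
      rw [mem_filter, mem_insert, mem_filter, mem_erase]
      by_cases hx : x = i0
      · subst hx
        rw [hρi, hρj j hne]
        simp [hi0S]
      · rw [hρj x hx, hρj j hne]
        constructor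
        · rintro ⟨h1, h2⟩
          exact Or.inr ⟨⟨hx, h1⟩, by omega⟩
        · rintro (h1 | ⟨⟨_, h1⟩, h2⟩)
          · exact absurd h1 hx
          · exact ⟨h1, by omega⟩
    have hval : ∀ j ∈ S, j ≠ i0 → gval S b H h l α β ρ' j =
        gval (S.erase i0) b H h l (α + h i0) (β + l i0) ρ j := by
      intro j hj hne
      unfold gval
      rw [hfilt j hj hne]
      have hnot : i0 ∉ (S.erase i0).filter (fun x => ρ x < ρ j) := by
        simp
      rw [sum_insert hnot, sum_insert hnot]
      split_ifs <;> ring
    have hval0 : gval S b H h l α β ρ' i0 = v0 := by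
      unfold gval
      have : S.filter (fun x => ρ' x < ρ' i0) = ∅ := by
        rw [filter_eq_empty_iff]
        intro x _
        rw [hρi]
        omega
      rw [this, sum_empty, sum_empty, hv0]
      split_ifs <;> ring
    refine ⟨ρ', ?_, ?_, ?_⟩
    · intro i hi j hj hij
      by_cases h1 : i = i0
      · by_cases h2 : j = i0
        · rw [h1, h2]
        · rw [h1, hρi, hρj j h2] at hij
          omega
      · by_cases h2 : j = i0
        · rw [h2, hρi, hρj i h1] at hij
          omega
        · rw [hρj i h1, hρj j h2] at hij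
          exact hρ1 i (mem_erase.2 ⟨h1, hi⟩) j (mem_erase.2 ⟨h2, hj⟩) (by omega)
    · intro i hi
      by_cases h1 : i = i0
      · rw [h1, hval0]
        exact hlow i0 hi0S
      · rw [hval i hi h1]
        exact lt_trans (hlow i0 hi0S) (hρ2 i (mem_erase.2 ⟨h1, hi⟩))
    · intro i hi j hj hij
      by_cases h2 : j = i0
      · rw [h2, hρi] at hij
        omega
      · by_cases h1 : i = i0
        · rw [h1, hval0, hval j hj h2]
          exact hρ2 j (mem_erase.2 ⟨h2, hj⟩)
        · rw [hval i hi h1, hval j hj h2]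
          rw [hρj i h1, hρj j h2] at hij
          exact hρ3 i (mem_erase.2 ⟨h1, hi⟩) j (mem_erase.2 ⟨h2, hj⟩) (by omega)

end Pool.SpC75
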