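import Pool.Agent.SpC75.Zig2
import Pool.Agent.SpC75.GoodB
import Pool.Agent.SpC75.GreedyOrd

/-!
# SpC75/GoodE (MP_9fc547_co)

A good labeling exists for every system of legs if `2 k + 2 ≥ m`.

Two classes of labels (zigzag).  Every root with at least three legs has a special leg `s` with a small
label at the root; one or two of the other legs have a large label at the root.  If two large labels at
the roots are necessary and this costs one small label, the component is critical.  Half of the
critical components (those with the shorter special legs) are late: they have only one large label at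
the root, and their other two legs are processed after everything else except the special legs.  The
special legs come last, in greedy order.
-/

namespace Pool.SpC75

open Finset Pool.SpA

lemma rep_rep {N : ℕ} {α : Type*} [DecidableEq α] (cen : Fin N → α) (i : Fin N) :
    rep cen (rep cen i) = rep cen i := rep_eq cen (cen_rep cen i)

lemma zo_congr {N : ℕ} (n ord ord' ty : Fin N → ℕ) (i : Fin N) (t : ℕ)
    (h : univ.filter (fun j => ord j < ord i) = univ.filter (fun j => ord' j < ord' i)) :
    zo n ord ty i t = zo n ord' ty i t := by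
  unfold zo pre
  rw [h]

theorem good_E {N : ℕ} {α : Type*} [DecidableEq α] (n : Fin N → ℕ) (cen : Fin N → α) (k : ℤ)
    (hk0 : 0 ≤ k) (hpos : ∀ i, 1 ≤ n i)
    (hone : ∀ i, n i = 1 → ∃ j, j ≠ i ∧ cen j = cen i)
    (htwo : ∀ i j, i ≠ j → cen i = cen j → ∃ l, l ≠ i ∧ l ≠ j ∧ cen l = cen i)
    (hk : ((∑ i, n i : ℕ) : ℤ) ≤ 2 * k + 2) :
    ∃ f, Good n cen k f := by
  classical
  set M : Fin N → Prop := fun j => ∃ j', j' ≠ j ∧ cen j' = cen j with hM
  have hMc : ∀ i j, cen i = cen j → M j → M i := by
    intro i j hij hj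
    by_cases h : i = j
    · rw [h]; exact hj
    · exact ⟨j, fun hh => h hh.symm, hij.symm⟩
  set cls : Fin N → Finset (Fin N) := fun r => univ.filter fun a => cen a = cen r with hcls
  have hclsm : ∀ r a, a ∈ cls r ↔ cen a = cen r := by
    intro r a
    rw [hcls]
    simp
  have hcard : ∀ r, M r → 3 ≤ (cls r).card := fun r hr => dg_three cen htwo r hr
  -- the data of the components
  have hdata : ∀ r, ∃ (s : Fin N) (H2 H1 : Finset (Fin N)) (β : ℕ), M r →
      s ∈ cls r ∧ 2 * ((n s + 1) / 2) ≤ ∑ a ∈ (cls r).erase s, n a ∧ H2 ⊆ (cls r).erase s ∧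
      H1 ⊆ (cls r).erase s ∧ β ≤ 1 ∧ (2 ≤ H2.card ∨ (4 ≤ (cls r).card ∧ 1 ≤ H2.card)) ∧
      ∑ a ∈ H2, n a % 2 ≤ ∑ a ∈ cls r \ H2, n a % 2 + β ∧
      (β = 1 → H1.card = 1 ∧ ∑ a ∈ H1, n a % 2 + 1 ≤ ∑ a ∈ cls r \ H1, n a % 2) := by
    intro r
    by_cases hr : M r
    · obtain ⟨s, hs, h1, h2⟩ := exists_cls n (cls r) (hcard r hr) hpos
      rcases h2 with ⟨H, hH1, hH2, hH3⟩ | ⟨⟨H, hH1, hH2, hH3⟩, H', hH1', hH2', hH3'⟩
      · exact ⟨s, H, ∅, 0, fun _ => ⟨hs, h1, hH1, by simp, by norm_num, hH2, hH3,
          fun h => absurd h (by norm_num)⟩⟩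
      · exact ⟨s, H, H', 1, fun _ => ⟨hs, h1, hH1, hH1', by norm_num, Or.inl (by omega), hH3,
          fun _ => ⟨hH2', hH3'⟩⟩⟩
    · exact ⟨r, ∅, ∅, 0, fun h => absurd h hr⟩
  choose s0 G2 G1 β hdat using hdata
  -- representatives
  have hMr : ∀ i, M i → M (rep cen i) := fun i hi => hMc _ _ (cen_rep cen i) hi
  have hclsr : ∀ i, cls (rep cen i) = cls i := by
    intro i
    ext a
    rw [hclsm, hclsm, cen_rep cen]
  set B : Finset (Fin N) := univ.filter fun r => rep cen r = r ∧ M r ∧ β r = 1 with hB
  have hBm : ∀ r, r ∈ B ↔ rep cen r = r ∧ M r ∧ β r = 1 := by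
    intro r
    rw [hB, mem_filter]
    exact ⟨fun h => h.2, fun h => ⟨mem_univ _, h⟩⟩
  obtain ⟨late, hlB, hlc, hlw⟩ := exists_half B (fun r => (n (s0 r) + 1) / 2)
  -- the large roots
  set Hc : Fin N → Finset (Fin N) := fun r => if r ∈ late then G1 r else G2 r with hHc
  have hHcd : ∀ r, Hc r = if r ∈ late then G1 r else G2 r := fun r => rfl
  set ty : Fin N → ℕ := fun a => if M a ∧ a ∈ Hc (rep cen a) then 0 else 1 with hty0
  have htyd : ∀ a, ty a = if M a ∧ a ∈ Hc (rep cen a) then 0 else 1 := fun a => rfl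
  have hty : ∀ a, ty a ≤ 1 := by
    intro a
    rw [htyd]
    split_ifs <;> omega
  have hty00 : ∀ a, ty a = 0 ↔ (M a ∧ a ∈ Hc (rep cen a)) := by
    intro a
    rw [htyd]
    split_ifs with h
    · exact ⟨fun _ => h, fun _ => rfl⟩
    · exact ⟨fun h' => absurd h' (by norm_num), fun h' => absurd h' h⟩
  have hlateB : ∀ r, r ∈ late → rep cen r = r ∧ M r ∧ β r = 1 := fun r hr => (hBm r).1 (hlB hr)
  have hHsub : ∀ r, M r → Hc r ⊆ (cls r).erase (s0 r) := by
    intro r hr
    rw [hHcd]
    split_ifs
    · exact (hdat r hr).2.2.2.1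
    · exact (hdat r hr).2.2.1
  -- special legs
  set sp : Fin N → Fin N := fun i => s0 (rep cen i) with hsp
  have hspd : ∀ i, sp i = s0 (rep cen i) := fun i => rfl
  have hsp1 : ∀ i, M i → cen (sp i) = cen i := by
    intro i hi
    have h := (hdat _ (hMr i hi)).1
    rw [hclsr, hclsm] at h
    exact h
  have hsp2 : ∀ i j, cen i = cen j → sp i = sp j := by
    intro i j hij
    rw [hspd, hspd, rep_eq cen hij]
  set S : Finset (Fin N) := univ.filter (fun i => sp i = i ∧ M i) with hS
  have hSmem : ∀ i, i ∈ S ↔ sp i = i ∧ M i := by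
    intro i
    rw [hS, mem_filter]
    exact ⟨fun h => h.2, fun h => ⟨mem_univ _, h⟩⟩
  have hspS : ∀ i, M i → sp i ∈ S := by
    intro i hi
    rw [hSmem]
    exact ⟨hsp2 _ _ (hsp1 i hi), hMc _ _ (hsp1 i hi) hi⟩
  have hSuniq : ∀ a s, a ∈ S → s ∈ S → cen a = cen s → a = s := by
    intro a s ha hs hc
    rw [hSmem] at ha hs
    rw [← ha.1, ← hs.1]
    exact hsp2 _ _ hc
  have htyS : ∀ a, a ∈ S → ty a = 1 := by
    intro a ha
    have h1 := (hSmem a).1 ha
    rw [htyd, if_neg]
    rintro ⟨_, h3⟩
    have h4 := hHsub _ (hMr a h1.2) h3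
    rw [mem_erase] at h4
    exact h4.1 h1.1.symm
  -- order
  set ph : Fin N → ℕ := fun i => if rep cen i ∈ late then 1 else 0 with hph
  have hphd : ∀ i, ph i = if rep cen i ∈ late then 1 else 0 := fun i => rfl
  have hph_le : ∀ i, ph i = 0 ∨ ph i = 1 := by
    intro i
    rw [hphd]
    split_ifs <;> simp
  have hph1 : ∀ i, ph i = 1 ↔ rep cen i ∈ late := by
    intro i
    rw [hphd]
    split_ifs with h <;> simp [h]
  set ord0 : Fin N → ℕ := fun i => if i ∈ S then 2 * N else ph i * N + i with hord0
  have ho0 : ∀ i, ord0 i = if i ∈ S then 2 * N else ph i * N + i := fun i => rfl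
  set b : Fin N → ℤ := fun s => ∑ a ∈ (cls s).erase s, (k + (zo n ord0 ty a 0 : ℤ)) with hb
  have hbd : ∀ s, b s = ∑ a ∈ (cls s).erase s, (k + (zo n ord0 ty a 0 : ℤ)) := fun s => rfl
  set l' : Fin N → ℕ := fun i => if i ∈ S then lc n ty i else 1 with hl'
  have hl'd : ∀ i, l' i = if i ∈ S then lc n ty i else 1 := fun i => rfl
  have hlcS : ∀ i, i ∈ S → lc n ty i = (n i + 1) / 2 := by
    intro i hi
    unfold lc
    rw [htyS i hi]
  have hl'1 : ∀ i, 1 ≤ l' i := by
    intro i
    rw [hl'd]
    split_ifs with h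
    · rw [hlcS i h]
      have := hpos i
      omega
    · exact le_refl _
  set β0 : ℤ := k + ((∑ j ∈ univ.filter (fun j => j ∉ S), lc n ty j : ℕ) : ℤ) + 1 with hβ
  obtain ⟨ρ, hρ1, _, hρ3⟩ := greedy_ord b (fun _ => False) (fun _ => 1) l' hl'1
    (fun _ h => h.elim) S.card S 0 β0 (- ∑ i, |b i + β0| - 1) rfl (by
      intro i _
      rw [if_neg (fun h => h)]
      have h1 : |b i + β0| ≤ ∑ i, |b i + β0| :=
        Finset.single_le_sum (f := fun i => |b i + β0|) (fun _ _ => abs_nonneg _) (mem_univ i)
      have h2 := neg_abs_le (b i + β0)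
      linarith)
  set ord : Fin N → ℕ := fun i => if i ∈ S then 2 * N + ρ i else ph i * N + i with hord
  have ho : ∀ i, ord i = if i ∈ S then 2 * N + ρ i else ph i * N + i := fun i => rfl
  have hin : ∀ i, i ∉ S → ord i < 2 * N ∧ ord i = ph i * N + i := by
    intro i hi
    have h1 := i.2
    rw [ho, if_neg hi]
    rcases hph_le i with h | h <;> rw [h] <;> omega
  have hinS : ∀ i, i ∈ S → ord i = 2 * N + ρ i := by
    intro i hi
    rw [ho, if_pos hi]
  have hordinj : Function.Injective ord := by
    intro i j hij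
    by_cases hi : i ∈ S <;> by_cases hj : j ∈ S
    · rw [hinS i hi, hinS j hj] at hij
      exact hρ1 i hi j hj (by omega)
    · rw [hinS i hi] at hij
      have := hin j hj
      omega
    · rw [hinS j hj] at hij
      have := hin i hi
      omega
    · rw [(hin i hi).2, (hin j hj).2] at hij
      have h1 := i.2
      have h2 := j.2
      apply Fin.ext
      rcases hph_le i with h3 | h3 <;> rcases hph_le j with h4 | h4 <;> rw [h3, h4] at hij <;>
        omega
  have hpreN : ∀ a, a ∉ S → univ.filter (fun j => ord j < ord a) =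
      univ.filter (fun j => ord0 j < ord0 a) := by
    intro a ha
    ext j
    simp only [mem_filter, mem_univ, true_and]
    have h1 := hin a ha
    have h2 : ord0 a = ph a * N + a := by rw [ho0, if_neg ha]
    by_cases hj : j ∈ S
    · rw [hinS j hj, show ord0 j = 2 * N by rw [ho0, if_pos hj], h2]
      omega
    · rw [(hin j hj).2, show ord0 j = ph j * N + j by rw [ho0, if_neg hj], h1.2, h2]
  have hpreS : ∀ (g : Fin N → ℕ) (s : Fin N), s ∈ S → pre ord g s =
      ∑ j ∈ univ.filter (fun j => j ∉ S), g j + ∑ j ∈ S.filter (fun j => ρ j < ρ s), g j := by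
    intro g s hs
    unfold pre
    rw [← sum_union]
    · apply sum_congr _ (fun _ _ => rfl)
      ext j
      simp only [mem_filter, mem_univ, true_and, mem_union]
      rw [hinS s hs]
      by_cases hj : j ∈ S
      · rw [hinS j hj]
        constructor
        · intro h; exact Or.inr ⟨hj, by omega⟩
        · rintro (h | ⟨_, h⟩)
          · exact absurd hj h
          · omega
      · have := hin j hj
        constructor
        · intro _; exact Or.inl hj
        · intro _; omega
    · rw [Finset.disjoint_left]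
      intro x hx hx'
      exact (mem_filter.1 hx).2 (mem_filter.1 hx').1
  -- phase one
  set P : Finset (Fin N) := univ.filter (fun j => j ∉ S ∧ ph j = 0) with hP
  have hPmem : ∀ j, j ∈ P ↔ j ∉ S ∧ ph j = 0 := by
    intro j
    rw [hP, mem_filter]
    exact ⟨fun h => h.2, fun h => ⟨mem_univ _, h⟩⟩
  have hpre_ge : ∀ (g : Fin N → ℕ) (i : Fin N), i ∉ P → ∑ j ∈ P, g j ≤ pre ord g i := by
    intro g i hi
    unfold pre
    apply Finset.sum_le_sum_of_subset
    intro j hj
    rw [hPmem] at hj
    rw [mem_filter]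
    refine ⟨mem_univ _, ?_⟩
    have h1 : ord j = j := by
      rw [(hin j hj.1).2, hj.2]
      omega
    rw [h1]
    have h2 := j.2
    by_cases hiS : i ∈ S
    · rw [hinS i hiS]
      omega
    · have h3 : ph i = 1 := by
        rcases hph_le i with h | h
        · exact absurd ((hPmem i).2 ⟨hiS, h⟩) hi
        · exact h
      rw [(hin i hiS).2, h3]
      omega
  -- sums over the components
  set R : Finset (Fin N) := univ.filter (fun r => rep cen r = r ∧ M r) with hR
  have hRm : ∀ r, r ∈ R ↔ rep cen r = r ∧ M r := by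
    intro r
    rw [hR, mem_filter]
    exact ⟨fun h => h.2, fun h => ⟨mem_univ _, h⟩⟩
  have hfib : ∀ (g : Fin N → ℤ), ∑ a ∈ univ.filter (fun a => M a), g a =
      ∑ r ∈ R, ∑ a ∈ cls r, g a := by
    intro g
    rw [← sum_fiberwise_of_maps_to (s := univ.filter (fun a => M a)) (t := R) (g := rep cen)
      (fun a ha => by
        rw [hRm]
        exact ⟨rep_rep cen a, hMr a (mem_filter.1 ha).2⟩)]
    apply sum_congr rfl
    intro r hr
    rw [hRm] at hr
    apply sum_congr _ (fun _ _ => rfl)
    ext a
    rw [mem_filter, mem_filter, hclsm]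
    constructor
    · rintro ⟨_, h2⟩
      rw [← h2, cen_rep cen]
    · intro h
      refine ⟨⟨mem_univ _, hMc _ _ h hr.2⟩, ?_⟩
      rw [rep_eq cen h, hr.1]
  have hlateR : late ⊆ R := fun r hr => (hRm r).2 ⟨(hlateB r hr).1, (hlateB r hr).2.1⟩
  -- (i) number of small labels
  have hLL : ((∑ i, n i : ℕ) : ℤ) ≤ 2 * (LL n ty : ℤ) + 1 := by
    set δ : Fin N → ℤ := fun a => (lc n ty a : ℤ) - hc n ty a with hδ
    have hδd : ∀ a, δ a = if ty a = 0 then - ((n a % 2 : ℕ) : ℤ) else ((n a % 2 : ℕ) : ℤ) := by
      intro a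
      have h1 := hty a
      show (lc n ty a : ℤ) - hc n ty a = _
      unfold lc hc
      split_ifs with h
      · rw [h]
        omega
      · have h2 : ty a = 1 := by omega
        rw [h2]
        omega
    have hcl : ∀ r ∈ R, (if r ∈ late then (1 : ℤ) else - (β r : ℤ)) ≤ ∑ a ∈ cls r, δ a := by
      intro r hr
      rw [hRm] at hr
      have hsub := (hHsub r hr.2).trans (erase_subset _ _)
      have htr : ∀ a ∈ cls r, (ty a = 0 ↔ a ∈ Hc r) := by
        intro a ha
        rw [hclsm] at ha
        rw [hty00, rep_eq cen ha, hr.1]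
        exact ⟨fun h => h.2, fun h => ⟨hMc _ _ ha hr.2, h⟩⟩
      have hsum : ∑ a ∈ cls r, δ a = ((∑ a ∈ cls r \ Hc r, n a % 2 : ℕ) : ℤ) -
          ((∑ a ∈ Hc r, n a % 2 : ℕ) : ℤ) := by
        rw [← sum_sdiff hsub]
        have e1 : ∑ a ∈ cls r \ Hc r, δ a = ((∑ a ∈ cls r \ Hc r, n a % 2 : ℕ) : ℤ) := by
          rw [Nat.cast_sum]
          apply sum_congr rfl
          intro a ha
          rw [mem_sdiff] at ha
          rw [hδd, if_neg (fun h => ha.2 ((htr a ha.1).1 h))]
        have e2 : ∑ a ∈ Hc r, δ a = - ((∑ a ∈ Hc r, n a % 2 : ℕ) : ℤ) := by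
          rw [Nat.cast_sum, ← sum_neg_distrib]
          apply sum_congr rfl
          intro a ha
          rw [hδd, if_pos ((htr a (hsub ha)).2 ha)]
        rw [e1, e2]
        ring
      rw [hsum]
      have hd := hdat r hr.2
      by_cases hl : r ∈ late
      · have h1 := (hd.2.2.2.2.2.2.2 (hlateB r hl).2.2).2
        rw [if_pos hl, hHcd, if_pos hl]
        omega
      · have h1 := hd.2.2.2.2.2.2.1
        rw [if_neg hl, hHcd, if_neg hl]
        omega
    have h1 : ∑ r ∈ R, (if r ∈ late then (1 : ℤ) else - (β r : ℤ)) ≤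
        ∑ a ∈ univ.filter (fun a => M a), δ a := by
      rw [hfib]
      exact sum_le_sum hcl
    have h2 : (-1 : ℤ) ≤ ∑ r ∈ R, (if r ∈ late then (1 : ℤ) else - (β r : ℤ)) := by
      have e1 : ∑ r ∈ R, (if r ∈ late then (1 : ℤ) else - (β r : ℤ)) =
          ∑ r ∈ R, (if r ∈ late then (2 : ℤ) else 0) - ∑ r ∈ R, (β r : ℤ) := by
        rw [← sum_sub_distrib]
        apply sum_congr rfl
        intro r _
        split_ifs with h
        · rw [(hlateB r h).2.2]
          norm_num
        · ring
      have e2 : ∑ r ∈ R, (if r ∈ late then (2 : ℤ) else 0) = 2 * late.card := by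
        rw [← sum_filter, sum_const, nsmul_eq_mul]
        have : R.filter (fun r => r ∈ late) = late := by
          ext r
          rw [mem_filter]
          exact ⟨fun h => h.2, fun h => ⟨hlateR h, h⟩⟩
        rw [this]
        ring
      have e3 : ∑ r ∈ R, (β r : ℤ) ≤ B.card := by
        have : (B.card : ℤ) = ∑ r ∈ R, (if r ∈ B then (1 : ℤ) else 0) := by
          rw [← sum_filter, sum_const, nsmul_eq_mul, mul_one]
          congr 2
          ext r
          constructor
          · intro h
            have h' := (hBm r).1 h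
            exact mem_filter.2 ⟨(hRm r).2 ⟨h'.1, h'.2.1⟩, h⟩
          · intro h
            exact (mem_filter.1 h).2
        rw [this]
        apply sum_le_sum
        intro r hr
        rw [hRm] at hr
        have hβ1 := (hdat r hr.2).2.2.2.2.1
        split_ifs with h
        · exact_mod_cast hβ1
        · rw [hBm] at h
          have : β r ≠ 1 := fun h' => h ⟨hr.1, hr.2, h'⟩
          have : β r = 0 := by omega
          rw [this]
          norm_num
      rw [e1, e2]
      omega
    have h3 : (0 : ℤ) ≤ ∑ a ∈ univ.filter (fun a => ¬ M a), δ a := by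
      apply sum_nonneg
      intro a ha
      have ha' : ¬ M a := (mem_filter.1 ha).2
      rw [hδd, if_neg (fun h => ha' ((hty00 a).1 h).1)]
      exact Int.natCast_nonneg _
    have h4 := sum_filter_add_sum_filter_not univ (fun a => M a) δ
    have h5 : ∑ a, δ a = (LL n ty : ℤ) - ((∑ a, hc n ty a : ℕ) : ℤ) := by
      rw [hδ, sum_sub_distrib]
      unfold LL
      push_cast
      rfl
    have h6 := LL_add (n := n) hty
    have h7 : ((∑ i, n i : ℕ) : ℤ) = (LL n ty : ℤ) + ((∑ a, hc n ty a : ℕ) : ℤ) := by
      rw [← h6]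
      push_cast
      rfl
    omega
  -- small labels of the special legs
  have hSP : ∑ s ∈ S, lc n ty s ≤ ∑ j ∈ P, n j := by
    have e1 : ∑ s ∈ S, lc n ty s = ∑ r ∈ R, (n (s0 r) + 1) / 2 := by
      symm
      apply sum_bij (fun r _ => s0 r)
      · intro r hr
        rw [hRm] at hr
        have h1 := hspS r hr.2
        rw [hspd, hr.1] at h1
        exact h1
      · intro r hr r' hr' h
        rw [hRm] at hr hr'
        have h1 := hsp1 r hr.2
        have h2 := hsp1 r' hr'.2
        rw [hspd, hr.1] at h1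
        rw [hspd, hr'.1] at h2
        rw [← hr.1, ← hr'.1]
        apply rep_eq cen
        rw [← h1, ← h2, h]
      · intro s hs
        have h1 := (hSmem s).1 hs
        exact ⟨rep cen s, (hRm _).2 ⟨rep_rep cen s, hMr s h1.2⟩, h1.1⟩
      · intro r hr
        rw [hRm] at hr
        have h1 := hspS r hr.2
        rw [hspd, hr.1] at h1
        rw [hlcS _ h1]
    have e2 : ∑ r ∈ R, (n (s0 r) + 1) / 2 = ∑ r ∈ R \ late, (n (s0 r) + 1) / 2 +
        ∑ r ∈ late, (n (s0 r) + 1) / 2 := (sum_sdiff hlateR).symm
    have e3 : ∑ r ∈ B \ late, (n (s0 r) + 1) / 2 ≤ ∑ r ∈ R \ late, (n (s0 r) + 1) / 2 := by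
      apply sum_le_sum_of_subset
      intro r hr
      rw [mem_sdiff, hBm] at hr
      rw [mem_sdiff, hRm]
      exact ⟨⟨hr.1.1, hr.1.2.1⟩, hr.2⟩
    have e4 : 2 * ∑ r ∈ R \ late, (n (s0 r) + 1) / 2 ≤
        ∑ r ∈ R \ late, ∑ a ∈ (cls r).erase (s0 r), n a := by
      rw [mul_sum]
      apply sum_le_sum
      intro r hr
      rw [mem_sdiff, hRm] at hr
      exact (hdat r hr.1.2).2.1
    have e5 : ∑ r ∈ R \ late, ∑ a ∈ (cls r).erase (s0 r), n a ≤ ∑ j ∈ P, n j := by
      have hmaps : ∀ a ∈ P.filter (fun a => M a), rep cen a ∈ R \ late := by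
        intro a ha
        rw [mem_filter, hPmem] at ha
        rw [mem_sdiff, hRm]
        refine ⟨⟨rep_rep cen a, hMr a ha.2⟩, fun h => ?_⟩
        have := (hph1 a).2 h
        omega
      calc ∑ r ∈ R \ late, ∑ a ∈ (cls r).erase (s0 r), n a
          = ∑ r ∈ R \ late, ∑ a ∈ (P.filter (fun a => M a)).filter (fun a => rep cen a = r),
              n a := by
            apply sum_congr rfl
            intro r hr
            rw [mem_sdiff, hRm] at hr
            apply sum_congr _ (fun _ _ => rfl)
            ext a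
            rw [mem_erase, hclsm, mem_filter, mem_filter, hPmem]
            constructor
            · rintro ⟨h1, h2⟩
              have hMa := hMc _ _ h2 hr.1.2
              have hra : rep cen a = r := by rw [rep_eq cen h2, hr.1.1]
              refine ⟨⟨⟨?_, ?_⟩, hMa⟩, hra⟩
              · intro haS
                have h3 := ((hSmem a).1 haS).1
                rw [hspd, hra] at h3
                exact h1 h3.symm
              · rcases hph_le a with h | h
                · exact h
                · rw [hph1, hra] at h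
                  exact absurd h hr.2
            · rintro ⟨⟨⟨h1, h2⟩, h3⟩, h4⟩
              refine ⟨?_, ?_⟩
              · rintro rfl
                apply h1
                rw [hSmem]
                refine ⟨?_, h3⟩
                rw [hspd, h4]
              · rw [← h4, cen_rep cen]
        _ = ∑ a ∈ P.filter (fun a => M a), n a := sum_fiberwise_of_maps_to hmaps _
        _ ≤ ∑ j ∈ P, n j := sum_le_sum_of_subset (filter_subset _ _)
    omega
  -- totals
  have hLsplit : LL n ty = ∑ j ∈ univ.filter (fun j => j ∉ S), lc n ty j + ∑ s ∈ S, lc n ty s := by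
    unfold LL
    rw [← sum_filter_add_sum_filter_not univ (fun j => j ∉ S) (lc n ty)]
    congr 1
    apply sum_congr _ (fun _ _ => rfl)
    ext j
    simp
  have hPsum : ∑ j ∈ P, lc n ty j + ∑ j ∈ P, hc n ty j = ∑ j ∈ P, n j := by
    rw [← sum_add_distrib]
    exact sum_congr rfl fun j _ => lc_add_hc hty j
  have hmk : ((∑ i, n i : ℕ) : ℤ) ≤ k + LL n ty + 1 := by omega
  refine ⟨fun i t => k + zo n ord ty i t, good_zig2 n ord ty cen k hk0 hordinj hty hone hpos
    hmk ?_ ?_⟩
  · -- root sums are different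
    have hval : ∀ i, M i → rs cen (fun i t => k + (zo n ord ty i t : ℤ)) (cen i) =
        gval S b (fun _ => False) (fun _ => 1) l' 0 β0 ρ (sp i) := by
      intro i hi
      have hsS := hspS i hi
      have hmemc : sp i ∈ univ.filter (fun a => cen a = cen i) :=
        mem_filter.2 ⟨mem_univ _, hsp1 i hi⟩
      unfold rs gval
      rw [← add_sum_erase _ _ hmemc]
      have h1 : ∑ a ∈ (univ.filter fun a => cen a = cen i).erase (sp i),
          (k + (zo n ord ty a 0 : ℤ)) = b (sp i) := by
        have hc1 : (univ.filter fun a => cen a = cen i) = cls (sp i) := by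
          ext a
          simp only [mem_filter, mem_univ, true_and]
          rw [hclsm, hsp1 i hi]
        rw [hbd, hc1]
        apply sum_congr rfl
        intro a ha
        rw [mem_erase, hclsm] at ha
        have haS : a ∉ S := by
          intro haS
          exact ha.1 (hSuniq a (sp i) haS hsS ha.2)
        rw [zo_congr n ord ord0 ty a 0 (hpreN a haS)]
      show (k + (zo n ord ty (sp i) 0 : ℤ)) + ∑ a ∈ (univ.filter fun a => cen a = cen i).erase (sp i),
          (k + (zo n ord ty a 0 : ℤ)) = _
      rw [h1, if_neg (fun h => h)]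
      have h2 := htyS _ hsS
      have h3 : zo n ord ty (sp i) 0 = pre ord (lc n ty) (sp i) + 1 := by
        unfold zo
        rw [h2]
        norm_num
      have h4 : ∑ j ∈ S.filter (fun j => ρ j < ρ (sp i)), (l' j : ℤ) =
          ((∑ j ∈ S.filter (fun j => ρ j < ρ (sp i)), lc n ty j : ℕ) : ℤ) := by
        rw [Nat.cast_sum]
        apply sum_congr rfl
        intro j hj
        rw [hl'd, if_pos (mem_filter.1 hj).1]
      rw [h3, hpreS (lc n ty) _ hsS, h4, hβ]
      push_cast
      ring
    intro i j hi hj h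
    rw [hval i hi, hval j hj] at h
    have hsi := hspS i hi
    have hsj := hspS j hj
    rcases lt_trichotomy (ρ (sp i)) (ρ (sp j)) with h1 | h1 | h1
    · have := hρ3 _ hsi _ hsj h1
      omega
    · have := hρ1 _ hsi _ hsj h1
      rw [← hsp1 i hi, ← hsp1 j hj, this]
    · have := hρ3 _ hsj _ hsi h1
      omega
  · -- root sums are large
    intro j hj
    have hr := hMr j hj
    have hd := hdat _ hr
    have hgb := rs_ge n ord ty cen k hty hpos j
    have hdg : (cls (rep cen j)).card = dg cen j := by
      rw [hclsr]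
      rfl
    have hdg3 := dg_three cen htwo j hj
    have hbb : bb cen ty j = (Hc (rep cen j)).card := by
      unfold bb
      congr 1
      ext a
      rw [mem_filter, hty00]
      constructor
      · rintro ⟨_, h1, _, h2⟩
        rwa [rep_eq cen h1] at h2
      · intro h
        have h1 := hHsub _ hr h
        rw [mem_erase, hclsr, hclsm] at h1
        exact ⟨mem_univ _, h1.2, hMc _ _ h1.2 hj, by rwa [rep_eq cen h1.2]⟩
    have hk1 : (0 : ℤ) ≤ k + 1 := by omega
    have hL0 : (0 : ℤ) ≤ (LL n ty : ℤ) := Int.natCast_nonneg _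
    by_cases hl : rep cen j ∈ late
    · -- late component
      have hβ1 := (hlateB _ hl).2.2
      have h1c := (hd.2.2.2.2.2.2.2 hβ1).1
      have hHl : Hc (rep cen j) = G1 (rep cen j) := by rw [hHcd, if_pos hl]
      obtain ⟨x, hx⟩ := card_eq_one.1 h1c
      have hxH : x ∈ Hc (rep cen j) := by rw [hHl, hx]; simp
      have hx1 := hHsub _ hr hxH
      rw [mem_erase, hclsr, hclsm] at hx1
      have hxs : x ≠ sp j := hx1.1
      have hspj := hsp1 j hj
      have hxc : cen x = cen (sp j) := by rw [hx1.2, hspj]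
      obtain ⟨y, hy1, hy2, hy3⟩ := htwo x (sp j) hxs hxc
      have hyc : cen y = cen j := by rw [hy3, hx1.2]
      have htx : ty x = 0 := by
        rw [hty00]
        exact ⟨hMc _ _ hx1.2 hj, by rw [rep_eq cen hx1.2]; exact hxH⟩
      have htyy : ty y = 1 := by
        have h1 : ty y ≠ 0 := by
          rw [Ne, hty00]
          rintro ⟨_, h2⟩
          rw [rep_eq cen hyc, hHl, hx, mem_singleton] at h2
          exact hy1 h2
        have := hty y
        omega
      have hts := htyS _ (hspS j hj)
      have hnotP : ∀ a, cen a = cen j → a ∉ P := by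
        intro a ha
        rw [hPmem]
        rintro ⟨_, h2⟩
        have := (hph1 a).2 (by rw [rep_eq cen ha]; exact hl)
        omega
      have zx : LL n ty + ∑ a ∈ P, hc n ty a + 1 ≤ zo n ord ty x 0 := by
        have h1 := zo_high (ord := ord) hty (hpos x) (by rw [htx] : (0 + ty x) % 2 = 0)
        have h2 := hpre_ge (hc n ty) x (hnotP x hx1.2)
        omega
      have zy : ∑ a ∈ P, lc n ty a + 1 ≤ zo n ord ty y 0 := by
        have h1 := zo_low (ord := ord) hty (hpos y) (by rw [htyy]; norm_num : (0 + ty y) % 2 ≠ 0)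
        have h2 := hpre_ge (lc n ty) y (hnotP y hyc)
        omega
      have zs : ∑ a ∈ univ.filter (fun a => a ∉ S), lc n ty a + 1 ≤ zo n ord ty (sp j) 0 := by
        have h1 := zo_low (ord := ord) hty (hpos (sp j))
          (by rw [hts]; norm_num : (0 + ty (sp j)) % 2 ≠ 0)
        have h2 := hpreS (lc n ty) (sp j) (hspS j hj)
        omega
      have hsub : ({x, y, sp j} : Finset (Fin N)) ⊆ univ.filter fun a => cen a = cen j := by
        intro a ha
        simp only [mem_insert, mem_singleton] at ha
        rw [mem_filter]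
        refine ⟨mem_univ _, ?_⟩
        rcases ha with rfl | rfl | rfl
        · exact hx1.2
        · exact hyc
        · exact hspj
      have h1 : ∑ a ∈ ({x, y, sp j} : Finset (Fin N)), (k + (zo n ord ty a 0 : ℤ)) ≤
          ∑ a ∈ univ.filter (fun a => cen a = cen j), (k + (zo n ord ty a 0 : ℤ)) := by
        apply Finset.sum_le_sum_of_subset_of_nonneg hsub
        intro a _ _
        have : (0 : ℤ) ≤ (zo n ord ty a 0 : ℤ) := Int.natCast_nonneg _
        omega
      rw [sum_insert (by
        simp only [mem_insert, mem_singleton, not_or]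
        exact ⟨hy1.symm, hxs⟩), sum_insert (by
        simp only [mem_singleton]
        exact hy2), sum_singleton] at h1
      unfold rs
      refine lt_of_lt_of_le ?_ h1
      omega
    · have hHl : Hc (rep cen j) = G2 (rep cen j) := by rw [hHcd, if_neg hl]
      rw [hbb, hHl] at hgb
      have h2 := hd.2.2.2.2.2.1
      rw [hdg] at h2
      rcases h2 with h2 | ⟨h2, h3⟩
      · have k1 : (3 : ℤ) * (k + 1) ≤ dg cen j * (k + 1) :=
          mul_le_mul_of_nonneg_right (by exact_mod_cast hdg3) hk1
        have k2 : (2 : ℤ) * LL n ty ≤ ((G2 (rep cen j)).card : ℤ) * LL n ty :=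
          mul_le_mul_of_nonneg_right (by exact_mod_cast h2) hL0
        omega
      · have k1 : (4 : ℤ) * (k + 1) ≤ dg cen j * (k + 1) :=
          mul_le_mul_of_nonneg_right (by exact_mod_cast h2) hk1
        have k2 : (1 : ℤ) * LL n ty ≤ ((G2 (rep cen j)).card : ℤ) * LL n ty :=
          mul_le_mul_of_nonneg_right (by exact_mod_cast h3) hL0
        omega

end Pool.SpC75
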