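import Pool.Agent.SpA.Defs
import Pool.Agent.SpA.Parent

/-!
# SpC75/Legs2 (MP_9fc547_co)

Every spider forest is described by legs such that no root has exactly two legs: the root of a component
is its vertex of degree at least three, or an end of it if it is a path.
-/

namespace Pool.SpC75

open Finset Pool.SpA

open Classical in
lemma deg_eq' {V : Type*} [Fintype V] (G : SimpleGraph V) (v : V) :
    deg G v = (G.neighborSet v).ncard := by
  unfold deg
  rw [← Set.ncard_coe_finset]
  congr 1
  ext w
  simp

/-- rooted form of a spider forest: parent function and depth; a root has one child or at least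
three -/
structure Rooted {V : Type*} (G : SimpleGraph V) (p : V → V) (dep : V → ℕ) : Prop where
  root : ∀ v, p v = v ↔ dep v = 0
  step : ∀ v, p v ≠ v → dep v = dep (p v) + 1
  adj : ∀ v w, G.Adj v w ↔ v ≠ w ∧ (p v = w ∨ p w = v)
  inj : ∀ v w, p v ≠ v → p w ≠ w → p v = p w → p (p v) ≠ p v → v = w
  child : ∀ c, p c = c → ∃ v, v ≠ c ∧ p v = c
  single : ∀ c v, p c = c → v ≠ c → p v = c →
    (∃ w, w ≠ v ∧ w ≠ c ∧ p w = c) ∨ (∃ w, w ≠ v ∧ p w = v)
  three : ∀ c v w, p c = c → v ≠ w → v ≠ c → w ≠ c → p v = c → p w = c →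
    ∃ u, u ≠ v ∧ u ≠ w ∧ u ≠ c ∧ p u = c

theorem exists_rooted {V : Type*} [Fintype V] (G : SimpleGraph V) (hG : IsSpiderForest G) :
    ∃ (p : V → V) (dep : V → ℕ), Rooted G p dep := by
  classical
  obtain ⟨p, l, h1, h2, h3, h4, h5, h6, h7⟩ := exists_parent hG.acyclic
    (fun u v huv hu hv => hG.one u v huv (by rw [deg_eq']; exact hu) (by rw [deg_eq']; exact hv))
  have hnb : ∀ c, p c = c → ∀ u, G.Adj c u ↔ (u ≠ c ∧ p u = c) := by
    intro c hc u
    rw [h3]
    constructor
    · rintro ⟨hne, h | h⟩
      · exact absurd (hc.symm.trans h) hne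
      · exact ⟨hne.symm, h⟩
    · rintro ⟨hne, h⟩
      exact ⟨hne.symm, Or.inr h⟩
  -- every vertex has a neighbour
  have hex : ∀ c, ∃ u, G.Adj c u := by
    intro c
    obtain ⟨b, hb, hb2⟩ := hG.two c
    obtain ⟨W⟩ := hb
    cases W with
    | nil =>
      rw [deg_eq'] at hb2
      have : (G.neighborSet c).Nonempty := by
        rw [← Set.ncard_pos (Set.toFinite _)]
        omega
      obtain ⟨u, hu⟩ := this
      exact ⟨u, hu⟩
    | cons h _ => exact ⟨_, h⟩
  refine ⟨p, l, h1, h2, h3, ?_, ?_, ?_, ?_⟩
  · intro v w hv hw hvw hx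
    refine h4 hx ?_ hvw
    show p (p w) ≠ p w
    rw [← hvw]
    exact hx
  · intro c hc
    obtain ⟨u, hu⟩ := hex c
    exact ⟨u, (hnb c hc u).1 hu⟩
  · intro c v hc hv hpv
    by_contra hcon
    push Not at hcon
    obtain ⟨hA, hB⟩ := hcon
    -- the component of `c` is `{c, v}`
    have hset : ∀ b, G.Reachable c b → b = c ∨ b = v := by
      intro b hb
      obtain ⟨W⟩ := hb
      have : ∀ (x y : V) (W : G.Walk x y), (x = c ∨ x = v) → (y = c ∨ y = v) := by
        intro x y W
        induction W with
        | nil => exact id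
        | cons h W ih =>
          rename_i x z y
          intro hx
          apply ih
          rcases hx with hx | hx
          · subst hx
            have h8 := (hnb _ hc z).1 h
            by_contra hz
            push Not at hz
            exact hA z hz.2 hz.1 h8.2
          · subst hx
            rw [h3] at h
            rcases h.2 with h8 | h8
            · left
              rw [← h8]
              exact hpv
            · exact absurd h8 (hB z h.1.symm)
      exact this c b W (Or.inl rfl)
    obtain ⟨b, hb, hb2⟩ := hG.two c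
    rw [deg_eq'] at hb2
    obtain ⟨x, hx, y, hy, hxy⟩ := (Set.one_lt_ncard (Set.toFinite _)).1 hb2
    have hx' : G.Adj b x := hx
    have hy' : G.Adj b y := hy
    have kx := hset x (hb.trans hx'.reachable)
    have ky := hset y (hb.trans hy'.reachable)
    have kb := hset b hb
    rcases kb with rfl | rfl
    · have := hx'.ne
      have := hy'.ne
      rcases kx with kx | kx <;> rcases ky with ky | ky
      · exact hx'.ne kx.symm
      · exact hx'.ne kx.symm
      · exact hy'.ne ky.symm
      · exact hxy (kx.trans ky.symm)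
    · rcases kx with kx | kx <;> rcases ky with ky | ky
      · exact hxy (kx.trans ky.symm)
      · exact hy'.ne ky.symm
      · exact hx'.ne kx.symm
      · exact hx'.ne kx.symm
  · intro c v w hc hvw hv hw hpv hpw
    have kv : v ∈ G.neighborSet c := (hnb c hc v).2 ⟨hv, hpv⟩
    have kw : w ∈ G.neighborSet c := (hnb c hc w).2 ⟨hw, hpw⟩
    have h2' : 2 ≤ (G.neighborSet c).ncard :=
      (Set.one_lt_ncard (Set.toFinite _)).2 ⟨v, kv, w, kw, hvw⟩
    have h3' : 3 ≤ (G.neighborSet c).ncard := by
      rcases h5 c hc with h | h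
      · omega
      · exact h
    by_contra hcon
    push Not at hcon
    have hsub : G.neighborSet c ⊆ {v, w} := by
      intro u hu
      by_contra hu'
      simp only [Set.mem_insert_iff, Set.mem_singleton_iff, not_or] at hu'
      have h8 := (hnb c hc u).1 hu
      exact hcon u hu'.1 hu'.2 h8.1 h8.2
    have h9 := Set.ncard_le_ncard hsub (Set.toFinite _)
    have h10 := Set.ncard_pair hvw
    omega

section

variable {V : Type*} {G : SimpleGraph V} {p : V → V} {dep : V → ℕ}

/-- first vertex of the leg of `v` -/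
def fst (p : V → V) (dep : V → ℕ) (v : V) : V := p^[dep v - 1] v

lemma dep_iter (h : Rooted G p dep) (v : V) (k : ℕ) (hk : k ≤ dep v) :
    dep (p^[k] v) = dep v - k := by
  induction k with
  | zero => simp
  | succ k ih =>
    rw [Function.iterate_succ_apply']
    have h1 := ih (by omega)
    have h2 : p (p^[k] v) ≠ p^[k] v := by
      intro h3
      rw [h.root] at h3
      omega
    have h3 := h.step _ h2
    omega

lemma dep_fst (h : Rooted G p dep) (v : V) (hv : dep v ≠ 0) :
    dep (fst p dep v) = 1 := by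
  unfold fst
  rw [dep_iter h v _ (by omega)]
  omega

lemma fst_of_one (v : V) (hv : dep v = 1) : fst p dep v = v := by
  unfold fst
  rw [hv]
  rfl

lemma fst_iter (h : Rooted G p dep) (v : V) (k : ℕ) (hk : k + 1 ≤ dep v) :
    fst p dep (p^[k] v) = fst p dep v := by
  unfold fst
  rw [dep_iter h v k (by omega), ← Function.iterate_add_apply]
  congr 1
  omega

lemma fst_unique (h : Rooted G p dep) : ∀ (d : ℕ) (v w : V), dep v = d + 1 →
    dep w = d + 1 → fst p dep v = fst p dep w → v = w := by
  intro d
  induction d with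
  | zero =>
    intro v w hv hw hvw
    rwa [fst_of_one v hv, fst_of_one w hw] at hvw
  | succ d ih =>
    intro v w hv hw hvw
    have hpv : p v ≠ v := by rw [Ne, h.root]; omega
    have hpw : p w ≠ w := by rw [Ne, h.root]; omega
    have h1 := h.step v hpv
    have h2 := h.step w hpw
    have h3 : fst p dep (p v) = fst p dep v := fst_iter h v 1 (by omega)
    have h4 : fst p dep (p w) = fst p dep w := fst_iter h w 1 (by omega)
    have h5 : p v = p w := ih (p v) (p w) (by omega) (by omega) (by rw [h3, h4, hvw])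
    refine h.inj v w hpv hpw h5 ?_
    rw [Ne, h.root]
    omega

end

theorem exists_legs {V : Type*} [Fintype V] (G : SimpleGraph V) (hG : IsSpiderForest G) :
    ∃ (N : ℕ) (L : Legs G N), ∀ i j, i ≠ j → L.root i = L.root j →
      ∃ l, l ≠ i ∧ l ≠ j ∧ L.root l = L.root i := by
  classical
  obtain ⟨p, dep, h⟩ := exists_rooted G hG
  -- first vertices
  let A : Finset V := univ.filter (fun v => dep v = 1)
  let e : A ≃ Fin A.card := A.equivFin
  set a : Fin A.card → V := fun i => (e.symm i).1 with ha
  have ha1 : ∀ i, dep (a i) = 1 := fun i => (mem_filter.1 (e.symm i).2).2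
  have hainj : Function.Injective a := fun i j hij => e.symm.injective (Subtype.ext hij)
  have hasurj : ∀ v, dep v = 1 → ∃ i, a i = v := by
    intro v hv
    refine ⟨e ⟨v, mem_filter.2 ⟨mem_univ _, hv⟩⟩, ?_⟩
    rw [ha]
    simp
  set len : Fin A.card → ℕ := fun i =>
    (univ.filter (fun v => dep v ≠ 0 ∧ fst p dep v = a i)).sup dep with hlen
  have hle : ∀ i v, dep v ≠ 0 → fst p dep v = a i → dep v ≤ len i := by
    intro i v hv hv'
    exact Finset.le_sup (f := dep) (mem_filter.2 ⟨mem_univ _, hv, hv'⟩)
  have hex : ∀ i t, t < len i → ∃ v, dep v = t + 1 ∧ fst p dep v = a i := by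
    intro i t ht
    have hne : (univ.filter (fun v => dep v ≠ 0 ∧ fst p dep v = a i)).Nonempty :=
      ⟨a i, mem_filter.2 ⟨mem_univ _, by rw [ha1]; norm_num, fst_of_one _ (ha1 i)⟩⟩
    obtain ⟨w, hw, hw'⟩ := Finset.exists_mem_eq_sup _ hne dep
    rw [mem_filter] at hw
    have hw'' : len i = dep w := hw'
    refine ⟨p^[dep w - (t + 1)] w, ?_, ?_⟩
    · rw [dep_iter h w _ (by omega)]
      omega
    · rw [fst_iter h w _ (by omega)]
      exact hw.2.2
  have hex' : ∀ i t, ∃ v, t < len i → (dep v = t + 1 ∧ fst p dep v = a i) := by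
    intro i t
    by_cases ht : t < len i
    · obtain ⟨v, hv⟩ := hex i t ht
      exact ⟨v, fun _ => hv⟩
    · exact ⟨a i, fun h => absurd h ht⟩
  choose vt hvt using hex'
  have hvt1 := fun i t ht => (hvt i t ht).1
  have hvt2 := fun i t ht => (hvt i t ht).2
  have huniq : ∀ i t v, t < len i → dep v = t + 1 → fst p dep v = a i → vt i t = v := by
    intro i t v ht hv hv'
    exact fst_unique h t _ _ (hvt1 i t ht) hv (by rw [hvt2 i t ht, hv'])
  have hprev : ∀ i t, t < len i → p (vt i t) = if t = 0 then p (a i) else vt i (t - 1) := by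
    intro i t ht
    by_cases h0 : t = 0
    · rw [if_pos h0]
      subst h0
      rw [huniq i 0 (a i) ht (ha1 i) (fst_of_one _ (ha1 i))]
    · rw [if_neg h0]
      have hd := hvt1 i t ht
      have h1 : p (vt i t) ≠ vt i t := by rw [Ne, h.root]; omega
      have h2 := h.step _ h1
      symm
      apply huniq i (t - 1) _ (by omega) (by omega)
      have h3 : fst p dep (p^[1] (vt i t)) = fst p dep (vt i t) := fst_iter h (vt i t) 1 (by omega)
      rw [Function.iterate_one] at h3
      rw [h3, hvt2 i t ht]
  have hcov : ∀ v, dep v ≠ 0 → ∃ i t, t < len i ∧ vt i t = v := by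
    intro v hv
    obtain ⟨i, hi⟩ := hasurj (fst p dep v) (dep_fst h v hv)
    have h1 := hle i v hv hi.symm
    exact ⟨i, dep v - 1, by omega, huniq i (dep v - 1) v (by omega) (by omega) hi.symm⟩
  have hpd : ∀ i, dep (p (a i)) = 0 := by
    intro i
    have h1 : p (a i) ≠ a i := by rw [Ne, h.root, ha1]; norm_num
    have h2 := h.step _ h1
    rw [ha1] at h2
    omega
  have hpa : ∀ i, a i ≠ p (a i) := by
    intro i h1
    have h2 := hpd i
    rw [← h1, ha1] at h2
    omega
  have hchild : ∀ c x, p c = c → p x = c → x ≠ c → dep x = 1 := by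
    intro c x hc hx hne
    have h1 := h.step x (by rw [hx]; exact hne.symm)
    rw [hx, (h.root c).1 hc] at h1
    omega
  refine ⟨A.card, {
    n := len
    root := fun i => p (a i)
    vert := vt
    pos := ?_
    inj := ?_
    root_ne := ?_
    cover := ?_
    adj := ?_
    one := ?_ }, ?_⟩
  · intro i
    have := hle i (a i) (by rw [ha1]; norm_num) (fst_of_one _ (ha1 i))
    rw [ha1] at this
    exact this
  · intro i j t s ht hs hts
    have h1 := hvt2 i t ht
    have h2 := hvt2 j s hs
    rw [hts, h2] at h1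
    have h3 := hvt1 i t ht
    have h4 := hvt1 j s hs
    rw [hts, h4] at h3
    exact ⟨(hainj h1).symm, by omega⟩
  · intro i j t ht hh
    have h1 := hvt1 j t ht
    rw [← hh, hpd i] at h1
    omega
  · intro v
    by_cases hv : dep v = 0
    · left
      have hv' := (h.root v).2 hv
      obtain ⟨x, hx, hpx⟩ := h.child v hv'
      obtain ⟨i, hi⟩ := hasurj x (hchild v x hv' hpx hx)
      exact ⟨i, by rw [hi]; exact hpx⟩
    · right
      exact hcov v hv
  · have key : ∀ u v, u ≠ v → p v = u → ∃ i t, t < len i ∧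
        u = (if t = 0 then p (a i) else vt i (t - 1)) ∧ v = vt i t := by
      intro u v huv hpv
      have hv : dep v ≠ 0 := by
        intro hv
        rw [← h.root] at hv
        exact huv (hpv.symm.trans hv)
      obtain ⟨i, t, ht, hit⟩ := hcov v hv
      refine ⟨i, t, ht, ?_, hit.symm⟩
      rw [← hprev i t ht, hit, hpv]
    have key2 : ∀ i t, t < len i → p (vt i t) ≠ vt i t := by
      intro i t ht
      rw [Ne, h.root, hvt1 i t ht]
      omega
    intro u v
    rw [h.adj]
    constructor
    · rintro ⟨huv, h1 | h1⟩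
      · obtain ⟨i, t, ht, h2, h3⟩ := key v u huv.symm h1
        exact ⟨i, t, ht, Or.inr ⟨h2, h3⟩⟩
      · obtain ⟨i, t, ht, h2, h3⟩ := key u v huv h1
        exact ⟨i, t, ht, Or.inl ⟨h2, h3⟩⟩
    · rintro ⟨i, t, ht, ⟨h1, h2⟩ | ⟨h1, h2⟩⟩
      · rw [← hprev i t ht] at h1
        rw [h1, h2]
        exact ⟨key2 i t ht, Or.inr rfl⟩
      · rw [← hprev i t ht] at h1
        rw [h1, h2]
        exact ⟨(key2 i t ht).symm, Or.inl rfl⟩
  · intro i hi
    have hr : p (p (a i)) = p (a i) := (h.root _).2 (hpd i)
    rcases h.single (p (a i)) (a i) hr (hpa i) rfl with ⟨w, hw1, hw2, hw3⟩ | ⟨w, hw1, hw2⟩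
    · obtain ⟨j, hj⟩ := hasurj w (hchild _ w hr hw3 hw2)
      refine ⟨j, ?_, ?_⟩
      · rintro rfl
        exact hw1 hj.symm
      · show p (a j) = p (a i)
        rw [hj, hw3]
    · exfalso
      have h1 : p w ≠ w := by
        rw [hw2]
        exact hw1.symm
      have h2 := h.step w h1
      rw [hw2, ha1] at h2
      have h3 : fst p dep w = a i := by
        unfold fst
        rw [h2]
        exact hw2
      have h4 := hle i w (by omega) h3
      omega
  · intro i j hij hroot
    have hroot' : p (a i) = p (a j) := hroot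
    have hr : p (p (a i)) = p (a i) := (h.root _).2 (hpd i)
    obtain ⟨u, hu1, hu2, hu3, hu4⟩ := h.three (p (a i)) (a i) (a j) hr
      (fun hh => hij (hainj hh)) (hpa i) (by rw [hroot']; exact hpa j) rfl hroot'.symm
    obtain ⟨l, hl⟩ := hasurj u (hchild _ u hr hu4 hu3)
    refine ⟨l, ?_, ?_, ?_⟩
    · rintro rfl
      exact hu1 hl.symm
    · rintro rfl
      exact hu2 hl.symm
    · show p (a l) = p (a i)
      rw [hl, hu4]

end Pool.SpC75
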