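import Pool.Agent.SpA.Transfer
import Pool.Agent.SpC75.Legs2
import Pool.Agent.SpC75.GoodE

/-!
# SpC75/Large (MP_9fc547_co)

Every spider forest with `m` edges is `k`-shifted antimagic if `2 k ≥ m - 2` or `2 k ≤ - 3 m`.
-/

namespace Pool.SpC75

open Finset Pool.SpA

/-- negating all labels -/
theorem neg_shift {V : Type*} [Fintype V] (G : SimpleGraph V) (k : ℤ)
    (h : ShiftedAntimagic G (-k - G.edgeSet.ncard - 1)) : ShiftedAntimagic G k := by
  classical
  obtain ⟨f, hf, hinj⟩ := h
  refine ⟨fun e => - f e, ?_, ?_⟩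
  · refine ⟨?_, ?_, ?_⟩
    · intro e he
      have := hf.mapsTo he
      show - f e ∈ Set.Ioc k (k + (G.edgeSet.ncard : ℤ))
      rw [Set.mem_Ioc] at this ⊢
      omega
    · intro e he e' he' hee
      exact hf.injOn he he' (neg_injective hee)
    · intro y hy
      rw [Set.mem_Ioc] at hy
      have hy' : -y ∈ Set.Ioc (-k - (G.edgeSet.ncard : ℤ) - 1)
          (-k - (G.edgeSet.ncard : ℤ) - 1 + G.edgeSet.ncard) := by
        rw [Set.mem_Ioc]
        omega
      obtain ⟨e, he, hey⟩ := hf.surjOn hy'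
      exact ⟨e, he, by show - f e = y; rw [hey]; ring⟩
  · intro v w hvw
    apply hinj
    simp only [Finset.sum_neg_distrib, neg_inj] at hvw
    exact hvw

theorem large {V : Type*} [Fintype V] (G : SimpleGraph V) (hG : IsSpiderForest G) (k : ℤ)
    (hk : (G.edgeSet.ncard : ℤ) ≤ 2 * k + 2) : ShiftedAntimagic G k := by
  classical
  obtain ⟨N, L, hL⟩ := exists_legs G hG
  rw [edges_card L] at hk
  have hgood : ∃ f, Good L.n L.root k f := by
    rcases Nat.eq_zero_or_pos N with h0 | h0
    · subst h0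
      exact ⟨fun i => i.elim0, fun i => i.elim0, fun i => i.elim0, fun i => i.elim0,
        fun i => i.elim0, fun i => i.elim0, fun i => i.elim0⟩
    · have hm : 2 ≤ ∑ i, L.n i := by
        have h1 := L.pos ⟨0, h0⟩
        by_cases h2 : L.n ⟨0, h0⟩ = 1
        · obtain ⟨j, hj, _⟩ := L.one _ h2
          have h3 : ∑ i ∈ ({⟨0, h0⟩, j} : Finset (Fin N)), L.n i ≤ ∑ i, L.n i :=
            Finset.sum_le_sum_of_subset (subset_univ _)
          rw [sum_pair hj.symm] at h3
          have := L.pos j
          omega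
        · have h3 := n_le L.n ⟨0, h0⟩
          omega
      exact good_E L.n L.root k (by omega) L.pos L.one hL hk
  obtain ⟨f, hf⟩ := hgood
  exact transfer G L k f hf

theorem small {V : Type*} [Fintype V] (G : SimpleGraph V) (hG : IsSpiderForest G) (k : ℤ)
    (hk : 2 * k + 3 * (G.edgeSet.ncard : ℤ) ≤ 0) : ShiftedAntimagic G k :=
  neg_shift G k (large G hG _ (by omega))

end Pool.SpC75
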