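import Mathlib

/-!
# SpC75/Layer (MP_9fc547_co)

An order of the legs of length one: in every class, all members but at most one are divided into pairs,
and the numbers of the elements which come before the two members of a pair have a sum of at least
`#O - 1`, where `O` is the set of all these legs.
-/

namespace Pool.SpC75

open Finset

theorem rank_one {N : ℕ} (A : Finset (Fin N)) : ∃ f : Fin N → ℕ,
    (∀ i ∈ A, ∀ j ∈ A, f i = f j → i = j) ∧ (∀ r, r < A.card → ∃ j, j ∈ A ∧ f j = r) := by
  classical
  refine ⟨fun i => if h : i ∈ A then (A.equivFin ⟨i, h⟩ : ℕ) else 0, ?_, ?_⟩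
  · intro i hi j hj h
    simp only [dif_pos hi, dif_pos hj] at h
    have h1 := A.equivFin.injective (Fin.ext h)
    exact congrArg Subtype.val h1
  · intro r hr
    refine ⟨A.equivFin.symm ⟨r, hr⟩, (A.equivFin.symm ⟨r, hr⟩).2, ?_⟩
    simp

theorem exists_pairs {N : ℕ} {α : Type*} [DecidableEq α] (cen : Fin N → α) (O : Finset (Fin N)) :
    ∃ lq : Fin N → ℕ, (∀ i ∈ O, ∀ j ∈ O, lq i = lq j → i = j) ∧
      ∀ j, ∃ g : ℕ → Fin N,
        (∀ r, r < (O.filter fun i => cen i = cen j).card → g r ∈ O ∧ cen (g r) = cen j) ∧
        (∀ r r', r < (O.filter fun i => cen i = cen j).card →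
          r' < (O.filter fun i => cen i = cen j).card → g r = g r' → r = r') ∧
        (∀ t, 2 * t + 1 < (O.filter fun i => cen i = cen j).card →
          O.card ≤ (O.filter fun x => lq x < lq (g (2 * t))).card +
            (O.filter fun x => lq x < lq (g (2 * t + 1))).card + 1) := by
  classical
  choose fr hfr1 hfr2 using fun c : α => rank_one (O.filter fun i => cen i = c)
  obtain ⟨rk, hrkd⟩ : ∃ rk : Fin N → ℕ, ∀ i, rk i = fr (cen i) i := ⟨_, fun _ => rfl⟩
  obtain ⟨q, hqd⟩ : ∃ q : α → ℕ, ∀ c, q c = (O.filter fun i => cen i = c).card :=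
    ⟨_, fun _ => rfl⟩
  have hrk : ∀ i j, i ∈ O → j ∈ O → cen i = cen j → rk i = rk j → i = j := by
    intro i j hi hj hc h
    apply hfr1 (cen j) i (mem_filter.2 ⟨hi, hc⟩) j (mem_filter.2 ⟨hj, rfl⟩)
    rw [hrkd, hrkd, hc] at h
    exact h
  have hrs : ∀ c r, r < q c → ∃ i, i ∈ O ∧ cen i = c ∧ rk i = r := by
    intro c r hr
    rw [hqd] at hr
    obtain ⟨i, hi, h⟩ := hfr2 c r hr
    rw [mem_filter] at hi
    refine ⟨i, hi.1, hi.2, ?_⟩
    rw [hrkd, hi.2]
    exact h
  -- the sides: `0` not in a pair, `1` the lower and `2` the upper member of a pair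
  obtain ⟨sd, hsd⟩ : ∃ sd : Fin N → ℕ, ∀ i, sd i =
      if rk i < 2 * (q (cen i) / 2) then rk i % 2 + 1 else 0 := ⟨_, fun _ => rfl⟩
  have hsd2 : ∀ i, sd i ≤ 2 := by
    intro i
    rw [hsd]
    split_ifs <;> omega
  have hex : ∀ b : Fin N, ∃ a : Fin N, sd b = 2 →
      a ∈ O ∧ sd a = 1 ∧ cen a = cen b ∧ rk a + 1 = rk b := by
    intro b
    by_cases h : sd b = 2
    · have h1 := h
      rw [hsd] at h1
      by_cases h2 : rk b < 2 * (q (cen b) / 2)
      · rw [if_pos h2] at h1
        obtain ⟨a, ha1, ha2, ha3⟩ := hrs (cen b) (rk b - 1) (by omega)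
        refine ⟨a, fun _ => ⟨ha1, ?_, ha2, by omega⟩⟩
        rw [hsd, ha2, ha3, if_pos (by omega)]
        omega
      · rw [if_neg h2] at h1
        omega
    · exact ⟨b, fun h' => absurd h' h⟩
  choose p hp using hex
  have hpinj : ∀ b b', b ∈ O → b' ∈ O → sd b = 2 → sd b' = 2 → p b = p b' → b = b' := by
    intro b b' hb hb' h2 h2' h
    have e1 := hp b h2
    have e2 := hp b' h2'
    rw [h] at e1
    exact hrk b b' hb hb' (by rw [← e1.2.2.1, e2.2.2.1]) (by omega)
  obtain ⟨lq, hlq⟩ : ∃ lq : Fin N → ℕ, ∀ i, lq i = if sd i = 2 then 3 * N - (p i : ℕ) else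
      if sd i = 1 then N + i else i := ⟨_, fun _ => rfl⟩
  have hlq2 : ∀ i, sd i = 2 → lq i = 3 * N - (p i : ℕ) := by
    intro i h
    rw [hlq, if_pos h]
  have hlq1 : ∀ i, sd i = 1 → lq i = N + i := by
    intro i h
    rw [hlq, if_neg (by omega), if_pos h]
  have hlq0 : ∀ i, sd i ≠ 1 → sd i ≠ 2 → lq i = i := by
    intro i h h'
    rw [hlq, if_neg h', if_neg h]
  refine ⟨lq, ?_, ?_⟩
  · intro i hi j hj h
    have i1 := i.2
    have j1 := j.2
    have i2 := (p i).2
    have j2 := (p j).2
    by_cases hi2 : sd i = 2
    · rw [hlq2 i hi2] at h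
      by_cases hj2 : sd j = 2
      · rw [hlq2 j hj2] at h
        exact hpinj i j hi hj hi2 hj2 (Fin.ext (by omega))
      · by_cases hj1 : sd j = 1
        · rw [hlq1 j hj1] at h
          omega
        · rw [hlq0 j hj1 hj2] at h
          omega
    · by_cases hi1 : sd i = 1
      · rw [hlq1 i hi1] at h
        by_cases hj2 : sd j = 2
        · rw [hlq2 j hj2] at h
          omega
        · by_cases hj1 : sd j = 1
          · rw [hlq1 j hj1] at h
            exact Fin.ext (by omega)
          · rw [hlq0 j hj1 hj2] at h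
            omega
      · rw [hlq0 i hi1 hi2] at h
        by_cases hj2 : sd j = 2
        · rw [hlq2 j hj2] at h
          omega
        · by_cases hj1 : sd j = 1
          · rw [hlq1 j hj1] at h
            omega
          · rw [hlq0 j hj1 hj2] at h
            exact Fin.ext (by omega)
  · -- the members of a pair
    have hpair : ∀ b, b ∈ O → sd b = 2 → O.card ≤ (O.filter fun x => lq x < lq (p b)).card +
        (O.filter fun x => lq x < lq b).card + 1 := by
      intro b hb h2
      have e := hp b h2
      have b2 := (p b).2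
      have h1 : O.card = (O.filter fun x => lq x < lq b).card +
          (O.filter fun x => ¬ lq x < lq b).card := by
        rw [card_filter_add_card_filter_not]
      have h3 : (O.filter fun x => ¬ lq x < lq b).card ≤
          (insert (p b) (O.filter fun x => lq x < lq (p b))).card := by
        apply card_le_card_of_injOn p
        · intro x hx
          have hx' : x ∈ O.filter (fun x => ¬ lq x < lq b) := hx
          rw [mem_filter] at hx'
          obtain ⟨hxO, hxl⟩ := hx'
          rw [hlq2 b h2] at hxl
          have x1 := x.2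
          have x2 := (p x).2
          have hx2 : sd x = 2 := by
            by_contra hne
            by_cases hx1 : sd x = 1
            · rw [hlq1 x hx1] at hxl
              omega
            · rw [hlq0 x hx1 hne] at hxl
              omega
          have f := hp x hx2
          rw [hlq2 x hx2] at hxl
          show p x ∈ (↑(insert (p b) (O.filter fun x => lq x < lq (p b))) : Set (Fin N))
          rw [mem_coe, mem_insert, mem_filter]
          rcases Nat.lt_or_ge (p x : ℕ) (p b : ℕ) with hlt | hge
          · right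
            refine ⟨f.1, ?_⟩
            rw [hlq1 _ f.2.1, hlq1 _ e.2.1]
            omega
          · left
            exact Fin.ext (by omega)
        · intro x hx x' hx' h
          have hx1 : x ∈ O.filter (fun x => ¬ lq x < lq b) := hx
          have hx1' : x' ∈ O.filter (fun x => ¬ lq x < lq b) := hx'
          have key : ∀ y, y ∈ O.filter (fun x => ¬ lq x < lq b) → y ∈ O ∧ sd y = 2 := by
            intro y hy
            rw [mem_filter, hlq2 b h2] at hy
            refine ⟨hy.1, ?_⟩
            have y1 := y.2
            by_contra hne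
            by_cases hy1 : sd y = 1
            · rw [hlq1 y hy1] at hy
              omega
            · rw [hlq0 y hy1 hne] at hy
              omega
          exact hpinj x x' (key x hx1).1 (key x' hx1').1 (key x hx1).2 (key x' hx1').2 h
      have h4 := card_insert_le (p b) (O.filter fun x => lq x < lq (p b))
      omega
    intro j
    have hexg : ∀ r, ∃ i, r < q (cen j) → i ∈ O ∧ cen i = cen j ∧ rk i = r := by
      intro r
      by_cases h : r < q (cen j)
      · obtain ⟨i, hi⟩ := hrs _ r h
        exact ⟨i, fun _ => hi⟩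
      · exact ⟨j, fun h' => absurd h' h⟩
    choose g hg using hexg
    rw [← hqd]
    refine ⟨g, fun r hr => ⟨(hg r hr).1, (hg r hr).2.1⟩, fun r r' hr hr' h => ?_, fun t ht => ?_⟩
    · have h1 := (hg r hr).2.2
      have h2 := (hg r' hr').2.2
      rw [h] at h1
      omega
    · have h0 := hg (2 * t) (by omega)
      have h1 := hg (2 * t + 1) ht
      have hs : sd (g (2 * t + 1)) = 2 := by
        rw [hsd, h1.2.1, h1.2.2, if_pos (by omega)]
        omega
      have e := hp _ hs
      have heq : p (g (2 * t + 1)) = g (2 * t) :=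
        hrk _ _ e.1 h0.1 (by rw [e.2.2.1, h1.2.1, h0.2.1]) (by omega)
      have h2 := hpair _ h1.1 hs
      rw [heq] at h2
      exact h2

end Pool.SpC75
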