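import Pool.Agent.SpC75.Quad2

/-!
# SpC75/Quad3 (MP_9fc547_co)

The criterion of `Quad2` for a different permutation of the small labels: the legs of a set `O` of legs
of length one are last in the order, and their labels are put above the special small labels.
-/

namespace Pool.SpC75

open Finset Pool.SpA

/-- as `Ps4`, but `xavoid` with another parameter -/
structure PsE (o e so cc : ℕ) (k : ℤ) (ps : ℕ → ℕ) : Prop where
  top : ∀ x, so + cc < x → ps x = x
  rng : ∀ x, 1 ≤ x → x ≤ so + cc → 1 ≤ ps x ∧ ps x ≤ so + cc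
  inj : ∀ x y, 1 ≤ x → 1 ≤ y → ps x = ps y → x = y
  blk : ∀ x, 1 ≤ x → x ≤ o → ps x ≤ o ∧ (o : ℤ) + 1 ≤ x + ps x + k
  blkinj : ∀ x y, 1 ≤ x → x ≤ o → 1 ≤ y → y ≤ o → x + ps x = y + ps y → x = y
  mid : ∀ x, o < x → x < so → ps x = x
  last : o < so → ps so = so ∨ (ps so = so + cc ∧ ∀ c, 1 ≤ c → c ≤ cc → c + ps (so + c) ≠ so + cc)
  xge : ∀ c, 1 ≤ c → c ≤ cc → so ≤ ps (so + c)
  xinj : ∀ c d, 1 ≤ c → c ≤ cc → 1 ≤ d → d ≤ cc → c + ps (so + c) = d + ps (so + d) → c = d
  xavoid : ∀ c y, 1 ≤ c → c ≤ cc → 1 ≤ y → c + ps (so + c) ≠ so + cc + e + 2 * y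

/-- the conditions on the permutation of the small labels: the labels of the positions in `(s1, so]` are
moved above the labels of the positions in `(so, so + cc]` -/
structure Ps5 (o s1 so cc : ℕ) (k : ℤ) (ps : ℕ → ℕ) : Prop where
  top : ∀ x, so + cc < x → ps x = x
  rng : ∀ x, 1 ≤ x → x ≤ so + cc → 1 ≤ ps x ∧ ps x ≤ so + cc
  inj : ∀ x y, 1 ≤ x → 1 ≤ y → ps x = ps y → x = y
  blk : ∀ x, 1 ≤ x → x ≤ o → ps x ≤ o ∧ (o : ℤ) + 1 ≤ x + ps x + k
  blkinj : ∀ x y, 1 ≤ x → x ≤ o → 1 ≤ y → y ≤ o → x + ps x = y + ps y → x = y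
  mid : ∀ x, o < x → x < s1 → ps x = x
  last : o < s1 → ps s1 = s1 ∨ (ps s1 = s1 + cc ∧ ∀ c, 1 ≤ c → c ≤ cc → c + ps (so + c) ≠ s1 + cc)
  one : ∀ x, s1 < x → x ≤ so → ps x = x + cc
  xge : ∀ c, 1 ≤ c → c ≤ cc → s1 ≤ ps (so + c)
  xinj : ∀ c d, 1 ≤ c → c ≤ cc → 1 ≤ d → d ≤ cc → c + ps (so + c) = d + ps (so + d) → c = d
  xavoid : ∀ c y, 1 ≤ c → c ≤ cc → 1 ≤ y → c + ps (so + c) ≠ so + cc + o + 2 * y

theorem exists_psE (o e so cc : ℕ) (k : ℤ) (h : cc = 0 ∨ o < so) (h1 : o ≤ so)
    (hk : o = 0 ∨ (o : ℤ) ≤ 2 * k + 1) : ∃ ps, PsE o e so cc k ps := by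
  set ta : ℕ → ℕ := fun x => if 2 * x ≤ o then o + 1 - 2 * x
    else if o % 2 = 1 then 2 * o + 1 - 2 * x else 2 * o + 2 - 2 * x with hta
  have ta0 : ∀ x, ta x = if 2 * x ≤ o then o + 1 - 2 * x
    else if o % 2 = 1 then 2 * o + 1 - 2 * x else 2 * o + 2 - 2 * x := fun x => rfl
  have ta1 : ∀ x, 1 ≤ x → x ≤ o → 1 ≤ ta x ∧ ta x ≤ o := by
    intro x h1 h2
    rw [ta0]
    split_ifs <;> omega
  have ta2 : ∀ x y, 1 ≤ x → x ≤ o → 1 ≤ y → y ≤ o → ta x = ta y → x = y := by
    intro x y h1 h2 h3 h4 h5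
    rw [ta0, ta0] at h5
    split_ifs at h5 <;> omega
  have ta3 : ∀ x y, 1 ≤ x → x ≤ o → 1 ≤ y → y ≤ o → x + ta x = y + ta y → x = y := by
    intro x y h1 h2 h3 h4 h5
    rw [ta0, ta0] at h5
    split_ifs at h5 <;> omega
  have ta4 : ∀ x, 1 ≤ x → x ≤ o → (o : ℤ) + 1 ≤ x + ta x + k := by
    intro x h1 h2
    rw [ta0]
    split_ifs <;> omega
  by_cases hA : cc = 0 ∨ (cc + e) % 2 = 1
  · refine ⟨fun x => if x ≤ o then ta x else x, ?_, ?_, ?_, ?_, ?_, ?_, ?_, ?_, ?_, ?_⟩
    · intro x hx
      show (if x ≤ o then ta x else x) = x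
      rw [if_neg (by omega)]
    · intro x hx1 hx2
      show 1 ≤ (if x ≤ o then ta x else x) ∧ (if x ≤ o then ta x else x) ≤ _
      split_ifs with h3
      · have := ta1 x hx1 h3
        omega
      · omega
    · intro x y hx hy hxy
      replace hxy : (if x ≤ o then ta x else x) = if y ≤ o then ta y else y := hxy
      split_ifs at hxy with h3 h5 h5
      · exact ta2 x y hx h3 hy h5 hxy
      · have := ta1 x hx h3
        omega
      · have := ta1 y hy h5
        omega
      · exact hxy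
    · intro x hx1 hx2
      show (if x ≤ o then ta x else x) ≤ o ∧ (o : ℤ) + 1 ≤ x + ((if x ≤ o then ta x else x : ℕ) : ℤ) + k
      rw [if_pos hx2]
      exact ⟨(ta1 x hx1 hx2).2, ta4 x hx1 hx2⟩
    · intro x y hx1 hx2 hy1 hy2 hxy
      replace hxy : x + (if x ≤ o then ta x else x) = y + if y ≤ o then ta y else y := hxy
      rw [if_pos hx2, if_pos hy2] at hxy
      exact ta3 x y hx1 hx2 hy1 hy2 hxy
    · intro x hx1 hx2
      show (if x ≤ o then ta x else x) = x
      rw [if_neg (by omega)]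
    · intro hso
      left
      show (if so ≤ o then ta so else so) = so
      rw [if_neg (by omega)]
    · intro c hc1 hc2
      show so ≤ (if so + c ≤ o then ta (so + c) else so + c)
      rw [if_neg (by omega)]
      omega
    · intro c d hc1 hc2 hd1 hd2 hcd
      replace hcd : c + (if so + c ≤ o then ta (so + c) else so + c) =
        d + if so + d ≤ o then ta (so + d) else so + d := hcd
      rw [if_neg (by omega), if_neg (by omega)] at hcd
      omega
    · intro c y hc1 hc2 hy
      show c + (if so + c ≤ o then ta (so + c) else so + c) ≠ _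
      rw [if_neg (by omega)]
      omega
  · push Not at hA
    by_cases hB : cc % 2 = 0
    · set ps : ℕ → ℕ := fun x => if x ≤ o then ta x else if x < so then x else
        if so + cc < x then x else if x = so then so + cc else x - 1 with hps
      have ps0 : ∀ x, ps x = if x ≤ o then ta x else if x < so then x else
        if so + cc < x then x else if x = so then so + cc else x - 1 := fun x => rfl
      refine ⟨ps, ?_, ?_, ?_, ?_, ?_, ?_, ?_, ?_, ?_, ?_⟩
      · intro x hx
        rw [ps0]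
        split_ifs <;> omega
      · intro x hx1 hx2
        rw [ps0]
        split_ifs with h3
        · have := ta1 x hx1 h3
          omega
        all_goals omega
      · intro x y hx hy hxy
        rw [ps0, ps0] at hxy
        by_cases h3 : x ≤ o <;> by_cases h5 : y ≤ o
        · rw [if_pos h3, if_pos h5] at hxy
          exact ta2 x y hx h3 hy h5 hxy
        · rw [if_pos h3, if_neg h5] at hxy
          have := ta1 x hx h3
          split_ifs at hxy <;> omega
        · rw [if_neg h3, if_pos h5] at hxy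
          have := ta1 y hy h5
          split_ifs at hxy <;> omega
        · rw [if_neg h3, if_neg h5] at hxy
          split_ifs at hxy <;> omega
      · intro x hx1 hx2
        rw [ps0, if_pos hx2]
        exact ⟨(ta1 x hx1 hx2).2, ta4 x hx1 hx2⟩
      · intro x y hx1 hx2 hy1 hy2 hxy
        rw [ps0, ps0, if_pos hx2, if_pos hy2] at hxy
        exact ta3 x y hx1 hx2 hy1 hy2 hxy
      · intro x hx1 hx2
        rw [ps0, if_neg (by omega), if_pos hx2]
      · intro hso
        right
        constructor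
        · rw [ps0, if_neg (by omega), if_neg (by omega), if_neg (by omega), if_pos rfl]
        · intro c hc1 hc2
          rw [ps0, if_neg (by omega), if_neg (by omega), if_neg (by omega), if_neg (by omega)]
          omega
      · intro c hc1 hc2
        rw [ps0, if_neg (by omega), if_neg (by omega), if_neg (by omega), if_neg (by omega)]
        omega
      · intro c d hc1 hc2 hd1 hd2 hcd
        rw [ps0, ps0, if_neg (by omega), if_neg (by omega), if_neg (by omega), if_neg (by omega),
          if_neg (by omega), if_neg (by omega), if_neg (by omega), if_neg (by omega)] at hcd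
        omega
      · intro c y hc1 hc2 hy
        rw [ps0, if_neg (by omega), if_neg (by omega), if_neg (by omega), if_neg (by omega)]
        omega
    · set ps : ℕ → ℕ := fun x => if x ≤ o then ta x else if x ≤ so then x else
        if so + cc < x then x else if x = so + cc then so + 1 else x + 1 with hps
      have ps0 : ∀ x, ps x = if x ≤ o then ta x else if x ≤ so then x else
        if so + cc < x then x else if x = so + cc then so + 1 else x + 1 := fun x => rfl
      have psx : ∀ c, 1 ≤ c → c ≤ cc → ps (so + c) = if c = cc then so + 1 else so + c + 1 := by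
        intro c hc1 hc2
        rw [ps0, if_neg (by omega), if_neg (by omega), if_neg (by omega)]
        split_ifs <;> omega
      refine ⟨ps, ?_, ?_, ?_, ?_, ?_, ?_, ?_, ?_, ?_, ?_⟩
      · intro x hx
        rw [ps0]
        split_ifs <;> omega
      · intro x hx1 hx2
        rw [ps0]
        split_ifs with h3
        · have := ta1 x hx1 h3
          omega
        all_goals omega
      · intro x y hx hy hxy
        rw [ps0, ps0] at hxy
        by_cases h3 : x ≤ o <;> by_cases h5 : y ≤ o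
        · rw [if_pos h3, if_pos h5] at hxy
          exact ta2 x y hx h3 hy h5 hxy
        · rw [if_pos h3, if_neg h5] at hxy
          have := ta1 x hx h3
          split_ifs at hxy <;> omega
        · rw [if_neg h3, if_pos h5] at hxy
          have := ta1 y hy h5
          split_ifs at hxy <;> omega
        · rw [if_neg h3, if_neg h5] at hxy
          split_ifs at hxy <;> omega
      · intro x hx1 hx2
        rw [ps0, if_pos hx2]
        exact ⟨(ta1 x hx1 hx2).2, ta4 x hx1 hx2⟩
      · intro x y hx1 hx2 hy1 hy2 hxy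
        rw [ps0, ps0, if_pos hx2, if_pos hy2] at hxy
        exact ta3 x y hx1 hx2 hy1 hy2 hxy
      · intro x hx1 hx2
        rw [ps0, if_neg (by omega), if_pos (by omega)]
      · intro hso
        left
        rw [ps0, if_neg (by omega), if_pos (by omega)]
      · intro c hc1 hc2
        rw [psx c hc1 hc2]
        split_ifs <;> omega
      · intro c d hc1 hc2 hd1 hd2 hcd
        rw [psx c hc1 hc2, psx d hd1 hd2] at hcd
        split_ifs at hcd <;> omega
      · intro c y hc1 hc2 hy
        rw [psx c hc1 hc2]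
        split_ifs <;> omega

theorem exists_ps5 (o s1 so cc : ℕ) (k : ℤ) (h : cc = 0 ∨ o < s1) (h1 : o ≤ s1) (hs : s1 ≤ so)
    (hk : o = 0 ∨ (o : ℤ) ≤ 2 * k + 1) : ∃ ps, Ps5 o s1 so cc k ps := by
  obtain ⟨p0, hp⟩ := exists_psE o (o + (so - s1)) s1 cc k h h1 hk
  obtain ⟨ps, hps⟩ : ∃ ps : ℕ → ℕ, ∀ x, ps x = if x ≤ s1 then p0 x else if x ≤ so then x + cc
      else if x ≤ so + cc then p0 (x - (so - s1)) else x := ⟨_, fun _ => rfl⟩
  have e1 : ∀ x, x ≤ s1 → ps x = p0 x := by
    intro x hx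
    rw [hps, if_pos hx]
  have e2 : ∀ x, s1 < x → x ≤ so → ps x = x + cc := by
    intro x hx hx'
    rw [hps, if_neg (by omega), if_pos hx']
  have e3 : ∀ x, so < x → x ≤ so + cc → ps x = p0 (x - (so - s1)) := by
    intro x hx hx'
    rw [hps, if_neg (by omega), if_neg (by omega), if_pos hx']
  have e3' : ∀ c, 1 ≤ c → c ≤ cc → ps (so + c) = p0 (s1 + c) := by
    intro c hc hc'
    rw [e3 _ (by omega) (by omega)]
    congr 1
    omega
  have e4 : ∀ x, so + cc < x → ps x = x := by
    intro x hx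
    rw [hps, if_neg (by omega), if_neg (by omega), if_neg (by omega)]
  have hcases : ∀ x, 1 ≤ x → (x ≤ s1 ∧ ps x = p0 x ∧ 1 ≤ p0 x ∧ p0 x ≤ s1 + cc) ∨
      (s1 < x ∧ x ≤ so ∧ ps x = x + cc) ∨
      (so < x ∧ x ≤ so + cc ∧ ps x = p0 (x - (so - s1)) ∧ 1 ≤ p0 (x - (so - s1)) ∧
        p0 (x - (so - s1)) ≤ s1 + cc) ∨ (so + cc < x ∧ ps x = x) := by
    intro x hx
    rcases Nat.lt_or_ge s1 x with h2 | h2
    · rcases Nat.lt_or_ge so x with h3 | h3
      · rcases Nat.lt_or_ge (so + cc) x with h5 | h5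
        · exact Or.inr (Or.inr (Or.inr ⟨h5, e4 x h5⟩))
        · have h6 := hp.rng (x - (so - s1)) (by omega) (by omega)
          exact Or.inr (Or.inr (Or.inl ⟨h3, h5, e3 x h3 h5, h6.1, h6.2⟩))
      · exact Or.inr (Or.inl ⟨h2, h3, e2 x h2 h3⟩)
    · have h6 := hp.rng x hx (by omega)
      exact Or.inl ⟨h2, e1 x h2, h6.1, h6.2⟩
  refine ⟨ps, e4, ?_, ?_, ?_, ?_, ?_, ?_, e2, ?_, ?_, ?_⟩
  · intro x hx hx'
    rcases hcases x hx with ⟨h2, h3, h5, h6⟩ | ⟨h2, h3, h5⟩ | ⟨h2, h3, h5, h6, h7⟩ | ⟨h2, h3⟩ <;>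
      omega
  · intro x y hx hy hxy
    rcases hcases x hx with ⟨h2, h3, h5, h6⟩ | ⟨h2, h3, h5⟩ | ⟨h2, h3, h5, h6, h7⟩ | ⟨h2, h3⟩ <;>
    rcases hcases y hy with ⟨g2, g3, g5, g6⟩ | ⟨g2, g3, g5⟩ | ⟨g2, g3, g5, g6, g7⟩ | ⟨g2, g3⟩
    · exact hp.inj x y hx hy (by omega)
    · omega
    · have := hp.inj x (y - (so - s1)) hx (by omega) (by omega)
      omega
    · omega
    · omega
    · omega
    · omega
    · omega
    · have := hp.inj (x - (so - s1)) y (by omega) hy (by omega)
      omega
    · omega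
    · have := hp.inj (x - (so - s1)) (y - (so - s1)) (by omega) (by omega) (by omega)
      omega
    · omega
    · omega
    · omega
    · omega
    · omega
  · intro x hx hx'
    rw [e1 x (by omega)]
    exact hp.blk x hx hx'
  · intro x y hx hx' hy hy' hxy
    rw [e1 x (by omega), e1 y (by omega)] at hxy
    exact hp.blkinj x y hx hx' hy hy' hxy
  · intro x hx hx'
    rw [e1 x (by omega)]
    exact hp.mid x hx hx'
  · intro ho
    rw [e1 s1 le_rfl]
    rcases hp.last ho with h2 | ⟨h2, h3⟩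
    · exact Or.inl h2
    · right
      refine ⟨h2, fun c hc hc' => ?_⟩
      rw [e3' c hc hc']
      exact h3 c hc hc'
  · intro c hc hc'
    rw [e3' c hc hc']
    exact hp.xge c hc hc'
  · intro c d hc hc' hd hd' hcd
    rw [e3' c hc hc', e3' d hd hd'] at hcd
    exact hp.xinj c d hc hc' hd hd' hcd
  · intro c y hc hc' hy
    rw [e3' c hc hc']
    have := hp.xavoid c y hc hc' hy
    omega

section quad

variable {N : ℕ} {n ord ty tid : Fin N → ℕ} {ps : ℕ → ℕ}

/-- the sum of two consecutive labels -/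
lemma r4_adj_sum5 {o s1 : ℕ} {k : ℤ} (hty : Ty4 n ty) (hT : Tid4 n ord ty tid ps)
    (hP : Ps5 o s1 (SO4 n ty) (CC4 ty) k ps) {i : Fin N} {t : ℕ} (ht : t + 1 < n i) :
    (ty i = 3 ∧ t = 0 ∧ ps (r4 n ord ty tid i t) + ps (r4 n ord ty tid i (t + 1)) =
      ps (SO4 n ty + tid i) + (SO4 n ty + CC4 ty + SH4 n ty + tid i)) ∨
    (((ty i = 2 ∧ t = 0) ∨ (ty i = 3 ∧ t = 1)) ∧
      ps (r4 n ord ty tid i t) + ps (r4 n ord ty tid i (t + 1)) =
      (SO4 n ty + CC4 ty + SH4 n ty + tid i) +
        (SO4 n ty + CC4 ty + pre ord (h4 n ty) i + 1)) ∨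
    (∃ a b, 1 ≤ a ∧ a ≤ h4 n ty i ∧ 1 ≤ b ∧ b ≤ l4 n ty i ∧
      a + b + t4 ty i + u4 ty i = t + 2 ∧ t + 2 ≤ 2 * a + sg4 ty i + 2 * u4 ty i ∧
      2 * a + sg4 ty i + 2 * u4 ty i ≤ t + 3 ∧ t + 1 + sg4 ty i ≤ 2 * (b + t4 ty i) ∧
      2 * (b + t4 ty i) ≤ t + 2 + sg4 ty i ∧
      ps (r4 n ord ty tid i t) + ps (r4 n ord ty tid i (t + 1)) =
        (SO4 n ty + CC4 ty + pre ord (h4 n ty) i + a) + ps (pre ord (l4 n ty) i + b)) := by
  have ri := hT.rng i
  rcases r4_adj (ord := ord) (tid := tid) hty ht with ⟨a1, a2, a3, a4⟩ | ⟨a1, a3, a4⟩ |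
    ⟨a, b, c1, c2, c3, c4, c5, c6, c7, c8, c9, ⟨a3, a4⟩ | ⟨a3, a4⟩⟩
  · left
    refine ⟨a1, a2, ?_⟩
    rw [a3, a4, hP.top (SO4 n ty + CC4 ty + SH4 n ty + tid i) (by omega)]
  · right
    left
    refine ⟨a1, ?_⟩
    rw [a3, a4, hP.top _ (by omega), hP.top _ (by omega)]
  · right
    right
    refine ⟨a, b, c1, c2, c3, c4, c5, c6, c7, c8, c9, ?_⟩
    rw [a3, a4, hP.top _ (by omega)]
  · right
    right
    refine ⟨a, b, c1, c2, c3, c4, c5, c6, c7, c8, c9, ?_⟩
    rw [a3, a4, hP.top (SO4 n ty + CC4 ty + pre ord (h4 n ty) i + a) (by omega)]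
    ring

lemma ps_ge5 {o s1 so cc : ℕ} {k : ℤ} (hP : Ps5 o s1 so cc k ps) {x : ℕ} (h1 : o < x)
    (h2 : x ≤ s1) : x ≤ ps x := by
  rcases Nat.lt_or_ge x s1 with h | h
  · rw [hP.mid x h1 h]
  · have : x = s1 := by omega
    subst this
    rcases hP.last h1 with h3 | ⟨h3, _⟩ <;> omega

/-- the legs which are not in `O` are before the legs in `O` -/
structure Last5 (n ord ty : Fin N → ℕ) (O : Finset (Fin N)) (s1 : ℕ) : Prop where
  one : ∀ i ∈ O, n i = 1
  last : ∀ i, i ∉ O → ∀ j ∈ O, ord i < ord j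
  sum : ∑ i ∈ univ.filter (fun i => i ∉ O), l4 n ty i = s1

lemma pre_tot5 {O : Finset (Fin N)} {s1 : ℕ} (hL : Last5 n ord ty O s1) {i : Fin N} (hi : i ∉ O) :
    pre ord (l4 n ty) i + l4 n ty i ≤ s1 := by
  have h1 : insert i (univ.filter (fun j => ord j < ord i)) ⊆ univ.filter (fun i => i ∉ O) := by
    intro j hj
    rw [mem_insert, mem_filter] at hj
    rw [mem_filter]
    refine ⟨mem_univ _, ?_⟩
    rcases hj with rfl | ⟨_, hj⟩
    · exact hi
    · intro hjO
      have := hL.last i hi j hjO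
      omega
  have h2 := Finset.sum_le_sum_of_subset (f := l4 n ty) h1
  rw [sum_insert (by simp), hL.sum] at h2
  unfold pre
  omega

lemma last_leg5 (hty : Ty4 n ty) {O : Finset (Fin N)} {s1 : ℕ} (hL : Last5 n ord ty O s1)
    {i : Fin N} (hi : i ∉ O) {b : ℕ} (hb : b ≤ l4 n ty i)
    (h : pre ord (l4 n ty) i + b = s1) :
    b = l4 n ty i ∧ pre ord (h4 n ty) i + h4 n ty i = SH4 n ty := by
  have pi1 := pre_tot5 hL hi
  refine ⟨by omega, ?_⟩
  have hsub : ∀ j, j ∉ insert i (univ.filter (fun j => ord j < ord i)) → j ∈ O := by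
    intro j hj
    by_contra hjO
    have h1 : insert j (insert i (univ.filter (fun l => ord l < ord i))) ⊆
        univ.filter (fun i => i ∉ O) := by
      intro x hx
      rw [mem_insert, mem_insert, mem_filter] at hx
      rw [mem_filter]
      refine ⟨mem_univ _, ?_⟩
      rcases hx with rfl | rfl | ⟨_, hx⟩
      · exact hjO
      · exact hi
      · intro hxO
        have := hL.last i hi x hxO
        omega
    have h2 := Finset.sum_le_sum_of_subset (f := l4 n ty) h1
    rw [sum_insert hj, sum_insert (by simp), hL.sum] at h2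
    have h3 := l4_pos hty j
    have h5 : pre ord (l4 n ty) i = ∑ j ∈ univ.filter (fun j => ord j < ord i), l4 n ty j := rfl
    omega
  have h6 : ∑ j ∈ insert i (univ.filter (fun j => ord j < ord i)), h4 n ty j = SH4 n ty := by
    unfold SH4
    apply Finset.sum_subset (subset_univ _)
    intro j _ hj
    have h7 := hL.one j (hsub j hj)
    have h8 := hty.four j
    unfold h4
    split_ifs with h9
    · have := h8 h9
      omega
    · omega
  rw [← h6, sum_insert (by simp)]
  unfold pre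
  ring

lemma sum5_inj {o s1 : ℕ} {k : ℤ} (hord : Function.Injective ord) (hty : Ty4 n ty)
    (hT : Tid4 n ord ty tid ps) (hP : Ps5 o s1 (SO4 n ty) (CC4 ty) k ps) (hoS : o ≤ s1)
    {O : Finset (Fin N)} (hL : Last5 n ord ty O s1)
    (hblk : ∀ i, (n i = 2 ∧ ty i = 0 ∧ pre ord (h4 n ty) i = pre ord (l4 n ty) i ∧
      pre ord (l4 n ty) i + 1 ≤ o) ∨ (o ≤ pre ord (h4 n ty) i ∧ o ≤ pre ord (l4 n ty) i))
    {i j : Fin N} {t s : ℕ} (ht : t + 1 < n i) (hs : s + 1 < n j)
    (h : ps (r4 n ord ty tid i t) + ps (r4 n ord ty tid i (t + 1)) =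
      ps (r4 n ord ty tid j s) + ps (r4 n ord ty tid j (s + 1))) : i = j ∧ t = s := by
  have d1 : SO4 n ty = ∑ i, l4 n ty i := rfl
  have d2 : SH4 n ty = ∑ i, h4 n ty i := rfl
  -- a mixed sum is different from a special sum
  have CA : ∀ i j t a b, t + 1 < n i → ty j = 3 → 1 ≤ a → a ≤ h4 n ty i → 1 ≤ b → b ≤ l4 n ty i →
      a + b + t4 ty i + u4 ty i = t + 2 → 2 * (b + t4 ty i) ≤ t + 2 + sg4 ty i →
      (SO4 n ty + CC4 ty + pre ord (h4 n ty) i + a) + ps (pre ord (l4 n ty) i + b) ≠
        ps (SO4 n ty + tid j) + (SO4 n ty + CC4 ty + SH4 n ty + tid j) := by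
    intro i j t a b ht hj a1 a2 b1 b2 hab hb he
    have hiO : i ∉ O := fun h => by
      have := hL.one i h
      omega
    have pi1 := pre_tot5 hL hiO
    have pi2 := pre_tot ord (h4 n ty) i
    have rj := hT.rng j (by omega)
    have rj3 := hT.rng3 j hj
    have hx := hP.xge (tid j) rj.1 rj3
    by_cases hx1 : pre ord (l4 n ty) i + b ≤ o
    · have := (hP.blk _ (by omega) hx1).1
      omega
    · by_cases hx2 : pre ord (l4 n ty) i + b < s1
      · rw [hP.mid _ (by omega) hx2] at he
        omega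
      · have hx3 : pre ord (l4 n ty) i + b = s1 := by omega
        obtain ⟨e1, e2⟩ := last_leg5 hty hL hiO b2 hx3
        rcases hP.last (by omega) with h3 | ⟨h3, h5⟩
        · rw [hx3, h3] at he
          omega
        · have h6 := h5 (tid j) rj.1 rj3
          rw [hx3, h3] at he
          have ha : a = h4 n ty i := by
            have h0 := hty.le i
            have g1 := hty.even i
            have g2 := hty.odd i
            have g3 := hty.three i
            have g5 := hty.four i
            have k1 : sg4 ty i = if ty i = 1 ∨ ty i = 2 then 1 else 0 := rfl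
            have k2 : t4 ty i = if 2 ≤ ty i then 1 else 0 := rfl
            have k3 : u4 ty i = if ty i = 3 then 1 else 0 := rfl
            have k4 : h4 n ty i = if ty i = 3 then n i / 2 - 1 else n i / 2 := rfl
            have k5 : l4 n ty i = if ty i = 1 then (n i + 1) / 2 else if ty i = 3 then n i / 2 - 1
              else n i / 2 := rfl
            split_ifs at k1 k2 k3 k4 k5 <;> omega
          omega
  have hps : ∀ i b, 1 ≤ b → b ≤ l4 n ty i → ps (pre ord (l4 n ty) i + b) ≤ SO4 n ty + CC4 ty := by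
    intro i b b1 b2
    have pi1 := pre_tot ord (l4 n ty) i
    exact (hP.rng _ (by omega) (by omega)).2
  have hiO : i ∉ O := fun h => by
    have := hL.one i h
    omega
  have hjO : j ∉ O := fun h => by
    have := hL.one j h
    omega
  have pi1 := pre_tot5 hL hiO
  have pi2 := pre_tot ord (h4 n ty) i
  have pj1 := pre_tot5 hL hjO
  have pj2 := pre_tot ord (h4 n ty) j
  have ri := hT.rng i
  have rj := hT.rng j
  have ri3 := hT.rng3 i
  have rj3 := hT.rng3 j
  rcases r4_adj_sum5 hty hT hP ht with ⟨a1, a2, a3⟩ | ⟨a1, a3⟩ |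
    ⟨a, b, c1, c2, c3, c4, c5, c6, c7, c8, c9, a3⟩ <;>
  rcases r4_adj_sum5 hty hT hP hs with ⟨b1, b2, b3⟩ | ⟨b1, b3⟩ |
    ⟨a', b', e1, e2, e3, e4, e5, e6, e7, e8, e9, b3⟩ <;>
  rw [a3, b3] at h
  · have h1 := hP.xinj (tid i) (tid j) (by omega) (by omega) (by omega) (by omega) (by omega)
    exact ⟨hT.inj i j (by omega) (by omega) h1, by omega⟩
  · exact absurd (by omega) (hT.avoid i j a1 (by omega))
  · exact absurd h.symm (CA j i s a' b' hs a1 e1 e2 e3 e4 e5 e9)
  · exact absurd (by omega) (hT.avoid j i b1 (by omega))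
  · have hij := hT.sum i j (by omega) (by omega) (by omega)
    subst hij
    exact ⟨rfl, by omega⟩
  · have := hps j b' e3 e4
    omega
  · exact absurd h (CA i j t a b ht b1 c1 c2 c3 c4 c5 c9)
  · have := hps i b c3 c4
    omega
  · rcases hblk i with ⟨f1, f2, f3, f4⟩ | ⟨f1, f2⟩ <;> rcases hblk j with ⟨g1, g2, g3, g4⟩ | ⟨g1, g2⟩
    · have k1 : t4 ty i = 0 := if_neg (by omega)
      have k2 : t4 ty j = 0 := if_neg (by omega)
      have k3 : u4 ty i = 0 := if_neg (by omega)
      have k4 : u4 ty j = 0 := if_neg (by omega)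
      have ha : a = 1 := by omega
      have hb : b = 1 := by omega
      have ha' : a' = 1 := by omega
      have hb' : b' = 1 := by omega
      subst ha hb ha' hb'
      have h1 := hP.blkinj _ _ (by omega) f4 (by omega) g4
        (by omega : pre ord (l4 n ty) i + 1 + ps (pre ord (l4 n ty) i + 1) =
          pre ord (l4 n ty) j + 1 + ps (pre ord (l4 n ty) j + 1))
      refine ⟨?_, by omega⟩
      rcases lt_trichotomy (ord i) (ord j) with hlt | hlt | hlt
      · have := pre_le ord (l4 n ty) hlt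
        omega
      · exact hord hlt
      · have := pre_le ord (l4 n ty) hlt
        omega
    · have k1 : t4 ty i = 0 := if_neg (by omega)
      have k3 : u4 ty i = 0 := if_neg (by omega)
      have hb : b = 1 := by omega
      subst hb
      have h1 := (hP.blk _ (by omega) f4).1
      have h2 := ps_ge5 hP (by omega : o < pre ord (l4 n ty) j + b') (by omega)
      omega
    · have k2 : t4 ty j = 0 := if_neg (by omega)
      have k4 : u4 ty j = 0 := if_neg (by omega)
      have hb' : b' = 1 := by omega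
      subst hb'
      have h1 := (hP.blk _ (by omega) g4).1
      have h2 := ps_ge5 hP (by omega : o < pre ord (l4 n ty) i + b) (by omega)
      omega
    · have hi2 := ps_ge5 hP (by omega : o < pre ord (l4 n ty) i + b) (by omega)
      have hj2 := ps_ge5 hP (by omega : o < pre ord (l4 n ty) j + b') (by omega)
      rcases lt_trichotomy (ord i) (ord j) with hlt | hlt | hlt
      · have q1 := pre_le ord (l4 n ty) hlt
        have q2 := pre_le ord (h4 n ty) hlt
        rw [hP.mid (pre ord (l4 n ty) i + b) (by omega) (by omega)] at h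
        omega
      · have := hord hlt
        subst this
        refine ⟨rfl, ?_⟩
        rcases lt_trichotomy t s with hts | hts | hts
        · rcases Nat.lt_or_ge b b' with hbb | hbb
          · rw [hP.mid (pre ord (l4 n ty) i + b) (by omega) (by omega)] at h
            omega
          · have : b = b' := by omega
            subst this
            omega
        · exact hts
        · rcases Nat.lt_or_ge b' b with hbb | hbb
          · rw [hP.mid (pre ord (l4 n ty) i + b') (by omega) (by omega)] at h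
            omega
          · have : b = b' := by omega
            subst this
            omega
      · have q1 := pre_le ord (l4 n ty) hlt
        have q2 := pre_le ord (h4 n ty) hlt
        rw [hP.mid (pre ord (l4 n ty) j + b') (by omega) (by omega)] at h
        omega

lemma sum5_ge {o s1 : ℕ} {k : ℤ} (hk : -1 ≤ k) (hty : Ty4 n ty)
    (hT : Tid4 n ord ty tid ps) (hP : Ps5 o s1 (SO4 n ty) (CC4 ty) k ps) (hoH : o ≤ SH4 n ty)
    {O : Finset (Fin N)} (hL : Last5 n ord ty O s1)
    (hblk : ∀ i, (n i = 2 ∧ ty i = 0 ∧ pre ord (h4 n ty) i = pre ord (l4 n ty) i ∧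
      pre ord (l4 n ty) i + 1 ≤ o) ∨ (o ≤ pre ord (h4 n ty) i ∧ o ≤ pre ord (l4 n ty) i))
    {i : Fin N} {t : ℕ} (ht : t + 1 < n i) :
    ((SO4 n ty + CC4 ty + o : ℕ) : ℤ) <
      k + ((ps (r4 n ord ty tid i t) + ps (r4 n ord ty tid i (t + 1)) : ℕ) : ℤ) := by
  have d1 : SO4 n ty = ∑ i, l4 n ty i := rfl
  have d2 : SH4 n ty = ∑ i, h4 n ty i := rfl
  have hiO : i ∉ O := fun h => by
    have := hL.one i h
    omega
  have pi1 := pre_tot5 hL hiO
  have pi2 := pre_tot ord (h4 n ty) i
  have ri := hT.rng i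
  have ri3 := hT.rng3 i
  rcases r4_adj_sum5 hty hT hP ht with ⟨a1, a2, a3⟩ | ⟨a1, a3⟩ |
    ⟨a, b, c1, c2, c3, c4, c5, c6, c7, c8, c9, a3⟩
  · rw [a3]
    have := hP.rng (SO4 n ty + tid i) (by omega) (by omega)
    omega
  · rw [a3]
    have h3 := l4_pos hty i
    omega
  · rw [a3]
    rcases hblk i with ⟨f1, f2, f3, f4⟩ | ⟨f1, f2⟩
    · have k1 : t4 ty i = 0 := if_neg (by omega)
      have k3 : u4 ty i = 0 := if_neg (by omega)
      have hb : b = 1 := by omega
      have ha : a = 1 := by omega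
      subst hb ha
      have h1 := (hP.blk _ (by omega) f4).2
      omega
    · have h2 := ps_ge5 hP (by omega : o < pre ord (l4 n ty) i + b) (by omega)
      omega

lemma sum5_le {o s1 : ℕ} {k : ℤ} (hty : Ty4 n ty)
    (hT : Tid4 n ord ty tid ps) (hP : Ps5 o s1 (SO4 n ty) (CC4 ty) k ps) (H1 : ℕ)
    (hH : ∀ i, 2 ≤ ty i → pre ord (h4 n ty) i + 1 ≤ H1)
    {i : Fin N} {t : ℕ} (ht : t + 1 < n i) :
    ps (r4 n ord ty tid i t) + ps (r4 n ord ty tid i (t + 1)) ≤
      2 * (SO4 n ty + CC4 ty) + SH4 n ty + TT4 ty + H1 := by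
  have d1 : SO4 n ty = ∑ i, l4 n ty i := rfl
  have d2 : SH4 n ty = ∑ i, h4 n ty i := rfl
  have pi1 := pre_tot ord (l4 n ty) i
  have pi2 := pre_tot ord (h4 n ty) i
  have ri := hT.rng i
  have ri3 := hT.rng3 i
  rcases r4_adj_sum5 hty hT hP ht with ⟨a1, a2, a3⟩ | ⟨a1, a3⟩ |
    ⟨a, b, c1, c2, c3, c4, c5, c6, c7, c8, c9, a3⟩
  · rw [a3]
    have := hP.rng (SO4 n ty + tid i) (by omega) (by omega)
    omega
  · rw [a3]
    have h3 := hH i (by omega)
    omega
  · rw [a3]
    have := hP.rng (pre ord (l4 n ty) i + b) (by omega) (by omega)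
    omega

end quad

/-- the labeling is good under several conditions -/
theorem good_quad5 {N : ℕ} {α : Type*} [DecidableEq α] (n ord ty tid : Fin N → ℕ) (ps : ℕ → ℕ)
    (o s1 : ℕ) (cen : Fin N → α) (k : ℤ) (hk : -1 ≤ k) (hord : Function.Injective ord)
    (hty : Ty4 n ty) (hT : Tid4 n ord ty tid ps) (hP : Ps5 o s1 (SO4 n ty) (CC4 ty) k ps)
    (hoS : o ≤ s1) (hoH : o ≤ SH4 n ty) (O : Finset (Fin N)) (hL : Last5 n ord ty O s1)
    (hblk : ∀ i, (n i = 2 ∧ ty i = 0 ∧ pre ord (h4 n ty) i = pre ord (l4 n ty) i ∧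
      pre ord (l4 n ty) i + 1 ≤ o) ∨ (o ≤ pre ord (h4 n ty) i ∧ o ≤ pre ord (l4 n ty) i))
    (hone : ∀ i, n i = 1 → ∃ j, j ≠ i ∧ cen j = cen i)
    (hsingle : ∀ j, (∀ j', cen j' = cen j → j' = j) →
      ps (r4 n ord ty tid j 0) ≤ SO4 n ty + CC4 ty + o)
    (H1 : ℕ) (hH : ∀ i, 2 ≤ ty i → pre ord (h4 n ty) i + 1 ≤ H1)
    (hroot : ∀ i j, (∃ i', i' ≠ i ∧ cen i' = cen i) → (∃ j', j' ≠ j ∧ cen j' = cen j) →
      rs cen (fun i t => k + ps (r4 n ord ty tid i t)) (cen i) =
        rs cen (fun i t => k + ps (r4 n ord ty tid i t)) (cen j) → cen i = cen j)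
    (hbig : ∀ j, (∃ j', j' ≠ j ∧ cen j' = cen j) →
      2 * k + ((2 * (SO4 n ty + CC4 ty) + SH4 n ty + TT4 ty + H1 : ℕ) : ℤ) <
        rs cen (fun i t => k + ps (r4 n ord ty tid i t)) (cen j)) :
    Good n cen k (fun i t => k + ps (r4 n ord ty tid i t)) := by
  have hvs : ∀ i t, vs n (fun i t => k + (ps (r4 n ord ty tid i t) : ℤ)) i t =
      if t + 1 < n i then 2 * k + ((ps (r4 n ord ty tid i t) + ps (r4 n ord ty tid i (t + 1)) : ℕ) : ℤ)
      else k + ps (r4 n ord ty tid i t) := by
    intro i t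
    unfold vs
    split_ifs
    · push_cast
      ring
    · rfl
  have hinj : ∀ i j t s, t < n i → s < n j →
      k + (ps (r4 n ord ty tid i t) : ℤ) = k + ps (r4 n ord ty tid j s) → i = j ∧ t = s := by
    intro i j t s ht hs h
    exact r4_inj hord hty hT ht hs (hP.inj _ _ (r4_pos hty hT ht) (r4_pos hty hT hs) (by omega))
  have hpspos : ∀ i t, t < n i → 1 ≤ ps (r4 n ord ty tid i t) := by
    intro i t ht
    have h1 := r4_pos hty hT ht
    rcases Nat.lt_or_ge (SO4 n ty + CC4 ty) (r4 n ord ty tid i t) with h2 | h2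
    · rw [hP.top _ h2]
      exact h1
    · exact (hP.rng _ h1 h2).1
  have hleaf : ∀ i t, t + 1 = n i → ps (r4 n ord ty tid i t) ≤ SO4 n ty + CC4 ty := by
    intro i t ht
    have h1 := r4_leaf (ord := ord) (tid := tid) hty ht
    exact (hP.rng _ (r4_pos hty hT (by omega)) (by omega)).2
  have hrs1 : ∀ j, (∀ j', cen j' = cen j → j' = j) →
      rs cen (fun i t => k + (ps (r4 n ord ty tid i t) : ℤ)) (cen j) =
        k + ps (r4 n ord ty tid j 0) := by
    intro j hex
    unfold rs
    have : (univ.filter fun x => cen x = cen j) = {j} := by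
      ext x
      simp only [mem_filter, mem_univ, true_and, mem_singleton]
      constructor
      · exact hex x
      · rintro rfl
        rfl
    rw [this, sum_singleton]
  have hdich : ∀ j, (∃ j', j' ≠ j ∧ cen j' = cen j) ∨ (∀ j', cen j' = cen j → j' = j) := by
    intro j
    by_cases hex : ∃ j', j' ≠ j ∧ cen j' = cen j
    · exact Or.inl hex
    · right
      intro j' hj'
      by_contra hne
      exact hex ⟨j', hne, hj'⟩
  refine ⟨?_, ?_, hinj, ?_, ?_, ?_⟩
  · intro i t ht
    have := hpspos i t ht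
    show k < k + (ps (r4 n ord ty tid i t) : ℤ)
    omega
  · intro i t ht
    have h1 := tot4 hty
    have h2 := r4_le hty hT ht
    have h3 := r4_pos hty hT ht
    show k + (ps (r4 n ord ty tid i t) : ℤ) ≤ _
    rcases Nat.lt_or_ge (SO4 n ty + CC4 ty) (r4 n ord ty tid i t) with h5 | h5
    · rw [hP.top _ h5]
      omega
    · have := (hP.rng _ h3 h5).2
      omega
  · intro i j t s ht hs h
    rw [hvs, hvs] at h
    split_ifs at h with h1 h2 h2
    · exact sum5_inj hord hty hT hP hoS hL hblk h1 h2 (by omega)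
    · have k1 := sum5_ge hk hty hT hP hoH hL hblk h1
      have k2 := hleaf j s (by omega)
      omega
    · have k1 := sum5_ge hk hty hT hP hoH hL hblk h2
      have k2 := hleaf i t (by omega)
      omega
    · exact hinj i j t s ht hs h
  · intro i j h
    rcases hdich i with hi | hi <;> rcases hdich j with hj | hj
    · exact hroot i j hi hj h
    · have h1 := hbig i hi
      rw [h, hrs1 j hj] at h1
      have h2 := hsingle j hj
      have h3 := l4_pos hty i
      have h5 := pre_tot ord (l4 n ty) i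
      have d1 : SO4 n ty = ∑ i, l4 n ty i := rfl
      omega
    · have h1 := hbig j hj
      rw [← h, hrs1 i hi] at h1
      have h2 := hsingle i hi
      have h3 := l4_pos hty i
      have h5 := pre_tot ord (l4 n ty) i
      have d1 : SO4 n ty = ∑ i, l4 n ty i := rfl
      omega
    · rw [hrs1 i hi, hrs1 j hj] at h
      rw [(hinj i j 0 0 (hty.pos i) (hty.pos j) h).1]
  · intro i j t ht h
    rw [hvs] at h
    rcases hdich j with hj | hj
    · have k0 := hbig j hj
      split_ifs at h with h1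
      · have k1 := sum5_le hty hT hP H1 hH h1
        omega
      · have k1 := hleaf i t (by omega)
        have h3 := l4_pos hty i
        have h5 := pre_tot ord (l4 n ty) i
        have d1 : SO4 n ty = ∑ i, l4 n ty i := rfl
        omega
    · rw [hrs1 j hj] at h
      have h2 := hsingle j hj
      split_ifs at h with h1
      · have k1 := sum5_ge hk hty hT hP hoH hL hblk h1
        omega
      · obtain ⟨h2, h3⟩ := hinj i j t 0 ht (hty.pos j) h
        subst h2
        obtain ⟨j', hj', hcj'⟩ := hone i (by omega)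
        exact hj' (hj j' hcj')

end Pool.SpC75
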