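import Pool.Agent.SpC75.Fam2
import Pool.Agent.SpC75.GoodH

/-!
# SpC75/Fam4 (MP_9fc547_co)

A spider forest in which the degree of every vertex of degree at least three plus the number of its
neighbours of degree at least two is at least five is `k`-shifted antimagic for every `k ≥ (p - 1) / 2`
and for every `k ≤ - m - 1 - (p - 1) / 2`, where `p` is the number of components which are paths with two
edges (if `p = 0`, for every `k ≥ -1` and every `k ≤ -m`).
-/

namespace Pool.SpC75

open Finset Pool.SpA

theorem fam4_pos {V : Type*} [Fintype V] (G : SimpleGraph V) (hG : IsSpiderForest G)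
    (hC : ∀ c, 3 ≤ (G.neighborSet c).ncard →
      5 ≤ (G.neighborSet c).ncard + {w | G.Adj c w ∧ 2 ≤ (G.neighborSet w).ncard}.ncard)
    (k : ℤ) (hk : -1 ≤ k ∧ (p3c G = 0 ∨ (p3c G : ℤ) ≤ 2 * k + 1)) : ShiftedAntimagic G k := by
  classical
  obtain ⟨N, L, hL⟩ := exists_legs G hG
  have hroots : ∀ j, {i | L.root i = L.root j}.ncard = dg L.root j := by
    intro j
    unfold dg
    rw [← Set.ncard_coe_finset]
    congr 1
    ext i
    simp
  have hgood : ∃ f, Good L.n L.root k f := by
    set E : Finset (Fin N) := univ.filter (fun i => (∀ j', L.root j' = L.root i → j' = i) ∧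
      L.n i = 2) with hEd
    have hEdef : ∀ i, i ∈ E ↔ (∀ j', L.root j' = L.root i → j' = i) ∧ L.n i = 2 := by
      intro i
      rw [hEd, mem_filter]
      exact ⟨fun h => h.2, fun h => ⟨mem_univ _, h⟩⟩
    have hEs := p3c_ge L E hEdef
    apply good_H L.n L.root k hk.1 L.pos L.one hL E hEdef (by omega)
    · intro j hj
      have h3 := dg_three L.root hL j hj
      have hdj : 3 ≤ (G.neighborSet (L.root j)).ncard := by
        rw [deg_root, hroots]
        exact h3
      refine (hC (L.root j) hdj).trans ?_
      have hcard : (G.neighborSet (L.root j)).ncard =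
          (univ.filter fun i => L.root i = L.root j).card := by
        rw [deg_root, ← Set.ncard_coe_finset]
        congr 1
        ext i
        simp
      rw [hcard]
      refine Nat.add_le_add_left ?_ _
      have hsub : {w | G.Adj (L.root j) w ∧ 2 ≤ (G.neighborSet w).ncard} ⊆
          (((univ.filter fun i => L.root i = L.root j ∧ 2 ≤ L.n i).image
            fun i => L.vert i 0 : Finset V) : Set V) := by
        rintro w ⟨hw1, hw2⟩
        have hw' : w ∈ G.neighborSet (L.root j) := hw1
        rw [nb_root] at hw'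
        obtain ⟨i, hi, rfl⟩ := hw'
        rw [mem_coe, mem_image]
        refine ⟨i, ?_, rfl⟩
        rw [deg_vert L (L.pos i)] at hw2
        rw [mem_filter]
        refine ⟨mem_univ _, hi, ?_⟩
        by_contra hne
        rw [if_neg (by omega)] at hw2
        omega
      refine (Set.ncard_le_ncard hsub (Set.toFinite _)).trans ?_
      rw [Set.ncard_coe_finset]
      exact card_image_le
  obtain ⟨f, hf⟩ := hgood
  exact transfer G L k f hf

theorem fam4 {V : Type*} [Fintype V] (G : SimpleGraph V) (hG : IsSpiderForest G)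
    (hC : ∀ c, 3 ≤ (G.neighborSet c).ncard →
      5 ≤ (G.neighborSet c).ncard + {w | G.Adj c w ∧ 2 ≤ (G.neighborSet w).ncard}.ncard)
    (k : ℤ) (hk : (-1 ≤ k ∧ (p3c G = 0 ∨ (p3c G : ℤ) ≤ 2 * k + 1)) ∨
      (-1 ≤ - k - G.edgeSet.ncard - 1 ∧
        (p3c G = 0 ∨ (p3c G : ℤ) ≤ 2 * (- k - G.edgeSet.ncard - 1) + 1))) :
    ShiftedAntimagic G k := by
  rcases hk with hk | hk
  · exact fam4_pos G hG hC k hk
  · exact neg_shift G k (fam4_pos G hG hC _ hk)

end Pool.SpC75
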