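import Pool.Agent.SpA.Transfer
import Pool.Agent.SpC75.Legs2

/-!
# SpC75/Dist (MP_9fc547_co)

Distances, components and degrees in a graph which is described by legs.
-/

namespace Pool.SpC75

open Finset Pool.SpA SimpleGraph

variable {V : Type*} {G : SimpleGraph V} {N : ℕ}

lemma prev_adj (L : Legs G N) {i : Fin N} {t : ℕ} (ht : t < L.n i) :
    G.Adj (L.prev i t) (L.vert i t) := by
  rw [L.adj_iff]
  exact ⟨i, t, ht, rfl⟩

lemma walk_vert (L : Legs G N) (i : Fin N) : ∀ t, t < L.n i →
    ∃ W : G.Walk (L.root i) (L.vert i t), W.length = t + 1 := by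
  intro t
  induction t with
  | zero =>
    intro ht
    have h := prev_adj L ht
    have h2 : L.prev i 0 = L.root i := by simp [Legs.prev]
    rw [h2] at h
    exact ⟨h.toWalk, rfl⟩
  | succ t ih =>
    intro ht
    obtain ⟨W, hW⟩ := ih (by omega)
    have h := prev_adj L ht
    have h2 : L.prev i (t + 1) = L.vert i t := by simp [Legs.prev]
    rw [h2] at h
    exact ⟨W.concat h, by rw [Walk.length_concat, hW]⟩

lemma exists_dep (L : Legs G N) : ∃ dep : V → ℕ, (∀ i, dep (L.root i) = 0) ∧
    (∀ i t, t < L.n i → dep (L.vert i t) = t + 1) ∧ ∀ u v, G.Adj u v → dep v ≤ dep u + 1 := by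
  classical
  have h1 : ∀ v, ∃ d : ℕ, (∀ i, L.root i = v → d = 0) ∧
      ∀ i t, t < L.n i → L.vert i t = v → d = t + 1 := by
    intro v
    rcases L.cover v with ⟨i, hi⟩ | ⟨i, t, ht, hi⟩
    · exact ⟨0, fun _ _ => rfl, fun j s hs hj => absurd (hi.trans hj.symm) (L.root_ne i j s hs)⟩
    · refine ⟨t + 1, fun j hj => absurd (hj.trans hi.symm) (L.root_ne j i t ht), ?_⟩
      intro j s hs hj
      have := (L.inj i j t s ht hs (hi.trans hj.symm)).2
      omega
  choose dep hd1 hd2 using h1
  have k1 : ∀ i, dep (L.root i) = 0 := fun i => hd1 _ i rfl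
  have k2 : ∀ i t, t < L.n i → dep (L.vert i t) = t + 1 := fun i t ht => hd2 _ i t ht rfl
  have k3 : ∀ i t, t < L.n i → dep (L.prev i t) = t := by
    intro i t ht
    unfold Legs.prev
    split_ifs with h0
    · rw [k1, h0]
    · rw [k2 i (t - 1) (by omega)]
      omega
  refine ⟨dep, k1, k2, ?_⟩
  intro u v huv
  rw [L.adj_iff] at huv
  obtain ⟨i, t, ht, h⟩ := huv
  rw [Sym2.eq_iff] at h
  rcases h with ⟨h1, h2⟩ | ⟨h1, h2⟩
  · rw [h1, h2, k2 i t ht, k3 i t ht]
  · rw [h1, h2, k2 i t ht, k3 i t ht]
    omega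

lemma dist_vert (L : Legs G N) {i : Fin N} {t : ℕ} (ht : t < L.n i) :
    G.dist (L.root i) (L.vert i t) = t + 1 := by
  obtain ⟨W, hW⟩ := walk_vert L i t ht
  obtain ⟨dep, hd1, hd2, hd3⟩ := exists_dep L
  have key : ∀ (x y : V) (W : G.Walk x y), dep y ≤ dep x + W.length := by
    intro x y W
    induction W with
    | nil => simp
    | cons h W ih =>
      have := hd3 _ _ h
      rw [Walk.length_cons]
      omega
  have h1 : G.dist (L.root i) (L.vert i t) ≤ t + 1 := by
    rw [← hW]
    exact dist_le W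
  obtain ⟨W', hW'⟩ := W.reachable.exists_walk_length_eq_dist
  have h2 := key _ _ W'
  rw [hd1, hd2 i t ht] at h2
  omega

lemma reach_vert (L : Legs G N) {i : Fin N} {t : ℕ} (ht : t < L.n i) :
    G.Reachable (L.root i) (L.vert i t) := by
  obtain ⟨W, _⟩ := walk_vert L i t ht
  exact W.reachable

/-- the component of a root -/
lemma comp_root (L : Legs G N) (j : Fin N) (v : V) (h : G.Reachable (L.root j) v) :
    v = L.root j ∨ ∃ i t, L.root i = L.root j ∧ t < L.n i ∧ L.vert i t = v := by
  have key : ∀ (x y : V) (W : G.Walk x y),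
      (x = L.root j ∨ ∃ i t, L.root i = L.root j ∧ t < L.n i ∧ L.vert i t = x) →
      (y = L.root j ∨ ∃ i t, L.root i = L.root j ∧ t < L.n i ∧ L.vert i t = y) := by
    intro x y W
    induction W with
    | nil => exact id
    | cons h W ih =>
      rename_i x z y
      intro hx
      apply ih
      rw [L.adj_iff] at h
      obtain ⟨i, t, ht, h⟩ := h
      rw [Sym2.eq_iff] at h
      rcases h with ⟨h1, h2⟩ | ⟨h1, h2⟩
      · right
        refine ⟨i, t, ?_, ht, h2.symm⟩
        unfold Legs.prev at h1
        split_ifs at h1 with h0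
        · rcases hx with hx | ⟨i', t', hi', ht', hx⟩
          · rw [← h1, hx]
          · exact absurd (h1.symm.trans hx.symm) (L.root_ne i i' t' ht')
        · rcases hx with hx | ⟨i', t', hi', ht', hx⟩
          · exact absurd (hx.symm.trans h1) (L.root_ne j i (t - 1) (by omega))
          · have := (L.inj i' i t' (t - 1) ht' (by omega) (hx.trans h1)).1
            rw [← this]
            exact hi'
      · have hi : L.root i = L.root j := by
          rcases hx with hx | ⟨i', t', hi', ht', hx⟩
          · exact absurd (hx.symm.trans h1) (L.root_ne j i t ht)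
          · have := (L.inj i' i t' t ht' ht (hx.trans h1)).1
            rw [← this]
            exact hi'
        unfold Legs.prev at h2
        split_ifs at h2 with h0
        · left
          rw [h2, hi]
        · right
          exact ⟨i, t - 1, hi, by omega, h2.symm⟩
  obtain ⟨W⟩ := h
  exact key _ _ W (Or.inl rfl)

/-- neighbours of `vert i t` -/
lemma nb_vert (L : Legs G N) {i : Fin N} {t : ℕ} (ht : t < L.n i) :
    G.neighborSet (L.vert i t) = if t + 1 < L.n i then {L.prev i t, L.vert i (t + 1)} else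
      {L.prev i t} := by
  ext w
  rw [mem_neighborSet, L.adj_iff]
  split_ifs with h1
  · rw [Set.mem_insert_iff, Set.mem_singleton_iff]
    constructor
    · rintro ⟨j, s, hs, h⟩
      rw [Sym2.eq_iff] at h
      rcases h with ⟨h2, h3⟩ | ⟨h2, h3⟩
      · obtain ⟨k1, k2, k3⟩ := L.prev_ne hs ht h2.symm
        right
        rw [h3, k1]
        congr 1
        omega
      · obtain ⟨k1, k2⟩ := L.inj i j t s ht hs h2
        left
        rw [h3, k1, k2]
    · rintro (h | h)
      · exact ⟨i, t, ht, by rw [h, Sym2.eq_swap]⟩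
      · refine ⟨i, t + 1, h1, ?_⟩
        rw [h]
        simp [Legs.prev]
  · rw [Set.mem_singleton_iff]
    constructor
    · rintro ⟨j, s, hs, h⟩
      rw [Sym2.eq_iff] at h
      rcases h with ⟨h2, h3⟩ | ⟨h2, h3⟩
      · obtain ⟨k1, k2, k3⟩ := L.prev_ne hs ht h2.symm
        subst k1
        omega
      · obtain ⟨k1, k2⟩ := L.inj i j t s ht hs h2
        rw [h3, k1, k2]
    · intro h
      exact ⟨i, t, ht, by rw [h, Sym2.eq_swap]⟩

lemma deg_vert (L : Legs G N) {i : Fin N} {t : ℕ} (ht : t < L.n i) :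
    (G.neighborSet (L.vert i t)).ncard = if t + 1 < L.n i then 2 else 1 := by
  rw [nb_vert L ht]
  split_ifs with h1
  · apply Set.ncard_pair
    intro h
    have := L.prev_ne ht h1 h
    omega
  · exact Set.ncard_singleton _

/-- neighbours of a root -/
lemma nb_root (L : Legs G N) (j : Fin N) :
    G.neighborSet (L.root j) = (fun i => L.vert i 0) '' {i | L.root i = L.root j} := by
  ext w
  rw [mem_neighborSet, L.adj_iff, Set.mem_image]
  constructor
  · rintro ⟨i, t, ht, h⟩
    rw [Sym2.eq_iff] at h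
    rcases h with ⟨h1, h2⟩ | ⟨h1, h2⟩
    · by_cases h0 : t = 0
      · subst h0
        exact ⟨i, by rw [Set.mem_setOf_eq, h1]; simp [Legs.prev], h2.symm⟩
      · exfalso
        have h3 : L.root j = L.vert i (t - 1) := by
          rw [h1]; simp [Legs.prev, h0]
        exact L.root_ne j i (t - 1) (by omega) h3
    · exact absurd h1 (L.root_ne j i t ht)
  · rintro ⟨i, h1, h2⟩
    refine ⟨i, 0, L.pos i, ?_⟩
    rw [Set.mem_setOf_eq] at h1
    rw [← h1, ← h2]
    simp [Legs.prev]

lemma deg_root (L : Legs G N) (j : Fin N) :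
    (G.neighborSet (L.root j)).ncard = {i | L.root i = L.root j}.ncard := by
  rw [nb_root]
  apply Set.ncard_image_of_injOn
  intro a _ b _ hab
  exact (L.inj a b 0 0 (L.pos a) (L.pos b) hab).1

end Pool.SpC75
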