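import Pool.Agent.SpC75.Tri
import Pool.Agent.SpC75.GoodB
import Pool.Agent.SpC75.GreedyOrd

/-!
# SpC75/GoodD (MP_9fc547_co)

If every root with at least three legs has `e` legs of even length and `q` legs of odd length at least
three with `2 q + e ≥ 3`, and the path components with an even number of edges have `p` edges, then there
is a good labeling for every `k ≥ p / 2 - 1`.
-/

namespace Pool.SpC75

open Finset Pool.SpA

/-- the class of the leg at its root: even, length one, other odd -/
def scl {N : ℕ} (n : Fin N → ℕ) (i : Fin N) : ℕ :=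
  if n i % 2 = 0 then 0 else if n i = 1 then 1 else 2

lemma exists_special {N : ℕ} {α : Type*} [DecidableEq α] (n : Fin N → ℕ) (cen : Fin N → α) :
    ∃ sp : Fin N → Fin N, (∀ i, cen (sp i) = cen i) ∧ (∀ i j, cen i = cen j → sp i = sp j) ∧
      (∀ i j, cen j = cen i → scl n (sp i) ≤ scl n j) := by
  have h : ∀ j : Fin N, ∃ s, cen s = cen j ∧ ∀ i, cen i = cen j → scl n s ≤ scl n i := by
    intro j
    obtain ⟨s, hs, hmin⟩ := Finset.exists_min_image (univ.filter fun l => cen l = cen j)
      (fun l => scl n l) ⟨j, by simp⟩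
    exact ⟨s, (mem_filter.1 hs).2, fun i hi => hmin i (mem_filter.2 ⟨mem_univ _, hi⟩)⟩
  choose s0 hs1 hs2 using h
  refine ⟨fun j => s0 (rep cen j), fun i => ?_, fun i j hij => ?_, fun i j hij => ?_⟩
  · rw [hs1, cen_rep cen]
  · show s0 (rep cen i) = s0 (rep cen j)
    rw [rep_eq cen hij]
  · exact hs2 _ _ (by rw [cen_rep cen, hij])

lemma z3_congr {N : ℕ} (n ord ord' ty : Fin N → ℕ) (i : Fin N) (t : ℕ)
    (h : univ.filter (fun j => ord j < ord i) = univ.filter (fun j => ord' j < ord' i)) :
    z3 n ord ty i t = z3 n ord' ty i t := by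
  unfold z3 pre
  rw [h]

theorem good_D {N : ℕ} {α : Type*} [DecidableEq α] (n : Fin N → ℕ) (cen : Fin N → α) (k : ℤ)
    (hk : -1 ≤ k) (hpos : ∀ i, 1 ≤ n i)
    (hone : ∀ i, n i = 1 → ∃ j, j ≠ i ∧ cen j = cen i)
    (htwo : ∀ i j, i ≠ j → cen i = cen j → ∃ l, l ≠ i ∧ l ≠ j ∧ cen l = cen i)
    (E : Finset (Fin N)) (hEdef : ∀ i, i ∈ E ↔ (∀ j', cen j' = cen i → j' = i) ∧ n i % 2 = 0)
    (hE : ((∑ i ∈ E, n i : ℕ) : ℤ) ≤ 2 * k + 2)
    (hcen : ∀ j, (∃ j', j' ≠ j ∧ cen j' = cen j) →
      3 ≤ 2 * (univ.filter fun i => cen i = cen j ∧ n i % 2 = 1 ∧ 3 ≤ n i).card +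
        (univ.filter fun i => cen i = cen j ∧ n i % 2 = 0).card) :
    ∃ f, Good n cen k f := by
  classical
  obtain ⟨sp, hsp1, hsp2, hsp3⟩ := exists_special n cen
  set M : Fin N → Prop := fun j => ∃ j', j' ≠ j ∧ cen j' = cen j with hM
  have hMc : ∀ i j, cen i = cen j → M j → M i := by
    intro i j hij hj
    by_cases h : i = j
    · rw [h]; exact hj
    · exact ⟨j, fun hh => h hh.symm, hij.symm⟩
  set S : Finset (Fin N) := univ.filter (fun i => sp i = i ∧ M i) with hS
  have hSmem : ∀ i, i ∈ S ↔ sp i = i ∧ M i := by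
    intro i
    rw [hS, mem_filter]
    exact ⟨fun h => h.2, fun h => ⟨mem_univ _, h⟩⟩
  have hspS : ∀ i, M i → sp i ∈ S := by
    intro i hi
    rw [hSmem]
    exact ⟨hsp2 _ _ (hsp1 i), hMc _ _ (hsp1 i) hi⟩
  have hSuniq : ∀ a s, a ∈ S → s ∈ S → cen a = cen s → a = s := by
    intro a s ha hs hc
    rw [hSmem] at ha hs
    rw [← ha.1, ← hs.1]
    exact hsp2 _ _ hc
  set ty : Fin N → ℕ := fun i => if n i % 2 = 0 then 0 else if (n i = 1 ∨ ¬ M i ∨ i ∈ S) then 1
    else 2 with hty0
  have hty_def : ∀ i, ty i = if n i % 2 = 0 then 0 else if (n i = 1 ∨ ¬ M i ∨ i ∈ S) then 1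
    else 2 := fun i => rfl
  have hty_even : ∀ i, ty i = 0 ↔ n i % 2 = 0 := by
    intro i
    rw [hty_def]
    split_ifs with h1 h2 <;> simp [h1]
  have hty_two : ∀ i, ty i = 2 ↔ n i % 2 = 1 ∧ n i ≠ 1 ∧ M i ∧ i ∉ S := by
    intro i
    rw [hty_def]
    split_ifs with h1 h2
    · constructor
      · intro h
        exact absurd h (by norm_num)
      · rintro ⟨h, _⟩
        rw [h1] at h
        exact absurd h (by norm_num)
    · constructor
      · intro h
        exact absurd h (by norm_num)
      · rintro ⟨_, h3, h4, h5⟩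
        rcases h2 with h2 | h2 | h2
        · exact absurd h2 h3
        · exact absurd h4 h2
        · exact absurd h2 h5
    · push Not at h2
      exact ⟨fun _ => ⟨by omega, h2.1, h2.2.1, h2.2.2⟩, fun _ => rfl⟩
  have hty_le : ∀ i, ty i ≤ 2 := by
    intro i
    rw [hty_def]
    split_ifs <;> omega
  have hty : TyOK n ty := by
    refine ⟨hty_le, fun i h => (hty_even i).1 h, ?_, ?_, hpos⟩
    · intro i h
      have : ¬ n i % 2 = 0 := fun hh => h ((hty_even i).2 hh)
      omega
    · intro i h
      have h1 := (hty_two i).1 h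
      have h2 := hpos i
      omega
  have hl1 : ∀ i, 1 ≤ l3 n ty i := by
    intro i
    have h1 := hpos i
    have h2 := hty.even i
    have g3 := hty.three i
    have h4 := hty_le i
    unfold l3
    split_ifs <;> omega
  have hh1 : ∀ i, ty i ≠ 1 → 1 ≤ h3 n i := by
    intro i hi
    have h1 := hpos i
    have h2 := hty.even i
    have g3 := hty.three i
    have h4 := hty_le i
    show 1 ≤ n i / 2
    by_cases h5 : ty i = 0
    · have := h2 h5
      omega
    · have := g3 (by omega)
      omega
  -- phases
  have hEM : ∀ i, i ∈ E → ¬ M i := by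
    rintro i hi ⟨j', hj', hcj'⟩
    exact hj' (((hEdef i).1 hi).1 j' hcj')
  set ph : Fin N → ℕ := fun i => if i ∈ E then 0 else if (ty i = 2 ∨ ¬ M i) then 1 else 2 with hph
  have hph_def : ∀ i, ph i = if i ∈ E then 0 else if (ty i = 2 ∨ ¬ M i) then 1 else 2 :=
    fun i => rfl
  have hphE : ∀ i, ph i = 0 ↔ i ∈ E := by
    intro i
    rw [hph_def]
    split_ifs with h1 h2 <;> simp [h1]
  have hph0 : ∀ i, ph i ≤ 1 ↔ (ty i = 2 ∨ ¬ M i) := by
    intro i
    rw [hph_def]
    split_ifs with h1 h2
    · exact ⟨fun _ => Or.inr (hEM i h1), fun _ => by norm_num⟩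
    · exact ⟨fun _ => h2, fun _ => le_refl _⟩
    · exact ⟨fun h => absurd h (by norm_num), fun h => absurd h h2⟩
  have hph_le : ∀ i, ph i = 0 ∨ ph i = 1 ∨ ph i = 2 := by
    intro i
    rw [hph_def]
    split_ifs <;> simp
  set ord0 : Fin N → ℕ := fun i => if i ∈ S then 3 * N else ph i * N + i with hord0
  have ho0 : ∀ i, ord0 i = if i ∈ S then 3 * N else ph i * N + i := fun i => rfl
  set b : Fin N → ℤ := fun s => ∑ a ∈ (univ.filter fun a => cen a = cen s).erase s,
    (k + (z3 n ord0 ty a 0 : ℤ)) with hb
  set α0 : ℤ := k + SL n ty + ((∑ j ∈ univ.filter (fun j => j ∉ S), h3 n j : ℕ) : ℤ) + 1 with hα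
  set β0 : ℤ := k + ((∑ j ∈ univ.filter (fun j => j ∉ S), l3 n ty j : ℕ) : ℤ) + 1 with hβ
  have hlow : ∃ low : ℤ, ∀ i ∈ S, low < b i + if ty i = 0 then α0 else β0 := by
    refine ⟨- ∑ i, |b i + if ty i = 0 then α0 else β0| - 1, fun i _ => ?_⟩
    have h1 : |b i + if ty i = 0 then α0 else β0| ≤
        ∑ i, |b i + if ty i = 0 then α0 else β0| :=
      Finset.single_le_sum (f := fun i => |b i + if ty i = 0 then α0 else β0|)
        (fun _ _ => abs_nonneg _) (mem_univ i)
    have h2 := neg_abs_le (b i + if ty i = 0 then α0 else β0)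
    linarith
  obtain ⟨low, hlow⟩ := hlow
  obtain ⟨ρ, hρ1, _, hρ3⟩ := greedy_ord b (fun i => ty i = 0) (h3 n) (l3 n ty) hl1
    (fun i hi => hh1 i (by omega)) S.card S α0 β0 low rfl hlow
  set ord : Fin N → ℕ := fun i => if i ∈ S then 3 * N + ρ i else ph i * N + i with hord
  have ho : ∀ i, ord i = if i ∈ S then 3 * N + ρ i else ph i * N + i := fun i => rfl
  have hin : ∀ i, i ∉ S → ord i < 3 * N ∧ ord i = ph i * N + i := by
    intro i hi
    have h1 := i.2
    rw [ho, if_neg hi]
    rcases hph_le i with h | h | h <;> rw [h] <;> omega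
  have hinS : ∀ i, i ∈ S → ord i = 3 * N + ρ i := by
    intro i hi
    rw [ho, if_pos hi]
  have hordinj : Function.Injective ord := by
    intro i j hij
    by_cases hi : i ∈ S <;> by_cases hj : j ∈ S
    · rw [hinS i hi, hinS j hj] at hij
      exact hρ1 i hi j hj (by omega)
    · rw [hinS i hi] at hij
      have := hin j hj
      omega
    · rw [hinS j hj] at hij
      have := hin i hi
      omega
    · rw [(hin i hi).2, (hin j hj).2] at hij
      have h1 := i.2
      have h2 := j.2
      apply Fin.ext
      rcases hph_le i with h3 | h3 | h3 <;> rcases hph_le j with h4 | h4 | h4 <;>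
        rw [h3, h4] at hij <;> omega
  have hpreN : ∀ a, a ∉ S → univ.filter (fun j => ord j < ord a) =
      univ.filter (fun j => ord0 j < ord0 a) := by
    intro a ha
    ext j
    simp only [mem_filter, mem_univ, true_and]
    have h1 := hin a ha
    have h2 : ord0 a = ph a * N + a := by rw [ho0, if_neg ha]
    by_cases hj : j ∈ S
    · rw [hinS j hj, show ord0 j = 3 * N by rw [ho0, if_pos hj], h2]
      omega
    · rw [(hin j hj).2, show ord0 j = ph j * N + j by rw [ho0, if_neg hj], h1.2, h2]
  have hpreS : ∀ (g : Fin N → ℕ) (s : Fin N), s ∈ S → pre ord g s =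
      ∑ j ∈ univ.filter (fun j => j ∉ S), g j + ∑ j ∈ S.filter (fun j => ρ j < ρ s), g j := by
    intro g s hs
    unfold pre
    rw [← sum_union]
    · apply sum_congr _ (fun _ _ => rfl)
      ext j
      simp only [mem_filter, mem_univ, true_and, mem_union]
      rw [hinS s hs]
      by_cases hj : j ∈ S
      · rw [hinS j hj]
        constructor
        · intro h; exact Or.inr ⟨hj, by omega⟩
        · rintro (h | ⟨_, h⟩)
          · exact absurd hj h
          · omega
      · have := hin j hj
        constructor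
        · intro _; exact Or.inl hj
        · intro _; omega
    · rw [Finset.disjoint_left]
      intro x hx hx'
      exact (mem_filter.1 hx).2 (mem_filter.1 hx').1
  -- phase one
  set P : Finset (Fin N) := univ.filter (fun j => j ∉ S ∧ ph j ≤ 1) with hP
  have hPmem : ∀ j, j ∈ P ↔ j ∉ S ∧ ph j ≤ 1 := by
    intro j
    rw [hP, mem_filter]
    exact ⟨fun h => h.2, fun h => ⟨mem_univ _, h⟩⟩
  have hTP : ∀ j, ty j = 2 → j ∈ P := by
    intro j hj
    rw [hPmem, hph0]
    exact ⟨((hty_two j).1 hj).2.2.2, Or.inl hj⟩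
  have hpre_ge : ∀ (g : Fin N → ℕ) (i : Fin N), i ∉ P → ∑ j ∈ P, g j ≤ pre ord g i := by
    intro g i hi
    unfold pre
    apply Finset.sum_le_sum_of_subset
    intro j hj
    rw [hPmem] at hj
    rw [mem_filter]
    refine ⟨mem_univ _, ?_⟩
    have h2 := j.2
    have h1 : ord j < 2 * N := by
      rw [(hin j hj.1).2]
      rcases hph_le j with h | h | h
      · rw [h]
        omega
      · rw [h]
        omega
      · have := hj.2
        omega
    by_cases hiS : i ∈ S
    · rw [hinS i hiS]
      omega
    · have h3 : ph i = 2 := by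
        rcases hph_le i with h | h | h
        · exact absurd ((hPmem i).2 ⟨hiS, by omega⟩) hi
        · exact absurd ((hPmem i).2 ⟨hiS, by omega⟩) hi
        · exact h
      rw [(hin i hiS).2, h3]
      omega
  have hpre_le : ∀ (g : Fin N → ℕ) (i : Fin N), i ∈ P → pre ord g i + g i ≤ ∑ j ∈ P, g j := by
    intro g i hi
    have h0 := (hPmem i).1 hi
    have h1 : insert i (univ.filter (fun j => ord j < ord i)) ⊆ P := by
      intro j hj
      rw [mem_insert, mem_filter] at hj
      rcases hj with rfl | ⟨_, hj⟩
      · exact hi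
      · have h2 := i.2
        have hi2 : ord i < 2 * N := by
          rw [(hin i h0.1).2]
          rcases hph_le i with h | h | h
          · rw [h]
            omega
          · rw [h]
            omega
          · have := h0.2
            omega
        have hjS : j ∉ S := by
          intro hjS
          rw [hinS j hjS] at hj
          omega
        rw [hPmem]
        refine ⟨hjS, ?_⟩
        rw [(hin j hjS).2] at hj
        rcases hph_le j with h | h | h
        · omega
        · omega
        · rw [h] at hj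
          omega
    have h2 := Finset.sum_le_sum_of_subset (f := g) h1
    rw [sum_insert (by simp)] at h2
    unfold pre
    omega
  have hST : ∀ g : Fin N → ℕ, (∀ i, ty i = 2 → 1 ≤ g i) → ST ty ≤ ∑ j ∈ P, g j := by
    intro g hg
    have h1 : ST ty = ∑ j ∈ univ.filter (fun j => ty j = 2), 1 := by
      unfold ST t3
      rw [sum_filter]
    rw [h1]
    calc ∑ j ∈ univ.filter (fun j => ty j = 2), 1
        ≤ ∑ j ∈ univ.filter (fun j => ty j = 2), g j :=
          sum_le_sum fun j hj => hg j (mem_filter.1 hj).2
      _ ≤ ∑ j ∈ P, g j := by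
          apply Finset.sum_le_sum_of_subset
          intro j hj
          exact hTP j (mem_filter.1 hj).2
  set H1 : ℕ := ∑ j ∈ P, h3 n j with hH1
  have hSTH : ST ty ≤ H1 := hST _ fun i hi => hh1 i (by omega)
  have hSTL : ST ty ≤ ∑ j ∈ P, l3 n ty j := hST _ fun i _ => hl1 i
  have hHS : H1 ≤ SH n := Finset.sum_le_sum_of_subset (subset_univ _)
  have hSLH : SH n ≤ SL n ty := by
    unfold SH SL
    apply sum_le_sum
    intro i _
    unfold h3 l3
    split_ifs <;> omega
  -- labels at the roots of the legs at a proper root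
  have hz0 : ∀ a, ty a = 0 → M a → SL n ty + H1 + 1 ≤ z3 n ord ty a 0 := by
    intro a ha hMa
    have h1 : sg ty a = 0 := if_pos ha
    have h2 := z3_high (ord := ord) hty (hpos a) (fun h => by omega)
      (by rw [h1] : (0 + sg ty a) % 2 = 0)
    have h3' := hpre_ge (h3 n) a (by
      rw [hPmem, hph0]
      rintro ⟨_, h | h⟩
      · omega
      · exact h hMa)
    omega
  have hz2 : ∀ a, ty a = 2 → SL n ty + SH n + 1 ≤ z3 n ord ty a 0 := by
    intro a ha
    rw [z3_top ha]
    omega
  have hz1 : ∀ a, ty a = 1 → M a → ST ty + 1 ≤ z3 n ord ty a 0 := by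
    intro a ha hMa
    have h1 : sg ty a = 1 := if_neg (by omega)
    have h2 := z3_low (ord := ord) hty (hpos a) (fun h => by omega)
      (by rw [h1]; norm_num : (0 + sg ty a) % 2 ≠ 0)
    have h3' := hpre_ge (l3 n ty) a (by
      rw [hPmem, hph0]
      rintro ⟨_, h | h⟩
      · omega
      · exact h hMa)
    omega
  set w : Fin N → ℕ := fun a => if ty a = 0 then SL n ty + H1 else if ty a = 2 then
    SL n ty + SH n else ST ty with hw
  have hwd : ∀ a, w a = if ty a = 0 then SL n ty + H1 else if ty a = 2 then
    SL n ty + SH n else ST ty := fun a => rfl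
  have hwz : ∀ a, M a → w a + 1 ≤ z3 n ord ty a 0 := by
    intro a ha
    rw [hwd]
    split_ifs with h1 h2
    · exact hz0 a h1 ha
    · exact hz2 a h2
    · have := hty_le a
      exact hz1 a (by omega) ha
  have hwST : ∀ a, ST ty ≤ w a := by
    intro a
    rw [hwd]
    split_ifs <;> omega
  -- three legs which make the root sum large
  have hthree : ∀ j, M j → ∃ a1 a2 a3, a1 ≠ a2 ∧ a1 ≠ a3 ∧ a2 ≠ a3 ∧ cen a1 = cen j ∧
      cen a2 = cen j ∧ cen a3 = cen j ∧
      2 * SL n ty + SH n + ST ty + H1 ≤ w a1 + w a2 + w a3 := by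
    intro j hj
    have hc := hcen j hj
    have hspj := hsp3 j
    have hspc := hsp1 j
    by_cases he : ∃ a, cen a = cen j ∧ n a % 2 = 0
    · obtain ⟨a1, ha1, ha1'⟩ := he
      have hse : n (sp j) % 2 = 0 := by
        have h1 := hspj a1 ha1
        unfold scl at h1
        rw [if_pos ha1'] at h1
        by_contra hne
        rw [if_neg hne] at h1
        split_ifs at h1 <;> omega
      by_cases hq : ∃ a, cen a = cen j ∧ n a % 2 = 1 ∧ 3 ≤ n a
      · obtain ⟨a2, ha2, ha2', ha2''⟩ := hq
        have hne : a1 ≠ a2 := by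
          rintro rfl
          omega
        obtain ⟨a3, h31, h32, h33⟩ := htwo a1 a2 hne (by rw [ha1, ha2])
        refine ⟨a1, a2, a3, hne, h31.symm, h32.symm, ha1, ha2, by rw [h33, ha1], ?_⟩
        have w1 : w a1 = SL n ty + H1 := by
          rw [hwd, if_pos ((hty_even a1).2 ha1')]
        have t2 : ty a2 = 2 := by
          rw [hty_two]
          refine ⟨ha2', by omega, hMc _ _ ha2 hj, ?_⟩
          intro hS2
          have h5 := hSuniq a2 (sp j) hS2 (hspS j hj) (by rw [ha2, hspc])
          rw [← h5] at hse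
          omega
        have w2 : w a2 = SL n ty + SH n := by
          rw [hwd, if_neg (by omega), if_pos t2]
        have w3 := hwST a3
        omega
      · have hq0 : (univ.filter fun i => cen i = cen j ∧ n i % 2 = 1 ∧ 3 ≤ n i).card = 0 := by
          rw [card_eq_zero, filter_eq_empty_iff]
          intro a _ ha
          exact hq ⟨a, ha⟩
        rw [hq0] at hc
        obtain ⟨a, b', c, ha, hb', hc', hab, hac, hbc⟩ := Finset.two_lt_card_iff.1
          (by omega : 2 < (univ.filter fun i => cen i = cen j ∧ n i % 2 = 0).card)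
        simp only [mem_filter, mem_univ, true_and] at ha hb' hc'
        refine ⟨a, b', c, hab, hac, hbc, ha.1, hb'.1, hc'.1, ?_⟩
        have w1 : w a = SL n ty + H1 := by rw [hwd, if_pos ((hty_even a).2 ha.2)]
        have w2 : w b' = SL n ty + H1 := by rw [hwd, if_pos ((hty_even b').2 hb'.2)]
        have w3 : w c = SL n ty + H1 := by rw [hwd, if_pos ((hty_even c).2 hc'.2)]
        omega
    · push Not at he
      have he0 : (univ.filter fun i => cen i = cen j ∧ n i % 2 = 0).card = 0 := by
        rw [card_eq_zero, filter_eq_empty_iff]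
        intro a _ ha
        exact he a ha.1 ha.2
      rw [he0] at hc
      have hsodd : n (sp j) % 2 = 1 := by
        have := he (sp j) hspc
        omega
      have hts : ty (sp j) ≠ 0 ∧ ty (sp j) ≠ 2 := by
        refine ⟨fun h => by have := (hty_even _).1 h; omega, fun h => ?_⟩
        exact ((hty_two _).1 h).2.2.2 (hspS j hj)
      have ws : w (sp j) = ST ty := by
        rw [hwd, if_neg hts.1, if_neg hts.2]
      -- two further long odd legs
      have key : ∃ a b', a ≠ b' ∧ a ≠ sp j ∧ b' ≠ sp j ∧ cen a = cen j ∧ cen b' = cen j ∧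
          n a ≠ 1 ∧ n b' ≠ 1 := by
        by_cases hs1 : n (sp j) = 1
        · obtain ⟨a, ha, b', hb', hab⟩ := Finset.one_lt_card.1
            (by omega : 1 < (univ.filter fun i => cen i = cen j ∧ n i % 2 = 1 ∧ 3 ≤ n i).card)
          simp only [mem_filter, mem_univ, true_and] at ha hb'
          refine ⟨a, b', hab, ?_, ?_, ha.1, hb'.1, by omega, by omega⟩
          · rintro rfl
            omega
          · rintro rfl
            omega
        · have hall : ∀ a, cen a = cen j → n a ≠ 1 := by
            intro a ha h1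
            have h2 := hspj a ha
            unfold scl at h2
            rw [if_neg (by omega), if_neg hs1, if_neg (by omega), if_pos h1] at h2
            omega
          obtain ⟨j', hj', hcj'⟩ := hMc _ _ hspc hj
          obtain ⟨l, hl1', hl2, hl3⟩ := htwo (sp j) j' hj'.symm hcj'.symm
          refine ⟨j', l, hl2.symm, hj', hl1', by rw [hcj', hspc], by rw [hl3, hspc],
            hall _ (by rw [hcj', hspc]), hall _ (by rw [hl3, hspc])⟩
      obtain ⟨a, b', hab, has, hbs, hac, hbc, hna, hnb⟩ := key
      refine ⟨a, b', sp j, hab, has, hbs, hac, hbc, hspc, ?_⟩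
      have wt : ∀ a, cen a = cen j → a ≠ sp j → n a ≠ 1 → w a = SL n ty + SH n := by
        intro a hac has hna
        have t2 : ty a = 2 := by
          rw [hty_two]
          refine ⟨?_, hna, hMc _ _ hac hj, ?_⟩
          · have := he a hac
            omega
          · intro hS2
            exact has (hSuniq a (sp j) hS2 (hspS j hj) (by rw [hac, hspc]))
        rw [hwd, if_neg (by omega), if_pos t2]
      have w1 := wt a hac has hna
      have w2 := wt b' hbc hbs hnb
      omega
  refine ⟨fun i t => k + z3 n ord ty i t, good_tri n ord ty cen k hk hordinj hty hone ?_ H1 ?_ ?_ ?_⟩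
  · intro j hj
    have hMj : ¬ M j := by
      rintro ⟨j', hj', hcj'⟩
      exact hj' (hj j' hcj')
    by_cases hev : n j % 2 = 0
    · -- a path with an even number of edges
      have hjE : j ∈ E := (hEdef j).2 ⟨hj, hev⟩
      have hty0' : ty j = 0 := (hty_even j).2 hev
      have h1 : sg ty j = 0 := if_pos hty0'
      have h2 := (z3_high (ord := ord) hty (hpos j) (fun h => by omega)
        (by rw [h1] : (0 + sg ty j) % 2 = 0)).1
      have hjS : j ∉ S := fun h => hMj ((hSmem j).1 h).2
      have h3' : insert j (univ.filter (fun l => ord l < ord j)) ⊆ E := by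
        intro l hl
        rw [mem_insert, mem_filter] at hl
        rcases hl with rfl | ⟨_, hl⟩
        · exact hjE
        · have hj2 := j.2
          rw [(hin j hjS).2, (hphE j).2 hjE] at hl
          have hlS : l ∉ S := by
            intro hlS
            rw [hinS l hlS] at hl
            omega
          rw [(hin l hlS).2] at hl
          rw [← hphE]
          rcases hph_le l with h | h | h
          · exact h
          · rw [h] at hl
            omega
          · rw [h] at hl
            omega
      have h4 := Finset.sum_le_sum_of_subset (f := h3 n) h3'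
      rw [sum_insert (by simp)] at h4
      have h5 : pre ord (h3 n) j = ∑ l ∈ univ.filter (fun l => ord l < ord j), h3 n l := rfl
      have h6 := hh1 j (by omega)
      have h7 : 2 * ∑ l ∈ E, h3 n l ≤ ∑ l ∈ E, n l := by
        rw [mul_sum]
        apply sum_le_sum
        intro l _
        show 2 * (n l / 2) ≤ n l
        omega
      rw [h1] at h2
      omega
    · have hty1' : ty j = 1 := by
        rw [hty_def, if_neg hev, if_pos]
        right
        left
        exact hMj
      have h1 : sg ty j = 1 := if_neg (by omega)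
      have h2 := z3_low_le (ord := ord) hty (hpos j) (fun h => by omega)
        (by rw [h1]; norm_num : (0 + sg ty j) % 2 ≠ 0)
      omega
  · intro i hi
    have h1 := hpre_le (h3 n) i (hTP i hi)
    have h2 := hh1 i (by omega)
    omega
  · -- root sums are different
    have hval : ∀ i, M i → rs cen (fun i t => k + (z3 n ord ty i t : ℤ)) (cen i) =
        gval S b (fun i => ty i = 0) (h3 n) (l3 n ty) α0 β0 ρ (sp i) := by
      intro i hi
      have hsS := hspS i hi
      have hmemc : sp i ∈ univ.filter (fun a => cen a = cen i) :=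
        mem_filter.2 ⟨mem_univ _, hsp1 i⟩
      have hcls : (univ.filter fun a => cen a = cen (sp i)) =
          univ.filter fun a => cen a = cen i := by
        rw [hsp1 i]
      unfold rs gval
      rw [← add_sum_erase _ _ hmemc]
      have h1 : ∑ a ∈ (univ.filter fun a => cen a = cen i).erase (sp i),
          (k + (z3 n ord ty a 0 : ℤ)) = b (sp i) := by
        show _ = ∑ a ∈ (univ.filter fun a => cen a = cen (sp i)).erase (sp i),
          (k + (z3 n ord0 ty a 0 : ℤ))
        rw [hcls]
        apply sum_congr rfl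
        intro a ha
        rw [mem_erase, mem_filter] at ha
        have haS : a ∉ S := by
          intro haS
          exact ha.1 (hSuniq a (sp i) haS hsS (by rw [ha.2.2, hsp1 i]))
        rw [z3_congr n ord ord0 ty a 0 (hpreN a haS)]
      show (k + (z3 n ord ty (sp i) 0 : ℤ)) + ∑ a ∈ (univ.filter fun a => cen a = cen i).erase (sp i),
          (k + (z3 n ord ty a 0 : ℤ)) = _
      rw [h1]
      have hts : ty (sp i) = 0 ∨ ty (sp i) = 1 := by
        have h2 := hty_le (sp i)
        have h3' : ty (sp i) ≠ 2 := fun h => ((hty_two _).1 h).2.2.2 hsS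
        omega
      rcases hts with h2 | h2
      · rw [if_pos h2]
        have h4 : sg ty (sp i) = 0 := if_pos h2
        have h5 := (z3_high (ord := ord) hty (hpos (sp i)) (fun h => by omega)
          (by rw [h4] : (0 + sg ty (sp i)) % 2 = 0)).1
        rw [hpreS (h3 n) _ hsS, h4] at h5
        rw [h5, hα]
        push_cast
        norm_num
        ring
      · rw [if_neg (by omega)]
        have h4 : sg ty (sp i) = 1 := if_neg (by omega)
        have h5 := (z3_low (ord := ord) hty (hpos (sp i)) (fun h => by omega)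
          (by rw [h4]; norm_num : (0 + sg ty (sp i)) % 2 ≠ 0)).1
        have h6 : t3 ty (sp i) = 0 := if_neg (by omega)
        rw [hpreS (l3 n ty) _ hsS, h4, h6] at h5
        rw [h5, hβ]
        push_cast
        norm_num
        ring
    intro i j hi hj h
    rw [hval i hi, hval j hj] at h
    have hsi := hspS i hi
    have hsj := hspS j hj
    rcases lt_trichotomy (ρ (sp i)) (ρ (sp j)) with h1 | h1 | h1
    · have := hρ3 _ hsi _ hsj h1
      omega
    · have := hρ1 _ hsi _ hsj h1
      rw [← hsp1 i, ← hsp1 j, this]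
    · have := hρ3 _ hsj _ hsi h1
      omega
  · intro j hj
    obtain ⟨a1, a2, a3, h12, h13, h23, hc1, hc2, hc3, hsum⟩ := hthree j hj
    have hsub : ({a1, a2, a3} : Finset (Fin N)) ⊆ univ.filter fun x => cen x = cen j := by
      intro x hx
      simp only [mem_insert, mem_singleton] at hx
      rw [mem_filter]
      refine ⟨mem_univ _, ?_⟩
      rcases hx with rfl | rfl | rfl
      · exact hc1
      · exact hc2
      · exact hc3
    have h1 : ∑ x ∈ ({a1, a2, a3} : Finset (Fin N)), (k + (z3 n ord ty x 0 : ℤ)) ≤
        ∑ x ∈ univ.filter (fun x => cen x = cen j), (k + (z3 n ord ty x 0 : ℤ)) := by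
      apply Finset.sum_le_sum_of_subset_of_nonneg hsub
      intro x _ _
      have := z3_pos (ord := ord) hty (hpos x)
      omega
    rw [sum_insert (by
      simp only [mem_insert, mem_singleton, not_or]
      exact ⟨h12, h13⟩), sum_insert (by
      simp only [mem_singleton]
      exact h23), sum_singleton] at h1
    have w1 := hwz a1 (hMc _ _ hc1 hj)
    have w2 := hwz a2 (hMc _ _ hc2 hj)
    have w3 := hwz a3 (hMc _ _ hc3 hj)
    unfold rs
    refine lt_of_lt_of_le ?_ h1
    omega

end Pool.SpC75
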