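import Pool.Agent.SpC75.Dist
import Pool.Agent.SpC75.GoodD
import Pool.Agent.SpC75.Large

/-!
# SpC75/Fam (MP_9fc547_co)

A spider forest in which every vertex of degree at least three has `e` legs of even length and `q` legs
of odd length at least three with `2 q + e ≥ 3` is `k`-shifted antimagic for every `k ≥ p / 2 - 1` and for
every `k ≤ -m - p / 2`, where `p` is the number of edges in the path components with an even number of
edges.
-/

namespace Pool.SpC75

open Finset Pool.SpA

/-- the number of edges in the components which are paths with an even number of edges -/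
noncomputable def evp {V : Type*} (G : SimpleGraph V) : ℕ :=
  {e | e ∈ G.edgeSet ∧ ∃ v ∈ e, (∀ w, G.Reachable v w → (G.neighborSet w).ncard ≤ 2) ∧
    Even {e' | e' ∈ G.edgeSet ∧ ∃ w ∈ e', G.Reachable v w}.ncard}.ncard

lemma comp_edges {V : Type*} [Fintype V] {G : SimpleGraph V} {N : ℕ} (L : Legs G N) (i : Fin N)
    (hi : ∀ j, L.root j = L.root i → j = i) (v : V) (hv : G.Reachable (L.root i) v) :
    {e' | e' ∈ G.edgeSet ∧ ∃ w ∈ e', G.Reachable v w}.ncard = L.n i := by
  have hset : {e' | e' ∈ G.edgeSet ∧ ∃ w ∈ e', G.Reachable v w} =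
      (fun t => s(L.prev i t, L.vert i t)) '' ((range (L.n i) : Finset ℕ) : Set ℕ) := by
    ext e'
    constructor
    · rintro ⟨he, w, hw, hvw⟩
      rw [L.mem_edgeSet_iff] at he
      obtain ⟨j, s, hs, rfl⟩ := he
      have hrw : G.Reachable (L.root i) w := hv.trans hvw
      have hc := comp_root L i w hrw
      have hji : j = i := by
        rw [Sym2.mem_iff] at hw
        rcases hw with hw | hw
        · unfold Legs.prev at hw
          split_ifs at hw with h0
          · rcases hc with hc | ⟨i', t', hi', ht', hc⟩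
            · exact hi j (hw.symm.trans hc)
            · exact absurd (hw.symm.trans hc.symm) (L.root_ne j i' t' ht')
          · rcases hc with hc | ⟨i', t', hi', ht', hc⟩
            · exact absurd (hc.symm.trans hw) (L.root_ne i j (s - 1) (by omega))
            · have := (L.inj i' j t' (s - 1) ht' (by omega) (hc.trans hw)).1
              rw [← this]
              exact hi i' hi'
        · rcases hc with hc | ⟨i', t', hi', ht', hc⟩
          · exact absurd (hc.symm.trans hw) (L.root_ne i j s hs)
          · have := (L.inj i' j t' s ht' hs (hc.trans hw)).1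
            rw [← this]
            exact hi i' hi'
      subst hji
      exact ⟨s, by simpa using hs, rfl⟩
    · rintro ⟨t, ht, rfl⟩
      have ht' : t < L.n i := by simpa using ht
      refine ⟨?_, L.vert i t, by simp, hv.symm.trans (reach_vert L ht')⟩
      rw [L.mem_edgeSet_iff]
      exact ⟨i, t, ht', rfl⟩
  have hinj : Set.InjOn (fun t => s(L.prev i t, L.vert i t))
      ((range (L.n i) : Finset ℕ) : Set ℕ) := by
    intro t ht s hs h
    have ht' : t < L.n i := by simpa using ht
    have hs' : s < L.n i := by simpa using hs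
    exact (L.edge_inj ht' hs' h).2
  rw [hset, hinj.ncard_image, Set.ncard_coe_finset, card_range]

lemma evp_ge {V : Type*} [Fintype V] {G : SimpleGraph V} {N : ℕ} (L : Legs G N)
    (E : Finset (Fin N))
    (hE : ∀ i, i ∈ E ↔ (∀ j, L.root j = L.root i → j = i) ∧ L.n i % 2 = 0) :
    ∑ i ∈ E, L.n i ≤ evp G := by
  classical
  set T : Finset (Σ _ : Fin N, ℕ) := E.sigma (fun i => range (L.n i)) with hT
  have hcard : ∑ i ∈ E, L.n i = T.card := by
    rw [hT, card_sigma]
    simp
  have hinj : Set.InjOn (fun x : (Σ _ : Fin N, ℕ) => s(L.prev x.1 x.2, L.vert x.1 x.2))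
      (T : Set (Σ _ : Fin N, ℕ)) := by
    rintro ⟨i, t⟩ hx ⟨j, s⟩ hy he
    rw [hT, mem_coe, mem_sigma, mem_range] at hx hy
    obtain ⟨h1, h2⟩ := L.edge_inj hx.2 hy.2 he
    simp only at h1 h2
    subst h1
    subst h2
    rfl
  rw [hcard, ← Set.ncard_coe_finset, ← hinj.ncard_image]
  unfold evp
  apply Set.ncard_le_ncard _ (Set.toFinite _)
  rintro _ ⟨⟨i, t⟩, hx, rfl⟩
  rw [hT, mem_coe, mem_sigma, mem_range] at hx
  have hi := (hE i).1 hx.1
  have ht : t < L.n i := hx.2
  refine ⟨?_, L.vert i t, by simp, ?_, ?_⟩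
  · rw [L.mem_edgeSet_iff]
    exact ⟨i, t, ht, rfl⟩
  · intro w hw
    have hdj : (G.neighborSet (L.root i)).ncard = 1 := by
      rw [deg_root, Set.ncard_eq_one]
      refine ⟨i, ?_⟩
      ext j
      rw [Set.mem_singleton_iff]
      constructor
      · intro hj
        exact hi.1 j hj
      · rintro rfl
        exact rfl
    rcases comp_root L i w ((reach_vert L ht).trans hw) with h | ⟨j, s, _, hs, h⟩
    · rw [h, hdj]
      norm_num
    · rw [← h, deg_vert L hs]
      split_ifs <;> norm_num
  · rw [comp_edges L i hi.1 _ (reach_vert L ht)]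
    exact Nat.even_iff.2 hi.2

theorem fam_pos {V : Type*} [Fintype V] (G : SimpleGraph V) (hG : IsSpiderForest G)
    (hC : ∀ c, 3 ≤ (G.neighborSet c).ncard →
      3 ≤ 2 * {v | G.Reachable c v ∧ (G.neighborSet v).ncard = 1 ∧ Odd (G.dist c v) ∧
          3 ≤ G.dist c v}.ncard +
        {v | G.Reachable c v ∧ (G.neighborSet v).ncard = 1 ∧ Even (G.dist c v)}.ncard)
    (k : ℤ) (hk : (evp G : ℤ) ≤ 2 * k + 2) : ShiftedAntimagic G k := by
  classical
  obtain ⟨N, L, hL⟩ := exists_legs G hG
  have hroots : ∀ j, {i | L.root i = L.root j}.ncard = dg L.root j := by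
    intro j
    unfold dg
    rw [← Set.ncard_coe_finset]
    congr 1
    ext i
    simp
  -- the leaves of a component with a vertex of degree at least three
  have hleaf : ∀ j v, 3 ≤ (G.neighborSet (L.root j)).ncard → G.Reachable (L.root j) v →
      (G.neighborSet v).ncard = 1 → ∃ i, L.root i = L.root j ∧ L.vert i (L.n i - 1) = v ∧
        G.dist (L.root j) v = L.n i := by
    intro j v hj hv hd
    rcases comp_root L j v hv with h | ⟨i, t, hi, ht, h⟩
    · rw [h] at hd
      omega
    · rw [← h, deg_vert L ht] at hd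
      have h1 : t + 1 = L.n i := by
        by_contra hne
        rw [if_pos (by omega)] at hd
        omega
      refine ⟨i, hi, ?_, ?_⟩
      · rw [← h]
        congr 1
        omega
      · rw [← h, ← hi, dist_vert L ht, h1]
  have hgood : ∃ f, Good L.n L.root k f := by
    set E : Finset (Fin N) := univ.filter (fun i => (∀ j', L.root j' = L.root i → j' = i) ∧
      L.n i % 2 = 0) with hEd
    have hEdef : ∀ i, i ∈ E ↔ (∀ j', L.root j' = L.root i → j' = i) ∧ L.n i % 2 = 0 := by
      intro i
      rw [hEd, mem_filter]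
      exact ⟨fun h => h.2, fun h => ⟨mem_univ _, h⟩⟩
    have hEs := evp_ge L E hEdef
    apply good_D L.n L.root k (by omega) L.pos L.one hL E hEdef (by omega)
    · intro j hj
      have h3 := dg_three L.root hL j hj
      have hdj : 3 ≤ (G.neighborSet (L.root j)).ncard := by
        rw [deg_root, hroots]
        exact h3
      have h4 := hC (L.root j) hdj
      have hb1 : {v | G.Reachable (L.root j) v ∧ (G.neighborSet v).ncard = 1 ∧
          Odd (G.dist (L.root j) v) ∧ 3 ≤ G.dist (L.root j) v}.ncard ≤
          (univ.filter fun i => L.root i = L.root j ∧ L.n i % 2 = 1 ∧ 3 ≤ L.n i).card := by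
        have hsub : {v | G.Reachable (L.root j) v ∧ (G.neighborSet v).ncard = 1 ∧
          Odd (G.dist (L.root j) v) ∧ 3 ≤ G.dist (L.root j) v} ⊆
          (((univ.filter fun i => L.root i = L.root j ∧ L.n i % 2 = 1 ∧ 3 ≤ L.n i).image
            fun i => L.vert i (L.n i - 1) : Finset V) : Set V) := by
          rintro v ⟨hv1, hv2, hv3, hv4⟩
          obtain ⟨i, hi1, hi2, hi3⟩ := hleaf j v hdj hv1 hv2
          rw [mem_coe, mem_image]
          refine ⟨i, ?_, hi2⟩
          rw [hi3] at hv3 hv4
          rw [mem_filter]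
          exact ⟨mem_univ _, hi1, Nat.odd_iff.1 hv3, hv4⟩
        refine (Set.ncard_le_ncard hsub (Set.toFinite _)).trans ?_
        rw [Set.ncard_coe_finset]
        exact card_image_le
      have hb2 : {v | G.Reachable (L.root j) v ∧ (G.neighborSet v).ncard = 1 ∧
          Even (G.dist (L.root j) v)}.ncard ≤
          (univ.filter fun i => L.root i = L.root j ∧ L.n i % 2 = 0).card := by
        have hsub : {v | G.Reachable (L.root j) v ∧ (G.neighborSet v).ncard = 1 ∧
          Even (G.dist (L.root j) v)} ⊆
          (((univ.filter fun i => L.root i = L.root j ∧ L.n i % 2 = 0).image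
            fun i => L.vert i (L.n i - 1) : Finset V) : Set V) := by
          rintro v ⟨hv1, hv2, hv3⟩
          obtain ⟨i, hi1, hi2, hi3⟩ := hleaf j v hdj hv1 hv2
          rw [mem_coe, mem_image]
          refine ⟨i, ?_, hi2⟩
          rw [hi3] at hv3
          rw [mem_filter]
          exact ⟨mem_univ _, hi1, Nat.even_iff.1 hv3⟩
        refine (Set.ncard_le_ncard hsub (Set.toFinite _)).trans ?_
        rw [Set.ncard_coe_finset]
        exact card_image_le
      omega
  obtain ⟨f, hf⟩ := hgood
  exact transfer G L k f hf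

theorem fam {V : Type*} [Fintype V] (G : SimpleGraph V) (hG : IsSpiderForest G)
    (hC : ∀ c, 3 ≤ (G.neighborSet c).ncard →
      3 ≤ 2 * {v | G.Reachable c v ∧ (G.neighborSet v).ncard = 1 ∧ Odd (G.dist c v) ∧
          3 ≤ G.dist c v}.ncard +
        {v | G.Reachable c v ∧ (G.neighborSet v).ncard = 1 ∧ Even (G.dist c v)}.ncard)
    (k : ℤ) (hk : (evp G : ℤ) ≤ 2 * k + 2 ∨ 2 * k + evp G ≤ - 2 * (G.edgeSet.ncard : ℤ)) :
    ShiftedAntimagic G k := by
  rcases hk with hk | hk
  · exact fam_pos G hG hC k hk
  · exact neg_shift G k (fam_pos G hG hC _ (by omega))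

end Pool.SpC75
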