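import Pool.Agent.SpC75.Fam
import Pool.Agent.SpC75.GoodF

/-!
# SpC75/Fam2 (MP_9fc547_co)

A spider forest in which every vertex of degree at least three has `e` legs of even length and `q` legs
of odd length at least three with `2 q + e ≥ 3` is `k`-shifted antimagic for every `k ≥ (p - 1) / 2` and
for every `k ≤ - m - 1 - (p - 1) / 2`, where `p` is the number of components which are paths with two
edges (if `p = 0`, for every `k ≥ -1` and every `k ≤ -m`).
-/

namespace Pool.SpC75

open Finset Pool.SpA

/-- the number of components which are paths with two edges -/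
noncomputable def p3c {V : Type*} (G : SimpleGraph V) : ℕ :=
  {v | (G.neighborSet v).ncard = 2 ∧ ∀ w, G.Adj v w → (G.neighborSet w).ncard = 1}.ncard

lemma p3c_ge {V : Type*} [Fintype V] {G : SimpleGraph V} {N : ℕ} (L : Legs G N)
    (E : Finset (Fin N))
    (hE : ∀ i, i ∈ E ↔ (∀ j, L.root j = L.root i → j = i) ∧ L.n i = 2) :
    E.card ≤ p3c G := by
  classical
  have hinj : Set.InjOn (fun i => L.vert i 0) (E : Set (Fin N)) := by
    intro i hi j hj hij
    have h1 := ((hE i).1 hi).2
    have h2 := ((hE j).1 hj).2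
    exact (L.inj i j 0 0 (by omega) (by omega) hij).1
  rw [← Set.ncard_coe_finset, ← hinj.ncard_image]
  unfold p3c
  apply Set.ncard_le_ncard _ (Set.toFinite _)
  rintro _ ⟨i, hi, rfl⟩
  have hi' := (hE i).1 hi
  have h0 : 0 < L.n i := by omega
  have h1 : 1 < L.n i := by omega
  refine ⟨?_, ?_⟩
  · show (G.neighborSet (L.vert i 0)).ncard = 2
    rw [deg_vert L h0, if_pos (by omega)]
  · intro w hw
    have hw' : w ∈ G.neighborSet (L.vert i 0) := hw
    rw [nb_vert L h0, if_pos (by omega)] at hw'
    rcases hw' with hw' | hw'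
    · have hpr : L.prev i 0 = L.root i := by simp [Legs.prev]
      rw [hw', hpr, deg_root, Set.ncard_eq_one]
      refine ⟨i, ?_⟩
      ext j
      rw [Set.mem_singleton_iff]
      constructor
      · intro hj
        exact hi'.1 j hj
      · rintro rfl
        exact rfl
    · rw [Set.mem_singleton_iff] at hw'
      rw [hw', deg_vert L (by omega : 0 + 1 < L.n i), if_neg (by omega)]

theorem fam2_pos {V : Type*} [Fintype V] (G : SimpleGraph V) (hG : IsSpiderForest G)
    (hC : ∀ c, 3 ≤ (G.neighborSet c).ncard →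
      3 ≤ 2 * {v | G.Reachable c v ∧ (G.neighborSet v).ncard = 1 ∧ Odd (G.dist c v) ∧
          3 ≤ G.dist c v}.ncard +
        {v | G.Reachable c v ∧ (G.neighborSet v).ncard = 1 ∧ Even (G.dist c v)}.ncard)
    (k : ℤ) (hk : -1 ≤ k ∧ (p3c G = 0 ∨ (p3c G : ℤ) ≤ 2 * k + 1)) : ShiftedAntimagic G k := by
  classical
  obtain ⟨N, L, hL⟩ := exists_legs G hG
  have hroots : ∀ j, {i | L.root i = L.root j}.ncard = dg L.root j := by
    intro j
    unfold dg
    rw [← Set.ncard_coe_finset]
    congr 1
    ext i
    simp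
  -- the leaves of a component with a vertex of degree at least three
  have hleaf : ∀ j v, 3 ≤ (G.neighborSet (L.root j)).ncard → G.Reachable (L.root j) v →
      (G.neighborSet v).ncard = 1 → ∃ i, L.root i = L.root j ∧ L.vert i (L.n i - 1) = v ∧
        G.dist (L.root j) v = L.n i := by
    intro j v hj hv hd
    rcases comp_root L j v hv with h | ⟨i, t, hi, ht, h⟩
    · rw [h] at hd
      omega
    · rw [← h, deg_vert L ht] at hd
      have h1 : t + 1 = L.n i := by
        by_contra hne
        rw [if_pos (by omega)] at hd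
        omega
      refine ⟨i, hi, ?_, ?_⟩
      · rw [← h]
        congr 1
        omega
      · rw [← h, ← hi, dist_vert L ht, h1]
  have hgood : ∃ f, Good L.n L.root k f := by
    set E : Finset (Fin N) := univ.filter (fun i => (∀ j', L.root j' = L.root i → j' = i) ∧
      L.n i = 2) with hEd
    have hEdef : ∀ i, i ∈ E ↔ (∀ j', L.root j' = L.root i → j' = i) ∧ L.n i = 2 := by
      intro i
      rw [hEd, mem_filter]
      exact ⟨fun h => h.2, fun h => ⟨mem_univ _, h⟩⟩
    have hEs := p3c_ge L E hEdef
    apply good_F L.n L.root k hk.1 L.pos L.one hL E hEdef (by omega)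
    · intro j hj
      have h3 := dg_three L.root hL j hj
      have hdj : 3 ≤ (G.neighborSet (L.root j)).ncard := by
        rw [deg_root, hroots]
        exact h3
      have h4 := hC (L.root j) hdj
      have hb1 : {v | G.Reachable (L.root j) v ∧ (G.neighborSet v).ncard = 1 ∧
          Odd (G.dist (L.root j) v) ∧ 3 ≤ G.dist (L.root j) v}.ncard ≤
          (univ.filter fun i => L.root i = L.root j ∧ L.n i % 2 = 1 ∧ 3 ≤ L.n i).card := by
        have hsub : {v | G.Reachable (L.root j) v ∧ (G.neighborSet v).ncard = 1 ∧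
          Odd (G.dist (L.root j) v) ∧ 3 ≤ G.dist (L.root j) v} ⊆
          (((univ.filter fun i => L.root i = L.root j ∧ L.n i % 2 = 1 ∧ 3 ≤ L.n i).image
            fun i => L.vert i (L.n i - 1) : Finset V) : Set V) := by
          rintro v ⟨hv1, hv2, hv3, hv4⟩
          obtain ⟨i, hi1, hi2, hi3⟩ := hleaf j v hdj hv1 hv2
          rw [mem_coe, mem_image]
          refine ⟨i, ?_, hi2⟩
          rw [hi3] at hv3 hv4
          rw [mem_filter]
          exact ⟨mem_univ _, hi1, Nat.odd_iff.1 hv3, hv4⟩
        refine (Set.ncard_le_ncard hsub (Set.toFinite _)).trans ?_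
        rw [Set.ncard_coe_finset]
        exact card_image_le
      have hb2 : {v | G.Reachable (L.root j) v ∧ (G.neighborSet v).ncard = 1 ∧
          Even (G.dist (L.root j) v)}.ncard ≤
          (univ.filter fun i => L.root i = L.root j ∧ L.n i % 2 = 0).card := by
        have hsub : {v | G.Reachable (L.root j) v ∧ (G.neighborSet v).ncard = 1 ∧
          Even (G.dist (L.root j) v)} ⊆
          (((univ.filter fun i => L.root i = L.root j ∧ L.n i % 2 = 0).image
            fun i => L.vert i (L.n i - 1) : Finset V) : Set V) := by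
          rintro v ⟨hv1, hv2, hv3⟩
          obtain ⟨i, hi1, hi2, hi3⟩ := hleaf j v hdj hv1 hv2
          rw [mem_coe, mem_image]
          refine ⟨i, ?_, hi2⟩
          rw [hi3] at hv3
          rw [mem_filter]
          exact ⟨mem_univ _, hi1, Nat.even_iff.1 hv3⟩
        refine (Set.ncard_le_ncard hsub (Set.toFinite _)).trans ?_
        rw [Set.ncard_coe_finset]
        exact card_image_le
      omega
  obtain ⟨f, hf⟩ := hgood
  exact transfer G L k f hf

theorem fam2 {V : Type*} [Fintype V] (G : SimpleGraph V) (hG : IsSpiderForest G)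
    (hC : ∀ c, 3 ≤ (G.neighborSet c).ncard →
      3 ≤ 2 * {v | G.Reachable c v ∧ (G.neighborSet v).ncard = 1 ∧ Odd (G.dist c v) ∧
          3 ≤ G.dist c v}.ncard +
        {v | G.Reachable c v ∧ (G.neighborSet v).ncard = 1 ∧ Even (G.dist c v)}.ncard)
    (k : ℤ) (hk : (-1 ≤ k ∧ (p3c G = 0 ∨ (p3c G : ℤ) ≤ 2 * k + 1)) ∨
      (-1 ≤ - k - G.edgeSet.ncard - 1 ∧
        (p3c G = 0 ∨ (p3c G : ℤ) ≤ 2 * (- k - G.edgeSet.ncard - 1) + 1))) :
    ShiftedAntimagic G k := by
  rcases hk with hk | hk
  · exact fam2_pos G hG hC k hk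
  · exact neg_shift G k (fam2_pos G hG hC _ hk)

end Pool.SpC75
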