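import Pool.Agent.SpC75.GoodF

/-!
# SpC75/GoodG (MP_9fc547_co)

If every root with at least three legs has at least two legs of length at least two, and there are `o`
path components with two edges, then there is a good labeling for every `k ≥ (o - 1) / 2` (for every
`k ≥ -1` if `o = 0`).
-/

namespace Pool.SpC75

open Finset Pool.SpA

theorem good_G {N : ℕ} {α : Type*} [DecidableEq α] (n : Fin N → ℕ) (cen : Fin N → α) (k : ℤ)
    (hk : -1 ≤ k) (hpos : ∀ i, 1 ≤ n i)
    (hone : ∀ i, n i = 1 → ∃ j, j ≠ i ∧ cen j = cen i)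
    (htwo : ∀ i j, i ≠ j → cen i = cen j → ∃ l, l ≠ i ∧ l ≠ j ∧ cen l = cen i)
    (E : Finset (Fin N)) (hEdef : ∀ i, i ∈ E ↔ (∀ j', cen j' = cen i → j' = i) ∧ n i = 2)
    (hE : E.card = 0 ∨ (E.card : ℤ) ≤ 2 * k + 1)
    (hcen : ∀ j, (∃ j', j' ≠ j ∧ cen j' = cen j) →
      2 ≤ (univ.filter fun i => cen i = cen j ∧ 2 ≤ n i).card) :
    ∃ f, Good n cen k f := by
  classical
  obtain ⟨sp, hsp1, hsp2, hsp3⟩ := exists_special n cen
  set M : Fin N → Prop := fun j => ∃ j', j' ≠ j ∧ cen j' = cen j with hM
  have hMc : ∀ i j, cen i = cen j → M j → M i := by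
    intro i j hij hj
    by_cases h : i = j
    · rw [h]; exact hj
    · exact ⟨j, fun hh => h hh.symm, hij.symm⟩
  have hnM : ∀ j, (∀ j', cen j' = cen j → j' = j) ↔ ¬ M j := by
    intro j
    constructor
    · rintro h ⟨j', hj', hcj'⟩
      exact hj' (h j' hcj')
    · intro h j' hj'
      by_contra hne
      exact h ⟨j', hne, hj'⟩
  set S : Finset (Fin N) := univ.filter (fun i => sp i = i ∧ M i) with hS
  have hSmem : ∀ i, i ∈ S ↔ sp i = i ∧ M i := by
    intro i
    rw [hS, mem_filter]
    exact ⟨fun h => h.2, fun h => ⟨mem_univ _, h⟩⟩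
  have hspS : ∀ i, M i → sp i ∈ S := by
    intro i hi
    rw [hSmem]
    exact ⟨hsp2 _ _ (hsp1 i), hMc _ _ (hsp1 i) hi⟩
  have hSuniq : ∀ a s, a ∈ S → s ∈ S → cen a = cen s → a = s := by
    intro a s ha hs hc
    rw [hSmem] at ha hs
    rw [← ha.1, ← hs.1]
    exact hsp2 _ _ hc
  set ty : Fin N → ℕ := fun i => if n i % 2 = 0 then (if ¬ M i ∧ n i ≠ 2 then 3 else 0)
    else if (n i = 1 ∨ ¬ M i ∨ i ∈ S) then 1 else 2 with hty0
  have hty_def : ∀ i, ty i = if n i % 2 = 0 then (if ¬ M i ∧ n i ≠ 2 then 3 else 0)
    else if (n i = 1 ∨ ¬ M i ∨ i ∈ S) then 1 else 2 := fun i => rfl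
  have hty_zero : ∀ i, ty i = 0 ↔ n i % 2 = 0 ∧ (M i ∨ n i = 2) := by
    intro i
    rw [hty_def]
    by_cases h1 : n i % 2 = 0
    · rw [if_pos h1]
      by_cases h2 : ¬ M i ∧ n i ≠ 2
      · rw [if_pos h2]
        constructor
        · intro h; exact absurd h (by norm_num)
        · rintro ⟨_, h | h⟩
          · exact absurd h h2.1
          · exact absurd h h2.2
      · rw [if_neg h2]
        refine ⟨fun _ => ⟨h1, ?_⟩, fun _ => rfl⟩
        by_cases h3 : M i
        · exact Or.inl h3
        · right
          by_contra h5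
          exact h2 ⟨h3, h5⟩
    · rw [if_neg h1]
      constructor
      · intro h
        split_ifs at h <;> omega
      · rintro ⟨h, _⟩
        exact absurd h h1
  have hty_three : ∀ i, ty i = 3 ↔ n i % 2 = 0 ∧ ¬ M i ∧ n i ≠ 2 := by
    intro i
    rw [hty_def]
    by_cases h1 : n i % 2 = 0
    · rw [if_pos h1]
      by_cases h2 : ¬ M i ∧ n i ≠ 2
      · rw [if_pos h2]
        exact ⟨fun _ => ⟨h1, h2⟩, fun _ => rfl⟩
      · rw [if_neg h2]
        exact ⟨fun h => absurd h (by norm_num), fun h => absurd h.2 h2⟩
    · rw [if_neg h1]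
      constructor
      · intro h
        split_ifs at h <;> omega
      · rintro ⟨h, _⟩
        exact absurd h h1
  have hty_two : ∀ i, ty i = 2 ↔ n i % 2 = 1 ∧ n i ≠ 1 ∧ M i ∧ i ∉ S := by
    intro i
    rw [hty_def]
    by_cases h1 : n i % 2 = 0
    · rw [if_pos h1]
      constructor
      · intro h
        split_ifs at h <;> omega
      · rintro ⟨h, _⟩
        omega
    · rw [if_neg h1]
      split_ifs with h2
      · constructor
        · intro h
          exact absurd h (by norm_num)
        · rintro ⟨_, h3, h4, h5⟩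
          rcases h2 with h2 | h2 | h2
          · exact absurd h2 h3
          · exact absurd h4 h2
          · exact absurd h2 h5
      · push Not at h2
        exact ⟨fun _ => ⟨by omega, h2.1, h2.2.1, h2.2.2⟩, fun _ => rfl⟩
  have hty_le : ∀ i, ty i ≤ 3 := by
    intro i
    rw [hty_def]
    split_ifs <;> omega
  have hty : Ty4 n ty := by
    refine ⟨hty_le, fun i h => ((hty_zero i).1 h).1, ?_, ?_, ?_, hpos⟩
    · intro i h
      by_contra hne
      rw [hty_def, if_pos (by omega)] at h
      split_ifs at h <;> omega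
    · intro i h
      have h1 := (hty_two i).1 h
      have h2 := hpos i
      omega
    · intro i h
      have h1 := (hty_three i).1 h
      have h2 := hpos i
      omega
  have hl1 : ∀ i, 1 ≤ l4 n ty i := fun i => l4_pos hty i
  have hh1 : ∀ i, ty i ≠ 1 → 1 ≤ h4 n ty i := by
    intro i hi
    have h1 := hpos i
    have h2 := hty.even i
    have g3 := hty.three i
    have g5 := hty.four i
    have h4' := hty_le i
    unfold h4
    split_ifs <;> omega
  have hEM : ∀ i, i ∈ E → ¬ M i := fun i hi => (hnM i).1 ((hEdef i).1 hi).1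
  have hE0 : ∀ i, i ∈ E → ty i = 0 ∧ l4 n ty i = 1 ∧ h4 n ty i = 1 := by
    intro i hi
    have h1 := ((hEdef i).1 hi).2
    have h2 : ty i = 0 := (hty_zero i).2 ⟨by omega, Or.inr h1⟩
    refine ⟨h2, ?_, ?_⟩
    · unfold l4
      rw [if_neg (by omega), if_neg (by omega), h1]
    · unfold h4
      rw [if_neg (by omega), h1]
  -- phases
  set ph : Fin N → ℕ := fun i => if i ∈ E then 0 else if (ty i = 3 ∧ n i = 4) then 1
    else if ty i = 3 then 2 else if ty i = 2 then 3 else 4 with hph
  have hph_def : ∀ i, ph i = if i ∈ E then 0 else if (ty i = 3 ∧ n i = 4) then 1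
    else if ty i = 3 then 2 else if ty i = 2 then 3 else 4 := fun i => rfl
  have hph_le : ∀ i, ph i ≤ 4 := by
    intro i
    rw [hph_def]
    split_ifs <;> omega
  have hphE : ∀ i, ph i = 0 ↔ i ∈ E := by
    intro i
    rw [hph_def]
    split_ifs with h1 h2 h3 h5
    · exact ⟨fun _ => h1, fun _ => rfl⟩
    · exact ⟨fun h => absurd h (by norm_num), fun h => absurd h h1⟩
    · exact ⟨fun h => absurd h (by norm_num), fun h => absurd h h1⟩
    · exact ⟨fun h => absurd h (by norm_num), fun h => absurd h h1⟩
    · exact ⟨fun h => absurd h (by norm_num), fun h => absurd h h1⟩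
  have hph1 : ∀ i, ph i = 1 ↔ ty i = 3 ∧ n i = 4 := by
    intro i
    rw [hph_def]
    split_ifs with h1 h2 h3 h5
    · have := hE0 i h1
      exact ⟨fun h => absurd h (by norm_num), fun h => by omega⟩
    · exact ⟨fun _ => h2, fun _ => rfl⟩
    · exact ⟨fun h => absurd h (by norm_num), fun h => absurd h h2⟩
    · exact ⟨fun h => absurd h (by norm_num), fun h => absurd h h2⟩
    · exact ⟨fun h => absurd h (by norm_num), fun h => absurd h h2⟩
  have hph2 : ∀ i, ph i = 2 ↔ ty i = 3 ∧ n i ≠ 4 := by
    intro i
    rw [hph_def]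
    split_ifs with h1 h2 h3 h5
    · have := hE0 i h1
      exact ⟨fun h => absurd h (by norm_num), fun h => by omega⟩
    · exact ⟨fun h => absurd h (by norm_num), fun h => absurd h2.2 h.2⟩
    · exact ⟨fun _ => ⟨h3, fun h => h2 ⟨h3, h⟩⟩, fun _ => rfl⟩
    · exact ⟨fun h => absurd h (by norm_num), fun h => absurd h.1 h3⟩
    · exact ⟨fun h => absurd h (by norm_num), fun h => absurd h.1 h3⟩
  have hph3 : ∀ i, ph i = 3 ↔ ty i = 2 := by
    intro i
    rw [hph_def]
    split_ifs with h1 h2 h3 h5
    · have := hE0 i h1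
      exact ⟨fun h => absurd h (by norm_num), fun h => by omega⟩
    · exact ⟨fun h => absurd h (by norm_num), fun h => by omega⟩
    · exact ⟨fun h => absurd h (by norm_num), fun h => by omega⟩
    · exact ⟨fun _ => h5, fun _ => rfl⟩
    · exact ⟨fun h => absurd h (by norm_num), fun h => absurd h h5⟩
  have hph_one : ∀ i, n i = 1 → ph i = 4 := by
    intro i hi
    have h1 := hphE i
    have h2 := hph1 i
    have h3 := hph2 i
    have h5 := hph3 i
    have h6 := hph_le i
    have h7 : ty i ≠ 3 := fun h => by
      have := (hty.four i h).2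
      omega
    have h8 : ty i ≠ 2 := fun h => by
      have := (hty.three i h).2
      omega
    have h9 : i ∉ E := fun h => by
      have := ((hEdef i).1 h).2
      omega
    have g1 : ph i ≠ 0 := fun h => h9 (h1.1 h)
    have g2 : ph i ≠ 1 := fun h => h7 (h2.1 h).1
    have g3 : ph i ≠ 2 := fun h => h7 (h3.1 h).1
    have g5 : ph i ≠ 3 := fun h => h8 (h5.1 h)
    omega
  have hSph : ∀ i, i ∈ S → ty i ≤ 1 ∧ i ∉ E := by
    intro i hi
    have h1 := (hSmem i).1 hi
    refine ⟨?_, fun h => hEM i h h1.2⟩
    have h2 : ty i ≠ 2 := fun h => ((hty_two i).1 h).2.2.2 hi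
    have h3 : ty i ≠ 3 := fun h => ((hty_three i).1 h).2.1 h1.2
    have := hty_le i
    omega
  set ord0 : Fin N → ℕ := fun i => if i ∈ S then 5 * N else if n i = 1 then 5 * N + 1 + i
    else ph i * N + i with hord0
  have ho0 : ∀ i, ord0 i = if i ∈ S then 5 * N else if n i = 1 then 5 * N + 1 + i
    else ph i * N + i := fun i => rfl
  -- numbers of the top labels
  set q1 : Fin N → ℕ := fun i => if ph i = 1 then 1 else 0 with hq1
  set q2 : Fin N → ℕ := fun i => if ph i = 2 then 1 else 0 with hq2
  set q3 : Fin N → ℕ := fun i => if ty i = 2 then 1 else 0 with hq3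
  have q1d : ∀ i, q1 i = if ph i = 1 then 1 else 0 := fun i => rfl
  have q2d : ∀ i, q2 i = if ph i = 2 then 1 else 0 := fun i => rfl
  have q3d : ∀ i, q3 i = if ty i = 2 then 1 else 0 := fun i => rfl
  set tid : Fin N → ℕ := fun i => if ph i = 1 then pre ord0 q1 i + 1
    else if ph i = 2 then CC4 ty - pre ord0 q2 i else CC4 ty + pre ord0 q3 i + 1 with htid
  have tidd : ∀ i, tid i = if ph i = 1 then pre ord0 q1 i + 1
    else if ph i = 2 then CC4 ty - pre ord0 q2 i else CC4 ty + pre ord0 q3 i + 1 := fun i => rfl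
  have hCC : CC4 ty = ∑ i, q1 i + ∑ i, q2 i := by
    unfold CC4
    rw [← sum_add_distrib]
    apply sum_congr rfl
    intro i _
    have h1 := hph1 i
    have h2 := hph2 i
    rw [q1d, q2d]
    unfold u4
    by_cases h3 : ty i = 3
    · by_cases h5 : n i = 4
      · rw [if_pos h3, if_pos (h1.2 ⟨h3, h5⟩), if_neg (by rw [h2]; exact fun h => h.2 h5)]
      · rw [if_pos h3, if_neg (by rw [h1]; exact fun h => h5 h.2), if_pos (h2.2 ⟨h3, h5⟩)]
    · rw [if_neg h3, if_neg (by rw [h1]; exact fun h => h3 h.1),
        if_neg (by rw [h2]; exact fun h => h3 h.1)]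
  have hTTs : TT4 ty = CC4 ty + ∑ i, q3 i := by
    unfold CC4 TT4
    rw [← sum_add_distrib]
    apply sum_congr rfl
    intro i _
    have := hty_le i
    rw [q3d]
    unfold u4 t4
    split_ifs <;> omega
  -- the permutation of the small labels
  have hEl : ∑ i ∈ E, l4 n ty i = E.card := by
    rw [card_eq_sum_ones]
    exact sum_congr rfl fun i hi => (hE0 i hi).2.1
  have hEh : ∑ i ∈ E, h4 n ty i = E.card := by
    rw [card_eq_sum_ones]
    exact sum_congr rfl fun i hi => (hE0 i hi).2.2
  have hoS : E.card ≤ SO4 n ty := by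
    rw [← hEl]
    exact Finset.sum_le_sum_of_subset (subset_univ _)
  have hoH : E.card ≤ SH4 n ty := by
    rw [← hEh]
    exact Finset.sum_le_sum_of_subset (subset_univ _)
  have hcc0 : CC4 ty = 0 ∨ E.card < SO4 n ty := by
    by_cases h : ∃ i, ty i = 3
    · right
      obtain ⟨i, hi⟩ := h
      have hiE : i ∉ E := fun h => by
        have := (hE0 i h).1
        omega
      have h2 := Finset.sum_le_sum_of_subset (f := l4 n ty) (subset_univ (insert i E))
      rw [sum_insert hiE, hEl] at h2
      have h3 := hl1 i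
      have d1 : SO4 n ty = ∑ i, l4 n ty i := rfl
      omega
    · left
      push Not at h
      unfold CC4
      apply sum_eq_zero
      intro i _
      exact if_neg (h i)
  obtain ⟨ps, hP⟩ := exists_ps E.card (SO4 n ty) (CC4 ty) k hcc0 hoS hE
  set b : Fin N → ℤ := fun s => ∑ a ∈ (univ.filter fun a => cen a = cen s).erase s,
    (k + (ps (r4 n ord0 ty tid a 0) : ℤ)) with hb
  set α0 : ℤ := k + ((SO4 n ty + CC4 ty : ℕ) : ℤ) +
    ((∑ j ∈ univ.filter (fun j => j ∉ S ∧ n j ≠ 1), h4 n ty j : ℕ) : ℤ) + 1 with hα
  set β0 : ℤ := k + ((∑ j ∈ univ.filter (fun j => j ∉ S ∧ n j ≠ 1), l4 n ty j : ℕ) : ℤ) + 1 with hβ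
  have hlow : ∃ low : ℤ, ∀ i ∈ S, low < b i + if ty i = 0 then α0 else β0 := by
    refine ⟨- ∑ i, |b i + if ty i = 0 then α0 else β0| - 1, fun i _ => ?_⟩
    have h1 : |b i + if ty i = 0 then α0 else β0| ≤
        ∑ i, |b i + if ty i = 0 then α0 else β0| :=
      Finset.single_le_sum (f := fun i => |b i + if ty i = 0 then α0 else β0|)
        (fun _ _ => abs_nonneg _) (mem_univ i)
    have h2 := neg_abs_le (b i + if ty i = 0 then α0 else β0)
    linarith
  obtain ⟨low, hlow⟩ := hlow
  obtain ⟨ρ, hρ1, _, hρ3⟩ := greedy_ord b (fun i => ty i = 0) (h4 n ty) (l4 n ty) hl1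
    (fun i hi => hh1 i (by omega)) S.card S α0 β0 low rfl hlow
  set R : ℕ := ∑ i ∈ S, ρ i with hR
  have hρR : ∀ i ∈ S, ρ i ≤ R := fun i hi =>
    Finset.single_le_sum (f := fun i => ρ i) (fun _ _ => Nat.zero_le _) hi
  set ord : Fin N → ℕ := fun i => if i ∈ S then 5 * N + ρ i else if n i = 1 then 5 * N + R + 1 + i
    else ph i * N + i with hord
  have ho : ∀ i, ord i = if i ∈ S then 5 * N + ρ i else if n i = 1 then 5 * N + R + 1 + i
    else ph i * N + i := fun i => rfl
  have hphN : ∀ i, ph i = 0 ∨ ph i = 1 ∨ ph i = 2 ∨ ph i = 3 ∨ ph i = 4 := by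
    intro i
    have := hph_le i
    omega
  have hin : ∀ i, i ∉ S → n i ≠ 1 → ord i < 5 * N ∧ ord i = ph i * N + i := by
    intro i hi hn
    have h1 := i.2
    rw [ho, if_neg hi, if_neg hn]
    rcases hphN i with h | h | h | h | h <;> rw [h] <;> omega
  have hin1 : ∀ i, i ∉ S → n i = 1 → ord i = 5 * N + R + 1 + i := by
    intro i hi hn
    rw [ho, if_neg hi, if_pos hn]
  have hinS : ∀ i, i ∈ S → ord i = 5 * N + ρ i := by
    intro i hi
    rw [ho, if_pos hi]
  have hordinj : Function.Injective ord := by
    intro i j hij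
    by_cases hi : i ∈ S <;> by_cases hj : j ∈ S
    · rw [hinS i hi, hinS j hj] at hij
      exact hρ1 i hi j hj (by omega)
    · rw [hinS i hi] at hij
      have h3 := hρR i hi
      by_cases hnj : n j = 1
      · rw [hin1 j hj hnj] at hij
        omega
      · have := hin j hj hnj
        omega
    · rw [hinS j hj] at hij
      have h3 := hρR j hj
      by_cases hni : n i = 1
      · rw [hin1 i hi hni] at hij
        omega
      · have := hin i hi hni
        omega
    · by_cases hni : n i = 1 <;> by_cases hnj : n j = 1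
      · rw [hin1 i hi hni, hin1 j hj hnj] at hij
        exact Fin.ext (by omega)
      · rw [hin1 i hi hni] at hij
        have := hin j hj hnj
        omega
      · rw [hin1 j hj hnj] at hij
        have := hin i hi hni
        omega
      · rw [(hin i hi hni).2, (hin j hj hnj).2] at hij
        have h1 := i.2
        have h2 := j.2
        apply Fin.ext
        rcases hphN i with h3 | h3 | h3 | h3 | h3 <;> rcases hphN j with h4 | h4 | h4 | h4 | h4 <;>
          rw [h3, h4] at hij <;> omega
  have hphm : ∀ i j, i ∉ S → j ∉ S → ord i < ord j → ph i ≤ ph j := by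
    intro i j hi hj hij
    by_cases hnj : n j = 1
    · have h1 := hph_one j hnj
      have h2 := hph_le i
      omega
    · have hnj' := hin j hj hnj
      by_cases hni : n i = 1
      · rw [hin1 i hi hni] at hij
        omega
      · rw [(hin i hi hni).2, hnj'.2] at hij
        have h1 := i.2
        have h2 := j.2
        rcases hphN i with h3 | h3 | h3 | h3 | h3 <;> rcases hphN j with h4 | h4 | h4 | h4 | h4 <;>
          rw [h3, h4] at hij <;> omega
  have hphlt : ∀ i j, i ∉ S → j ∉ S → ph i < ph j → ord i < ord j := by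
    intro i j hi hj hij
    have hni : n i ≠ 1 := fun h => by
      have h1 := hph_one i h
      have h2 := hph_le j
      omega
    by_cases hnj : n j = 1
    · rw [hin1 j hj hnj]
      have := hin i hi hni
      omega
    · rw [(hin i hi hni).2, (hin j hj hnj).2]
      have h1 := i.2
      have h2 := j.2
      rcases hphN i with h3 | h3 | h3 | h3 | h3 <;> rcases hphN j with h4 | h4 | h4 | h4 | h4 <;>
        rw [h3, h4] at hij ⊢ <;> omega
  have hpreN : ∀ a, a ∉ S → univ.filter (fun j => ord j < ord a) =
      univ.filter (fun j => ord0 j < ord0 a) := by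
    intro a ha
    ext j
    simp only [mem_filter, mem_univ, true_and]
    have hj2 := j.2
    have ha2 := a.2
    by_cases hna : n a = 1
    · have h1 := hin1 a ha hna
      have h2 : ord0 a = 5 * N + 1 + a := by rw [ho0, if_neg ha, if_pos hna]
      by_cases hj : j ∈ S
      · have h3 := hρR j hj
        rw [hinS j hj, show ord0 j = 5 * N by rw [ho0, if_pos hj], h1, h2]
        omega
      · by_cases hnj : n j = 1
        · rw [hin1 j hj hnj, show ord0 j = 5 * N + 1 + j by rw [ho0, if_neg hj, if_pos hnj], h1, h2]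
          omega
        · have h3 := hin j hj hnj
          have h4 : ord0 j = ph j * N + j := by rw [ho0, if_neg hj, if_neg hnj]
          rw [h1, h2, h4]
          omega
    · have h1 := hin a ha hna
      have h2 : ord0 a = ph a * N + a := by rw [ho0, if_neg ha, if_neg hna]
      by_cases hj : j ∈ S
      · rw [hinS j hj, show ord0 j = 5 * N by rw [ho0, if_pos hj], h2]
        omega
      · by_cases hnj : n j = 1
        · rw [hin1 j hj hnj, show ord0 j = 5 * N + 1 + j by rw [ho0, if_neg hj, if_pos hnj], h2]
          omega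
        · rw [(hin j hj hnj).2, show ord0 j = ph j * N + j by rw [ho0, if_neg hj, if_neg hnj], h1.2,
            h2]
  have hpre0 : ∀ (g : Fin N → ℕ) (a : Fin N), a ∉ S → pre ord0 g a = pre ord g a := by
    intro g a ha
    unfold pre
    rw [hpreN a ha]
  have hpreS : ∀ (g : Fin N → ℕ) (s : Fin N), s ∈ S → pre ord g s =
      ∑ j ∈ univ.filter (fun j => j ∉ S ∧ n j ≠ 1), g j +
        ∑ j ∈ S.filter (fun j => ρ j < ρ s), g j := by
    intro g s hs
    unfold pre
    rw [← sum_union]
    · apply sum_congr _ (fun _ _ => rfl)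
      ext j
      simp only [mem_filter, mem_univ, true_and, mem_union]
      rw [hinS s hs]
      have h3 := hρR s hs
      by_cases hj : j ∈ S
      · rw [hinS j hj]
        constructor
        · intro h; exact Or.inr ⟨hj, by omega⟩
        · rintro (h | ⟨_, h⟩)
          · exact absurd hj h.1
          · omega
      · by_cases hnj : n j = 1
        · rw [hin1 j hj hnj]
          constructor
          · intro h; omega
          · rintro (h | ⟨h, _⟩)
            · exact absurd hnj h.2
            · exact absurd h hj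
        · have := hin j hj hnj
          constructor
          · intro _; exact Or.inl ⟨hj, hnj⟩
          · intro _; omega
    · rw [Finset.disjoint_left]
      intro x hx hx'
      exact (mem_filter.1 hx).2.1 (mem_filter.1 hx').1
  -- the legs with top labels
  have hTS : ∀ i, 2 ≤ ty i → i ∉ S := by
    intro i hi hiS
    have := (hSph i hiS).1
    omega
  have hT123 : ∀ i, 2 ≤ ty i → (ph i = 1 ∧ ty i = 3 ∧ n i = 4) ∨ (ph i = 2 ∧ ty i = 3 ∧ n i ≠ 4) ∨
      (ph i = 3 ∧ ty i = 2) := by
    intro i hi
    have := hty_le i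
    by_cases h1 : ty i = 2
    · exact Or.inr (Or.inr ⟨(hph3 i).2 h1, h1⟩)
    · have h2 : ty i = 3 := by omega
      by_cases h3 : n i = 4
      · exact Or.inl ⟨(hph1 i).2 ⟨h2, h3⟩, h2, h3⟩
      · exact Or.inr (Or.inl ⟨(hph2 i).2 ⟨h2, h3⟩, h2, h3⟩)
  have htid1 : ∀ i, ph i = 1 → tid i = pre ord q1 i + 1 := by
    intro i hi
    rw [tidd, if_pos hi, hpre0 q1 i (hTS i (by have := (hph1 i).1 hi; omega))]
  have htid2 : ∀ i, ph i = 2 → tid i = CC4 ty - pre ord q2 i := by
    intro i hi
    rw [tidd, if_neg (by omega), if_pos hi, hpre0 q2 i (hTS i (by have := (hph2 i).1 hi; omega))]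
  have htid3 : ∀ i, ph i = 3 → tid i = CC4 ty + pre ord q3 i + 1 := by
    intro i hi
    rw [tidd, if_neg (by omega), if_neg (by omega),
      hpre0 q3 i (hTS i (by have := (hph3 i).1 hi; omega))]
  have hq1t : ∀ i, ph i = 1 → pre ord q1 i + 1 ≤ ∑ i, q1 i := by
    intro i hi
    have h1 := pre_tot ord q1 i
    rw [q1d i, if_pos hi] at h1
    exact h1
  have hq2t : ∀ i, ph i = 2 → pre ord q2 i + 1 ≤ ∑ i, q2 i := by
    intro i hi
    have h1 := pre_tot ord q2 i
    rw [q2d i, if_pos hi] at h1
    exact h1
  have hq3t : ∀ i, ph i = 3 → pre ord q3 i + 1 ≤ ∑ i, q3 i := by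
    intro i hi
    have h1 := pre_tot ord q3 i
    rw [q3d i, if_pos ((hph3 i).1 hi)] at h1
    exact h1
  -- `h4` is at least `2 q2`
  set g : Fin N → ℕ := fun i => h4 n ty i - 2 * q2 i with hg
  have hgd : ∀ i, h4 n ty i = g i + 2 * q2 i := by
    intro i
    show h4 n ty i = h4 n ty i - 2 * q2 i + 2 * q2 i
    have h1 : 2 * q2 i ≤ h4 n ty i := by
      rw [q2d]
      split_ifs with h2
      · have h3 := (hph2 i).1 h2
        have h5 := hty.four i h3.1
        unfold h4
        rw [if_pos h3.1]
        omega
      · omega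
    omega
  have hpreg : ∀ i, pre ord (h4 n ty) i = pre ord g i + 2 * pre ord q2 i := by
    intro i
    unfold pre
    rw [mul_sum, ← sum_add_distrib]
    exact sum_congr rfl fun j _ => hgd j
  have hpreE : ∀ (f : Fin N → ℕ) (i : Fin N), i ∉ E → ∑ j ∈ E, f j ≤ pre ord f i := by
    intro f i hi
    unfold pre
    apply Finset.sum_le_sum_of_subset
    intro j hj
    rw [mem_filter]
    refine ⟨mem_univ _, ?_⟩
    have hjS : j ∉ S := fun h => (hSph j h).2 hj
    by_cases hiS : i ∈ S
    · rw [hinS i hiS]
      have := hin j hjS (by have := ((hEdef j).1 hj).2; omega)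
      omega
    · apply hphlt j i hjS hiS
      rw [(hphE j).2 hj]
      have : ph i ≠ 0 := fun h => hi ((hphE i).1 h)
      omega
  have hpre4 : ∀ i, ph i = 1 → pre ord (h4 n ty) i = E.card + pre ord q1 i := by
    intro i hi
    have hiS : i ∉ S := hTS i (by have := (hph1 i).1 hi; omega)
    have hbef : ∀ l, ord l < ord i → l ∉ S ∧ (l ∈ E ∨ ph l = 1) := by
      intro l hl
      have hlS : l ∉ S := by
        intro hlS
        rw [hinS l hlS] at hl
        have := hin i hiS (by have := (hph1 i).1 hi; omega)
        omega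
      refine ⟨hlS, ?_⟩
      have h1 := hphm l i hlS hiS hl
      rw [hi] at h1
      rcases (show ph l = 0 ∨ ph l = 1 by omega) with h2 | h2
      · exact Or.inl ((hphE l).1 h2)
      · exact Or.inr h2
    have h1 : pre ord (h4 n ty) i = ∑ l ∈ univ.filter (fun l => ord l < ord i),
        ((if l ∈ E then 1 else 0) + q1 l) := by
      unfold pre
      apply sum_congr rfl
      intro l hl
      have h2 := hbef l (mem_filter.1 hl).2
      rw [q1d]
      rcases h2.2 with h3 | h3
      · rw [if_pos h3, if_neg (by rw [(hphE l).2 h3]; norm_num), (hE0 l h3).2.2]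
      · have h5 : l ∉ E := fun h => by
          have := (hphE l).2 h
          omega
        rw [if_neg h5, if_pos h3]
        have h6 := (hph1 l).1 h3
        unfold h4
        rw [if_pos h6.1, h6.2]
    rw [h1, sum_add_distrib]
    congr 1
    rw [← sum_filter, ← card_eq_sum_ones]
    congr 1
    ext l
    simp only [mem_filter, mem_univ, true_and]
    constructor
    · exact fun h => h.2
    · intro h
      refine ⟨?_, h⟩
      apply hphlt l i (fun h' => (hSph l h').2 h) hiS
      rw [(hphE l).2 h, hi]
      norm_num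
  have hT : Tid4 n ord ty tid ps := by
    refine ⟨?_, ?_, ?_, ?_, ?_⟩
    · intro i hi
      rcases hT123 i hi with ⟨h1, _⟩ | ⟨h1, _⟩ | ⟨h1, _⟩
      · rw [htid1 i h1]
        have := hq1t i h1
        omega
      · rw [htid2 i h1]
        have := hq2t i h1
        omega
      · rw [htid3 i h1]
        have := hq3t i h1
        omega
    · intro i hi
      rcases hT123 i (by omega) with ⟨h1, _⟩ | ⟨h1, _⟩ | ⟨h1, h2⟩
      · rw [htid1 i h1]
        have := hq1t i h1
        omega
      · rw [htid2 i h1]
        omega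
      · omega
    · intro i j hi hj hij
      rcases lt_trichotomy (ord i) (ord j) with hlt | hlt | hlt
      · exfalso
        have m1 := pre_le ord q1 hlt
        have m2 := pre_le ord q2 hlt
        have m3 := pre_le ord q3 hlt
        rw [q1d] at m1
        rw [q2d] at m2
        rw [q3d] at m3
        rcases hT123 i hi with ⟨h1, h2⟩ | ⟨h1, h2⟩ | ⟨h1, h2⟩ <;>
        rcases hT123 j hj with ⟨h3, h4⟩ | ⟨h3, h4⟩ | ⟨h3, h4⟩
        · rw [htid1 i h1, htid1 j h3] at hij
          rw [if_pos h1] at m1
          omega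
        · rw [htid1 i h1, htid2 j h3] at hij
          have := hq1t i h1
          have := hq2t j h3
          omega
        · rw [htid1 i h1, htid3 j h3] at hij
          have := hq1t i h1
          omega
        · rw [htid2 i h1, htid1 j h3] at hij
          have := hq1t j h3
          have := hq2t i h1
          omega
        · rw [htid2 i h1, htid2 j h3] at hij
          rw [if_pos h1] at m2
          have := hq2t j h3
          omega
        · rw [htid2 i h1, htid3 j h3] at hij
          omega
        · rw [htid3 i h1, htid1 j h3] at hij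
          have := hq1t j h3
          omega
        · rw [htid3 i h1, htid2 j h3] at hij
          omega
        · rw [htid3 i h1, htid3 j h3] at hij
          rw [if_pos h2] at m3
          omega
      · exact hordinj hlt
      · exfalso
        have m1 := pre_le ord q1 hlt
        have m2 := pre_le ord q2 hlt
        have m3 := pre_le ord q3 hlt
        rw [q1d] at m1
        rw [q2d] at m2
        rw [q3d] at m3
        rcases hT123 i hi with ⟨h1, h2⟩ | ⟨h1, h2⟩ | ⟨h1, h2⟩ <;>
        rcases hT123 j hj with ⟨h3, h4⟩ | ⟨h3, h4⟩ | ⟨h3, h4⟩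
        · rw [htid1 i h1, htid1 j h3] at hij
          rw [if_pos h3] at m1
          omega
        · rw [htid1 i h1, htid2 j h3] at hij
          have := hq1t i h1
          have := hq2t j h3
          omega
        · rw [htid1 i h1, htid3 j h3] at hij
          have := hq1t i h1
          omega
        · rw [htid2 i h1, htid1 j h3] at hij
          have := hq1t j h3
          have := hq2t i h1
          omega
        · rw [htid2 i h1, htid2 j h3] at hij
          rw [if_pos h3] at m2
          have := hq2t i h1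
          omega
        · rw [htid2 i h1, htid3 j h3] at hij
          omega
        · rw [htid3 i h1, htid1 j h3] at hij
          have := hq1t j h3
          omega
        · rw [htid3 i h1, htid2 j h3] at hij
          omega
        · rw [htid3 i h1, htid3 j h3] at hij
          rw [if_pos h4] at m3
          omega
    · have key : ∀ i j, 2 ≤ ty i → 2 ≤ ty j → ord i < ord j →
          tid i + pre ord (h4 n ty) i < tid j + pre ord (h4 n ty) j := by
        intro i j hi hj hlt
        have hph' := hphm i j (hTS i hi) (hTS j hj) hlt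
        have m1 := pre_le ord q1 hlt
        have m2 := pre_le ord q2 hlt
        have m3 := pre_le ord q3 hlt
        have m4 := pre_le ord (h4 n ty) hlt
        have m5 := pre_mono ord g hlt.le
        rw [q1d] at m1
        rw [q2d] at m2
        rw [q3d] at m3
        rcases hT123 i hi with ⟨h1, h2⟩ | ⟨h1, h2⟩ | ⟨h1, h2⟩ <;>
        rcases hT123 j hj with ⟨h3, h4⟩ | ⟨h3, h4⟩ | ⟨h3, h4⟩
        · rw [htid1 i h1, htid1 j h3]
          rw [if_pos h1] at m1
          omega
        · rw [htid1 i h1, htid2 j h3]
          have := hq1t i h1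
          have := hq2t j h3
          omega
        · rw [htid1 i h1, htid3 j h3]
          have := hq1t i h1
          omega
        · omega
        · rw [htid2 i h1, htid2 j h3, hpreg i, hpreg j]
          rw [if_pos h1] at m2
          have := hq2t j h3
          omega
        · rw [htid2 i h1, htid3 j h3]
          omega
        · omega
        · omega
        · rw [htid3 i h1, htid3 j h3]
          rw [if_pos h2] at m3
          omega
      intro i j hi hj hij
      rcases lt_trichotomy (ord i) (ord j) with hlt | hlt | hlt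
      · have := key i j hi hj hlt
        omega
      · exact hordinj hlt
      · have := key j i hj hi hlt
        omega
    · intro i j hi hj he
      have hti : 1 ≤ tid i ∧ tid i ≤ CC4 ty := by
        rcases hT123 i (by omega) with ⟨h1, _⟩ | ⟨h1, _⟩ | ⟨h1, h2⟩
        · rw [htid1 i h1]
          have := hq1t i h1
          omega
        · rw [htid2 i h1]
          have := hq2t i h1
          omega
        · omega
      have hr := hP.rng (SO4 n ty + tid i) (by omega) (by omega)
      rcases hT123 j hj with ⟨h3, h4⟩ | ⟨h3, h4⟩ | ⟨h3, h4⟩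
      · have h5 := hpre4 j h3
        have h6 := hP.xavoid (tid i) (pre ord q1 j + 1) hti.1 hti.2 (by omega)
        rw [htid1 j h3, h5] at he
        omega
      · rw [htid2 j h3, hpreg j] at he
        have := hq2t j h3
        omega
      · rw [htid3 j h3] at he
        omega
  -- phases with top labels
  set P : Finset (Fin N) := univ.filter (fun j => j ∉ S ∧ ph j ≤ 3) with hPd
  have hPmem : ∀ j, j ∈ P ↔ j ∉ S ∧ ph j ≤ 3 := by
    intro j
    rw [hPd, mem_filter]
    exact ⟨fun h => h.2, fun h => ⟨mem_univ _, h⟩⟩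
  have hTP : ∀ j, 2 ≤ ty j → j ∈ P := by
    intro j hj
    rw [hPmem]
    refine ⟨hTS j hj, ?_⟩
    rcases hT123 j hj with ⟨h1, _⟩ | ⟨h1, _⟩ | ⟨h1, _⟩ <;> omega
  have hMP : ∀ j, M j → ty j ≤ 1 → j ∉ P := by
    intro j hj hjt hjP
    have h1 := ((hPmem j).1 hjP).2
    have h2 := hphE j
    have h3 := hph1 j
    have h5 := hph2 j
    have h6 := hph3 j
    rcases (show ph j = 0 ∨ ph j = 1 ∨ ph j = 2 ∨ ph j = 3 by omega) with h | h | h | h
    · exact hEM j (h2.1 h) hj
    · have := (h3.1 h).1
      omega
    · have := (h5.1 h).1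
      omega
    · have := h6.1 h
      omega
  have hpre_ge : ∀ (g : Fin N → ℕ) (i : Fin N), i ∉ P → ∑ j ∈ P, g j ≤ pre ord g i := by
    intro g i hi
    unfold pre
    apply Finset.sum_le_sum_of_subset
    intro j hj
    rw [hPmem] at hj
    rw [mem_filter]
    refine ⟨mem_univ _, ?_⟩
    by_cases hiS : i ∈ S
    · rw [hinS i hiS]
      have := hin j hj.1 (fun h => by have := hph_one j h; omega)
      omega
    · apply hphlt j i hj.1 hiS
      have h3 : ¬ ph i ≤ 3 := fun h => hi ((hPmem i).2 ⟨hiS, h⟩)
      omega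
  have hpre_le : ∀ (g : Fin N → ℕ) (i : Fin N), i ∈ P → pre ord g i + g i ≤ ∑ j ∈ P, g j := by
    intro g i hi
    have h0 := (hPmem i).1 hi
    have h1 : insert i (univ.filter (fun j => ord j < ord i)) ⊆ P := by
      intro j hj
      rw [mem_insert, mem_filter] at hj
      rcases hj with rfl | ⟨_, hj⟩
      · exact hi
      · have hjS : j ∉ S := by
          intro hjS
          rw [hinS j hjS] at hj
          have := hin i h0.1 (fun h => by have := hph_one i h; omega)
          omega
        rw [hPmem]
        refine ⟨hjS, ?_⟩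
        have := hphm j i hjS h0.1 hj
        omega
    have h2 := Finset.sum_le_sum_of_subset (f := g) h1
    rw [sum_insert (by simp)] at h2
    unfold pre
    omega
  have hTTle : ∀ g : Fin N → ℕ, (∀ i, 2 ≤ ty i → 1 ≤ g i) → TT4 ty ≤ ∑ j ∈ P, g j := by
    intro g hg
    have h1 : TT4 ty = ∑ j ∈ univ.filter (fun j => 2 ≤ ty j), 1 := by
      unfold TT4 t4
      rw [sum_filter]
    rw [h1]
    calc ∑ j ∈ univ.filter (fun j => 2 ≤ ty j), 1
        ≤ ∑ j ∈ univ.filter (fun j => 2 ≤ ty j), g j :=
          sum_le_sum fun j hj => hg j (mem_filter.1 hj).2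
      _ ≤ ∑ j ∈ P, g j := by
          apply Finset.sum_le_sum_of_subset
          intro j hj
          exact hTP j (mem_filter.1 hj).2
  set H1 : ℕ := ∑ j ∈ P, h4 n ty j with hH1
  have hTTH : TT4 ty ≤ H1 := hTTle _ fun i hi => hh1 i (by omega)
  have hTTL : TT4 ty ≤ ∑ j ∈ P, l4 n ty j := hTTle _ fun i _ => hl1 i
  have hHS : H1 ≤ SH4 n ty := Finset.sum_le_sum_of_subset (subset_univ _)
  have hSLH : SH4 n ty ≤ SO4 n ty := by
    unfold SH4 SO4
    apply sum_le_sum
    intro i _
    unfold h4 l4
    split_ifs <;> omega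
  -- raw labels at the roots
  have hr0 : ∀ a, ty a = 0 → r4 n ord ty tid a 0 =
      SO4 n ty + CC4 ty + pre ord (h4 n ty) a + 1 := by
    intro a ha
    unfold r4
    have h1 : sg4 ty a = 0 := if_neg (by omega)
    have h2 : u4 ty a = 0 := if_neg (by omega)
    rw [if_neg (by omega), if_neg (by omega), h1, h2, if_pos (by norm_num)]
  have hr1 : ∀ a, ty a = 1 → r4 n ord ty tid a 0 = pre ord (l4 n ty) a + 1 := by
    intro a ha
    unfold r4
    have h1 : sg4 ty a = 1 := if_pos (Or.inl ha)
    have h2 : t4 ty a = 0 := if_neg (by omega)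
    rw [if_neg (by omega), if_neg (by omega), h1, h2, if_neg (by norm_num)]
  have hr2 : ∀ a, ty a = 2 → r4 n ord ty tid a 0 = SO4 n ty + CC4 ty + SH4 n ty + tid a := by
    intro a ha
    unfold r4
    rw [if_neg (by omega), if_pos (Or.inl ⟨ha, rfl⟩)]
  have hr3 : ∀ a, ty a = 3 → r4 n ord ty tid a 0 = SO4 n ty + tid a := by
    intro a ha
    unfold r4
    rw [if_pos ⟨ha, rfl⟩]
  -- the legs of length one which are not special are last
  set O : Finset (Fin N) := univ.filter (fun j => j ∉ S ∧ n j = 1) with hO
  have hOmem : ∀ j, j ∈ O ↔ j ∉ S ∧ n j = 1 := by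
    intro j
    rw [hO, mem_filter]
    exact ⟨fun h => h.2, fun h => ⟨mem_univ _, h⟩⟩
  have hOP : Disjoint P O := by
    rw [Finset.disjoint_left]
    intro j hj hj'
    have h1 := (hPmem j).1 hj
    have h2 := hph_one j ((hOmem j).1 hj').2
    omega
  have hSP : Disjoint P S := by
    rw [Finset.disjoint_left]
    intro j hj hj'
    exact ((hPmem j).1 hj).1 hj'
  have hOS : Disjoint O S := by
    rw [Finset.disjoint_left]
    intro j hj hj'
    exact ((hOmem j).1 hj).1 hj'
  have hOl : ∑ j ∈ O, l4 n ty j = O.card := by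
    rw [card_eq_sum_ones]
    apply sum_congr rfl
    intro j hj
    have h1 := ((hOmem j).1 hj).2
    have h2 : ty j = 1 := by
      rw [hty_def, if_neg (by omega), if_pos (Or.inl h1)]
    unfold l4
    rw [if_pos h2, h1]
  have hPSO : ∑ j ∈ P, l4 n ty j + ∑ j ∈ S, l4 n ty j + O.card ≤ SO4 n ty := by
    rw [← hOl, ← sum_union hSP, ← sum_union]
    · exact Finset.sum_le_sum_of_subset (subset_univ _)
    · rw [Finset.disjoint_union_left]
      exact ⟨hOP, hOS.symm⟩
  have hPSH : H1 + ∑ j ∈ S, h4 n ty j ≤ SH4 n ty := by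
    rw [hH1, ← sum_union hSP]
    exact Finset.sum_le_sum_of_subset (subset_univ _)
  have hSlh : ∑ j ∈ S, h4 n ty j ≤ ∑ j ∈ S, l4 n ty j := by
    apply sum_le_sum
    intro i _
    unfold h4 l4
    split_ifs <;> omega
  have hpreO : ∀ a, a ∈ O → SO4 n ty ≤ pre ord (l4 n ty) a + O.card := by
    intro a ha
    have ha' := (hOmem a).1 ha
    have h1 : (univ.filter (fun j => j ∉ O)) ⊆ univ.filter (fun j => ord j < ord a) := by
      intro j hj
      have hj' := (mem_filter.1 hj).2
      rw [mem_filter]
      refine ⟨mem_univ _, ?_⟩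
      rw [hin1 a ha'.1 ha'.2]
      by_cases hjS : j ∈ S
      · rw [hinS j hjS]
        have := hρR j hjS
        omega
      · have hnj : n j ≠ 1 := fun h => hj' ((hOmem j).2 ⟨hjS, h⟩)
        have := hin j hjS hnj
        omega
    have h2 := Finset.sum_le_sum_of_subset (f := l4 n ty) h1
    have h3 : SO4 n ty = ∑ j ∈ univ.filter (fun j => j ∈ O), l4 n ty j +
        ∑ j ∈ univ.filter (fun j => j ∉ O), l4 n ty j := by
      unfold SO4
      rw [sum_filter_add_sum_filter_not]
    have h4' : univ.filter (fun j => j ∈ O) = O := by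
      ext j
      simp
    rw [h4', hOl] at h3
    have h5 : pre ord (l4 n ty) a = ∑ j ∈ univ.filter (fun j => ord j < ord a), l4 n ty j := rfl
    omega
  have hpreSh : ∀ a, a ∈ S → SH4 n ty ≤ pre ord (h4 n ty) a + ∑ j ∈ S, h4 n ty j := by
    intro a ha
    have h1 := hpreS (h4 n ty) a ha
    have h3 : SH4 n ty = ∑ j ∈ univ.filter (fun j => j ∉ S ∧ n j ≠ 1), h4 n ty j +
        ∑ j ∈ univ.filter (fun j => ¬ (j ∉ S ∧ n j ≠ 1)), h4 n ty j := by
      unfold SH4
      rw [sum_filter_add_sum_filter_not]
    have h5 : ∑ j ∈ univ.filter (fun j => ¬ (j ∉ S ∧ n j ≠ 1)), h4 n ty j ≤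
        ∑ j ∈ S, h4 n ty j + ∑ j ∈ O, h4 n ty j := by
      rw [← sum_union hOS.symm]
      apply Finset.sum_le_sum_of_subset
      intro j hj
      have hj' := (mem_filter.1 hj).2
      rw [mem_union]
      by_cases hjS : j ∈ S
      · exact Or.inl hjS
      · right
        rw [hOmem]
        refine ⟨hjS, ?_⟩
        by_contra hne
        exact hj' ⟨hjS, hne⟩
    have h6 : ∑ j ∈ O, h4 n ty j = 0 := by
      apply sum_eq_zero
      intro j hj
      have h7 := ((hOmem j).1 hj).2
      have h8 : ty j = 1 := by
        rw [hty_def, if_neg (by omega), if_pos (Or.inl h7)]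
      unfold h4
      rw [if_neg (by omega), h7]
      norm_num
    omega
  set w : Fin N → ℕ := fun a => if ty a = 0 then (if a ∈ S then
      SO4 n ty + CC4 ty + (SH4 n ty - ∑ j ∈ S, h4 n ty j) else SO4 n ty + CC4 ty + H1)
    else if ty a = 2 then SO4 n ty + CC4 ty + SH4 n ty
    else if a ∈ O then SO4 n ty - O.card else TT4 ty with hw
  have hwd : ∀ a, w a = if ty a = 0 then (if a ∈ S then
      SO4 n ty + CC4 ty + (SH4 n ty - ∑ j ∈ S, h4 n ty j) else SO4 n ty + CC4 ty + H1)
    else if ty a = 2 then SO4 n ty + CC4 ty + SH4 n ty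
    else if a ∈ O then SO4 n ty - O.card else TT4 ty := fun a => rfl
  have hwz : ∀ a, M a → w a + 1 ≤ ps (r4 n ord ty tid a 0) := by
    intro a ha
    have h3 : ty a ≠ 3 := fun h => ((hty_three a).1 h).2.1 ha
    have hle := hty_le a
    rw [hwd]
    split_ifs with h1 h2 h2 h2'
    · have h5 := hpreSh a h2
      rw [hr0 a h1, hP.top _ (by omega)]
      omega
    · have h5 := hpre_ge (h4 n ty) a (hMP a ha (by omega))
      rw [hr0 a h1, hP.top _ (by omega)]
      omega
    · have h5 := hT.rng a (by omega)
      rw [hr2 a h2, hP.top _ (by omega)]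
      omega
    · have h5 := hpreO a h2'
      have h6 := hpreE (l4 n ty) a (fun h => hEM a h ha)
      rw [hEl] at h6
      have h7 := pre_tot ord (l4 n ty) a
      have h8 := hl1 a
      have d1 : SO4 n ty = ∑ i, l4 n ty i := rfl
      rw [hr1 a (by omega)]
      have h9 := ps_ge hP (by omega : E.card < pre ord (l4 n ty) a + 1) (by omega)
      omega
    · have h5 := hpre_ge (l4 n ty) a (hMP a ha (by omega))
      have h6 := hpreE (l4 n ty) a (fun h => hEM a h ha)
      rw [hEl] at h6
      have h7 := pre_tot ord (l4 n ty) a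
      have h8 := hl1 a
      have d1 : SO4 n ty = ∑ i, l4 n ty i := rfl
      rw [hr1 a (by omega)]
      have h9 := ps_ge hP (by omega : E.card < pre ord (l4 n ty) a + 1) (by omega)
      omega
  have hwST : ∀ a, TT4 ty ≤ w a := by
    intro a
    rw [hwd]
    split_ifs <;> omega
  have hw0 : ∀ a, ty a = 0 → SO4 n ty + CC4 ty + H1 ≤ w a := by
    intro a ha
    rw [hwd, if_pos ha]
    split_ifs <;> omega
  -- three legs which make the root sum large
  have hthree : ∀ j, M j → ∃ a1 a2 a3, a1 ≠ a2 ∧ a1 ≠ a3 ∧ a2 ≠ a3 ∧ cen a1 = cen j ∧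
      cen a2 = cen j ∧ cen a3 = cen j ∧
      2 * (SO4 n ty + CC4 ty) + SH4 n ty + TT4 ty + H1 ≤ w a1 + w a2 + w a3 := by
    intro j hj
    have hc := hcen j hj
    have hspj := hsp3 j
    have hspc := hsp1 j
    have hspSj := hspS j hj
    by_cases he : ∃ a, cen a = cen j ∧ n a % 2 = 0
    · obtain ⟨a1, ha1, ha1'⟩ := he
      have hse : n (sp j) % 2 = 0 := by
        have h1 := hspj a1 ha1
        unfold scl at h1
        rw [if_pos ha1'] at h1
        by_contra hne
        rw [if_neg hne] at h1
        split_ifs at h1 <;> omega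
      by_cases hq : ∃ a, cen a = cen j ∧ n a % 2 = 1 ∧ 3 ≤ n a
      · obtain ⟨a2, ha2, ha2', ha2''⟩ := hq
        have hne : a1 ≠ a2 := by
          rintro rfl
          omega
        obtain ⟨a3, h31, h32, h33⟩ := htwo a1 a2 hne (by rw [ha1, ha2])
        refine ⟨a1, a2, a3, hne, h31.symm, h32.symm, ha1, ha2, by rw [h33, ha1], ?_⟩
        have w1 := hw0 a1 ((hty_zero a1).2 ⟨ha1', Or.inl (hMc _ _ ha1 hj)⟩)
        have t2 : ty a2 = 2 := by
          rw [hty_two]
          refine ⟨ha2', by omega, hMc _ _ ha2 hj, ?_⟩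
          intro hS2
          have h5 := hSuniq a2 (sp j) hS2 hspSj (by rw [ha2, hspc])
          rw [← h5] at hse
          omega
        have w2 : w a2 = SO4 n ty + CC4 ty + SH4 n ty := by
          rw [hwd, if_neg (by omega), if_pos t2]
        have w3 := hwST a3
        omega
      · -- only legs of even length and of length one
        obtain ⟨x, hx, y, hy, hxy⟩ := Finset.one_lt_card.1
          (by omega : 1 < (univ.filter fun i => cen i = cen j ∧ 2 ≤ n i).card)
        simp only [mem_filter, mem_univ, true_and] at hx hy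
        have hev : ∀ a, cen a = cen j → 2 ≤ n a → n a % 2 = 0 := by
          intro a ha ha2
          by_contra hne
          exact hq ⟨a, ha, by omega, by omega⟩
        obtain ⟨a, ha, haev, has⟩ : ∃ a, cen a = cen j ∧ n a % 2 = 0 ∧ a ≠ sp j := by
          by_cases hxs : x = sp j
          · exact ⟨y, hy.1, hev y hy.1 hy.2, fun h => hxy (by rw [hxs, h])⟩
          · exact ⟨x, hx.1, hev x hx.1 hx.2, hxs⟩
        obtain ⟨c, hc1, hc2, hc3⟩ := htwo (sp j) a has.symm (by rw [hspc, ha])
        refine ⟨sp j, a, c, has.symm, hc1.symm, hc2.symm, hspc, ha, by rw [hc3, hspc], ?_⟩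
        have hcj : cen c = cen j := by rw [hc3, hspc]
        have ts : ty (sp j) = 0 := (hty_zero _).2 ⟨hse, Or.inl (hMc _ _ hspc hj)⟩
        have w2 := hw0 a ((hty_zero a).2 ⟨haev, Or.inl (hMc _ _ ha hj)⟩)
        by_cases hc2' : 2 ≤ n c
        · have w1 := hw0 (sp j) ts
          have w3 := hw0 c ((hty_zero c).2 ⟨hev c hcj hc2', Or.inl (hMc _ _ hcj hj)⟩)
          omega
        · have hnc : n c = 1 := by
            have := hpos c
            omega
          have hcO : c ∈ O := by
            rw [hOmem]
            refine ⟨fun hcS => hc1 (hSuniq c (sp j) hcS hspSj (by rw [hcj, hspc])), hnc⟩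
          have w1 : w (sp j) = SO4 n ty + CC4 ty + (SH4 n ty - ∑ j ∈ S, h4 n ty j) := by
            rw [hwd, if_pos ts, if_pos hspSj]
          have w3 : w c = SO4 n ty - O.card := by
            have tc : ty c = 1 := by
              rw [hty_def, if_neg (by omega), if_pos (Or.inl hnc)]
            rw [hwd, if_neg (by omega), if_neg (by omega), if_pos hcO]
          omega
    · push Not at he
      have hsodd : n (sp j) % 2 = 1 := by
        have := he (sp j) hspc
        omega
      -- two further long odd legs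
      have key : ∃ a b', a ≠ b' ∧ a ≠ sp j ∧ b' ≠ sp j ∧ cen a = cen j ∧ cen b' = cen j ∧
          n a ≠ 1 ∧ n b' ≠ 1 := by
        by_cases hs1 : n (sp j) = 1
        · obtain ⟨a, ha, b', hb', hab⟩ := Finset.one_lt_card.1
            (by omega : 1 < (univ.filter fun i => cen i = cen j ∧ 2 ≤ n i).card)
          simp only [mem_filter, mem_univ, true_and] at ha hb'
          refine ⟨a, b', hab, ?_, ?_, ha.1, hb'.1, by omega, by omega⟩
          · rintro rfl
            omega
          · rintro rfl
            omega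
        · have hall : ∀ a, cen a = cen j → n a ≠ 1 := by
            intro a ha h1
            have h2 := hspj a ha
            unfold scl at h2
            rw [if_neg (by omega), if_neg hs1, if_neg (by omega), if_pos h1] at h2
            omega
          obtain ⟨j', hj', hcj'⟩ := hMc _ _ hspc hj
          obtain ⟨l, hl1', hl2, hl3⟩ := htwo (sp j) j' hj'.symm hcj'.symm
          refine ⟨j', l, hl2.symm, hj', hl1', by rw [hcj', hspc], by rw [hl3, hspc],
            hall _ (by rw [hcj', hspc]), hall _ (by rw [hl3, hspc])⟩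
      obtain ⟨a, b', hab, has, hbs, hac, hbc, hna, hnb⟩ := key
      refine ⟨a, b', sp j, hab, has, hbs, hac, hbc, hspc, ?_⟩
      have wt : ∀ a, cen a = cen j → a ≠ sp j → n a ≠ 1 → w a = SO4 n ty + CC4 ty + SH4 n ty := by
        intro a hac has hna
        have t2 : ty a = 2 := by
          rw [hty_two]
          refine ⟨?_, hna, hMc _ _ hac hj, ?_⟩
          · have := he a hac
            omega
          · intro hS2
            exact has (hSuniq a (sp j) hS2 hspSj (by rw [hac, hspc]))
        rw [hwd, if_neg (by omega), if_pos t2]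
      have w1 := wt a hac has hna
      have w2 := wt b' hbc hbs hnb
      have w3 := hwST (sp j)
      omega
  refine ⟨fun i t => k + ps (r4 n ord ty tid i t), good_quad n ord ty tid ps E.card cen k hk hordinj
    hty hT hP hoS hoH ?_ hone ?_ H1 ?_ ?_ ?_⟩
  · intro i
    by_cases hiE : i ∈ E
    · left
      have hiS : i ∉ S := fun h => (hSph i h).2 hiE
      have hbef : ∀ l, ord l < ord i → l ∈ E := by
        intro l hl
        have hlS : l ∉ S := by
          intro hlS
          rw [hinS l hlS] at hl
          have := hin i hiS (by have := ((hEdef i).1 hiE).2; omega)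
          omega
        have h1 := hphm l i hlS hiS hl
        rw [(hphE i).2 hiE] at h1
        exact (hphE l).1 (by omega)
      refine ⟨((hEdef i).1 hiE).2, (hE0 i hiE).1, ?_, ?_⟩
      · unfold pre
        apply sum_congr rfl
        intro l hl
        have h1 := hE0 l (hbef l (mem_filter.1 hl).2)
        rw [h1.2.1, h1.2.2]
      · have h1 : insert i (univ.filter (fun j => ord j < ord i)) ⊆ E := by
          intro l hl
          rw [mem_insert, mem_filter] at hl
          rcases hl with rfl | ⟨_, hl⟩
          · exact hiE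
          · exact hbef l hl
        have h2 := Finset.sum_le_sum_of_subset (f := l4 n ty) h1
        rw [sum_insert (by simp), hEl, (hE0 i hiE).2.1] at h2
        unfold pre
        omega
    · right
      have h1 := hpreE (h4 n ty) i hiE
      have h2 := hpreE (l4 n ty) i hiE
      rw [hEh] at h1
      rw [hEl] at h2
      exact ⟨h1, h2⟩
  · intro j hj
    have hMj : ¬ M j := (hnM j).1 hj
    by_cases hev : n j % 2 = 0
    · by_cases h2 : n j = 2
      · have hjE : j ∈ E := (hEdef j).2 ⟨hj, h2⟩
        have hjS : j ∉ S := fun h => (hSph j h).2 hjE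
        rw [hr0 j (hE0 j hjE).1, hP.top _ (by omega)]
        have h1 : insert j (univ.filter (fun l => ord l < ord j)) ⊆ E := by
          intro l hl
          rw [mem_insert, mem_filter] at hl
          rcases hl with rfl | ⟨_, hl⟩
          · exact hjE
          · have hlS : l ∉ S := by
              intro hlS
              rw [hinS l hlS] at hl
              have := hin j hjS (by omega)
              omega
            have h1 := hphm l j hlS hjS hl
            rw [(hphE j).2 hjE] at h1
            exact (hphE l).1 (by omega)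
        have h2 := Finset.sum_le_sum_of_subset (f := h4 n ty) h1
        rw [sum_insert (by simp), hEh, (hE0 j hjE).2.2] at h2
        unfold pre
        omega
      · have h3 : ty j = 3 := (hty_three j).2 ⟨hev, hMj, h2⟩
        have h5 := hT.rng3 j h3
        have h6 := hT.rng j (by omega)
        rw [hr3 j h3]
        have := (hP.rng (SO4 n ty + tid j) (by omega) (by omega)).2
        omega
    · have hty1' : ty j = 1 := by
        rw [hty_def, if_neg hev, if_pos]
        right
        left
        exact hMj
      rw [hr1 j hty1']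
      have h7 := pre_tot ord (l4 n ty) j
      have h8 := hl1 j
      have d1 : SO4 n ty = ∑ i, l4 n ty i := rfl
      have := (hP.rng (pre ord (l4 n ty) j + 1) (by omega) (by omega)).2
      omega
  · intro i hi
    have h1 := hpre_le (h4 n ty) i (hTP i hi)
    have h2 := hh1 i (by omega)
    omega
  · -- root sums are different
    have hact : ∀ i, M i → rs cen (fun i t => k + (ps (r4 n ord ty tid i t) : ℤ)) (cen i) =
        b (sp i) + (k + ps (r4 n ord ty tid (sp i) 0)) := by
      intro i hi
      have hsS := hspS i hi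
      have hmemc : sp i ∈ univ.filter (fun a => cen a = cen i) :=
        mem_filter.2 ⟨mem_univ _, hsp1 i⟩
      have hcls : (univ.filter fun a => cen a = cen (sp i)) =
          univ.filter fun a => cen a = cen i := by
        rw [hsp1 i]
      unfold rs
      rw [← add_sum_erase _ _ hmemc]
      have h1 : ∑ a ∈ (univ.filter fun a => cen a = cen i).erase (sp i),
          (k + (ps (r4 n ord ty tid a 0) : ℤ)) = b (sp i) := by
        show _ = ∑ a ∈ (univ.filter fun a => cen a = cen (sp i)).erase (sp i),
          (k + (ps (r4 n ord0 ty tid a 0) : ℤ))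
        rw [hcls]
        apply sum_congr rfl
        intro a ha
        rw [mem_erase, mem_filter] at ha
        have haS : a ∉ S := by
          intro haS
          exact ha.1 (hSuniq a (sp i) haS hsS (by rw [ha.2.2, hsp1 i]))
        rw [r4_congr n ord ord0 ty tid a 0 (hpreN a haS)]
      show (k + (ps (r4 n ord ty tid (sp i) 0) : ℤ)) +
        ∑ a ∈ (univ.filter fun a => cen a = cen i).erase (sp i),
          (k + (ps (r4 n ord ty tid a 0) : ℤ)) = _
      rw [h1]
      ring
    have hSE : ∀ s ∈ S, E.card ≤ pre ord (l4 n ty) s ∧ pre ord (l4 n ty) s + 1 ≤ SO4 n ty := by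
      intro s hs
      have h6 := hpreE (l4 n ty) s (hSph s hs).2
      rw [hEl] at h6
      have h7 := pre_tot ord (l4 n ty) s
      have h8 := hl1 s
      have d1 : SO4 n ty = ∑ i, l4 n ty i := rfl
      omega
    have hge : ∀ s ∈ S, gval S b (fun i => ty i = 0) (h4 n ty) (l4 n ty) α0 β0 ρ s ≤
        b s + (k + ps (r4 n ord ty tid s 0)) := by
      intro s hs
      unfold gval
      have hts := (hSph s hs).1
      rcases (show ty s = 0 ∨ ty s = 1 by omega) with h2 | h2
      · rw [if_pos h2, hr0 s h2, hP.top _ (by omega), hpreS (h4 n ty) s hs, hα]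
        push_cast
        linarith
      · have h5 := hSE s hs
        have h6 := ps_ge hP (by omega : E.card < pre ord (l4 n ty) s + 1) (by omega)
        rw [if_neg (by omega), hr1 s h2, hβ]
        have h7 := hpreS (l4 n ty) s hs
        have h8 : ((pre ord (l4 n ty) s + 1 : ℕ) : ℤ) ≤ ps (pre ord (l4 n ty) s + 1) := by
          exact_mod_cast h6
        rw [h7] at h8 ⊢
        push_cast at h8 ⊢
        linarith
    have heq : ∀ s ∈ S, (∃ s' ∈ S, ρ s < ρ s') → b s + (k + ps (r4 n ord ty tid s 0)) =
        gval S b (fun i => ty i = 0) (h4 n ty) (l4 n ty) α0 β0 ρ s := by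
      rintro s hs ⟨s', hs', hlt⟩
      unfold gval
      have hts := (hSph s hs).1
      rcases (show ty s = 0 ∨ ty s = 1 by omega) with h2 | h2
      · rw [if_pos h2, hr0 s h2, hP.top _ (by omega), hpreS (h4 n ty) s hs, hα]
        push_cast
        ring
      · have h5 := hSE s hs
        have h5' := hSE s' hs'
        have h6 : ord s < ord s' := by
          rw [hinS s hs, hinS s' hs']
          omega
        have h7 := pre_le ord (l4 n ty) h6
        have h8 := hl1 s
        rw [if_neg (by omega), hr1 s h2, hP.mid _ (by omega) (by omega), hpreS (l4 n ty) s hs, hβ]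
        push_cast
        ring
    intro i j hi hj h
    rw [hact i hi, hact j hj] at h
    have hsi := hspS i hi
    have hsj := hspS j hj
    rcases lt_trichotomy (ρ (sp i)) (ρ (sp j)) with h1 | h1 | h1
    · have h2 := hρ3 _ hsi _ hsj h1
      have h3 := heq _ hsi ⟨_, hsj, h1⟩
      have h5 := hge _ hsj
      omega
    · have := hρ1 _ hsi _ hsj h1
      rw [← hsp1 i, ← hsp1 j, this]
    · have h2 := hρ3 _ hsj _ hsi h1
      have h3 := heq _ hsj ⟨_, hsi, h1⟩
      have h5 := hge _ hsi
      omega
  · intro j hj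
    obtain ⟨a1, a2, a3, h12, h13, h23, hc1, hc2, hc3, hsum⟩ := hthree j hj
    have hsub : ({a1, a2, a3} : Finset (Fin N)) ⊆ univ.filter fun x => cen x = cen j := by
      intro x hx
      simp only [mem_insert, mem_singleton] at hx
      rw [mem_filter]
      refine ⟨mem_univ _, ?_⟩
      rcases hx with rfl | rfl | rfl
      · exact hc1
      · exact hc2
      · exact hc3
    have h1 : ∑ x ∈ ({a1, a2, a3} : Finset (Fin N)), (k + (ps (r4 n ord ty tid x 0) : ℤ)) ≤
        ∑ x ∈ univ.filter (fun x => cen x = cen j), (k + (ps (r4 n ord ty tid x 0) : ℤ)) := by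
      apply Finset.sum_le_sum_of_subset_of_nonneg hsub
      intro x hx _
      have hMx : M x := hMc _ _ (mem_filter.1 hx).2 hj
      have := hwz x hMx
      omega
    rw [sum_insert (by
      simp only [mem_insert, mem_singleton, not_or]
      exact ⟨h12, h13⟩), sum_insert (by
      simp only [mem_singleton]
      exact h23), sum_singleton] at h1
    have w1 := hwz a1 (hMc _ _ hc1 hj)
    have w2 := hwz a2 (hMc _ _ hc2 hj)
    have w3 := hwz a3 (hMc _ _ hc3 hj)
    unfold rs
    refine lt_of_lt_of_le ?_ h1
    omega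

end Pool.SpC75
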