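import Pool.Agent.SpA.Defs

/-!
# SpC75/Label (MP_9fc547_co)

The level labeling of the legs: edges near the roots get the large labels; on a level the legs are
ordered by the number of legs at the root, then root by root.  It is good for every `k ≥ m - 2`.
-/

namespace Pool.SpC75

open Finset Pool.SpA

section order

variable {N : ℕ} {α : Type*} [DecidableEq α] (cen : Fin N → α)

/-- number of legs at the root of leg `i` -/
def dg (i : Fin N) : ℕ := (univ.filter fun j => cen j = cen i).card

/-- first leg at the root of leg `i` -/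
def rep (i : Fin N) : Fin N :=
  (univ.filter fun j => cen j = cen i).min' ⟨i, by simp⟩

lemma cen_rep (i : Fin N) : cen (rep cen i) = cen i := by
  have h := (univ.filter fun j => cen j = cen i).min'_mem ⟨i, by simp⟩
  exact (mem_filter.1 h).2

lemma rep_eq {i j : Fin N} (h : cen i = cen j) : rep cen i = rep cen j := by
  unfold rep
  simp only [h]

lemma rep_eq_iff {i j : Fin N} : rep cen i = rep cen j ↔ cen i = cen j := by
  refine ⟨fun h => ?_, rep_eq cen⟩
  rw [← cen_rep cen i, ← cen_rep cen j, h]

lemma dg_eq {i j : Fin N} (h : cen i = cen j) : dg cen i = dg cen j := by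
  unfold dg
  simp only [h]

/-- the order of the legs -/
def lam (i : Fin N) : ℕ := (dg cen i * N + (rep cen i : ℕ)) * N + i

lemma lam_lt_of {i j : Fin N} (h : dg cen i * N + (rep cen i : ℕ) < dg cen j * N + (rep cen j : ℕ)) :
    lam cen i < lam cen j := by
  unfold lam
  have h1 : (dg cen i * N + (rep cen i : ℕ) + 1) * N ≤ (dg cen j * N + (rep cen j : ℕ)) * N :=
    Nat.mul_le_mul_right _ h
  have h2 := i.2
  rw [add_mul, one_mul] at h1
  omega

lemma lam_inj {i j : Fin N} (h : lam cen i = lam cen j) : i = j := by
  have h1 : dg cen i * N + (rep cen i : ℕ) = dg cen j * N + (rep cen j : ℕ) := by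
    rcases lt_trichotomy (dg cen i * N + (rep cen i : ℕ)) (dg cen j * N + (rep cen j : ℕ)) with
      h2 | h2 | h2
    · have := lam_lt_of cen h2
      omega
    · exact h2
    · have := lam_lt_of cen h2
      omega
  unfold lam at h
  rw [h1] at h
  exact Fin.ext (by omega)

lemma lam_lt_iff {i j : Fin N} (hc : cen i ≠ cen j) :
    lam cen i < lam cen j ↔ dg cen i * N + (rep cen i : ℕ) < dg cen j * N + (rep cen j : ℕ) := by
  refine ⟨fun h => ?_, lam_lt_of cen⟩
  rcases lt_trichotomy (dg cen i * N + (rep cen i : ℕ)) (dg cen j * N + (rep cen j : ℕ)) with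
      h2 | h2 | h2
  · exact h2
  · exfalso
    apply hc
    rw [← rep_eq_iff]
    have h3 : dg cen i = dg cen j := by
      have hi := (rep cen i).2
      have hj := (rep cen j).2
      have a1 : (dg cen i * N + (rep cen i : ℕ)) / N = dg cen i := by
        rw [mul_comm, Nat.mul_add_div (by omega), Nat.div_eq_of_lt hi, add_zero]
      have a2 : (dg cen j * N + (rep cen j : ℕ)) / N = dg cen j := by
        rw [mul_comm, Nat.mul_add_div (by omega), Nat.div_eq_of_lt hj, add_zero]
      rw [← a1, ← a2, h2]
    rw [h3] at h2
    exact Fin.ext (by omega)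
  · have := lam_lt_of cen h2
    omega

lemma lam_block {i j i' j' : Fin N} (hi : cen i' = cen i) (hj : cen j' = cen j)
    (hc : cen i ≠ cen j) (h : lam cen i < lam cen j) : lam cen i' < lam cen j' := by
  rw [lam_lt_iff cen (by rw [hi, hj]; exact hc), dg_eq cen hi, dg_eq cen hj, rep_eq cen hi,
    rep_eq cen hj]
  exact (lam_lt_iff cen hc).1 h

lemma dg_le {i j : Fin N} (hc : cen i ≠ cen j) (h : lam cen i < lam cen j) :
    dg cen i ≤ dg cen j := by
  have h1 := (lam_lt_iff cen hc).1 h
  by_contra hlt
  have h2 : (dg cen j + 1) * N ≤ dg cen i * N := Nat.mul_le_mul_right _ (by omega)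
  have h3 := (rep cen j).2
  rw [add_mul, one_mul] at h2
  omega

end order

section label

variable {N : ℕ} {α : Type*} [DecidableEq α]

/-- a bound for the order numbers -/
def CC (cen : Fin N → α) : ℕ := ∑ i, lam cen i + 1

lemma lam_lt_CC (cen : Fin N → α) (i : Fin N) : lam cen i < CC cen := by
  have : lam cen i ≤ ∑ i, lam cen i :=
    Finset.single_le_sum (f := fun i => lam cen i) (fun _ _ => Nat.zero_le _) (mem_univ i)
  unfold CC
  omega

/-- the key of an edge: large near the root -/
def key (n : Fin N → ℕ) (cen : Fin N → α) (x : Fin N × ℕ) : ℕ :=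
  (∑ i, n i - x.2) * CC cen + lam cen x.1

/-- the set of the edges -/
def SS (n : Fin N → ℕ) : Finset (Fin N × ℕ) :=
  (univ ×ˢ range (∑ i, n i)).filter fun x => x.2 < n x.1

lemma n_le (n : Fin N → ℕ) (i : Fin N) : n i ≤ ∑ i, n i :=
  Finset.single_le_sum (f := n) (fun _ _ => Nat.zero_le _) (mem_univ i)

lemma mem_SS (n : Fin N → ℕ) (i : Fin N) (t : ℕ) : (i, t) ∈ SS n ↔ t < n i := by
  unfold SS
  simp only [mem_filter, mem_product, mem_univ, mem_range, true_and]
  have := n_le n i
  omega

lemma card_SS (n : Fin N → ℕ) : (SS n).card = ∑ i, n i := by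
  have h : SS n = univ.biUnion fun i => (range (n i)).image fun t => (i, t) := by
    ext ⟨i, t⟩
    rw [mem_SS]
    simp only [mem_biUnion, mem_univ, true_and, mem_image, mem_range, Prod.mk.injEq]
    constructor
    · intro h
      exact ⟨i, t, h, rfl, rfl⟩
    · rintro ⟨j, s, h1, rfl, rfl⟩
      exact h1
  rw [h, card_biUnion]
  · apply sum_congr rfl
    intro i _
    rw [card_image_of_injective _ (fun a b hab => (Prod.mk.inj hab).2), card_range]
  · intro i _ j _ hij
    rw [Function.onFun, Finset.disjoint_left]
    intro x hx hx'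
    simp only [mem_image] at hx hx'
    obtain ⟨_, _, rfl⟩ := hx
    obtain ⟨_, _, h⟩ := hx'
    exact hij (Prod.mk.inj h).1.symm

lemma key_lt_iff (n : Fin N → ℕ) (cen : Fin N → α) {i j : Fin N} {t s : ℕ} (ht : t < n i)
    (hs : s < n j) : key n cen (i, t) < key n cen (j, s) ↔ s < t ∨ (s = t ∧ lam cen i < lam cen j) := by
  have h1 := n_le n i
  have h2 := n_le n j
  have h3 := lam_lt_CC cen i
  have h4 := lam_lt_CC cen j
  show (∑ i, n i - t) * CC cen + lam cen i < (∑ i, n i - s) * CC cen + lam cen j ↔ _
  rcases lt_trichotomy s t with h | h | h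
  · have h5 : (∑ i, n i - t + 1) * CC cen ≤ (∑ i, n i - s) * CC cen :=
      Nat.mul_le_mul_right _ (by omega)
    rw [add_mul, one_mul] at h5
    constructor
    · intro _
      exact Or.inl h
    · intro _
      omega
  · subst h
    constructor
    · intro h
      exact Or.inr ⟨rfl, by omega⟩
    · rintro (h | h)
      · omega
      · omega
  · have h5 : (∑ i, n i - s + 1) * CC cen ≤ (∑ i, n i - t) * CC cen :=
      Nat.mul_le_mul_right _ (by omega)
    rw [add_mul, one_mul] at h5
    constructor
    · intro _
      omega
    · rintro (h | h) <;> omega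

/-- the rank of an edge -/
def rk (n : Fin N → ℕ) (cen : Fin N → α) (i : Fin N) (t : ℕ) : ℕ :=
  ((SS n).filter fun x => key n cen x < key n cen (i, t)).card

/-- the labeling -/
def lab (n : Fin N → ℕ) (cen : Fin N → α) (k : ℤ) (i : Fin N) (t : ℕ) : ℤ :=
  k + 1 + (rk n cen i t : ℕ)

lemma rk_lt (n : Fin N → ℕ) (cen : Fin N → α) {i : Fin N} {t : ℕ} (ht : t < n i) :
    rk n cen i t < ∑ i, n i := by
  rw [← card_SS n]
  unfold rk
  apply card_lt_card
  rw [Finset.ssubset_iff_subset_ne]
  refine ⟨filter_subset _ _, fun h => ?_⟩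
  have : (i, t) ∈ (SS n).filter fun x => key n cen x < key n cen (i, t) := by
    rw [h, mem_SS]
    exact ht
  rw [mem_filter] at this
  exact lt_irrefl _ this.2

lemma rk_mono (n : Fin N → ℕ) (cen : Fin N → α) {i j : Fin N} {t s : ℕ} (ht : t < n i)
    (h : key n cen (i, t) < key n cen (j, s)) : rk n cen i t < rk n cen j s := by
  unfold rk
  apply card_lt_card
  rw [Finset.ssubset_iff_subset_ne]
  refine ⟨fun x hx => ?_, fun hh => ?_⟩
  · rw [mem_filter] at hx ⊢
    exact ⟨hx.1, hx.2.trans h⟩
  · have : (i, t) ∈ (SS n).filter fun x => key n cen x < key n cen (i, t) := by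
      rw [hh, mem_filter, mem_SS]
      exact ⟨ht, h⟩
    rw [mem_filter] at this
    exact lt_irrefl _ this.2

lemma lab_lt (n : Fin N → ℕ) (cen : Fin N → α) (k : ℤ) {i j : Fin N} {t s : ℕ} (ht : t < n i)
    (hs : s < n j) (h : s < t ∨ (s = t ∧ lam cen i < lam cen j)) :
    lab n cen k i t < lab n cen k j s := by
  have := rk_mono n cen ht ((key_lt_iff n cen ht hs).2 h)
  unfold lab
  omega

lemma trich (cen : Fin N → α) {i j : Fin N} {t s : ℕ} (h : ¬ (i = j ∧ t = s)) :
    (s < t ∨ (s = t ∧ lam cen i < lam cen j)) ∨ (t < s ∨ (t = s ∧ lam cen j < lam cen i)) := by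
  rcases lt_trichotomy s t with h1 | h1 | h1
  · exact Or.inl (Or.inl h1)
  · rcases lt_trichotomy (lam cen i) (lam cen j) with h2 | h2 | h2
    · exact Or.inl (Or.inr ⟨h1, h2⟩)
    · exact absurd ⟨lam_inj cen h2, h1.symm⟩ h
    · exact Or.inr (Or.inr ⟨h1.symm, h2⟩)
  · exact Or.inr (Or.inl h1)

end label

/-- **the level labeling is good** -/
theorem good_lab {N : ℕ} {α : Type*} [DecidableEq α] (n : Fin N → ℕ) (cen : Fin N → α) (k : ℤ)
    (hpos : ∀ i, 1 ≤ n i) (hone : ∀ i, n i = 1 → ∃ j, j ≠ i ∧ cen j = cen i)
    (htwo : ∀ i j, i ≠ j → cen i = cen j → ∃ l, l ≠ i ∧ l ≠ j ∧ cen l = cen i)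
    (hk0 : 0 ≤ k) (hk : ((∑ i, n i : ℕ) : ℤ) - 2 ≤ k) :
    Good n cen k (lab n cen k) := by
  have hlo : ∀ i t, k < lab n cen k i t := by
    intro i t
    unfold lab
    omega
  have hhi : ∀ i t, t < n i → lab n cen k i t ≤ k + (∑ i, n i : ℕ) := by
    intro i t ht
    have := rk_lt n cen ht
    unfold lab
    omega
  have hinj : ∀ i j t s, t < n i → s < n j → lab n cen k i t = lab n cen k j s →
      i = j ∧ t = s := by
    intro i j t s ht hs h
    by_contra hne
    rcases trich cen hne with h1 | h1
    · have := lab_lt n cen k ht hs h1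
      omega
    · have := lab_lt n cen k hs ht h1
      omega
  -- two different labels
  have hpair : ∀ i j t s, t < n i → s < n j → ¬ (i = j ∧ t = s) →
      k + (∑ i, n i : ℕ) < lab n cen k i t + lab n cen k j s := by
    intro i j t s ht hs hne
    have h1 : lab n cen k i t ≠ lab n cen k j s := fun h => hne (hinj i j t s ht hs h)
    have h2 := hlo i t
    have h3 := hlo j s
    omega
  refine ⟨fun i t _ => hlo i t, hhi, hinj, ?_, ?_, ?_⟩
  · intro i j t s ht hs h
    by_contra hne
    unfold vs at h
    split_ifs at h with h1 h2 h2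
    · rcases trich cen hne with h3 | h3
      · have k1 := lab_lt n cen k ht hs h3
        have k2 := lab_lt n cen k h1 h2 (by omega : s + 1 < t + 1 ∨ _)
        omega
      · have k1 := lab_lt n cen k hs ht h3
        have k2 := lab_lt n cen k h2 h1 (by omega : t + 1 < s + 1 ∨ _)
        omega
    · have k1 := hpair i i t (t + 1) ht h1 (by omega)
      have k2 := hhi j s hs
      omega
    · have k1 := hpair j j s (s + 1) hs h2 (by omega)
      have k2 := hhi i t ht
      omega
    · exact hne (hinj i j t s ht hs h)
  · -- root sums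
    have key : ∀ i j, cen i ≠ cen j → lam cen i < lam cen j →
        rs cen (lab n cen k) (cen i) < rs cen (lab n cen k) (cen j) := by
      intro i j hc hl
      obtain ⟨a, ha, hmax⟩ := Finset.exists_max_image (univ.filter fun l => cen l = cen i)
        (fun l => lab n cen k l 0) ⟨i, by simp⟩
      have ha' : cen a = cen i := (mem_filter.1 ha).2
      have h1 : rs cen (lab n cen k) (cen i) ≤ (dg cen i : ℤ) * lab n cen k a 0 := by
        unfold rs dg
        have := Finset.sum_le_card_nsmul (univ.filter fun l => cen l = cen i)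
          (fun l => lab n cen k l 0) (lab n cen k a 0) hmax
        rwa [nsmul_eq_mul] at this
      have h2 : (dg cen j : ℤ) * (lab n cen k a 0 + 1) ≤ rs cen (lab n cen k) (cen j) := by
        unfold rs dg
        have := Finset.card_nsmul_le_sum (univ.filter fun l => cen l = cen j)
          (fun l => lab n cen k l 0) (lab n cen k a 0 + 1) (by
            intro b hb
            have hb' : cen b = cen j := (mem_filter.1 hb).2
            have := lab_lt n cen k (hpos a) (hpos b)
              (Or.inr ⟨rfl, lam_block cen ha' hb' hc hl⟩)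
            omega)
        rwa [nsmul_eq_mul] at this
      have h3 : (1 : ℤ) ≤ dg cen i := by
        have : 0 < dg cen i := by
          unfold dg
          rw [card_pos]
          exact ⟨i, by simp⟩
        exact_mod_cast this
      have h4 : (dg cen i : ℤ) ≤ dg cen j := by exact_mod_cast dg_le cen hc hl
      have h5 := hlo a 0
      nlinarith
    intro i j h
    by_contra hc
    have hne : i ≠ j := fun hh => hc (by rw [hh])
    rcases lt_trichotomy (lam cen i) (lam cen j) with h2 | h2 | h2
    · have := key i j hc h2
      omega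
    · exact hne (lam_inj cen h2)
    · have := key j i (Ne.symm hc) h2
      omega
  · intro i j t ht h
    by_cases hex : ∃ j', j' ≠ j ∧ cen j' = cen j
    · obtain ⟨j', hj', hcj'⟩ := hex
      obtain ⟨l, hl1, hl2, hl3⟩ := htwo j j' hj'.symm hcj'.symm
      have hsum : lab n cen k j 0 + lab n cen k j' 0 + lab n cen k l 0 ≤
          rs cen (lab n cen k) (cen j) := by
        unfold rs
        have hsub : ({j, j', l} : Finset (Fin N)) ⊆ univ.filter fun x => cen x = cen j := by
          intro x hx
          simp only [mem_insert, mem_singleton] at hx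
          rw [mem_filter]
          refine ⟨mem_univ _, ?_⟩
          rcases hx with rfl | rfl | rfl
          · rfl
          · exact hcj'
          · exact hl3
        have h1 := Finset.sum_le_sum_of_subset_of_nonneg (f := fun x => lab n cen k x 0) hsub
          (fun x _ _ => by
            have := hlo x 0
            omega)
        rw [sum_insert (by
          simp only [mem_insert, mem_singleton, not_or]
          exact ⟨hj'.symm, hl1.symm⟩), sum_insert (by
          simp only [mem_singleton]
          exact hl2.symm), sum_singleton] at h1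
        linarith
      have hp1 := hpair j' l 0 0 (hpos _) (hpos _) (fun hh => hl2 hh.1.symm)
      have hp2 := hhi i t ht
      unfold vs at h
      split_ifs at h with h1
      · have hp3 : lab n cen k i (t + 1) < lab n cen k j 0 :=
          lab_lt n cen k h1 (hpos j) (Or.inl (by omega))
        linarith
      · have := hlo j 0
        linarith
    · push Not at hex
      have hrs : rs cen (lab n cen k) (cen j) = lab n cen k j 0 := by
        unfold rs
        have : (univ.filter fun x => cen x = cen j) = {j} := by
          ext x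
          simp only [mem_filter, mem_univ, true_and, mem_singleton]
          constructor
          · intro hx
            by_contra hne
            exact hex x hne hx
          · rintro rfl
            rfl
        rw [this, sum_singleton]
      rw [hrs] at h
      unfold vs at h
      split_ifs at h with h1
      · have k1 := hpair i i t (t + 1) ht h1 (by omega)
        have k2 := hhi j 0 (hpos j)
        omega
      · obtain ⟨h2, h3⟩ := hinj i j t 0 ht (hpos j) h
        subst h2
        have h4 : n i = 1 := by
          have := hpos i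
          omega
        obtain ⟨j', hj', hcj'⟩ := hone i h4
        exact hex j' hj' hcj'

end Pool.SpC75
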