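import Pool.Agent.SpA.Transfer
import Pool.Agent.SpC75.Large

/-!
# SpC75/P3 (MP_9fc547_co)

The disjoint union of `n` paths with two edges is `k`-shifted antimagic if and only if `2 k ≥ n - 1` or
`2 k ≤ -5 n - 1`.
-/

namespace Pool.SpC75

open Finset Pool.SpA

/-- the disjoint union of `n` paths `(i,0), (i,1), (i,2)` with two edges -/
def P3 (n : ℕ) : SimpleGraph (Fin n × Fin 3) where
  Adj x y := x.1 = y.1 ∧ ((x.2 = 1 ∧ y.2 ≠ 1) ∨ (x.2 ≠ 1 ∧ y.2 = 1))
  symm := ⟨by
    rintro x y ⟨h1, h2⟩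
    exact ⟨h1.symm, by tauto⟩⟩
  loopless := ⟨by
    rintro x ⟨h1, h2⟩
    tauto⟩

/-- the description of `P3 n` by legs -/
def L3 (n : ℕ) : Legs (P3 n) n where
  n := fun _ => 2
  root := fun i => (i, 0)
  vert := fun i t => (i, if t = 0 then 1 else 2)
  pos := fun _ => by norm_num
  inj := by
    intro i j t s ht hs h
    have h1 := (Prod.mk.inj h).1
    have h2 := (Prod.mk.inj h).2
    refine ⟨h1, ?_⟩
    split_ifs at h2 with h3 h4 h4
    · omega
    · exact absurd h2 (by decide)
    · exact absurd h2 (by decide)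
    · omega
  root_ne := by
    intro i j t ht h
    have h2 := (Prod.mk.inj h).2
    split_ifs at h2 with h3
    · exact absurd h2 (by decide)
    · exact absurd h2 (by decide)
  cover := by
    rintro ⟨i, x⟩
    fin_cases x
    · exact Or.inl ⟨i, rfl⟩
    · exact Or.inr ⟨i, 0, by norm_num, rfl⟩
    · exact Or.inr ⟨i, 1, by norm_num, rfl⟩
  adj := by
    rintro ⟨i, x⟩ ⟨j, y⟩
    constructor
    · rintro ⟨h1, h2⟩
      simp only at h1 h2
      subst h1
      fin_cases x <;> fin_cases y
      · simp at h2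
      · exact ⟨i, 0, by norm_num, Or.inl ⟨rfl, rfl⟩⟩
      · simp at h2
      · exact ⟨i, 0, by norm_num, Or.inr ⟨rfl, rfl⟩⟩
      · simp at h2
      · exact ⟨i, 1, by norm_num, Or.inl ⟨rfl, rfl⟩⟩
      · simp at h2
      · exact ⟨i, 1, by norm_num, Or.inr ⟨rfl, rfl⟩⟩
      · simp at h2
    · rintro ⟨a, t, ht, ⟨h1, h2⟩ | ⟨h1, h2⟩⟩
      · rcases (show t = 0 ∨ t = 1 by omega) with rfl | rfl
        · obtain ⟨rfl, rfl⟩ := Prod.mk.inj h1
          obtain ⟨rfl, rfl⟩ := Prod.mk.inj h2
          exact ⟨rfl, Or.inr ⟨(by decide : (0 : Fin 3) ≠ 1), rfl⟩⟩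
        · obtain ⟨rfl, rfl⟩ := Prod.mk.inj h1
          obtain ⟨rfl, rfl⟩ := Prod.mk.inj h2
          exact ⟨rfl, Or.inl ⟨rfl, (by decide : (2 : Fin 3) ≠ 1)⟩⟩
      · rcases (show t = 0 ∨ t = 1 by omega) with rfl | rfl
        · obtain ⟨rfl, rfl⟩ := Prod.mk.inj h1
          obtain ⟨rfl, rfl⟩ := Prod.mk.inj h2
          exact ⟨rfl, Or.inl ⟨rfl, (by decide : (0 : Fin 3) ≠ 1)⟩⟩
        · obtain ⟨rfl, rfl⟩ := Prod.mk.inj h1
          obtain ⟨rfl, rfl⟩ := Prod.mk.inj h2
          exact ⟨rfl, Or.inr ⟨(by decide : (2 : Fin 3) ≠ 1), rfl⟩⟩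
  one := fun _ h => absurd h (by norm_num)

lemma card3 (n : ℕ) : (P3 n).edgeSet.ncard = 2 * n := by
  rw [edges_card (L3 n)]
  show ∑ _i : Fin n, 2 = 2 * n
  simp [mul_comm]

/-- the order of the large labels -/
def pp (n : ℕ) (i : Fin n) : ℤ :=
  if (i : ℤ) + 1 ≤ n / 2 then (if n % 2 = 1 then (n : ℤ) + 1 - 2 * ((i : ℤ) + 1) else n + 1 - 2 * ((i : ℤ) + 1))
  else (if n % 2 = 1 then 2 * (n : ℤ) + 1 - 2 * ((i : ℤ) + 1) else 2 * n + 2 - 2 * ((i : ℤ) + 1))

theorem p3_pos (n : ℕ) (k : ℤ) (hk : (n : ℤ) - 1 ≤ 2 * k) : ShiftedAntimagic (P3 n) k := by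
  classical
  apply transfer (P3 n) (L3 n) k
    (fun i t => if t = 0 then k + ((i : ℤ) + 1) else k + n + pp n i)
  have hm : (∑ i, (L3 n).n i : ℕ) = 2 * n := by
    show ∑ _i : Fin n, 2 = 2 * n
    simp [mul_comm]
  have hrs : ∀ (f : Fin n → ℕ → ℤ) (i : Fin n), rs (L3 n).root f ((L3 n).root i) = f i 0 := by
    intro f i
    unfold rs
    have : (univ.filter fun j => (L3 n).root j = (L3 n).root i) = {i} := by
      ext j
      simp only [mem_filter, mem_univ, true_and, mem_singleton]
      constructor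
      · intro h
        exact (Prod.mk.inj h).1
      · rintro rfl
        rfl
    rw [this, sum_singleton]
  have hvs : ∀ (f : Fin n → ℕ → ℤ) (i : Fin n) (t : ℕ),
      vs (L3 n).n f i t = if t = 0 then f i 0 + f i 1 else f i t := by
    intro f i t
    unfold vs
    show (if t + 1 < 2 then _ else _) = _
    by_cases ht : t = 0
    · subst ht
      rfl
    · rw [if_neg (by omega), if_neg ht]
  have hn2 : ∀ i, (L3 n).n i = 2 := fun _ => rfl
  have hpp : ∀ i : Fin n, 1 ≤ pp n i ∧ pp n i ≤ n := by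
    intro i
    have hi := i.2
    unfold pp
    split_ifs <;> omega
  have hppinj : ∀ i j : Fin n, pp n i = pp n j → i = j := by
    intro i j h
    have hi := i.2
    have hj := j.2
    unfold pp at h
    apply Fin.ext
    split_ifs at h <;> omega
  have hsinj : ∀ i j : Fin n, (i : ℤ) + pp n i = j + pp n j → i = j := by
    intro i j h
    have hi := i.2
    have hj := j.2
    unfold pp at h
    apply Fin.ext
    split_ifs at h <;> omega
  have hbig : ∀ i : Fin n, (n : ℤ) < k + ((i : ℤ) + 1) + pp n i := by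
    intro i
    have hi := i.2
    unfold pp
    split_ifs <;> omega
  refine ⟨?_, ?_, ?_, ?_, ?_, ?_⟩
  · intro i t _
    have := hpp i
    split_ifs <;> omega
  · intro i t _
    rw [hm]
    have := hpp i
    have := i.2
    split_ifs <;> omega
  · intro i j t s ht hs h
    rw [hn2] at ht hs
    have h1 := hpp i
    have h2 := hpp j
    have h3 := i.2
    have h4 := j.2
    split_ifs at h with h5 h6 h6
    · exact ⟨Fin.ext (by omega), by omega⟩
    · omega
    · omega
    · exact ⟨hppinj i j (by omega), by omega⟩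
  · intro i j t s ht hs h
    rw [hn2] at ht hs
    rw [hvs, hvs] at h
    have h1 := hpp i
    have h2 := hpp j
    have h3 := hbig i
    have h4 := hbig j
    simp only [if_true, one_ne_zero, if_false] at h
    split_ifs at h with h5 h6 h6
    · exact ⟨hsinj i j (by omega), by omega⟩
    · omega
    · omega
    · exact ⟨hppinj i j (by omega), by omega⟩
  · intro i j h
    rw [hrs, hrs] at h
    simp only [if_true] at h
    rw [show i = j from Fin.ext (by omega)]
  · intro i j t ht
    rw [hn2] at ht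
    rw [hvs, hrs]
    have h1 := hpp i
    have h2 := hpp j
    have h3 := hbig i
    have h4 := i.2
    have h5 := j.2
    simp only [if_true, one_ne_zero, if_false]
    split_ifs <;> omega

lemma sum_ge : ∀ (n : ℕ) (T : Finset ℤ) (L : ℤ), T.card = n → (∀ x ∈ T, L < x) →
    2 * n * L + n * (n + 1) ≤ 2 * ∑ x ∈ T, x := by
  intro n
  induction n with
  | zero =>
    intro T L hT _
    rw [card_eq_zero] at hT
    subst hT
    simp
  | succ n ih =>
    intro T L hT hL
    have hne : T.Nonempty := by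
      rw [← card_pos]
      omega
    have hM := T.max'_mem hne
    set M := T.max' hne with hMd
    have h1 := ih (T.erase M) L (by rw [card_erase_of_mem hM]; omega)
      (fun x hx => hL x (mem_of_mem_erase hx))
    have h2 : T ⊆ Finset.Ioc L M := by
      intro x hx
      rw [Finset.mem_Ioc]
      exact ⟨hL x hx, T.le_max' x hx⟩
    have h3 := card_le_card h2
    rw [Int.card_Ioc, hT] at h3
    have h4 : (n : ℤ) + 1 ≤ M - L := by
      have := hL M hM
      omega
    rw [← add_sum_erase T _ hM]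
    push_cast
    push_cast at h1
    nlinarith

/-- labels of the components and their properties -/
lemma p3_labels (n : ℕ) (k : ℤ) (h : ShiftedAntimagic (P3 n) k) :
    ∃ a b : Fin n → ℤ, (∀ i, a i ∈ Set.Ioc k (k + 2 * n)) ∧ (∀ i, b i ∈ Set.Ioc k (k + 2 * n)) ∧
      (∀ y ∈ Set.Ioc k (k + 2 * (n : ℤ)), ∃ i, a i = y ∨ b i = y) ∧
      (∀ i j, a i = a j → i = j) ∧ (∀ i j, b i = b j → i = j) ∧ (∀ i j, a i ≠ b j) ∧
      (∀ i j, a i + b i = a j + b j → i = j) ∧ (∀ i j, a i + b i ≠ a j) ∧
      (∀ i j, a i + b i ≠ b j) := by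
  classical
  obtain ⟨f, hf, hinj⟩ := h
  rw [card3 n] at hf
  push_cast at hf
  have h0 : ∀ i : Fin n, (∑ w ∈ univ.filter (fun w => (P3 n).Adj (i, 0) w), f s((i, 0), w)) =
      f s((i, 0), (i, 1)) := by
    intro i
    have : univ.filter (fun w => (P3 n).Adj (i, 0) w) = {(i, 1)} := by
      ext ⟨j, x⟩
      simp only [mem_filter, mem_univ, true_and, mem_singleton]
      constructor
      · rintro ⟨h1, h2⟩
        have h1' : i = j := h1
        subst h1'
        rcases h2 with ⟨h2, _⟩ | ⟨_, h2⟩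
        · exact absurd (show (0 : Fin 3) = 1 from h2) (by decide)
        · have h2' : x = 1 := h2
          rw [h2']
      · intro h1
        obtain ⟨rfl, rfl⟩ := Prod.mk.inj h1
        exact ⟨rfl, Or.inr ⟨(by decide : (0 : Fin 3) ≠ 1), rfl⟩⟩
    rw [this, sum_singleton]
  have h2 : ∀ i : Fin n, (∑ w ∈ univ.filter (fun w => (P3 n).Adj (i, 2) w), f s((i, 2), w)) =
      f s((i, 1), (i, 2)) := by
    intro i
    have : univ.filter (fun w => (P3 n).Adj (i, 2) w) = {(i, 1)} := by
      ext ⟨j, x⟩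
      simp only [mem_filter, mem_univ, true_and, mem_singleton]
      constructor
      · rintro ⟨h1, h2⟩
        have h1' : i = j := h1
        subst h1'
        rcases h2 with ⟨h2, _⟩ | ⟨_, h2⟩
        · exact absurd (show (2 : Fin 3) = 1 from h2) (by decide)
        · have h2' : x = 1 := h2
          rw [h2']
      · intro h1
        obtain ⟨rfl, rfl⟩ := Prod.mk.inj h1
        exact ⟨rfl, Or.inr ⟨(by decide : (2 : Fin 3) ≠ 1), rfl⟩⟩
    rw [this, sum_singleton, Sym2.eq_swap]
  have h1 : ∀ i : Fin n, (∑ w ∈ univ.filter (fun w => (P3 n).Adj (i, 1) w), f s((i, 1), w)) =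
      f s((i, 0), (i, 1)) + f s((i, 1), (i, 2)) := by
    intro i
    have : univ.filter (fun w => (P3 n).Adj (i, 1) w) = {(i, 0), (i, 2)} := by
      ext ⟨j, x⟩
      simp only [mem_filter, mem_univ, true_and, mem_singleton, mem_insert]
      constructor
      · rintro ⟨h1, h2⟩
        have h1' : i = j := h1
        subst h1'
        rcases h2 with ⟨_, h2⟩ | ⟨h2, _⟩
        · have h2' : x ≠ 1 := h2
          fin_cases x
          · exact Or.inl rfl
          · exact absurd rfl h2'
          · exact Or.inr rfl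
        · exact absurd (show (1 : Fin 3) = 1 from rfl) h2
      · rintro (h1 | h1)
        · obtain ⟨rfl, rfl⟩ := Prod.mk.inj h1
          exact ⟨rfl, Or.inl ⟨rfl, (by decide : (0 : Fin 3) ≠ 1)⟩⟩
        · obtain ⟨rfl, rfl⟩ := Prod.mk.inj h1
          exact ⟨rfl, Or.inl ⟨rfl, (by decide : (2 : Fin 3) ≠ 1)⟩⟩
    rw [this, sum_pair (fun hh => absurd (Prod.mk.inj hh).2 (by decide)), Sym2.eq_swap]
  have hadj1 : ∀ i : Fin n, s((i, 0), (i, 1)) ∈ (P3 n).edgeSet := fun i =>
    ⟨rfl, Or.inr ⟨(by decide : (0 : Fin 3) ≠ 1), rfl⟩⟩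
  have hadj2 : ∀ i : Fin n, s((i, 1), (i, 2)) ∈ (P3 n).edgeSet := fun i =>
    ⟨rfl, Or.inl ⟨rfl, (by decide : (2 : Fin 3) ≠ 1)⟩⟩
  refine ⟨fun i => f s((i, 0), (i, 1)), fun i => f s((i, 1), (i, 2)),
    fun i => hf.mapsTo (hadj1 i), fun i => hf.mapsTo (hadj2 i), ?_, ?_, ?_, ?_, ?_, ?_, ?_⟩
  · intro y hy
    obtain ⟨e, he, hey⟩ := hf.surjOn hy
    rw [(L3 n).mem_edgeSet_iff] at he
    obtain ⟨i, t, ht, rfl⟩ := he
    have ht' : t < 2 := ht
    refine ⟨i, ?_⟩
    rcases (show t = 0 ∨ t = 1 by omega) with rfl | rfl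
    · exact Or.inl hey
    · exact Or.inr hey
  · intro i j hij
    have := @hinj (i, 0) (j, 0) (by
      show (∑ w ∈ univ.filter (fun w => (P3 n).Adj (i, 0) w), f s((i, 0), w)) =
        ∑ w ∈ univ.filter (fun w => (P3 n).Adj (j, 0) w), f s((j, 0), w)
      rw [h0, h0]
      exact hij)
    exact (Prod.mk.inj this).1
  · intro i j hij
    have := @hinj (i, 2) (j, 2) (by
      show (∑ w ∈ univ.filter (fun w => (P3 n).Adj (i, 2) w), f s((i, 2), w)) =
        ∑ w ∈ univ.filter (fun w => (P3 n).Adj (j, 2) w), f s((j, 2), w)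
      rw [h2, h2]
      exact hij)
    exact (Prod.mk.inj this).1
  · intro i j hij
    have := @hinj (i, 0) (j, 2) (by
      show (∑ w ∈ univ.filter (fun w => (P3 n).Adj (i, 0) w), f s((i, 0), w)) =
        ∑ w ∈ univ.filter (fun w => (P3 n).Adj (j, 2) w), f s((j, 2), w)
      rw [h0, h2]
      exact hij)
    exact absurd (Prod.mk.inj this).2 (by decide)
  · intro i j hij
    have := @hinj (i, 1) (j, 1) (by
      show (∑ w ∈ univ.filter (fun w => (P3 n).Adj (i, 1) w), f s((i, 1), w)) =
        ∑ w ∈ univ.filter (fun w => (P3 n).Adj (j, 1) w), f s((j, 1), w)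
      rw [h1, h1]
      exact hij)
    exact (Prod.mk.inj this).1
  · intro i j hij
    have := @hinj (i, 1) (j, 0) (by
      show (∑ w ∈ univ.filter (fun w => (P3 n).Adj (i, 1) w), f s((i, 1), w)) =
        ∑ w ∈ univ.filter (fun w => (P3 n).Adj (j, 0) w), f s((j, 0), w)
      rw [h1, h0]
      exact hij)
    exact absurd (Prod.mk.inj this).2 (by decide)
  · intro i j hij
    have := @hinj (i, 1) (j, 2) (by
      show (∑ w ∈ univ.filter (fun w => (P3 n).Adj (i, 1) w), f s((i, 1), w)) =
        ∑ w ∈ univ.filter (fun w => (P3 n).Adj (j, 2) w), f s((j, 2), w)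
      rw [h1, h2]
      exact hij)
    exact absurd (Prod.mk.inj this).2 (by decide)

theorem p3_nec (n : ℕ) (hn : 1 ≤ n) (k : ℤ) (hk : 0 ≤ k) (h : ShiftedAntimagic (P3 n) k) :
    (n : ℤ) - 1 ≤ 2 * k := by
  classical
  obtain ⟨a, b, ha, hb, hsur, haa, hbb, hab, hss, hsa, hsb⟩ := p3_labels n k h
  have hs : ∀ i, k + 2 * n < a i + b i := by
    intro i
    have h1 := ha i
    have h2 := hb i
    rw [Set.mem_Ioc] at h1 h2
    by_contra hcon
    obtain ⟨j, hj | hj⟩ := hsur (a i + b i) (by rw [Set.mem_Ioc]; omega)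
    · exact hsa i j hj.symm
    · exact hsb i j hj.symm
  -- the sums at the centres
  have hT := sum_ge n (univ.image fun i => a i + b i) (k + 2 * n) (by
    rw [card_image_of_injective _ (fun i j hij => hss i j hij), card_univ, Fintype.card_fin])
    (by
      intro x hx
      obtain ⟨i, _, rfl⟩ := mem_image.1 hx
      exact hs i)
  rw [sum_image (fun i _ j _ hij => hss i j hij), sum_add_distrib] at hT
  -- all labels
  have hdis : Disjoint (univ.image fun i => - a i) (univ.image fun i => - b i) := by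
    rw [Finset.disjoint_left]
    intro x hx hx'
    obtain ⟨i, _, rfl⟩ := mem_image.1 hx
    obtain ⟨j, _, hj⟩ := mem_image.1 hx'
    exact hab i j (by omega)
  have hU := sum_ge (2 * n) ((univ.image fun i => - a i) ∪ (univ.image fun i => - b i))
    (-(k + 2 * n) - 1) (by
      rw [card_union_of_disjoint hdis,
        card_image_of_injective _ (fun i j hij => haa i j (neg_injective hij)),
        card_image_of_injective _ (fun i j hij => hbb i j (neg_injective hij)), card_univ,
        Fintype.card_fin]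
      ring)
    (by
      intro x hx
      rw [mem_union] at hx
      rcases hx with hx | hx
      · obtain ⟨i, _, rfl⟩ := mem_image.1 hx
        have h1 := ha i
        rw [Set.mem_Ioc] at h1
        omega
      · obtain ⟨i, _, rfl⟩ := mem_image.1 hx
        have h1 := hb i
        rw [Set.mem_Ioc] at h1
        omega)
  rw [sum_union hdis, sum_image (fun i _ j _ hij => haa i j (neg_injective hij)),
    sum_image (fun i _ j _ hij => hbb i j (neg_injective hij)), sum_neg_distrib,
    sum_neg_distrib] at hU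
  push_cast at hU
  have hn' : (1 : ℤ) ≤ n := by exact_mod_cast hn
  by_contra hcon
  push Not at hcon
  nlinarith

theorem p3_iff (n : ℕ) (hn : 1 ≤ n) (k : ℤ) :
    ShiftedAntimagic (P3 n) k ↔ ((n : ℤ) - 1 ≤ 2 * k ∨ 2 * k ≤ -5 * n - 1) := by
  have hneg : ∀ k' : ℤ, ShiftedAntimagic (P3 n) k' →
      ShiftedAntimagic (P3 n) (-k' - 2 * n - 1) := by
    intro k' h
    apply neg_shift
    rw [card3 n]
    push_cast
    rw [show -(-k' - 2 * (n : ℤ) - 1) - 2 * n - 1 = k' by ring]
    exact h
  constructor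
  · intro h
    by_cases h0 : 0 ≤ k
    · exact Or.inl (p3_nec n hn k h0 h)
    · by_cases h1 : 0 ≤ k + 2 * n
      · exfalso
        obtain ⟨a, b, ha, hb, hsur, haa, hbb, hab, hss, hsa, hsb⟩ := p3_labels n k h
        obtain ⟨i, hi | hi⟩ := hsur 0 (by rw [Set.mem_Ioc]; omega)
        · exact hsb i i (by rw [hi]; ring)
        · exact hsa i i (by rw [hi]; ring)
      · right
        have := p3_nec n hn (-k - 2 * n - 1) (by omega) (hneg k h)
        omega
  · rintro (h | h)
    · exact p3_pos n k h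
    · have h2 := hneg (-k - 2 * n - 1) (p3_pos n (-k - 2 * n - 1) (by omega))
      rw [show -(-k - 2 * (n : ℤ) - 1) - 2 * n - 1 = k by ring] at h2
      exact h2

end Pool.SpC75
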