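import Pool.Agent.SpC75.Zig

/-!
# SpC75/Quad (MP_9fc547_co)

The zigzag labeling with three classes of labels and paths with an even number of edges.  Leg types: `0`
even length, large label at the root; `1` odd length, small label at the root; `2` odd length at least
three, top label at the root; `3` even length at least four (a path component), special small label at
the first edge and top label at the second edge.  The small labels are permuted by `ps`.
-/

namespace Pool.SpC75

open Finset Pool.SpA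

section quad

variable {N : ℕ} (n ord ty tid : Fin N → ℕ)

/-- number of special small labels on leg `i` -/
def u4 (i : Fin N) : ℕ := if ty i = 3 then 1 else 0

/-- number of top labels on leg `i` -/
def t4 (i : Fin N) : ℕ := if 2 ≤ ty i then 1 else 0

/-- number of ordinary small labels on leg `i` -/
def l4 (i : Fin N) : ℕ :=
  if ty i = 1 then (n i + 1) / 2 else if ty i = 3 then n i / 2 - 1 else n i / 2

/-- number of large labels on leg `i` -/
def h4 (i : Fin N) : ℕ := if ty i = 3 then n i / 2 - 1 else n i / 2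

/-- `1` if the large labels are on the edges with odd number -/
def sg4 (i : Fin N) : ℕ := if ty i = 1 ∨ ty i = 2 then 1 else 0

/-- total number of ordinary small labels -/
def SO4 : ℕ := ∑ i, l4 n ty i

/-- total number of special small labels -/
def CC4 : ℕ := ∑ i, u4 ty i

/-- total number of large labels -/
def SH4 : ℕ := ∑ i, h4 n ty i

/-- total number of top labels -/
def TT4 : ℕ := ∑ i, t4 ty i

/-- the raw labels -/
def r4 (i : Fin N) (t : ℕ) : ℕ :=
  if ty i = 3 ∧ t = 0 then SO4 n ty + tid i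
  else if (ty i = 2 ∧ t = 0) ∨ (ty i = 3 ∧ t = 1) then SO4 n ty + CC4 ty + SH4 n ty + tid i
  else if (t + sg4 ty i) % 2 = 0 then
    SO4 n ty + CC4 ty + pre ord (h4 n ty) i + ((t + 2 - sg4 ty i) / 2 - u4 ty i)
  else pre ord (l4 n ty) i + ((t + 1 + sg4 ty i) / 2 - t4 ty i)

/-- the conditions on the types -/
structure Ty4 : Prop where
  le : ∀ i, ty i ≤ 3
  even : ∀ i, ty i = 0 → n i % 2 = 0
  odd : ∀ i, ty i = 1 → n i % 2 = 1
  three : ∀ i, ty i = 2 → n i % 2 = 1 ∧ 3 ≤ n i
  four : ∀ i, ty i = 3 → n i % 2 = 0 ∧ 4 ≤ n i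
  pos : ∀ i, 1 ≤ n i

/-- the conditions on the numbers of the top labels -/
structure Tid4 (ps : ℕ → ℕ) : Prop where
  rng : ∀ i, 2 ≤ ty i → 1 ≤ tid i ∧ tid i ≤ TT4 ty
  rng3 : ∀ i, ty i = 3 → tid i ≤ CC4 ty
  inj : ∀ i j, 2 ≤ ty i → 2 ≤ ty j → tid i = tid j → i = j
  sum : ∀ i j, 2 ≤ ty i → 2 ≤ ty j →
    tid i + pre ord (h4 n ty) i = tid j + pre ord (h4 n ty) j → i = j
  avoid : ∀ i j, ty i = 3 → 2 ≤ ty j →
    tid i + ps (SO4 n ty + tid i) ≠ SO4 n ty + CC4 ty + tid j + pre ord (h4 n ty) j + 1

/-- the conditions on the permutation of the small labels -/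
structure Ps4 (o so cc : ℕ) (k : ℤ) (ps : ℕ → ℕ) : Prop where
  top : ∀ x, so + cc < x → ps x = x
  rng : ∀ x, 1 ≤ x → x ≤ so + cc → 1 ≤ ps x ∧ ps x ≤ so + cc
  inj : ∀ x y, 1 ≤ x → 1 ≤ y → ps x = ps y → x = y
  blk : ∀ x, 1 ≤ x → x ≤ o → ps x ≤ o ∧ (o : ℤ) + 1 ≤ x + ps x + k
  blkinj : ∀ x y, 1 ≤ x → x ≤ o → 1 ≤ y → y ≤ o → x + ps x = y + ps y → x = y
  mid : ∀ x, o < x → x < so → ps x = x
  last : o < so → ps so = so ∨ (ps so = so + cc ∧ ∀ c, 1 ≤ c → c ≤ cc → c + ps (so + c) ≠ so + cc)
  xge : ∀ c, 1 ≤ c → c ≤ cc → so ≤ ps (so + c)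
  xinj : ∀ c d, 1 ≤ c → c ≤ cc → 1 ≤ d → d ≤ cc → c + ps (so + c) = d + ps (so + d) → c = d
  xavoid : ∀ c y, 1 ≤ c → c ≤ cc → 1 ≤ y → c + ps (so + c) ≠ so + cc + o + 2 * y

theorem exists_ps (o so cc : ℕ) (k : ℤ) (h : cc = 0 ∨ o < so) (h1 : o ≤ so)
    (hk : o = 0 ∨ (o : ℤ) ≤ 2 * k + 1) : ∃ ps, Ps4 o so cc k ps := by
  set ta : ℕ → ℕ := fun x => if 2 * x ≤ o then o + 1 - 2 * x
    else if o % 2 = 1 then 2 * o + 1 - 2 * x else 2 * o + 2 - 2 * x with hta
  have ta0 : ∀ x, ta x = if 2 * x ≤ o then o + 1 - 2 * x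
    else if o % 2 = 1 then 2 * o + 1 - 2 * x else 2 * o + 2 - 2 * x := fun x => rfl
  have ta1 : ∀ x, 1 ≤ x → x ≤ o → 1 ≤ ta x ∧ ta x ≤ o := by
    intro x h1 h2
    rw [ta0]
    split_ifs <;> omega
  have ta2 : ∀ x y, 1 ≤ x → x ≤ o → 1 ≤ y → y ≤ o → ta x = ta y → x = y := by
    intro x y h1 h2 h3 h4 h5
    rw [ta0, ta0] at h5
    split_ifs at h5 <;> omega
  have ta3 : ∀ x y, 1 ≤ x → x ≤ o → 1 ≤ y → y ≤ o → x + ta x = y + ta y → x = y := by
    intro x y h1 h2 h3 h4 h5
    rw [ta0, ta0] at h5
    split_ifs at h5 <;> omega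
  have ta4 : ∀ x, 1 ≤ x → x ≤ o → (o : ℤ) + 1 ≤ x + ta x + k := by
    intro x h1 h2
    rw [ta0]
    split_ifs <;> omega
  by_cases hA : cc = 0 ∨ (cc + o) % 2 = 1
  · refine ⟨fun x => if x ≤ o then ta x else x, ?_, ?_, ?_, ?_, ?_, ?_, ?_, ?_, ?_, ?_⟩
    · intro x hx
      show (if x ≤ o then ta x else x) = x
      rw [if_neg (by omega)]
    · intro x hx1 hx2
      show 1 ≤ (if x ≤ o then ta x else x) ∧ (if x ≤ o then ta x else x) ≤ _
      split_ifs with h3
      · have := ta1 x hx1 h3
        omega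
      · omega
    · intro x y hx hy hxy
      replace hxy : (if x ≤ o then ta x else x) = if y ≤ o then ta y else y := hxy
      split_ifs at hxy with h3 h5 h5
      · exact ta2 x y hx h3 hy h5 hxy
      · have := ta1 x hx h3
        omega
      · have := ta1 y hy h5
        omega
      · exact hxy
    · intro x hx1 hx2
      show (if x ≤ o then ta x else x) ≤ o ∧ (o : ℤ) + 1 ≤ x + ((if x ≤ o then ta x else x : ℕ) : ℤ) + k
      rw [if_pos hx2]
      exact ⟨(ta1 x hx1 hx2).2, ta4 x hx1 hx2⟩
    · intro x y hx1 hx2 hy1 hy2 hxy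
      replace hxy : x + (if x ≤ o then ta x else x) = y + if y ≤ o then ta y else y := hxy
      rw [if_pos hx2, if_pos hy2] at hxy
      exact ta3 x y hx1 hx2 hy1 hy2 hxy
    · intro x hx1 hx2
      show (if x ≤ o then ta x else x) = x
      rw [if_neg (by omega)]
    · intro hso
      left
      show (if so ≤ o then ta so else so) = so
      rw [if_neg (by omega)]
    · intro c hc1 hc2
      show so ≤ (if so + c ≤ o then ta (so + c) else so + c)
      rw [if_neg (by omega)]
      omega
    · intro c d hc1 hc2 hd1 hd2 hcd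
      replace hcd : c + (if so + c ≤ o then ta (so + c) else so + c) =
        d + if so + d ≤ o then ta (so + d) else so + d := hcd
      rw [if_neg (by omega), if_neg (by omega)] at hcd
      omega
    · intro c y hc1 hc2 hy
      show c + (if so + c ≤ o then ta (so + c) else so + c) ≠ _
      rw [if_neg (by omega)]
      omega
  · push Not at hA
    by_cases hB : cc % 2 = 0
    · set ps : ℕ → ℕ := fun x => if x ≤ o then ta x else if x < so then x else
        if so + cc < x then x else if x = so then so + cc else x - 1 with hps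
      have ps0 : ∀ x, ps x = if x ≤ o then ta x else if x < so then x else
        if so + cc < x then x else if x = so then so + cc else x - 1 := fun x => rfl
      refine ⟨ps, ?_, ?_, ?_, ?_, ?_, ?_, ?_, ?_, ?_, ?_⟩
      · intro x hx
        rw [ps0]
        split_ifs <;> omega
      · intro x hx1 hx2
        rw [ps0]
        split_ifs with h3
        · have := ta1 x hx1 h3
          omega
        all_goals omega
      · intro x y hx hy hxy
        rw [ps0, ps0] at hxy
        by_cases h3 : x ≤ o <;> by_cases h5 : y ≤ o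
        · rw [if_pos h3, if_pos h5] at hxy
          exact ta2 x y hx h3 hy h5 hxy
        · rw [if_pos h3, if_neg h5] at hxy
          have := ta1 x hx h3
          split_ifs at hxy <;> omega
        · rw [if_neg h3, if_pos h5] at hxy
          have := ta1 y hy h5
          split_ifs at hxy <;> omega
        · rw [if_neg h3, if_neg h5] at hxy
          split_ifs at hxy <;> omega
      · intro x hx1 hx2
        rw [ps0, if_pos hx2]
        exact ⟨(ta1 x hx1 hx2).2, ta4 x hx1 hx2⟩
      · intro x y hx1 hx2 hy1 hy2 hxy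
        rw [ps0, ps0, if_pos hx2, if_pos hy2] at hxy
        exact ta3 x y hx1 hx2 hy1 hy2 hxy
      · intro x hx1 hx2
        rw [ps0, if_neg (by omega), if_pos hx2]
      · intro hso
        right
        constructor
        · rw [ps0, if_neg (by omega), if_neg (by omega), if_neg (by omega), if_pos rfl]
        · intro c hc1 hc2
          rw [ps0, if_neg (by omega), if_neg (by omega), if_neg (by omega), if_neg (by omega)]
          omega
      · intro c hc1 hc2
        rw [ps0, if_neg (by omega), if_neg (by omega), if_neg (by omega), if_neg (by omega)]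
        omega
      · intro c d hc1 hc2 hd1 hd2 hcd
        rw [ps0, ps0, if_neg (by omega), if_neg (by omega), if_neg (by omega), if_neg (by omega),
          if_neg (by omega), if_neg (by omega), if_neg (by omega), if_neg (by omega)] at hcd
        omega
      · intro c y hc1 hc2 hy
        rw [ps0, if_neg (by omega), if_neg (by omega), if_neg (by omega), if_neg (by omega)]
        omega
    · set ps : ℕ → ℕ := fun x => if x ≤ o then ta x else if x ≤ so then x else
        if so + cc < x then x else if x = so + cc then so + 1 else x + 1 with hps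
      have ps0 : ∀ x, ps x = if x ≤ o then ta x else if x ≤ so then x else
        if so + cc < x then x else if x = so + cc then so + 1 else x + 1 := fun x => rfl
      have psx : ∀ c, 1 ≤ c → c ≤ cc → ps (so + c) = if c = cc then so + 1 else so + c + 1 := by
        intro c hc1 hc2
        rw [ps0, if_neg (by omega), if_neg (by omega), if_neg (by omega)]
        split_ifs <;> omega
      refine ⟨ps, ?_, ?_, ?_, ?_, ?_, ?_, ?_, ?_, ?_, ?_⟩
      · intro x hx
        rw [ps0]
        split_ifs <;> omega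
      · intro x hx1 hx2
        rw [ps0]
        split_ifs with h3
        · have := ta1 x hx1 h3
          omega
        all_goals omega
      · intro x y hx hy hxy
        rw [ps0, ps0] at hxy
        by_cases h3 : x ≤ o <;> by_cases h5 : y ≤ o
        · rw [if_pos h3, if_pos h5] at hxy
          exact ta2 x y hx h3 hy h5 hxy
        · rw [if_pos h3, if_neg h5] at hxy
          have := ta1 x hx h3
          split_ifs at hxy <;> omega
        · rw [if_neg h3, if_pos h5] at hxy
          have := ta1 y hy h5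
          split_ifs at hxy <;> omega
        · rw [if_neg h3, if_neg h5] at hxy
          split_ifs at hxy <;> omega
      · intro x hx1 hx2
        rw [ps0, if_pos hx2]
        exact ⟨(ta1 x hx1 hx2).2, ta4 x hx1 hx2⟩
      · intro x y hx1 hx2 hy1 hy2 hxy
        rw [ps0, ps0, if_pos hx2, if_pos hy2] at hxy
        exact ta3 x y hx1 hx2 hy1 hy2 hxy
      · intro x hx1 hx2
        rw [ps0, if_neg (by omega), if_pos (by omega)]
      · intro hso
        left
        rw [ps0, if_neg (by omega), if_pos (by omega)]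
      · intro c hc1 hc2
        rw [psx c hc1 hc2]
        split_ifs <;> omega
      · intro c d hc1 hc2 hd1 hd2 hcd
        rw [psx c hc1 hc2, psx d hd1 hd2] at hcd
        split_ifs at hcd <;> omega
      · intro c y hc1 hc2 hy
        rw [psx c hc1 hc2]
        split_ifs <;> omega

variable {n ord ty tid}

lemma n_eq4 (hty : Ty4 n ty) (i : Fin N) :
    n i = l4 n ty i + h4 n ty i + t4 ty i + u4 ty i := by
  have h0 := hty.le i
  have h1 := hty.even i
  have h2 := hty.odd i
  have h3 := hty.three i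
  have h5 := hty.four i
  unfold l4 h4 t4 u4
  split_ifs <;> omega

lemma tot4 (hty : Ty4 n ty) : ∑ i, n i = SO4 n ty + SH4 n ty + TT4 ty + CC4 ty := by
  unfold SO4 SH4 TT4 CC4
  rw [← sum_add_distrib, ← sum_add_distrib, ← sum_add_distrib]
  exact sum_congr rfl fun i _ => n_eq4 hty i

lemma l4_pos (hty : Ty4 n ty) (i : Fin N) : 1 ≤ l4 n ty i := by
  have h0 := hty.le i
  have h1 := hty.even i
  have h2 := hty.odd i
  have h3 := hty.three i
  have h5 := hty.four i
  have h6 := hty.pos i
  unfold l4
  split_ifs <;> omega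

lemma r4_cases (hty : Ty4 n ty) {i : Fin N} {t : ℕ} (ht : t < n i) :
    (ty i = 3 ∧ t = 0 ∧ r4 n ord ty tid i t = SO4 n ty + tid i) ∨
    (((ty i = 2 ∧ t = 0) ∨ (ty i = 3 ∧ t = 1)) ∧
      r4 n ord ty tid i t = SO4 n ty + CC4 ty + SH4 n ty + tid i) ∨
    (∃ a, 1 ≤ a ∧ a ≤ h4 n ty i ∧ t + 2 = 2 * a + sg4 ty i + 2 * u4 ty i ∧
      r4 n ord ty tid i t = SO4 n ty + CC4 ty + pre ord (h4 n ty) i + a) ∨
    (∃ b, 1 ≤ b ∧ b ≤ l4 n ty i ∧ t + 1 + sg4 ty i = 2 * (b + t4 ty i) ∧
      r4 n ord ty tid i t = pre ord (l4 n ty) i + b) := by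
  have h0 := hty.le i
  have h1 := hty.even i
  have h2 := hty.odd i
  have h3 := hty.three i
  have h5 := hty.four i
  have k1 : sg4 ty i = if ty i = 1 ∨ ty i = 2 then 1 else 0 := rfl
  have k2 : t4 ty i = if 2 ≤ ty i then 1 else 0 := rfl
  have k3 : u4 ty i = if ty i = 3 then 1 else 0 := rfl
  have k4 : h4 n ty i = if ty i = 3 then n i / 2 - 1 else n i / 2 := rfl
  have k5 : l4 n ty i = if ty i = 1 then (n i + 1) / 2 else if ty i = 3 then n i / 2 - 1
    else n i / 2 := rfl
  by_cases c1 : ty i = 3 ∧ t = 0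
  · left
    refine ⟨c1.1, c1.2, ?_⟩
    unfold r4
    rw [if_pos c1]
  · right
    by_cases c2 : (ty i = 2 ∧ t = 0) ∨ (ty i = 3 ∧ t = 1)
    · left
      refine ⟨c2, ?_⟩
      unfold r4
      rw [if_neg c1, if_pos c2]
    · right
      by_cases c3 : (t + sg4 ty i) % 2 = 0
      · left
        refine ⟨(t + 2 - sg4 ty i) / 2 - u4 ty i, ?_, ?_, ?_, ?_⟩
        · split_ifs at k1 k2 k3 k4 k5 <;> omega
        · split_ifs at k1 k2 k3 k4 k5 <;> omega
        · split_ifs at k1 k2 k3 k4 k5 <;> omega
        · unfold r4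
          rw [if_neg c1, if_neg c2, if_pos c3]
      · right
        refine ⟨(t + 1 + sg4 ty i) / 2 - t4 ty i, ?_, ?_, ?_, ?_⟩
        · split_ifs at k1 k2 k3 k4 k5 <;> omega
        · split_ifs at k1 k2 k3 k4 k5 <;> omega
        · split_ifs at k1 k2 k3 k4 k5 <;> omega
        · unfold r4
          rw [if_neg c1, if_neg c2, if_neg c3]

end quad

end Pool.SpC75
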