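import Pool.Agent.SpC75.Quad

/-!
# SpC75/Quad2 (MP_9fc547_co)

The criterion for the labeling of `Quad`.
-/

namespace Pool.SpC75

open Finset Pool.SpA

section quad

variable {N : ℕ} {n ord ty tid : Fin N → ℕ} {ps : ℕ → ℕ}

lemma r4_inj (hord : Function.Injective ord) (hty : Ty4 n ty) (hT : Tid4 n ord ty tid ps)
    {i j : Fin N} {t s : ℕ} (ht : t < n i) (hs : s < n j)
    (h : r4 n ord ty tid i t = r4 n ord ty tid j s) : i = j ∧ t = s := by
  have pi1 := pre_tot ord (l4 n ty) i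
  have pi2 := pre_tot ord (h4 n ty) i
  have pj1 := pre_tot ord (l4 n ty) j
  have pj2 := pre_tot ord (h4 n ty) j
  have d1 : SO4 n ty = ∑ i, l4 n ty i := rfl
  have d2 : SH4 n ty = ∑ i, h4 n ty i := rfl
  have ri := hT.rng i
  have rj := hT.rng j
  have ri3 := hT.rng3 i
  have rj3 := hT.rng3 j
  rcases r4_cases (ord := ord) (tid := tid) hty ht with ⟨a1, a2, a3⟩ | ⟨a1, a3⟩ |
    ⟨a, a1, a2, a4, a3⟩ | ⟨a, a1, a2, a4, a3⟩ <;>
  rcases r4_cases (ord := ord) (tid := tid) hty hs with ⟨b1, b2, b3⟩ | ⟨b1, b3⟩ |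
    ⟨b, b1, b2, b4, b3⟩ | ⟨b, b1, b2, b4, b3⟩ <;>
  rw [a3, b3] at h
  · exact ⟨hT.inj i j (by omega) (by omega) (by omega), by omega⟩
  · omega
  · omega
  · omega
  · omega
  · have hij := hT.inj i j (by omega) (by omega) (by omega)
    subst hij
    exact ⟨rfl, by omega⟩
  · omega
  · omega
  · omega
  · omega
  · rcases lt_trichotomy (ord i) (ord j) with hlt | hlt | hlt
    · have := pre_le ord (h4 n ty) hlt
      omega
    · have := hord hlt
      subst this
      exact ⟨rfl, by omega⟩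
    · have := pre_le ord (h4 n ty) hlt
      omega
  · omega
  · omega
  · omega
  · omega
  · rcases lt_trichotomy (ord i) (ord j) with hlt | hlt | hlt
    · have := pre_le ord (l4 n ty) hlt
      omega
    · have := hord hlt
      subst this
      exact ⟨rfl, by omega⟩
    · have := pre_le ord (l4 n ty) hlt
      omega

lemma r4_pos (hty : Ty4 n ty) (hT : Tid4 n ord ty tid ps) {i : Fin N} {t : ℕ} (ht : t < n i) :
    1 ≤ r4 n ord ty tid i t := by
  have ri := hT.rng i
  rcases r4_cases (ord := ord) (tid := tid) hty ht with ⟨a1, a2, a3⟩ | ⟨a1, a3⟩ |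
    ⟨a, a1, a2, a4, a3⟩ | ⟨a, a1, a2, a4, a3⟩ <;> omega

lemma r4_le (hty : Ty4 n ty) (hT : Tid4 n ord ty tid ps) {i : Fin N} {t : ℕ} (ht : t < n i) :
    r4 n ord ty tid i t ≤ SO4 n ty + CC4 ty + SH4 n ty + TT4 ty := by
  have ri := hT.rng i
  have ri3 := hT.rng3 i
  have pi1 := pre_tot ord (l4 n ty) i
  have pi2 := pre_tot ord (h4 n ty) i
  have d1 : SO4 n ty = ∑ i, l4 n ty i := rfl
  have d2 : SH4 n ty = ∑ i, h4 n ty i := rfl
  rcases r4_cases (ord := ord) (tid := tid) hty ht with ⟨a1, a2, a3⟩ | ⟨a1, a3⟩ |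
    ⟨a, a1, a2, a4, a3⟩ | ⟨a, a1, a2, a4, a3⟩ <;> omega

lemma r4_leaf (hty : Ty4 n ty) {i : Fin N} {t : ℕ} (ht : t + 1 = n i) :
    r4 n ord ty tid i t ≤ SO4 n ty := by
  have h0 := hty.le i
  have h1 := hty.even i
  have h2 := hty.odd i
  have h3 := hty.three i
  have h5 := hty.four i
  have k1 : sg4 ty i = if ty i = 1 ∨ ty i = 2 then 1 else 0 := rfl
  have k3 : u4 ty i = if ty i = 3 then 1 else 0 := rfl
  have pi1 := pre_tot ord (l4 n ty) i
  have d1 : SO4 n ty = ∑ i, l4 n ty i := rfl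
  rcases r4_cases (ord := ord) (tid := tid) hty (by omega : t < n i) with ⟨a1, a2, a3⟩ | ⟨a1, a3⟩ |
    ⟨a, a1, a2, a4, a3⟩ | ⟨a, a1, a2, a4, a3⟩
  · omega
  · omega
  · exfalso
    split_ifs at k1 k3 <;> omega
  · omega

/-- two consecutive edges -/
lemma r4_adj (hty : Ty4 n ty) {i : Fin N} {t : ℕ} (ht : t + 1 < n i) :
    (ty i = 3 ∧ t = 0 ∧ r4 n ord ty tid i t = SO4 n ty + tid i ∧
      r4 n ord ty tid i (t + 1) = SO4 n ty + CC4 ty + SH4 n ty + tid i) ∨
    (((ty i = 2 ∧ t = 0) ∨ (ty i = 3 ∧ t = 1)) ∧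
      r4 n ord ty tid i t = SO4 n ty + CC4 ty + SH4 n ty + tid i ∧
      r4 n ord ty tid i (t + 1) = SO4 n ty + CC4 ty + pre ord (h4 n ty) i + 1) ∨
    (∃ a b, 1 ≤ a ∧ a ≤ h4 n ty i ∧ 1 ≤ b ∧ b ≤ l4 n ty i ∧
      a + b + t4 ty i + u4 ty i = t + 2 ∧ t + 2 ≤ 2 * a + sg4 ty i + 2 * u4 ty i ∧
      2 * a + sg4 ty i + 2 * u4 ty i ≤ t + 3 ∧ t + 1 + sg4 ty i ≤ 2 * (b + t4 ty i) ∧
      2 * (b + t4 ty i) ≤ t + 2 + sg4 ty i ∧
      ((r4 n ord ty tid i t = SO4 n ty + CC4 ty + pre ord (h4 n ty) i + a ∧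
        r4 n ord ty tid i (t + 1) = pre ord (l4 n ty) i + b) ∨
      (r4 n ord ty tid i t = pre ord (l4 n ty) i + b ∧
        r4 n ord ty tid i (t + 1) = SO4 n ty + CC4 ty + pre ord (h4 n ty) i + a))) := by
  have h0 := hty.le i
  have k1 : sg4 ty i = if ty i = 1 ∨ ty i = 2 then 1 else 0 := rfl
  have k2 : t4 ty i = if 2 ≤ ty i then 1 else 0 := rfl
  have k3 : u4 ty i = if ty i = 3 then 1 else 0 := rfl
  rcases r4_cases (ord := ord) (tid := tid) hty (by omega : t < n i) with ⟨a1, a2, a3⟩ | ⟨a1, a3⟩ |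
    ⟨a, a1, a2, a4, a3⟩ | ⟨a, a1, a2, a4, a3⟩ <;>
  rcases r4_cases (ord := ord) (tid := tid) hty ht with ⟨b1, b2, b3⟩ | ⟨b1, b3⟩ |
    ⟨b, b1, b2, b4, b3⟩ | ⟨b, b1, b2, b4, b3⟩
  · omega
  · exact Or.inl ⟨a1, a2, a3, b3⟩
  · exfalso
    split_ifs at k1 k2 k3 <;> omega
  · exfalso
    split_ifs at k1 k2 k3 <;> omega
  · omega
  · omega
  · right
    left
    refine ⟨a1, a3, ?_⟩
    rw [b3]
    have : b = 1 := by
      split_ifs at k1 k2 k3 <;> omega
    rw [this]
  · exfalso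
    split_ifs at k1 k2 k3 <;> omega
  · omega
  · exfalso
    split_ifs at k1 k2 k3 <;> omega
  · exfalso
    omega
  · right
    right
    refine ⟨a, b, a1, a2, b1, b2, ?_, ?_, ?_, ?_, ?_, Or.inl ⟨a3, b3⟩⟩ <;>
    split_ifs at k1 k2 k3 <;> omega
  · omega
  · exfalso
    split_ifs at k1 k2 k3 <;> omega
  · right
    right
    refine ⟨b, a, b1, b2, a1, a2, ?_, ?_, ?_, ?_, ?_, Or.inr ⟨a3, b3⟩⟩ <;>
    split_ifs at k1 k2 k3 <;> omega
  · exfalso
    omega

/-- the sum of two consecutive labels -/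
lemma r4_adj_sum {o : ℕ} {k : ℤ} (hty : Ty4 n ty) (hT : Tid4 n ord ty tid ps)
    (hP : Ps4 o (SO4 n ty) (CC4 ty) k ps) {i : Fin N} {t : ℕ} (ht : t + 1 < n i) :
    (ty i = 3 ∧ t = 0 ∧ ps (r4 n ord ty tid i t) + ps (r4 n ord ty tid i (t + 1)) =
      ps (SO4 n ty + tid i) + (SO4 n ty + CC4 ty + SH4 n ty + tid i)) ∨
    (((ty i = 2 ∧ t = 0) ∨ (ty i = 3 ∧ t = 1)) ∧
      ps (r4 n ord ty tid i t) + ps (r4 n ord ty tid i (t + 1)) =
      (SO4 n ty + CC4 ty + SH4 n ty + tid i) +
        (SO4 n ty + CC4 ty + pre ord (h4 n ty) i + 1)) ∨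
    (∃ a b, 1 ≤ a ∧ a ≤ h4 n ty i ∧ 1 ≤ b ∧ b ≤ l4 n ty i ∧
      a + b + t4 ty i + u4 ty i = t + 2 ∧ t + 2 ≤ 2 * a + sg4 ty i + 2 * u4 ty i ∧
      2 * a + sg4 ty i + 2 * u4 ty i ≤ t + 3 ∧ t + 1 + sg4 ty i ≤ 2 * (b + t4 ty i) ∧
      2 * (b + t4 ty i) ≤ t + 2 + sg4 ty i ∧
      ps (r4 n ord ty tid i t) + ps (r4 n ord ty tid i (t + 1)) =
        (SO4 n ty + CC4 ty + pre ord (h4 n ty) i + a) + ps (pre ord (l4 n ty) i + b)) := by
  have ri := hT.rng i
  rcases r4_adj (ord := ord) (tid := tid) hty ht with ⟨a1, a2, a3, a4⟩ | ⟨a1, a3, a4⟩ |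
    ⟨a, b, c1, c2, c3, c4, c5, c6, c7, c8, c9, ⟨a3, a4⟩ | ⟨a3, a4⟩⟩
  · left
    refine ⟨a1, a2, ?_⟩
    rw [a3, a4, hP.top (SO4 n ty + CC4 ty + SH4 n ty + tid i) (by omega)]
  · right
    left
    refine ⟨a1, ?_⟩
    rw [a3, a4, hP.top _ (by omega), hP.top _ (by omega)]
  · right
    right
    refine ⟨a, b, c1, c2, c3, c4, c5, c6, c7, c8, c9, ?_⟩
    rw [a3, a4, hP.top _ (by omega)]
  · right
    right
    refine ⟨a, b, c1, c2, c3, c4, c5, c6, c7, c8, c9, ?_⟩
    rw [a3, a4, hP.top (SO4 n ty + CC4 ty + pre ord (h4 n ty) i + a) (by omega)]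
    ring

lemma ps_ge {o so cc : ℕ} {k : ℤ} (hP : Ps4 o so cc k ps) {x : ℕ} (h1 : o < x) (h2 : x ≤ so) :
    x ≤ ps x := by
  rcases Nat.lt_or_ge x so with h | h
  · rw [hP.mid x h1 h]
  · have : x = so := by omega
    subst this
    rcases hP.last h1 with h3 | ⟨h3, _⟩ <;> omega

lemma last_leg (hty : Ty4 n ty) {i : Fin N} {b : ℕ} (hb : b ≤ l4 n ty i)
    (h : pre ord (l4 n ty) i + b = SO4 n ty) :
    b = l4 n ty i ∧ pre ord (h4 n ty) i + h4 n ty i = SH4 n ty := by
  have pi1 := pre_tot ord (l4 n ty) i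
  have d1 : SO4 n ty = ∑ i, l4 n ty i := rfl
  refine ⟨by omega, ?_⟩
  have huniv : insert i (univ.filter (fun j => ord j < ord i)) = univ := by
    rw [eq_univ_iff_forall]
    intro j
    by_contra hj
    have hsub : insert j (insert i (univ.filter (fun l => ord l < ord i))) ⊆ univ :=
      subset_univ _
    have h2 := Finset.sum_le_sum_of_subset (f := l4 n ty) hsub
    rw [sum_insert hj, sum_insert (by simp)] at h2
    have h3 := l4_pos hty j
    have h5 : pre ord (l4 n ty) i = ∑ j ∈ univ.filter (fun j => ord j < ord i), l4 n ty j := rfl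
    omega
  unfold SH4
  rw [← huniv, sum_insert (by simp)]
  unfold pre
  ring

lemma sum4_inj {o : ℕ} {k : ℤ} (hord : Function.Injective ord) (hty : Ty4 n ty)
    (hT : Tid4 n ord ty tid ps) (hP : Ps4 o (SO4 n ty) (CC4 ty) k ps) (hoS : o ≤ SO4 n ty)
    (hblk : ∀ i, (n i = 2 ∧ ty i = 0 ∧ pre ord (h4 n ty) i = pre ord (l4 n ty) i ∧
      pre ord (l4 n ty) i + 1 ≤ o) ∨ (o ≤ pre ord (h4 n ty) i ∧ o ≤ pre ord (l4 n ty) i))
    {i j : Fin N} {t s : ℕ} (ht : t + 1 < n i) (hs : s + 1 < n j)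
    (h : ps (r4 n ord ty tid i t) + ps (r4 n ord ty tid i (t + 1)) =
      ps (r4 n ord ty tid j s) + ps (r4 n ord ty tid j (s + 1))) : i = j ∧ t = s := by
  have d1 : SO4 n ty = ∑ i, l4 n ty i := rfl
  have d2 : SH4 n ty = ∑ i, h4 n ty i := rfl
  -- a mixed sum is different from a special sum
  have CA : ∀ i j t a b, t + 1 < n i → ty j = 3 → 1 ≤ a → a ≤ h4 n ty i → 1 ≤ b → b ≤ l4 n ty i →
      a + b + t4 ty i + u4 ty i = t + 2 → 2 * (b + t4 ty i) ≤ t + 2 + sg4 ty i →
      (SO4 n ty + CC4 ty + pre ord (h4 n ty) i + a) + ps (pre ord (l4 n ty) i + b) ≠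
        ps (SO4 n ty + tid j) + (SO4 n ty + CC4 ty + SH4 n ty + tid j) := by
    intro i j t a b ht hj a1 a2 b1 b2 hab hb he
    have pi1 := pre_tot ord (l4 n ty) i
    have pi2 := pre_tot ord (h4 n ty) i
    have rj := hT.rng j (by omega)
    have rj3 := hT.rng3 j hj
    have hx := hP.xge (tid j) rj.1 rj3
    by_cases hx1 : pre ord (l4 n ty) i + b ≤ o
    · have := (hP.blk _ (by omega) hx1).1
      omega
    · by_cases hx2 : pre ord (l4 n ty) i + b < SO4 n ty
      · rw [hP.mid _ (by omega) hx2] at he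
        omega
      · have hx3 : pre ord (l4 n ty) i + b = SO4 n ty := by omega
        obtain ⟨e1, e2⟩ := last_leg hty b2 hx3
        rcases hP.last (by omega) with h3 | ⟨h3, h5⟩
        · rw [hx3, h3] at he
          omega
        · have h6 := h5 (tid j) rj.1 rj3
          rw [hx3, h3] at he
          have ha : a = h4 n ty i := by
            have h0 := hty.le i
            have g1 := hty.even i
            have g2 := hty.odd i
            have g3 := hty.three i
            have g5 := hty.four i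
            have k1 : sg4 ty i = if ty i = 1 ∨ ty i = 2 then 1 else 0 := rfl
            have k2 : t4 ty i = if 2 ≤ ty i then 1 else 0 := rfl
            have k3 : u4 ty i = if ty i = 3 then 1 else 0 := rfl
            have k4 : h4 n ty i = if ty i = 3 then n i / 2 - 1 else n i / 2 := rfl
            have k5 : l4 n ty i = if ty i = 1 then (n i + 1) / 2 else if ty i = 3 then n i / 2 - 1
              else n i / 2 := rfl
            split_ifs at k1 k2 k3 k4 k5 <;> omega
          omega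
  have hps : ∀ i b, 1 ≤ b → b ≤ l4 n ty i → ps (pre ord (l4 n ty) i + b) ≤ SO4 n ty + CC4 ty := by
    intro i b b1 b2
    have pi1 := pre_tot ord (l4 n ty) i
    exact (hP.rng _ (by omega) (by omega)).2
  have pi1 := pre_tot ord (l4 n ty) i
  have pi2 := pre_tot ord (h4 n ty) i
  have pj1 := pre_tot ord (l4 n ty) j
  have pj2 := pre_tot ord (h4 n ty) j
  have ri := hT.rng i
  have rj := hT.rng j
  have ri3 := hT.rng3 i
  have rj3 := hT.rng3 j
  rcases r4_adj_sum hty hT hP ht with ⟨a1, a2, a3⟩ | ⟨a1, a3⟩ |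
    ⟨a, b, c1, c2, c3, c4, c5, c6, c7, c8, c9, a3⟩ <;>
  rcases r4_adj_sum hty hT hP hs with ⟨b1, b2, b3⟩ | ⟨b1, b3⟩ |
    ⟨a', b', e1, e2, e3, e4, e5, e6, e7, e8, e9, b3⟩ <;>
  rw [a3, b3] at h
  · have h1 := hP.xinj (tid i) (tid j) (by omega) (by omega) (by omega) (by omega) (by omega)
    exact ⟨hT.inj i j (by omega) (by omega) h1, by omega⟩
  · exact absurd (by omega) (hT.avoid i j a1 (by omega))
  · exact absurd h.symm (CA j i s a' b' hs a1 e1 e2 e3 e4 e5 e9)
  · exact absurd (by omega) (hT.avoid j i b1 (by omega))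
  · have hij := hT.sum i j (by omega) (by omega) (by omega)
    subst hij
    exact ⟨rfl, by omega⟩
  · have := hps j b' e3 e4
    omega
  · exact absurd h (CA i j t a b ht b1 c1 c2 c3 c4 c5 c9)
  · have := hps i b c3 c4
    omega
  · rcases hblk i with ⟨f1, f2, f3, f4⟩ | ⟨f1, f2⟩ <;> rcases hblk j with ⟨g1, g2, g3, g4⟩ | ⟨g1, g2⟩
    · have k1 : t4 ty i = 0 := if_neg (by omega)
      have k2 : t4 ty j = 0 := if_neg (by omega)
      have k3 : u4 ty i = 0 := if_neg (by omega)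
      have k4 : u4 ty j = 0 := if_neg (by omega)
      have ha : a = 1 := by omega
      have hb : b = 1 := by omega
      have ha' : a' = 1 := by omega
      have hb' : b' = 1 := by omega
      subst ha hb ha' hb'
      have h1 := hP.blkinj _ _ (by omega) f4 (by omega) g4
        (by omega : pre ord (l4 n ty) i + 1 + ps (pre ord (l4 n ty) i + 1) =
          pre ord (l4 n ty) j + 1 + ps (pre ord (l4 n ty) j + 1))
      refine ⟨?_, by omega⟩
      rcases lt_trichotomy (ord i) (ord j) with hlt | hlt | hlt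
      · have := pre_le ord (l4 n ty) hlt
        omega
      · exact hord hlt
      · have := pre_le ord (l4 n ty) hlt
        omega
    · have k1 : t4 ty i = 0 := if_neg (by omega)
      have k3 : u4 ty i = 0 := if_neg (by omega)
      have hb : b = 1 := by omega
      subst hb
      have h1 := (hP.blk _ (by omega) f4).1
      have h2 := ps_ge hP (by omega : o < pre ord (l4 n ty) j + b') (by omega)
      omega
    · have k2 : t4 ty j = 0 := if_neg (by omega)
      have k4 : u4 ty j = 0 := if_neg (by omega)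
      have hb' : b' = 1 := by omega
      subst hb'
      have h1 := (hP.blk _ (by omega) g4).1
      have h2 := ps_ge hP (by omega : o < pre ord (l4 n ty) i + b) (by omega)
      omega
    · have hi2 := ps_ge hP (by omega : o < pre ord (l4 n ty) i + b) (by omega)
      have hj2 := ps_ge hP (by omega : o < pre ord (l4 n ty) j + b') (by omega)
      rcases lt_trichotomy (ord i) (ord j) with hlt | hlt | hlt
      · have q1 := pre_le ord (l4 n ty) hlt
        have q2 := pre_le ord (h4 n ty) hlt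
        rw [hP.mid (pre ord (l4 n ty) i + b) (by omega) (by omega)] at h
        omega
      · have := hord hlt
        subst this
        refine ⟨rfl, ?_⟩
        rcases lt_trichotomy t s with hts | hts | hts
        · rcases Nat.lt_or_ge b b' with hbb | hbb
          · rw [hP.mid (pre ord (l4 n ty) i + b) (by omega) (by omega)] at h
            omega
          · have : b = b' := by omega
            subst this
            omega
        · exact hts
        · rcases Nat.lt_or_ge b' b with hbb | hbb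
          · rw [hP.mid (pre ord (l4 n ty) i + b') (by omega) (by omega)] at h
            omega
          · have : b = b' := by omega
            subst this
            omega
      · have q1 := pre_le ord (l4 n ty) hlt
        have q2 := pre_le ord (h4 n ty) hlt
        rw [hP.mid (pre ord (l4 n ty) j + b') (by omega) (by omega)] at h
        omega

lemma sum4_ge {o : ℕ} {k : ℤ} (hk : -1 ≤ k) (hty : Ty4 n ty)
    (hT : Tid4 n ord ty tid ps) (hP : Ps4 o (SO4 n ty) (CC4 ty) k ps) (hoH : o ≤ SH4 n ty)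
    (hblk : ∀ i, (n i = 2 ∧ ty i = 0 ∧ pre ord (h4 n ty) i = pre ord (l4 n ty) i ∧
      pre ord (l4 n ty) i + 1 ≤ o) ∨ (o ≤ pre ord (h4 n ty) i ∧ o ≤ pre ord (l4 n ty) i))
    {i : Fin N} {t : ℕ} (ht : t + 1 < n i) :
    ((SO4 n ty + CC4 ty + o : ℕ) : ℤ) <
      k + ((ps (r4 n ord ty tid i t) + ps (r4 n ord ty tid i (t + 1)) : ℕ) : ℤ) := by
  have d1 : SO4 n ty = ∑ i, l4 n ty i := rfl
  have d2 : SH4 n ty = ∑ i, h4 n ty i := rfl
  have pi1 := pre_tot ord (l4 n ty) i
  have pi2 := pre_tot ord (h4 n ty) i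
  have ri := hT.rng i
  have ri3 := hT.rng3 i
  rcases r4_adj_sum hty hT hP ht with ⟨a1, a2, a3⟩ | ⟨a1, a3⟩ |
    ⟨a, b, c1, c2, c3, c4, c5, c6, c7, c8, c9, a3⟩
  · rw [a3]
    have := hP.rng (SO4 n ty + tid i) (by omega) (by omega)
    omega
  · rw [a3]
    have h3 := l4_pos hty i
    omega
  · rw [a3]
    rcases hblk i with ⟨f1, f2, f3, f4⟩ | ⟨f1, f2⟩
    · have k1 : t4 ty i = 0 := if_neg (by omega)
      have k3 : u4 ty i = 0 := if_neg (by omega)
      have hb : b = 1 := by omega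
      have ha : a = 1 := by omega
      subst hb ha
      have h1 := (hP.blk _ (by omega) f4).2
      omega
    · have h2 := ps_ge hP (by omega : o < pre ord (l4 n ty) i + b) (by omega)
      omega

lemma sum4_le {o : ℕ} {k : ℤ} (hty : Ty4 n ty)
    (hT : Tid4 n ord ty tid ps) (hP : Ps4 o (SO4 n ty) (CC4 ty) k ps) (H1 : ℕ)
    (hH : ∀ i, 2 ≤ ty i → pre ord (h4 n ty) i + 1 ≤ H1)
    {i : Fin N} {t : ℕ} (ht : t + 1 < n i) :
    ps (r4 n ord ty tid i t) + ps (r4 n ord ty tid i (t + 1)) ≤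
      2 * (SO4 n ty + CC4 ty) + SH4 n ty + TT4 ty + H1 := by
  have d1 : SO4 n ty = ∑ i, l4 n ty i := rfl
  have d2 : SH4 n ty = ∑ i, h4 n ty i := rfl
  have pi1 := pre_tot ord (l4 n ty) i
  have pi2 := pre_tot ord (h4 n ty) i
  have ri := hT.rng i
  have ri3 := hT.rng3 i
  rcases r4_adj_sum hty hT hP ht with ⟨a1, a2, a3⟩ | ⟨a1, a3⟩ |
    ⟨a, b, c1, c2, c3, c4, c5, c6, c7, c8, c9, a3⟩
  · rw [a3]
    have := hP.rng (SO4 n ty + tid i) (by omega) (by omega)
    omega
  · rw [a3]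
    have h3 := hH i (by omega)
    omega
  · rw [a3]
    have := hP.rng (pre ord (l4 n ty) i + b) (by omega) (by omega)
    omega

end quad

/-- the labeling is good under several conditions -/
theorem good_quad {N : ℕ} {α : Type*} [DecidableEq α] (n ord ty tid : Fin N → ℕ) (ps : ℕ → ℕ)
    (o : ℕ) (cen : Fin N → α) (k : ℤ) (hk : -1 ≤ k) (hord : Function.Injective ord)
    (hty : Ty4 n ty) (hT : Tid4 n ord ty tid ps) (hP : Ps4 o (SO4 n ty) (CC4 ty) k ps)
    (hoS : o ≤ SO4 n ty) (hoH : o ≤ SH4 n ty)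
    (hblk : ∀ i, (n i = 2 ∧ ty i = 0 ∧ pre ord (h4 n ty) i = pre ord (l4 n ty) i ∧
      pre ord (l4 n ty) i + 1 ≤ o) ∨ (o ≤ pre ord (h4 n ty) i ∧ o ≤ pre ord (l4 n ty) i))
    (hone : ∀ i, n i = 1 → ∃ j, j ≠ i ∧ cen j = cen i)
    (hsingle : ∀ j, (∀ j', cen j' = cen j → j' = j) →
      ps (r4 n ord ty tid j 0) ≤ SO4 n ty + CC4 ty + o)
    (H1 : ℕ) (hH : ∀ i, 2 ≤ ty i → pre ord (h4 n ty) i + 1 ≤ H1)
    (hroot : ∀ i j, (∃ i', i' ≠ i ∧ cen i' = cen i) → (∃ j', j' ≠ j ∧ cen j' = cen j) →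
      rs cen (fun i t => k + ps (r4 n ord ty tid i t)) (cen i) =
        rs cen (fun i t => k + ps (r4 n ord ty tid i t)) (cen j) → cen i = cen j)
    (hbig : ∀ j, (∃ j', j' ≠ j ∧ cen j' = cen j) →
      2 * k + ((2 * (SO4 n ty + CC4 ty) + SH4 n ty + TT4 ty + H1 : ℕ) : ℤ) <
        rs cen (fun i t => k + ps (r4 n ord ty tid i t)) (cen j)) :
    Good n cen k (fun i t => k + ps (r4 n ord ty tid i t)) := by
  have hvs : ∀ i t, vs n (fun i t => k + (ps (r4 n ord ty tid i t) : ℤ)) i t =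
      if t + 1 < n i then 2 * k + ((ps (r4 n ord ty tid i t) + ps (r4 n ord ty tid i (t + 1)) : ℕ) : ℤ)
      else k + ps (r4 n ord ty tid i t) := by
    intro i t
    unfold vs
    split_ifs
    · push_cast
      ring
    · rfl
  have hinj : ∀ i j t s, t < n i → s < n j →
      k + (ps (r4 n ord ty tid i t) : ℤ) = k + ps (r4 n ord ty tid j s) → i = j ∧ t = s := by
    intro i j t s ht hs h
    exact r4_inj hord hty hT ht hs (hP.inj _ _ (r4_pos hty hT ht) (r4_pos hty hT hs) (by omega))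
  have hpspos : ∀ i t, t < n i → 1 ≤ ps (r4 n ord ty tid i t) := by
    intro i t ht
    have h1 := r4_pos hty hT ht
    rcases Nat.lt_or_ge (SO4 n ty + CC4 ty) (r4 n ord ty tid i t) with h2 | h2
    · rw [hP.top _ h2]
      exact h1
    · exact (hP.rng _ h1 h2).1
  have hleaf : ∀ i t, t + 1 = n i → ps (r4 n ord ty tid i t) ≤ SO4 n ty + CC4 ty := by
    intro i t ht
    have h1 := r4_leaf (ord := ord) (tid := tid) hty ht
    exact (hP.rng _ (r4_pos hty hT (by omega)) (by omega)).2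
  have hrs1 : ∀ j, (∀ j', cen j' = cen j → j' = j) →
      rs cen (fun i t => k + (ps (r4 n ord ty tid i t) : ℤ)) (cen j) =
        k + ps (r4 n ord ty tid j 0) := by
    intro j hex
    unfold rs
    have : (univ.filter fun x => cen x = cen j) = {j} := by
      ext x
      simp only [mem_filter, mem_univ, true_and, mem_singleton]
      constructor
      · exact hex x
      · rintro rfl
        rfl
    rw [this, sum_singleton]
  have hdich : ∀ j, (∃ j', j' ≠ j ∧ cen j' = cen j) ∨ (∀ j', cen j' = cen j → j' = j) := by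
    intro j
    by_cases hex : ∃ j', j' ≠ j ∧ cen j' = cen j
    · exact Or.inl hex
    · right
      intro j' hj'
      by_contra hne
      exact hex ⟨j', hne, hj'⟩
  refine ⟨?_, ?_, hinj, ?_, ?_, ?_⟩
  · intro i t ht
    have := hpspos i t ht
    show k < k + (ps (r4 n ord ty tid i t) : ℤ)
    omega
  · intro i t ht
    have h1 := tot4 hty
    have h2 := r4_le hty hT ht
    have h3 := r4_pos hty hT ht
    show k + (ps (r4 n ord ty tid i t) : ℤ) ≤ _
    rcases Nat.lt_or_ge (SO4 n ty + CC4 ty) (r4 n ord ty tid i t) with h5 | h5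
    · rw [hP.top _ h5]
      omega
    · have := (hP.rng _ h3 h5).2
      omega
  · intro i j t s ht hs h
    rw [hvs, hvs] at h
    split_ifs at h with h1 h2 h2
    · exact sum4_inj hord hty hT hP hoS hblk h1 h2 (by omega)
    · have k1 := sum4_ge hk hty hT hP hoH hblk h1
      have k2 := hleaf j s (by omega)
      omega
    · have k1 := sum4_ge hk hty hT hP hoH hblk h2
      have k2 := hleaf i t (by omega)
      omega
    · exact hinj i j t s ht hs h
  · intro i j h
    rcases hdich i with hi | hi <;> rcases hdich j with hj | hj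
    · exact hroot i j hi hj h
    · have h1 := hbig i hi
      rw [h, hrs1 j hj] at h1
      have h2 := hsingle j hj
      have h3 := l4_pos hty i
      have h5 := pre_tot ord (l4 n ty) i
      have d1 : SO4 n ty = ∑ i, l4 n ty i := rfl
      omega
    · have h1 := hbig j hj
      rw [← h, hrs1 i hi] at h1
      have h2 := hsingle i hi
      have h3 := l4_pos hty i
      have h5 := pre_tot ord (l4 n ty) i
      have d1 : SO4 n ty = ∑ i, l4 n ty i := rfl
      omega
    · rw [hrs1 i hi, hrs1 j hj] at h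
      rw [(hinj i j 0 0 (hty.pos i) (hty.pos j) h).1]
  · intro i j t ht h
    rw [hvs] at h
    rcases hdich j with hj | hj
    · have k0 := hbig j hj
      split_ifs at h with h1
      · have k1 := sum4_le hty hT hP H1 hH h1
        omega
      · have k1 := hleaf i t (by omega)
        have h3 := l4_pos hty i
        have h5 := pre_tot ord (l4 n ty) i
        have d1 : SO4 n ty = ∑ i, l4 n ty i := rfl
        omega
    · rw [hrs1 j hj] at h
      have h2 := hsingle j hj
      split_ifs at h with h1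
      · have k1 := sum4_ge hk hty hT hP hoH hblk h1
        omega
      · obtain ⟨h2, h3⟩ := hinj i j t 0 ht (hty.pos j) h
        subst h2
        obtain ⟨j', hj', hcj'⟩ := hone i (by omega)
        exact hj' (hj j' hcj')

end Pool.SpC75
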