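import Pool.Agent.SpC75.Zig

/-!
# SpC75/Tri (MP_9fc547_co)

The zigzag labeling with three classes of labels.  Leg types: `0` even length, large label at the
root; `1` odd length, small label at the root; `2` odd length at least three, top label at the root.
All leaf edges have small labels.
-/

namespace Pool.SpC75

open Finset Pool.SpA

section tri

variable {N : ℕ} (n ord ty : Fin N → ℕ)

/-- number of top labels on leg `i` -/
def t3 (i : Fin N) : ℕ := if ty i = 2 then 1 else 0

/-- number of small labels on leg `i` -/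
def l3 (i : Fin N) : ℕ := if ty i = 1 then (n i + 1) / 2 else n i / 2

/-- number of large labels on leg `i` -/
def h3 (i : Fin N) : ℕ := n i / 2

/-- total number of small labels -/
def SL : ℕ := ∑ i, l3 n ty i

/-- total number of large labels -/
def SH : ℕ := ∑ i, h3 n i

/-- total number of top labels -/
def ST : ℕ := ∑ i, t3 ty i

/-- `0` for type `0`, otherwise `1` -/
def sg (i : Fin N) : ℕ := if ty i = 0 then 0 else 1

/-- the labels minus `k` -/
def z3 (i : Fin N) (t : ℕ) : ℕ :=
  if ty i = 2 ∧ t = 0 then SL n ty + SH n + pre ord (t3 ty) i + 1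
  else if (t + sg ty i) % 2 = 0 then SL n ty + pre ord (h3 n) i + (t + 2 - sg ty i) / 2
  else pre ord (l3 n ty) i + (t + 1 + sg ty i) / 2 - t3 ty i

/-- the conditions on the types -/
structure TyOK : Prop where
  le : ∀ i, ty i ≤ 2
  even : ∀ i, ty i = 0 → n i % 2 = 0
  odd : ∀ i, ty i ≠ 0 → n i % 2 = 1
  three : ∀ i, ty i = 2 → 3 ≤ n i
  pos : ∀ i, 1 ≤ n i

variable {n ord ty}

lemma n_eq3 (hty : TyOK n ty) (i : Fin N) : n i = l3 n ty i + h3 n i + t3 ty i := by
  have h0 := hty.le i
  have h1 := hty.even i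
  have h2 := hty.odd i
  unfold l3 h3 t3
  split_ifs <;> omega

lemma tot3 (hty : TyOK n ty) : ∑ i, n i = SL n ty + SH n + ST ty := by
  unfold SL SH ST
  rw [← sum_add_distrib, ← sum_add_distrib]
  exact sum_congr rfl fun i _ => n_eq3 hty i

/-- the class of an edge -/
lemma z3_top {i : Fin N} (h : ty i = 2) :
    z3 n ord ty i 0 = SL n ty + SH n + pre ord (t3 ty) i + 1 := by
  unfold z3
  rw [if_pos ⟨h, rfl⟩]

lemma z3_high (hty : TyOK n ty) {i : Fin N} {t : ℕ} (ht : t < n i) (h0 : ¬ (ty i = 2 ∧ t = 0))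
    (h : (t + sg ty i) % 2 = 0) :
    z3 n ord ty i t = SL n ty + pre ord (h3 n) i + (t + 2 - sg ty i) / 2 ∧
      1 ≤ (t + 2 - sg ty i) / 2 ∧ (t + 2 - sg ty i) / 2 ≤ h3 n i := by
  have k0 := hty.le i
  have k1 := hty.even i
  have k2 := hty.odd i
  have k3 : sg ty i = if ty i = 0 then 0 else 1 := rfl
  unfold z3
  rw [if_neg h0, if_pos h]
  refine ⟨rfl, ?_, ?_⟩
  · split_ifs at k3 <;> omega
  · unfold h3
    split_ifs at k3 <;> omega

lemma z3_low (hty : TyOK n ty) {i : Fin N} {t : ℕ} (ht : t < n i) (h0 : ¬ (ty i = 2 ∧ t = 0))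
    (h : (t + sg ty i) % 2 ≠ 0) :
    z3 n ord ty i t = pre ord (l3 n ty) i + ((t + 1 + sg ty i) / 2 - t3 ty i) ∧
      1 ≤ (t + 1 + sg ty i) / 2 - t3 ty i ∧ (t + 1 + sg ty i) / 2 - t3 ty i ≤ l3 n ty i := by
  have k0 := hty.le i
  have k1 := hty.even i
  have k2 := hty.odd i
  have k3 : sg ty i = if ty i = 0 then 0 else 1 := rfl
  have k4 : t3 ty i = if ty i = 2 then 1 else 0 := rfl
  have k5 : l3 n ty i = if ty i = 1 then (n i + 1) / 2 else n i / 2 := rfl
  have k6 : 1 ≤ (t + 1 + sg ty i) / 2 - t3 ty i := by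
    split_ifs at k3 k4 <;> omega
  unfold z3
  rw [if_neg h0, if_neg h]
  refine ⟨by omega, k6, ?_⟩
  split_ifs at k3 k4 k5 <;> omega

lemma z3_low_le (hty : TyOK n ty) {i : Fin N} {t : ℕ} (ht : t < n i) (h0 : ¬ (ty i = 2 ∧ t = 0))
    (h : (t + sg ty i) % 2 ≠ 0) : z3 n ord ty i t ≤ SL n ty := by
  have h1 := z3_low (ord := ord) hty ht h0 h
  have h2 := pre_tot ord (l3 n ty) i
  have h3 : SL n ty = ∑ i, l3 n ty i := rfl
  omega

lemma z3_high_le (hty : TyOK n ty) {i : Fin N} {t : ℕ} (ht : t < n i)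
    (h0 : ¬ (ty i = 2 ∧ t = 0)) (h : (t + sg ty i) % 2 = 0) :
    z3 n ord ty i t ≤ SL n ty + SH n := by
  have h1 := z3_high (ord := ord) hty ht h0 h
  have h2 := pre_tot ord (h3 n) i
  have h3 : SH n = ∑ i, h3 n i := rfl
  omega

lemma z3_pos (hty : TyOK n ty) {i : Fin N} {t : ℕ} (ht : t < n i) : 1 ≤ z3 n ord ty i t := by
  by_cases h0 : ty i = 2 ∧ t = 0
  · rw [h0.2, z3_top h0.1]
    omega
  · by_cases h : (t + sg ty i) % 2 = 0
    · have := z3_high (ord := ord) hty ht h0 h
      omega
    · have := z3_low (ord := ord) hty ht h0 h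
      omega

lemma z3_le (hty : TyOK n ty) {i : Fin N} {t : ℕ} (ht : t < n i) :
    z3 n ord ty i t ≤ ∑ i, n i := by
  rw [tot3 hty]
  by_cases h0 : ty i = 2 ∧ t = 0
  · rw [h0.2, z3_top h0.1]
    have h1 := pre_tot ord (t3 ty) i
    have h2 : ST ty = ∑ i, t3 ty i := rfl
    have h3 : t3 ty i = 1 := if_pos h0.1
    omega
  · by_cases h : (t + sg ty i) % 2 = 0
    · have := z3_high_le (ord := ord) hty ht h0 h
      omega
    · have := z3_low_le (ord := ord) hty ht h0 h
      omega

lemma z3_inj (hord : Function.Injective ord) (hty : TyOK n ty) {i j : Fin N} {t s : ℕ}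
    (ht : t < n i) (hs : s < n j) (h : z3 n ord ty i t = z3 n ord ty j s) : i = j ∧ t = s := by
  by_cases a0 : ty i = 2 ∧ t = 0 <;> by_cases b0 : ty j = 2 ∧ s = 0
  · rw [a0.2, b0.2, z3_top a0.1, z3_top b0.1] at h
    have c1 : t3 ty i = 1 := if_pos a0.1
    have c2 : t3 ty j = 1 := if_pos b0.1
    rcases lt_trichotomy (ord i) (ord j) with hlt | hlt | hlt
    · have := pre_le ord (t3 ty) hlt
      omega
    · exact ⟨hord hlt, by rw [a0.2, b0.2]⟩
    · have := pre_le ord (t3 ty) hlt
      omega
  · rw [a0.2, z3_top a0.1] at h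
    by_cases h2 : (s + sg ty j) % 2 = 0
    · have := z3_high_le (ord := ord) hty hs b0 h2
      omega
    · have := z3_low_le (ord := ord) hty hs b0 h2
      omega
  · rw [b0.2, z3_top b0.1] at h
    by_cases h1 : (t + sg ty i) % 2 = 0
    · have := z3_high_le (ord := ord) hty ht a0 h1
      omega
    · have := z3_low_le (ord := ord) hty ht a0 h1
      omega
  · by_cases h1 : (t + sg ty i) % 2 = 0 <;> by_cases h2 : (s + sg ty j) % 2 = 0
    · have k1 := z3_high (ord := ord) hty ht a0 h1
      have k2 := z3_high (ord := ord) hty hs b0 h2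
      rcases lt_trichotomy (ord i) (ord j) with hlt | hlt | hlt
      · have := pre_le ord (h3 n) hlt
        omega
      · have := hord hlt
        subst this
        refine ⟨rfl, ?_⟩
        have k3 : sg ty i = if ty i = 0 then 0 else 1 := rfl
        split_ifs at k3 <;> omega
      · have := pre_le ord (h3 n) hlt
        omega
    · have k1 := z3_high (ord := ord) hty ht a0 h1
      have k2 := z3_low_le (ord := ord) hty hs b0 h2
      omega
    · have k1 := z3_high (ord := ord) hty hs b0 h2
      have k2 := z3_low_le (ord := ord) hty ht a0 h1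
      omega
    · have k1 := z3_low (ord := ord) hty ht a0 h1
      have k2 := z3_low (ord := ord) hty hs b0 h2
      rcases lt_trichotomy (ord i) (ord j) with hlt | hlt | hlt
      · have := pre_le ord (l3 n ty) hlt
        omega
      · have := hord hlt
        subst this
        refine ⟨rfl, ?_⟩
        have k3 : sg ty i = if ty i = 0 then 0 else 1 := rfl
        split_ifs at k3 <;> omega
      · have := pre_le ord (l3 n ty) hlt
        omega

/-- sum of two consecutive labels which do not include a top label -/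
lemma z3_sum (hty : TyOK n ty) {i : Fin N} {t : ℕ} (ht : t + 1 < n i)
    (h0 : ¬ (ty i = 2 ∧ t = 0)) :
    z3 n ord ty i t + z3 n ord ty i (t + 1) + t3 ty i =
      SL n ty + pre ord (l3 n ty) i + pre ord (h3 n) i + t + 2 := by
  have h0' : ¬ (ty i = 2 ∧ t + 1 = 0) := fun h => by omega
  have k3 : sg ty i = if ty i = 0 then 0 else 1 := rfl
  have k4 : t3 ty i = if ty i = 2 then 1 else 0 := rfl
  by_cases h1 : (t + sg ty i) % 2 = 0
  · have a1 := z3_high (ord := ord) hty (by omega : t < n i) h0 h1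
    have a2 := z3_low (ord := ord) hty ht h0' (by omega)
    split_ifs at k3 k4 <;> omega
  · have a1 := z3_low (ord := ord) hty (by omega : t < n i) h0 h1
    have a2 := z3_high (ord := ord) hty ht h0' (by omega)
    split_ifs at k3 k4 <;> omega

/-- the sum next to a top label -/
lemma z3_sum_top (hty : TyOK n ty) {i : Fin N} (h : ty i = 2) :
    z3 n ord ty i 0 + z3 n ord ty i 1 =
      SL n ty + SH n + pre ord (t3 ty) i + 1 + (SL n ty + pre ord (h3 n) i + 1) := by
  rw [z3_top h]
  have h1 := hty.three i h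
  have k3 : sg ty i = 1 := if_neg (by omega)
  have a1 := z3_high (ord := ord) hty (by omega : 1 < n i) (fun hh => by omega)
    (by rw [k3] : (1 + sg ty i) % 2 = 0)
  rw [k3] at a1
  omega

lemma z3_sum_inj (hord : Function.Injective ord) (hty : TyOK n ty) {i j : Fin N} {t s : ℕ}
    (ht : t + 1 < n i) (hs : s + 1 < n j)
    (h : z3 n ord ty i t + z3 n ord ty i (t + 1) = z3 n ord ty j s + z3 n ord ty j (s + 1)) :
    i = j ∧ t = s := by
  have hi := n_eq3 hty i
  have hj := n_eq3 hty j
  have pi1 := pre_tot ord (l3 n ty) i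
  have pi2 := pre_tot ord (h3 n) i
  have pj1 := pre_tot ord (l3 n ty) j
  have pj2 := pre_tot ord (h3 n) j
  have d1 : SL n ty = ∑ i, l3 n ty i := rfl
  have d2 : SH n = ∑ i, h3 n i := rfl
  by_cases a0 : ty i = 2 ∧ t = 0 <;> by_cases b0 : ty j = 2 ∧ s = 0
  · rw [a0.2, b0.2, zero_add, z3_sum_top hty a0.1, z3_sum_top hty b0.1] at h
    have c1 : t3 ty i = 1 := if_pos a0.1
    have c2 : t3 ty j = 1 := if_pos b0.1
    rcases lt_trichotomy (ord i) (ord j) with h3' | h3' | h3'
    · have := pre_le ord (t3 ty) h3'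
      have := pre_le ord (h3 n) h3'
      omega
    · exact ⟨hord h3', by rw [a0.2, b0.2]⟩
    · have := pre_le ord (t3 ty) h3'
      have := pre_le ord (h3 n) h3'
      omega
  · have c1 := z3_sum (ord := ord) hty hs b0
    rw [a0.2, zero_add, z3_sum_top hty a0.1] at h
    omega
  · have c1 := z3_sum (ord := ord) hty ht a0
    rw [b0.2, zero_add, z3_sum_top hty b0.1] at h
    omega
  · have c1 := z3_sum (ord := ord) hty ht a0
    have c2 := z3_sum (ord := ord) hty hs b0
    rcases lt_trichotomy (ord i) (ord j) with h3' | h3' | h3'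
    · have := pre_le ord (l3 n ty) h3'
      have := pre_le ord (h3 n) h3'
      have k4 : t3 ty j = if ty j = 2 then 1 else 0 := rfl
      split_ifs at k4 <;> omega
    · have := hord h3'
      subst this
      exact ⟨rfl, by omega⟩
    · have := pre_le ord (l3 n ty) h3'
      have := pre_le ord (h3 n) h3'
      have k4 : t3 ty i = if ty i = 2 then 1 else 0 := rfl
      split_ifs at k4 <;> omega

lemma z3_sum_ge (hty : TyOK n ty) {i : Fin N} {t : ℕ} (ht : t + 1 < n i) :
    SL n ty + 2 ≤ z3 n ord ty i t + z3 n ord ty i (t + 1) := by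
  by_cases a0 : ty i = 2 ∧ t = 0
  · rw [a0.2, zero_add, z3_sum_top hty a0.1]
    omega
  · have c1 := z3_sum (ord := ord) hty ht a0
    have k4 : t3 ty i = if ty i = 2 then 1 else 0 := rfl
    split_ifs at k4 <;> omega

lemma z3_sum_le (hty : TyOK n ty) (H1 : ℕ) (hH : ∀ i, ty i = 2 → pre ord (h3 n) i + 1 ≤ H1)
    {i : Fin N} {t : ℕ} (ht : t + 1 < n i) :
    z3 n ord ty i t + z3 n ord ty i (t + 1) ≤ 2 * SL n ty + SH n + ST ty + H1 := by
  have hi := n_eq3 hty i
  have pi1 := pre_tot ord (l3 n ty) i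
  have pi2 := pre_tot ord (h3 n) i
  have d1 : SL n ty = ∑ i, l3 n ty i := rfl
  have d2 : SH n = ∑ i, h3 n i := rfl
  by_cases a0 : ty i = 2 ∧ t = 0
  · rw [a0.2, zero_add, z3_sum_top hty a0.1]
    have h1 := pre_tot ord (t3 ty) i
    have h2 : ST ty = ∑ i, t3 ty i := rfl
    have h3 : t3 ty i = 1 := if_pos a0.1
    have h4 := hH i a0.1
    omega
  · have c1 := z3_sum (ord := ord) hty ht a0
    omega

/-- a leaf edge has a small label -/
lemma z3_leaf (hty : TyOK n ty) {i : Fin N} {t : ℕ} (ht : t + 1 = n i) :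
    z3 n ord ty i t ≤ SL n ty := by
  have k0 := hty.le i
  have k1 := hty.even i
  have k2 := hty.odd i
  have k5 := hty.three i
  have k3 : sg ty i = if ty i = 0 then 0 else 1 := rfl
  apply z3_low_le hty (by omega)
  · rintro ⟨h1, h2⟩
    have := k5 h1
    omega
  · split_ifs at k3 <;> omega

lemma SL_pos (hty : TyOK n ty) (i : Fin N) : 1 ≤ SL n ty := by
  have h0 := hty.pos i
  have h1 := z3_leaf (ord := fun _ => 0) hty (by omega : n i - 1 + 1 = n i)
  have h2 := z3_pos (ord := fun _ => 0) hty (by omega : n i - 1 < n i)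
  omega

end tri

/-- the labeling is good under three conditions -/
theorem good_tri {N : ℕ} {α : Type*} [DecidableEq α] (n ord ty : Fin N → ℕ) (cen : Fin N → α)
    (k : ℤ) (hk : -1 ≤ k) (hord : Function.Injective ord) (hty : TyOK n ty)
    (hone : ∀ i, n i = 1 → ∃ j, j ≠ i ∧ cen j = cen i)
    (hsingle : ∀ j, (∀ j', cen j' = cen j → j' = j) → (z3 n ord ty j 0 : ℤ) ≤ SL n ty + k + 1)
    (H1 : ℕ) (hH : ∀ i, ty i = 2 → pre ord (h3 n) i + 1 ≤ H1)
    (hroot : ∀ i j, (∃ i', i' ≠ i ∧ cen i' = cen i) → (∃ j', j' ≠ j ∧ cen j' = cen j) →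
      rs cen (fun i t => k + z3 n ord ty i t) (cen i) =
        rs cen (fun i t => k + z3 n ord ty i t) (cen j) → cen i = cen j)
    (hbig : ∀ j, (∃ j', j' ≠ j ∧ cen j' = cen j) →
      2 * k + ((2 * SL n ty + SH n + ST ty + H1 : ℕ) : ℤ) <
        rs cen (fun i t => k + z3 n ord ty i t) (cen j)) :
    Good n cen k (fun i t => k + z3 n ord ty i t) := by
  have hvs : ∀ i t, vs n (fun i t => k + (z3 n ord ty i t : ℤ)) i t =
      if t + 1 < n i then 2 * k + ((z3 n ord ty i t + z3 n ord ty i (t + 1) : ℕ) : ℤ)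
      else k + z3 n ord ty i t := by
    intro i t
    unfold vs
    split_ifs
    · push_cast
      ring
    · rfl
  have hinj : ∀ i j t s, t < n i → s < n j → k + (z3 n ord ty i t : ℤ) = k + z3 n ord ty j s →
      i = j ∧ t = s := by
    intro i j t s ht hs h
    exact z3_inj hord hty ht hs (by omega)
  have hrs1 : ∀ j, (∀ j', cen j' = cen j → j' = j) →
      rs cen (fun i t => k + (z3 n ord ty i t : ℤ)) (cen j) = k + z3 n ord ty j 0 := by
    intro j hex
    unfold rs
    have : (univ.filter fun x => cen x = cen j) = {j} := by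
      ext x
      simp only [mem_filter, mem_univ, true_and, mem_singleton]
      constructor
      · exact hex x
      · rintro rfl
        rfl
    rw [this, sum_singleton]
  have hsl := hsingle
  have hdich : ∀ j, (∃ j', j' ≠ j ∧ cen j' = cen j) ∨ (∀ j', cen j' = cen j → j' = j) := by
    intro j
    by_cases hex : ∃ j', j' ≠ j ∧ cen j' = cen j
    · exact Or.inl hex
    · right
      intro j' hj'
      by_contra hne
      exact hex ⟨j', hne, hj'⟩
  refine ⟨?_, ?_, hinj, ?_, ?_, ?_⟩
  · intro i t ht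
    have := z3_pos (ord := ord) hty ht
    show k < k + (z3 n ord ty i t : ℤ)
    omega
  · intro i t ht
    have := z3_le (ord := ord) hty ht
    show k + (z3 n ord ty i t : ℤ) ≤ _
    omega
  · intro i j t s ht hs h
    rw [hvs, hvs] at h
    split_ifs at h with h1 h2 h2
    · exact z3_sum_inj hord hty h1 h2 (by omega)
    · have k1 := z3_sum_ge (ord := ord) hty h1
      have k2 := z3_leaf (ord := ord) hty (by omega : s + 1 = n j)
      omega
    · have k1 := z3_sum_ge (ord := ord) hty h2
      have k2 := z3_leaf (ord := ord) hty (by omega : t + 1 = n i)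
      omega
    · exact hinj i j t s ht hs h
  · intro i j h
    rcases hdich i with hi | hi <;> rcases hdich j with hj | hj
    · exact hroot i j hi hj h
    · have h1 := hbig i hi
      rw [h, hrs1 j hj] at h1
      have h2 := hsl j hj
      have h3 := z3_pos (ord := ord) hty (hty.pos j)
      have h4 := SL_pos hty j
      push_cast at h1
      omega
    · have h1 := hbig j hj
      rw [← h, hrs1 i hi] at h1
      have h2 := hsl i hi
      have h3 := z3_pos (ord := ord) hty (hty.pos i)
      have h4 := SL_pos hty i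
      push_cast at h1
      omega
    · rw [hrs1 i hi, hrs1 j hj] at h
      rw [(hinj i j 0 0 (hty.pos i) (hty.pos j) h).1]
  · intro i j t ht h
    rw [hvs] at h
    rcases hdich j with hj | hj
    · have k0 := hbig j hj
      split_ifs at h with h1
      · have k1 := z3_sum_le (ord := ord) hty H1 hH h1
        omega
      · have k1 := z3_leaf (ord := ord) hty (by omega : t + 1 = n i)
        have k2 := z3_pos (ord := ord) hty ht
        omega
    · rw [hrs1 j hj] at h
      have h2 := hsl j hj
      split_ifs at h with h1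
      · have k1 := z3_sum_ge (ord := ord) hty h1
        omega
      · obtain ⟨h2, h3⟩ := hinj i j t 0 ht (hty.pos j) h
        subst h2
        obtain ⟨j', hj', hcj'⟩ := hone i (by omega)
        exact hj' (hj j' hcj')

end Pool.SpC75
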