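import Pool.Agent.SpC75.Label

/-!
# SpC75/Zig (MP_9fc547_co)

The zigzag labeling: along every leg small and large labels alternate; the legs are processed one after
the other.  The sums at the inner vertices of the legs are `2 k + L + M` with pairwise different
`M` between `2` and `m`, where `L` is the number of small labels.
-/

namespace Pool.SpC75

open Finset Pool.SpA

section pre

variable {N : ℕ}

/-- sum of `g` over the legs before leg `i` -/
def pre (ord : Fin N → ℕ) (g : Fin N → ℕ) (i : Fin N) : ℕ :=
  ∑ j ∈ univ.filter (fun j => ord j < ord i), g j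

lemma pre_le (ord g : Fin N → ℕ) {i j : Fin N} (h : ord j < ord i) :
    pre ord g j + g j ≤ pre ord g i := by
  have h1 : insert j (univ.filter (fun l => ord l < ord j)) ⊆
      univ.filter (fun l => ord l < ord i) := by
    intro l hl
    rw [mem_insert, mem_filter] at hl
    rw [mem_filter]
    refine ⟨mem_univ _, ?_⟩
    rcases hl with rfl | hl
    · exact h
    · exact hl.2.trans h
  have h2 := Finset.sum_le_sum_of_subset (f := g) h1
  rw [sum_insert (by simp)] at h2
  unfold pre
  omega

lemma pre_mono (ord g : Fin N → ℕ) {i j : Fin N} (h : ord j ≤ ord i) :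
    pre ord g j ≤ pre ord g i := by
  unfold pre
  apply Finset.sum_le_sum_of_subset
  intro l hl
  rw [mem_filter] at hl ⊢
  exact ⟨hl.1, lt_of_lt_of_le hl.2 h⟩

lemma pre_tot (ord g : Fin N → ℕ) (i : Fin N) : pre ord g i + g i ≤ ∑ j, g j := by
  have h1 : insert i (univ.filter (fun l => ord l < ord i)) ⊆ univ := subset_univ _
  have h2 := Finset.sum_le_sum_of_subset (f := g) h1
  rw [sum_insert (by simp)] at h2
  unfold pre
  omega

end pre

section zig

variable {N : ℕ} (n ord ty : Fin N → ℕ)

/-- number of small labels on leg `i` -/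
def lc (i : Fin N) : ℕ := (n i + ty i) / 2

/-- number of large labels on leg `i` -/
def hc (i : Fin N) : ℕ := (n i + 1 - ty i) / 2

/-- number of small labels -/
def LL : ℕ := ∑ i, lc n ty i

/-- the labels (minus `k`) of the zigzag labeling -/
def zo (i : Fin N) (t : ℕ) : ℕ :=
  if (t + ty i) % 2 = 0 then LL n ty + pre ord (hc n ty) i + (t + 2 - ty i) / 2
  else pre ord (lc n ty) i + (t + 1 + ty i) / 2

variable {n ord ty}

lemma lc_add_hc (hty : ∀ i, ty i ≤ 1) (i : Fin N) : lc n ty i + hc n ty i = n i := by
  have := hty i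
  unfold lc hc
  omega

lemma LL_add (hty : ∀ i, ty i ≤ 1) : LL n ty + ∑ i, hc n ty i = ∑ i, n i := by
  unfold LL
  rw [← sum_add_distrib]
  exact sum_congr rfl fun i _ => lc_add_hc hty i

lemma pre_add (hty : ∀ i, ty i ≤ 1) (i : Fin N) :
    pre ord (lc n ty) i + pre ord (hc n ty) i = pre ord n i := by
  unfold pre
  rw [← sum_add_distrib]
  exact sum_congr rfl fun i _ => lc_add_hc hty i

lemma zo_high (hty : ∀ i, ty i ≤ 1) {i : Fin N} {t : ℕ} (ht : t < n i) (h : (t + ty i) % 2 = 0) :
    LL n ty + pre ord (hc n ty) i + 1 ≤ zo n ord ty i t ∧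
      zo n ord ty i t ≤ LL n ty + pre ord (hc n ty) i + hc n ty i := by
  have := hty i
  unfold zo
  rw [if_pos h]
  have : hc n ty i = (n i + 1 - ty i) / 2 := rfl
  omega

lemma zo_low (hty : ∀ i, ty i ≤ 1) {i : Fin N} {t : ℕ} (ht : t < n i) (h : (t + ty i) % 2 ≠ 0) :
    pre ord (lc n ty) i + 1 ≤ zo n ord ty i t ∧
      zo n ord ty i t ≤ pre ord (lc n ty) i + lc n ty i := by
  have := hty i
  unfold zo
  rw [if_neg h]
  have : lc n ty i = (n i + ty i) / 2 := rfl
  omega

lemma zo_sum (hty : ∀ i, ty i ≤ 1) (i : Fin N) (t : ℕ) :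
    zo n ord ty i t + zo n ord ty i (t + 1) = LL n ty + pre ord n i + t + 2 := by
  have h1 := hty i
  have h2 := pre_add (n := n) (ord := ord) hty i
  unfold zo
  split_ifs with h3 h4 h4 <;> omega

lemma zo_pos (hty : ∀ i, ty i ≤ 1) {i : Fin N} {t : ℕ} (ht : t < n i) : 1 ≤ zo n ord ty i t := by
  by_cases h : (t + ty i) % 2 = 0
  · have := zo_high (ord := ord) hty ht h
    omega
  · have := zo_low (ord := ord) hty ht h
    omega

lemma zo_low_le (hty : ∀ i, ty i ≤ 1) {i : Fin N} {t : ℕ} (ht : t < n i)
    (h : (t + ty i) % 2 ≠ 0) : zo n ord ty i t ≤ LL n ty := by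
  have h1 := zo_low (ord := ord) hty ht h
  have h2 := pre_tot ord (lc n ty) i
  unfold LL
  omega

lemma zo_le (hty : ∀ i, ty i ≤ 1) {i : Fin N} {t : ℕ} (ht : t < n i) :
    zo n ord ty i t ≤ ∑ i, n i := by
  have h0 := LL_add (n := n) hty
  by_cases h : (t + ty i) % 2 = 0
  · have h1 := zo_high (ord := ord) hty ht h
    have h2 := pre_tot ord (hc n ty) i
    omega
  · have h1 := zo_low_le (ord := ord) hty ht h
    omega

lemma zo_inj (hord : Function.Injective ord) (hty : ∀ i, ty i ≤ 1) {i j : Fin N} {t s : ℕ}
    (ht : t < n i) (hs : s < n j) (h : zo n ord ty i t = zo n ord ty j s) : i = j ∧ t = s := by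
  have hi := hty i
  have hj := hty j
  by_cases h1 : (t + ty i) % 2 = 0 <;> by_cases h2 : (s + ty j) % 2 = 0
  · have k1 := zo_high (ord := ord) hty ht h1
    have k2 := zo_high (ord := ord) hty hs h2
    rcases lt_trichotomy (ord i) (ord j) with h3 | h3 | h3
    · have := pre_le ord (hc n ty) h3
      omega
    · have := hord h3
      subst this
      refine ⟨rfl, ?_⟩
      unfold zo at h
      rw [if_pos h1, if_pos h2] at h
      omega
    · have := pre_le ord (hc n ty) h3
      omega
  · have k1 := zo_high (ord := ord) hty ht h1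
    have k2 := zo_low_le (ord := ord) hty hs h2
    omega
  · have k1 := zo_high (ord := ord) hty hs h2
    have k2 := zo_low_le (ord := ord) hty ht h1
    omega
  · have k1 := zo_low (ord := ord) hty ht h1
    have k2 := zo_low (ord := ord) hty hs h2
    rcases lt_trichotomy (ord i) (ord j) with h3 | h3 | h3
    · have := pre_le ord (lc n ty) h3
      omega
    · have := hord h3
      subst this
      refine ⟨rfl, ?_⟩
      unfold zo at h
      rw [if_neg h1, if_neg h2] at h
      omega
    · have := pre_le ord (lc n ty) h3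
      omega

lemma zo_sum_inj (hord : Function.Injective ord) (hty : ∀ i, ty i ≤ 1) {i j : Fin N} {t s : ℕ}
    (ht : t + 1 < n i) (hs : s + 1 < n j)
    (h : zo n ord ty i t + zo n ord ty i (t + 1) = zo n ord ty j s + zo n ord ty j (s + 1)) :
    i = j ∧ t = s := by
  rw [zo_sum hty, zo_sum hty] at h
  rcases lt_trichotomy (ord i) (ord j) with h3 | h3 | h3
  · have := pre_le ord n h3
    omega
  · have := hord h3
    subst this
    exact ⟨rfl, by omega⟩
  · have := pre_le ord n h3
    omega

lemma zo_sum_ge (hty : ∀ i, ty i ≤ 1) (i : Fin N) (t : ℕ) :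
    LL n ty + 2 ≤ zo n ord ty i t + zo n ord ty i (t + 1) := by
  rw [zo_sum hty]
  omega

lemma zo_sum_le (hty : ∀ i, ty i ≤ 1) {i : Fin N} {t : ℕ} (ht : t + 1 < n i) :
    zo n ord ty i t + zo n ord ty i (t + 1) ≤ LL n ty + ∑ i, n i := by
  rw [zo_sum hty]
  have := pre_tot ord n i
  omega

end zig

/-- the zigzag labeling is good under four conditions -/
theorem good_zig {N : ℕ} {α : Type*} [DecidableEq α] (n ord ty : Fin N → ℕ) (cen : Fin N → α)
    (k : ℤ) (hord : Function.Injective ord) (hty : ∀ i, ty i ≤ 1)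
    (hone : ∀ i, n i = 1 → ∃ j, j ≠ i ∧ cen j = cen i) (hpos : ∀ i, 1 ≤ n i)
    (hkL : 0 ≤ k + LL n ty)
    (hend : ∀ j s, s < n j → (s + 1 = n j ∨ (s = 0 ∧ ∀ j', cen j' = cen j → j' = j)) →
      (zo n ord ty j s : ℤ) < k + LL n ty + 2)
    (hroot : ∀ i j, cen i ≠ cen j → ord i < ord j →
      rs cen (fun i t => k + zo n ord ty i t) (cen i) < rs cen (fun i t => k + zo n ord ty i t) (cen j))
    (hbig : ∀ j, (∃ j', j' ≠ j ∧ cen j' = cen j) →
      2 * k + LL n ty + (∑ i, n i : ℕ) < rs cen (fun i t => k + zo n ord ty i t) (cen j)) :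
    Good n cen k (fun i t => k + zo n ord ty i t) := by
  have hvs : ∀ i t, vs n (fun i t => k + (zo n ord ty i t : ℤ)) i t =
      if t + 1 < n i then 2 * k + ((zo n ord ty i t + zo n ord ty i (t + 1) : ℕ) : ℤ)
      else k + zo n ord ty i t := by
    intro i t
    unfold vs
    split_ifs
    · push_cast
      ring
    · rfl
  have hinj : ∀ i j t s, t < n i → s < n j → k + (zo n ord ty i t : ℤ) = k + zo n ord ty j s →
      i = j ∧ t = s := by
    intro i j t s ht hs h
    exact zo_inj hord hty ht hs (by omega)
  refine ⟨?_, ?_, hinj, ?_, ?_, ?_⟩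
  · intro i t ht
    have := zo_pos (ord := ord) hty ht
    show k < k + (zo n ord ty i t : ℤ)
    omega
  · intro i t ht
    have := zo_le (ord := ord) hty ht
    show k + (zo n ord ty i t : ℤ) ≤ _
    omega
  · intro i j t s ht hs h
    rw [hvs, hvs] at h
    split_ifs at h with h1 h2 h2
    · exact zo_sum_inj hord hty h1 h2 (by omega)
    · have k1 := zo_sum_ge (n := n) (ord := ord) hty i t
      have k2 := hend j s hs (Or.inl (by omega))
      omega
    · have k1 := zo_sum_ge (n := n) (ord := ord) hty j s
      have k2 := hend i t ht (Or.inl (by omega))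
      omega
    · exact hinj i j t s ht hs h
  · intro i j h
    by_contra hc
    rcases lt_trichotomy (ord i) (ord j) with h2 | h2 | h2
    · have := hroot i j hc h2
      omega
    · exact hc (by rw [hord h2])
    · have := hroot j i (Ne.symm hc) h2
      omega
  · intro i j t ht h
    rw [hvs] at h
    by_cases hex : ∃ j', j' ≠ j ∧ cen j' = cen j
    · have k0 := hbig j hex
      split_ifs at h with h1
      · have k1 := zo_sum_le (ord := ord) hty h1
        omega
      · have k1 := zo_le (ord := ord) hty ht
        omega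
    · push Not at hex
      have hrs : rs cen (fun i t => k + (zo n ord ty i t : ℤ)) (cen j) = k + zo n ord ty j 0 := by
        unfold rs
        have : (univ.filter fun x => cen x = cen j) = {j} := by
          ext x
          simp only [mem_filter, mem_univ, true_and, mem_singleton]
          constructor
          · intro hx
            by_contra hne
            exact hex x hne hx
          · rintro rfl
            rfl
        rw [this, sum_singleton]
      rw [hrs] at h
      split_ifs at h with h1
      · have k1 := zo_sum_ge (n := n) (ord := ord) hty i t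
        have k2 := hend j 0 (hpos j) (Or.inr ⟨rfl, fun j' hj' => by
          by_contra hne
          exact hex j' hne hj'⟩)
        omega
      · obtain ⟨h2, h3⟩ := hinj i j t 0 ht (hpos j) h
        subst h2
        have h4 : n i = 1 := by
          have := hpos i
          omega
        obtain ⟨j', hj', hcj'⟩ := hone i h4
        exact hex j' hj' hcj'

/-- number of legs at the root of leg `i` whose label at the root is large -/
def bb {N : ℕ} {α : Type*} [DecidableEq α] (cen : Fin N → α) (ty : Fin N → ℕ) (i : Fin N) : ℕ :=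
  (univ.filter fun j => cen j = cen i ∧ ty j = 0).card

/-- the sums at the roots increase -/
theorem root_lt {N : ℕ} {α : Type*} [DecidableEq α] (n ord ty : Fin N → ℕ) (cen : Fin N → α)
    (k : ℤ) (hty : ∀ i, ty i ≤ 1) (hpos : ∀ i, 1 ≤ n i) (hk : -1 ≤ k) (i j : Fin N)
    (hblock : ∀ i' j', cen i' = cen i → cen j' = cen j → ord i' < ord j')
    (hd : dg cen i ≤ dg cen j) (hb : bb cen ty i ≤ bb cen ty j) :
    rs cen (fun i t => k + zo n ord ty i t) (cen i) <
      rs cen (fun i t => k + zo n ord ty i t) (cen j) := by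
  obtain ⟨j0, hj0, hmin⟩ := Finset.exists_min_image (univ.filter fun l => cen l = cen j)
    (fun l => ord l) ⟨j, by simp⟩
  have hj0' : cen j0 = cen j := (mem_filter.1 hj0).2
  set X : ℤ := k + LL n ty + pre ord (hc n ty) j0 with hX
  set Y : ℤ := k + pre ord (lc n ty) j0 with hY
  have hXY : 0 ≤ X - Y := by
    have := pre_tot ord (lc n ty) j0
    have h2 : LL n ty = ∑ j, lc n ty j := rfl
    omega
  have hY0 : 0 ≤ Y + 1 := by omega
  have hsum : ∀ l : Fin N, ∑ a ∈ univ.filter (fun a => cen a = cen l),
      (Y + if ty a = 0 then X - Y else 0) = dg cen l * Y + bb cen ty l * (X - Y) := by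
    intro l
    rw [sum_add_distrib, sum_const, ← sum_filter, sum_const, filter_filter, nsmul_eq_mul,
      nsmul_eq_mul]
    rfl
  have h1 : rs cen (fun i t => k + (zo n ord ty i t : ℤ)) (cen i) ≤
      dg cen i * Y + bb cen ty i * (X - Y) := by
    rw [← hsum i]
    unfold rs
    apply sum_le_sum
    intro a ha
    have ha' : cen a = cen i := (mem_filter.1 ha).2
    have hlt := hblock a j0 ha' hj0'
    show k + (zo n ord ty a 0 : ℤ) ≤ _
    by_cases hta : ty a = 0
    · rw [if_pos hta]
      have k1 := zo_high (ord := ord) hty (hpos a) (by rw [hta] : (0 + ty a) % 2 = 0)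
      have k2 := pre_le ord (hc n ty) hlt
      omega
    · rw [if_neg hta]
      have k1 := zo_low (ord := ord) hty (hpos a) (by have := hty a; omega : (0 + ty a) % 2 ≠ 0)
      have k2 := pre_le ord (lc n ty) hlt
      omega
  have h2 : dg cen j * Y + bb cen ty j * (X - Y) + dg cen j ≤
      rs cen (fun i t => k + (zo n ord ty i t : ℤ)) (cen j) := by
    have h3 : ∑ a ∈ univ.filter (fun a => cen a = cen j),
      ((Y + if ty a = 0 then X - Y else 0) + 1) =
        dg cen j * Y + bb cen ty j * (X - Y) + dg cen j := by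
      rw [sum_add_distrib, hsum j, sum_const, nsmul_eq_mul, mul_one]
      rfl
    rw [← h3]
    unfold rs
    apply sum_le_sum
    intro a ha
    have hle : ord j0 ≤ ord a := hmin a ha
    show _ ≤ k + (zo n ord ty a 0 : ℤ)
    by_cases hta : ty a = 0
    · rw [if_pos hta]
      have k1 := zo_high (ord := ord) hty (hpos a) (by rw [hta] : (0 + ty a) % 2 = 0)
      have k2 := pre_mono ord (hc n ty) hle
      omega
    · rw [if_neg hta]
      have k1 := zo_low (ord := ord) hty (hpos a) (by have := hty a; omega : (0 + ty a) % 2 ≠ 0)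
      have k2 := pre_mono ord (lc n ty) hle
      omega
  have h4 : (1 : ℤ) ≤ dg cen i := by
    have : 0 < dg cen i := by
      unfold dg
      rw [card_pos]
      exact ⟨i, by simp⟩
    exact_mod_cast this
  have h5 : (0 : ℤ) ≤ ((dg cen j : ℤ) - dg cen i) * (Y + 1) :=
    mul_nonneg (by have : (dg cen i : ℤ) ≤ dg cen j := by exact_mod_cast hd
                   linarith) hY0
  have h6 : (0 : ℤ) ≤ ((bb cen ty j : ℤ) - bb cen ty i) * (X - Y) :=
    mul_nonneg (by have : (bb cen ty i : ℤ) ≤ bb cen ty j := by exact_mod_cast hb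
                   linarith) hXY
  nlinarith

end Pool.SpC75
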