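import Pool.Agent.SpC75.Zig

/-!
# SpC75/Zig2 (MP_9fc547_co)

A second version of the criterion for the zigzag labeling; two lemmas on finite sets.
-/

namespace Pool.SpC75

open Finset Pool.SpA

/-- the zigzag labeling is good if all labels are smaller than all inner sums and the root sums are large
and different -/
theorem good_zig2 {N : ℕ} {α : Type*} [DecidableEq α] (n ord ty : Fin N → ℕ) (cen : Fin N → α)
    (k : ℤ) (hk : 0 ≤ k) (hord : Function.Injective ord) (hty : ∀ i, ty i ≤ 1)
    (hone : ∀ i, n i = 1 → ∃ j, j ≠ i ∧ cen j = cen i) (hpos : ∀ i, 1 ≤ n i)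
    (hm : ((∑ i, n i : ℕ) : ℤ) ≤ k + LL n ty + 1)
    (hroot : ∀ i j, (∃ i', i' ≠ i ∧ cen i' = cen i) → (∃ j', j' ≠ j ∧ cen j' = cen j) →
      rs cen (fun i t => k + zo n ord ty i t) (cen i) =
        rs cen (fun i t => k + zo n ord ty i t) (cen j) → cen i = cen j)
    (hbig : ∀ j, (∃ j', j' ≠ j ∧ cen j' = cen j) →
      2 * k + LL n ty + (∑ i, n i : ℕ) < rs cen (fun i t => k + zo n ord ty i t) (cen j)) :
    Good n cen k (fun i t => k + zo n ord ty i t) := by
  have hvs : ∀ i t, vs n (fun i t => k + (zo n ord ty i t : ℤ)) i t =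
      if t + 1 < n i then 2 * k + ((zo n ord ty i t + zo n ord ty i (t + 1) : ℕ) : ℤ)
      else k + zo n ord ty i t := by
    intro i t
    unfold vs
    split_ifs
    · push_cast
      ring
    · rfl
  have hinj : ∀ i j t s, t < n i → s < n j → k + (zo n ord ty i t : ℤ) = k + zo n ord ty j s →
      i = j ∧ t = s := by
    intro i j t s ht hs h
    exact zo_inj hord hty ht hs (by omega)
  have hdich : ∀ j, (∃ j', j' ≠ j ∧ cen j' = cen j) ∨ (∀ j', cen j' = cen j → j' = j) := by
    intro j
    by_cases hex : ∃ j', j' ≠ j ∧ cen j' = cen j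
    · exact Or.inl hex
    · right
      intro j' hj'
      by_contra hne
      exact hex ⟨j', hne, hj'⟩
  have hrs1 : ∀ j, (∀ j', cen j' = cen j → j' = j) →
      rs cen (fun i t => k + (zo n ord ty i t : ℤ)) (cen j) = k + zo n ord ty j 0 := by
    intro j hex
    unfold rs
    have : (univ.filter fun x => cen x = cen j) = {j} := by
      ext x
      simp only [mem_filter, mem_univ, true_and, mem_singleton]
      constructor
      · exact hex x
      · rintro rfl
        rfl
    rw [this, sum_singleton]
  refine ⟨?_, ?_, hinj, ?_, ?_, ?_⟩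
  · intro i t ht
    have := zo_pos (ord := ord) hty ht
    show k < k + (zo n ord ty i t : ℤ)
    omega
  · intro i t ht
    have := zo_le (ord := ord) hty ht
    show k + (zo n ord ty i t : ℤ) ≤ _
    omega
  · intro i j t s ht hs h
    rw [hvs, hvs] at h
    split_ifs at h with h1 h2 h2
    · exact zo_sum_inj hord hty h1 h2 (by omega)
    · have k1 := zo_sum_ge (n := n) (ord := ord) hty i t
      have k2 := zo_le (ord := ord) hty hs
      omega
    · have k1 := zo_sum_ge (n := n) (ord := ord) hty j s
      have k2 := zo_le (ord := ord) hty ht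
      omega
    · exact hinj i j t s ht hs h
  · intro i j h
    rcases hdich i with hi | hi <;> rcases hdich j with hj | hj
    · exact hroot i j hi hj h
    · have h1 := hbig i hi
      rw [h, hrs1 j hj] at h1
      have h2 := zo_le (ord := ord) hty (hpos j)
      omega
    · have h1 := hbig j hj
      rw [← h, hrs1 i hi] at h1
      have h2 := zo_le (ord := ord) hty (hpos i)
      omega
    · rw [hrs1 i hi, hrs1 j hj] at h
      rw [(hinj i j 0 0 (hpos i) (hpos j) h).1]
  · intro i j t ht h
    rw [hvs] at h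
    rcases hdich j with hj | hj
    · have k0 := hbig j hj
      split_ifs at h with h1
      · have k1 := zo_sum_le (ord := ord) hty h1
        omega
      · have k1 := zo_le (ord := ord) hty ht
        omega
    · rw [hrs1 j hj] at h
      split_ifs at h with h1
      · have k1 := zo_sum_ge (n := n) (ord := ord) hty i t
        have k2 := zo_le (ord := ord) hty (hpos j)
        omega
      · obtain ⟨h2, h3⟩ := hinj i j t 0 ht (hpos j) h
        subst h2
        obtain ⟨j', hj', hcj'⟩ := hone i (by omega)
        exact hj' (hj j' hcj')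

lemma exists_half {ι : Type*} [DecidableEq ι] (B : Finset ι) (c : ι → ℕ) :
    ∃ L, L ⊆ B ∧ L.card = B.card / 2 ∧ ∑ i ∈ L, c i ≤ ∑ i ∈ B \ L, c i := by
  obtain ⟨L, hL, hmin⟩ := Finset.exists_min_image (powersetCard (B.card / 2) B)
    (fun L => ∑ i ∈ L, c i) (powersetCard_nonempty.2 (Nat.div_le_self _ _))
  rw [mem_powersetCard] at hL
  refine ⟨L, hL.1, hL.2, ?_⟩
  have h1 := card_sdiff_add_card_eq_card hL.1
  obtain ⟨L', hL', hc⟩ := Finset.exists_subset_card_eq
    (show B.card / 2 ≤ (B \ L).card by omega)
  exact (hmin L' (mem_powersetCard.2 ⟨hL'.trans sdiff_subset, hc⟩)).trans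
    (sum_le_sum_of_subset hL')

/-- choice of the special leg and of the legs with a large label at the root, in one component -/
lemma exists_cls {N : ℕ} (n : Fin N → ℕ) (S : Finset (Fin N)) (h3 : 3 ≤ S.card)
    (hpos : ∀ i, 1 ≤ n i) :
    ∃ s ∈ S, 2 * ((n s + 1) / 2) ≤ ∑ a ∈ S.erase s, n a ∧
      ((∃ H, H ⊆ S.erase s ∧ (2 ≤ H.card ∨ (4 ≤ S.card ∧ 1 ≤ H.card)) ∧
          ∑ a ∈ H, n a % 2 ≤ ∑ a ∈ S \ H, n a % 2) ∨
        ((∃ H, H ⊆ S.erase s ∧ H.card = 2 ∧ ∑ a ∈ H, n a % 2 ≤ ∑ a ∈ S \ H, n a % 2 + 1) ∧
          ∃ H, H ⊆ S.erase s ∧ H.card = 1 ∧ ∑ a ∈ H, n a % 2 + 1 ≤ ∑ a ∈ S \ H, n a % 2)) := by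
  obtain ⟨x, hx, hxmin⟩ := Finset.exists_min_image S n (card_pos.1 (by omega))
  obtain ⟨y, hy, hymin⟩ := Finset.exists_min_image (S.erase x) n
    (card_pos.1 (by rw [card_erase_of_mem hx]; omega))
  have hyS := mem_of_mem_erase hy
  have hyx : y ≠ x := (mem_erase.1 hy).1
  by_cases h4 : 4 ≤ S.card
  · refine ⟨x, hx, ?_, Or.inl ?_⟩
    · have h5 : (S.erase x).card • n x ≤ ∑ a ∈ S.erase x, n a :=
        card_nsmul_le_sum _ _ _ fun a ha => hxmin a (mem_of_mem_erase ha)
      rw [card_erase_of_mem hx, smul_eq_mul] at h5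
      have h6 : 3 * n x ≤ (S.card - 1) * n x := Nat.mul_le_mul_right _ (by omega)
      have := hpos x
      omega
    · by_cases he : ∃ a ∈ S.erase x, n a % 2 = 0
      · obtain ⟨a, ha, ha2⟩ := he
        refine ⟨{a}, by simpa using ha, Or.inr ⟨h4, by simp⟩, ?_⟩
        rw [sum_singleton, ha2]
        exact Nat.zero_le _
      · push Not at he
        refine ⟨{y}, by simpa using hy, Or.inr ⟨h4, by simp⟩, ?_⟩
        rw [sum_singleton]
        have hne : ((S.erase x).erase y).Nonempty := by
          rw [← card_pos, card_erase_of_mem hy, card_erase_of_mem hx]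
          omega
        obtain ⟨z, hz⟩ := hne
        rw [mem_erase, mem_erase] at hz
        have hz2 : n z % 2 = 1 := by
          have := he z (mem_erase.2 ⟨hz.2.1, hz.2.2⟩)
          omega
        have h6 : n z % 2 ≤ ∑ a ∈ S \ {y}, n a % 2 :=
          Finset.single_le_sum (f := fun a => n a % 2) (fun _ _ => Nat.zero_le _)
            (by rw [mem_sdiff, mem_singleton]; exact ⟨hz.2.2, hz.1⟩)
        omega
  · have hS3 : S.card = 3 := by omega
    have hne : ((S.erase x).erase y).Nonempty := by
      rw [← card_pos, card_erase_of_mem hy, card_erase_of_mem hx]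
      omega
    obtain ⟨z, hz⟩ := hne
    rw [mem_erase, mem_erase] at hz
    obtain ⟨hzy, hzx, hzS⟩ := hz
    have hset : S = {x, y, z} := by
      symm
      apply Finset.eq_of_subset_of_card_le
      · intro a ha
        simp only [mem_insert, mem_singleton] at ha
        rcases ha with rfl | rfl | rfl
        · exact hx
        · exact hyS
        · exact hzS
      · rw [hS3, card_insert_of_notMem (by
          simp only [mem_insert, mem_singleton, not_or]
          exact ⟨hyx.symm, hzx.symm⟩), card_insert_of_notMem (by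
          simp only [mem_singleton]
          exact hzy.symm), card_singleton]
    have nxy : n x ≤ n y := hxmin y hyS
    have nyz : n y ≤ n z := hymin z (mem_erase.2 ⟨hzx, hzS⟩)
    have px := hpos x
    -- sets and sums
    have ex : S.erase x = {y, z} := by
      rw [hset]
      ext a
      simp only [mem_erase, mem_insert, mem_singleton]
      constructor
      · rintro ⟨h1, h2⟩
        tauto
      · rintro (rfl | rfl)
        · exact ⟨hyx, by simp⟩
        · exact ⟨hzx, by simp⟩
    have ey : S.erase y = {x, z} := by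
      rw [hset]
      ext a
      simp only [mem_erase, mem_insert, mem_singleton]
      constructor
      · rintro ⟨h1, h2⟩
        tauto
      · rintro (rfl | rfl)
        · exact ⟨hyx.symm, by simp⟩
        · exact ⟨hzy, by simp⟩
    have dyz : S \ {y, z} = {x} := by
      rw [hset]
      ext a
      simp only [mem_sdiff, mem_insert, mem_singleton, not_or]
      constructor
      · rintro ⟨h1, h2, h3⟩
        tauto
      · rintro rfl
        exact ⟨Or.inl rfl, hyx.symm, hzx.symm⟩
    have dxz : S \ {x, z} = {y} := by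
      rw [hset]
      ext a
      simp only [mem_sdiff, mem_insert, mem_singleton, not_or]
      constructor
      · rintro ⟨h1, h2, h3⟩
        tauto
      · rintro rfl
        exact ⟨Or.inr (Or.inl rfl), hyx, hzy.symm⟩
    have dy : S \ {y} = {x, z} := by
      rw [hset]
      ext a
      simp only [mem_sdiff, mem_insert, mem_singleton]
      constructor
      · rintro ⟨h1, h2⟩
        tauto
      · rintro (rfl | rfl)
        · exact ⟨Or.inl rfl, hyx.symm⟩
        · exact ⟨Or.inr (Or.inr rfl), hzy⟩
    have dz : S \ {z} = {x, y} := by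
      rw [hset]
      ext a
      simp only [mem_sdiff, mem_insert, mem_singleton]
      constructor
      · rintro ⟨h1, h2⟩
        tauto
      · rintro (rfl | rfl)
        · exact ⟨Or.inl rfl, hzx.symm⟩
        · exact ⟨Or.inr (Or.inl rfl), hzy.symm⟩
    have syz : ∑ a ∈ ({y, z} : Finset (Fin N)), n a = n y + n z := sum_pair hzy.symm
    have sxz : ∑ a ∈ ({x, z} : Finset (Fin N)), n a = n x + n z := sum_pair hzx.symm
    have oyz : ∑ a ∈ ({y, z} : Finset (Fin N)), n a % 2 = n y % 2 + n z % 2 := sum_pair hzy.symm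
    have oxz : ∑ a ∈ ({x, z} : Finset (Fin N)), n a % 2 = n x % 2 + n z % 2 := sum_pair hzx.symm
    have oxy : ∑ a ∈ ({x, y} : Finset (Fin N)), n a % 2 = n x % 2 + n y % 2 := sum_pair hyx.symm
    have cyz : ({y, z} : Finset (Fin N)).card = 2 := card_pair hzy.symm
    have cxz : ({x, z} : Finset (Fin N)).card = 2 := card_pair hzx.symm
    by_cases c1 : n x % 2 = 0 ∧ n y % 2 = 1 ∧ n z % 2 = 1
    · refine ⟨y, hyS, ?_, Or.inl ⟨{x, z}, by rw [ey], Or.inl (by rw [cxz]), ?_⟩⟩
      · rw [ey, sxz]
        omega
      · rw [dxz, oxz, sum_singleton]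
        omega
    · refine ⟨x, hx, ?_, ?_⟩
      · rw [ex, syz]
        omega
      · by_cases c2 : n y % 2 + n z % 2 ≤ n x % 2
        · refine Or.inl ⟨{y, z}, by rw [ex], Or.inl (by rw [cyz]), ?_⟩
          rw [dyz, oyz, sum_singleton]
          exact c2
        · refine Or.inr ⟨⟨{y, z}, by rw [ex], cyz, ?_⟩, ?_⟩
          · rw [dyz, oyz, sum_singleton]
            omega
          · by_cases c3 : n y % 2 = 0
            · refine ⟨{y}, by rw [ex]; simp, card_singleton _, ?_⟩
              rw [dy, oxz, sum_singleton]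
              omega
            · refine ⟨{z}, by rw [ex]; simp, card_singleton _, ?_⟩
              rw [dz, oxy, sum_singleton]
              omega

end Pool.SpC75
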